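import Mathlib

/-!
# Adelic points of the projective plane over a number field

The projective plane over a (topological) field, its adelic points over a number field, closed
subsets cut out by a form, orbits of linear automorphisms and adelic closures.
-/

open scoped LinearAlgebra.Projectivization
open NumberField IsDedekindDomain Filter Topology

namespace Pool.Agent.Helper46.AdelicPlane

noncomputable section

/-- The set `P²(F)` of `F`-points of the projective plane, with homogeneous coordinates
`(x₀ : x₁ : x₂)`. -/
abbrev P2 (F : Type*) [Field F] : Type _ := ℙ F (Fin 3 → F)

/-- The topology of `P²(F)` for a topological field `F`: the quotient topology of `F³ ∖ {0}`. -/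
instance topP2 (F : Type*) [Field F] [TopologicalSpace F] : TopologicalSpace (P2 F) :=
  TopologicalSpace.coinduced (Projectivization.mk' F) inferInstance

/-- The inclusion `P²(K) → P²(F)` for a field extension `F` of `K`. -/
def baseChange (K F : Type*) [Field K] [Field F] [Algebra K F] : P2 K → P2 F :=
  Projectivization.map (σ := algebraMap K F)
    { toFun := fun w i => algebraMap K F (w i)
      map_add' := fun a b => by ext i; simp
      map_smul' := fun c a => by ext i; simp }
    (fun a b h => by
      ext i
      exact (algebraMap K F).injective (congrFun h i))

/-- The set of adelic points of the projective plane over the number field `K`: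
the product of the sets `P²(K_v)` over all archimedean and all non-archimedean places `v`,
with the product topology. -/
abbrev AdelicP2 (K : Type*) [Field K] [NumberField K] : Type _ :=
  (∀ v : InfinitePlace K, P2 v.Completion) ×
    (∀ v : HeightOneSpectrum (𝓞 K), P2 (v.adicCompletion K))

/-- The diagonal embedding `P²(K) → P²(𝔸_K)`. -/
def diag (K : Type*) [Field K] [NumberField K] (x : P2 K) : AdelicP2 K :=
  (fun v => baseChange K v.Completion x, fun v => baseChange K (v.adicCompletion K) x)

/-- The `F`-points of the closed subset of the plane defined by the form `q` over `K`, for a
field extension `F` of `K`. -/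
def points {K : Type*} [Field K] (q : MvPolynomial (Fin 3) K) (F : Type*) [Field F] [Algebra K F] :
    Set (P2 F) :=
  {x | ∀ (w : Fin 3 → F) (hw : w ≠ 0), Projectivization.mk F w hw = x →
    MvPolynomial.aeval w q = 0}

/-- The adelic points of the closed subset of the plane defined by the form `q`. -/
def adelicPoints {K : Type*} [Field K] [NumberField K] (q : MvPolynomial (Fin 3) K) :
    Set (AdelicP2 K) :=
  {x | (∀ v, x.1 v ∈ points q v.Completion) ∧ (∀ v, x.2 v ∈ points q (v.adicCompletion K))}

/-- The `n`-th iterate (`n ∈ ℤ`) of the linear automorphism of the plane given by the matrix `g`. -/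
def iter {K : Type*} [Field K] (g : GL (Fin 3) K) (n : ℤ) (x : P2 K) : P2 K := (g ^ n) • x

/-- The forward orbit `{gⁿ(P) : n ≥ 0}` of the point `P` under the linear automorphism `g`. -/
def forwardOrbit {K : Type*} [Field K] (g : GL (Fin 3) K) (P : P2 K) : Set (P2 K) :=
  {x | ∃ n : ℕ, x = iter g n P}

/-- The adelic closure of a set of rational points of the plane: the closure of its diagonal image
in the space of adelic points. -/
def adelicClosure {K : Type*} [Field K] [NumberField K] (S : Set (P2 K)) : Set (AdelicP2 K) :=
  closure (diag K '' S)

end

end Pool.Agent.Helper46.AdelicPlane
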