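import Mathlib
import Pool.Agent.Helper46.AdelicPlaneDefs

/-!
# Adelic points of the projective plane over a number field

Lemmas on the topology of the plane and the convergence statements used to compute adelic closures
of orbits.
-/

open scoped LinearAlgebra.Projectivization
open NumberField IsDedekindDomain Filter Topology

namespace Pool.Agent.Helper46.AdelicPlane

noncomputable section

/-! ### Basic lemmas -/

lemma vec_ne_zero {F : Type*} [Field F] (a b : F) : (![a, b, 1] : Fin 3 → F) ≠ 0 := by
  intro h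
  have := congrFun h 2
  simp at this

lemma vec_ne_zero' {F : Type*} [Field F] (a b : F) : (![1, a, b] : Fin 3 → F) ≠ 0 := by
  intro h
  have := congrFun h 0
  simp at this

lemma vec_ne_zero'' {F : Type*} [Field F] (a b : F) : (![a, 1, b] : Fin 3 → F) ≠ 0 := by
  intro h
  have := congrFun h 1
  simp at this

lemma baseChange_mk (K F : Type*) [Field K] [Field F] [Algebra K F] (w : Fin 3 → K) (hw : w ≠ 0)
    (hw' : (fun i => algebraMap K F (w i)) ≠ 0) :
    baseChange K F (Projectivization.mk K w hw) =
      Projectivization.mk F (fun i => algebraMap K F (w i)) hw' := rfl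

lemma tendsto_mk {F : Type*} [Field F] [TopologicalSpace F] {u : ℕ → Fin 3 → F} {w : Fin 3 → F}
    (hu : ∀ k, u k ≠ 0) (hw : w ≠ 0) (h : Tendsto u atTop (𝓝 w)) :
    Tendsto (fun k => (Projectivization.mk F (u k) (hu k) : P2 F)) atTop
      (𝓝 (Projectivization.mk F w hw : P2 F)) := by
  have hc : Continuous (Projectivization.mk' F : {v : Fin 3 → F // v ≠ 0} → P2 F) :=
    continuous_coinduced_rng
  have h2 : Tendsto (fun k => (⟨u k, hu k⟩ : {v : Fin 3 → F // v ≠ 0})) atTop (𝓝 ⟨w, hw⟩) :=
    tendsto_subtype_rng.mpr h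
  exact (hc.tendsto ⟨w, hw⟩).comp h2

/-- Points of the plane over a Hausdorff topological field are closed. -/
instance t1P2 (F : Type*) [Field F] [TopologicalSpace F] [IsTopologicalRing F] [T2Space F] :
    T1Space (P2 F) := by
  refine ⟨fun x => ?_⟩
  induction x using Projectivization.ind with
  | h w hw =>
  rw [isClosed_coinduced]
  have e : (Projectivization.mk' F : {v : Fin 3 → F // v ≠ 0} → P2 F) ⁻¹'
      {Projectivization.mk F w hw} =
      {u : {v : Fin 3 → F // v ≠ 0} |
        ∀ i j, (u : Fin 3 → F) i * w j = (u : Fin 3 → F) j * w i} := by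
    ext u
    simp only [Set.mem_preimage, Set.mem_singleton_iff, Projectivization.mk'_eq_mk,
      Set.mem_ofPred_eq]
    rw [Projectivization.mk_eq_mk_iff']
    constructor
    · rintro ⟨a, ha⟩ i j
      rw [← ha]
      simp only [Pi.smul_apply, smul_eq_mul]
      ring
    · intro h
      obtain ⟨j, hj⟩ := Function.ne_iff.mp hw
      refine ⟨(u : Fin 3 → F) j / w j, ?_⟩
      ext i
      simp only [Pi.smul_apply, smul_eq_mul]
      rw [Pi.zero_apply] at hj
      field_simp
      rw [h j i]
      ring
  rw [e]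
  have : {u : {v : Fin 3 → F // v ≠ 0} | ∀ i j, (u : Fin 3 → F) i * w j = (u : Fin 3 → F) j * w i}
      = ⋂ i, ⋂ j, {u : {v : Fin 3 → F // v ≠ 0} |
        (u : Fin 3 → F) i * w j = (u : Fin 3 → F) j * w i} := by
    ext u
    simp
  rw [this]
  refine isClosed_iInter fun i => isClosed_iInter fun j => ?_
  refine isClosed_eq ?_ ?_
  · exact ((continuous_apply i).comp continuous_subtype_val).mul continuous_const
  · exact ((continuous_apply j).comp continuous_subtype_val).mul continuous_const

/-! ### Finite places -/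

lemma fin_tendsto_zero {K : Type*} [Field K] [NumberField K] (v : HeightOneSpectrum (𝓞 K)) (p : ℕ)
    (hp : (p : 𝓞 K) ∈ v.asIdeal) (a : ℕ → ℕ) (h : ∀ j, ∀ᶠ k in atTop, p ^ j ∣ a k) :
    Tendsto (fun k => ((a k : ℕ) : v.adicCompletion K)) atTop (𝓝 0) := by
  have hv : ∀ b : ℕ, Valued.v (b : v.adicCompletion K) = v.valuation K ((b : 𝓞 K) : K) := by
    intro b
    have h := HeightOneSpectrum.valuedAdicCompletion_eq_valuation (K := K) v (b : 𝓞 K)
    have e : algebraMap (𝓞 K) (v.adicCompletion K) (b : 𝓞 K) = (b : v.adicCompletion K) :=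
      map_natCast _ b
    exact (congrArg (fun x => Valued.v x) e.symm).trans h
  have h1 : ∀ b : ℕ, Valued.v (b : v.adicCompletion K) ≤ 1 := by
    intro b
    rw [hv]
    exact v.valuation_le_one _
  have h2 : Valued.v (p : v.adicCompletion K) < 1 := by
    rw [hv]
    exact (v.valuation_lt_one_iff_mem _).mpr hp
  intro s hs
  obtain ⟨γ, hγ⟩ := Valued.mem_nhds_zero.mp hs
  have hγ0 : MonoidWithZeroHom.ValueGroup₀.embedding (γ : MonoidWithZeroHom.ValueGroup₀
      (.ofClass (Valued.v : Valuation (v.adicCompletion K) _))) ≠ 0 := by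
    simp
  obtain ⟨j, hj⟩ := exists_pow_lt₀ h2 (Units.mk0 _ hγ0)
  refine Filter.mem_map.mpr ?_
  filter_upwards [h j] with k hk
  apply hγ
  obtain ⟨c, hc⟩ := hk
  change Valued.v.restrict ((a k : ℕ) : v.adicCompletion K) < γ.1
  rw [Valuation.restrict_lt_iff_lt_embedding, hc]
  push_cast
  rw [map_mul, map_pow]
  refine lt_of_le_of_lt ?_ hj
  exact mul_le_of_le_one_right' (h1 c)

lemma exists_nat_mem {K : Type*} [Field K] [NumberField K] (v : HeightOneSpectrum (𝓞 K)) :
    ∃ p : ℕ, p.Prime ∧ (p : 𝓞 K) ∈ v.asIdeal := by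
  have h0 : Ideal.absNorm v.asIdeal ≠ 0 := by
    rw [Ne, Ideal.absNorm_eq_zero_iff]
    exact v.ne_bot
  have hmem := Ideal.absNorm_mem v.asIdeal
  have key : ∀ n : ℕ, n ≠ 0 → (n : 𝓞 K) ∈ v.asIdeal →
      ∃ p : ℕ, p.Prime ∧ (p : 𝓞 K) ∈ v.asIdeal := by
    intro n
    induction n using Nat.recOnMul with
    | zero => intro h; exact absurd rfl h
    | one =>
      intro _ h
      exfalso
      apply v.isPrime.ne_top
      rw [Ideal.eq_top_iff_one]
      simpa using h
    | prime p hp => intro _ h; exact ⟨p, hp, h⟩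
    | mul a b iha ihb =>
      intro h hm
      push_cast at hm
      rcases v.isPrime.mem_or_mem hm with h' | h'
      · exact iha (fun e => h (by simp [e])) h'
      · exact ihb (fun e => h (by simp [e])) h'
  exact key _ h0 hmem

/-! ### Archimedean places -/

lemma norm_natCast_inf {K : Type*} [Field K] [NumberField K] (v : InfinitePlace K) (m : ℕ) :
    ‖(m : v.Completion)‖ = m := by
  have := NumberField.InfinitePlace.Completion.norm_coe v ((WithAbs.equiv v.1).symm (m : K))
  rw [(WithAbs.equiv v.1).apply_symm_apply, InfinitePlace.map_natCast v m] at this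
  rw [← this]
  congr 1
  have e : algebraMap K v.Completion (m : K) = (m : v.Completion) := map_natCast _ m
  exact e.symm

lemma tendsto_inv_natCast {K : Type*} [Field K] [NumberField K] (v : InfinitePlace K) (n : ℕ → ℕ)
    (h : Tendsto n atTop atTop) :
    Tendsto (fun k => ((n k : v.Completion))⁻¹) atTop (𝓝 0) := by
  apply tendsto_inv₀_cobounded.comp
  rw [← tendsto_norm_atTop_iff_cobounded]
  simp only [norm_natCast_inf]
  exact tendsto_natCast_atTop_atTop.comp h

end

end Pool.Agent.Helper46.AdelicPlane
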