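import Pool.Agent.Helper46.CongrClasses

open MeasureTheory Set Filter
open scoped ENNReal Topology Pointwise

namespace Pool.Agent.Helper46.Sail

variable {n : ℕ}

/-- `exists_config` with more information -/
lemma exists_config_data {F : Set (E n)} (hb : Bornology.IsBounded F) (hconv : Convex ℝ F)
    (hne : (CFof n F).Nonempty) :
    ∃ w : Fin (n+1) → Fin (n+1) → ℤ, (Matrix.of w).det ≠ 0 ∧ (∀ i, toReal (w i) ∈ F) ∧
      (∀ w' : Fin (n+1) → Fin (n+1) → ℤ, (∀ i, toReal (w' i) ∈ F) → |(Matrix.of w').det| ≤ |(Matrix.of w).det|) ∧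
      (∃ (l : E n →ₗ[ℝ] ℝ) (c : ℝ), 0 < c ∧ ∀ x ∈ F, l x = c) ∧
      ∃ V : Finset (Fin (n+1) → ℤ), (V : Set (Fin (n+1) → ℤ)) = pull w F ∧ IsUnimodularConfig V := by
  obtain ⟨κ, C, ⟨b, hbli, -, rfl⟩, hface⟩ := hne
  obtain ⟨l, c, hc, hl, hF, hF', w0, hw0, hdet0⟩ := face_data hb hface
  have hfin : {w : Fin (n+1) → Fin (n+1) → ℤ | ∀ i, w i ∈ {z : Fin (n+1) → ℤ | toReal z ∈ F}}.Finite :=
    Set.Finite.pi' fun _ => finite_int hb
  obtain ⟨w, hwF, hmax⟩ := Set.exists_max_image _ (fun w => |(Matrix.of w).det|) hfin ⟨w0, hw0⟩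
  have hdet : (Matrix.of w).det ≠ 0 := by
    have h1 := hmax w0 hw0
    have h2 := abs_pos.mpr hdet0
    intro h0
    simp only [h0, abs_zero] at h1
    omega
  have hli := linearIndependent_of_det hdet
  have hcoe : ((pull_finite hdet hb).toFinset : Set (Fin (n+1) → ℤ)) = pull w F := Set.Finite.coe_toFinset _
  refine ⟨w, hdet, hwF, hmax, ⟨l, c, hc, fun x hx => by rw [hF] at hx; exact hx.2⟩,
    (pull_finite hdet hb).toFinset, hcoe, ?_⟩
  refine ⟨fun i => ?_, fun v hv => ?_, fun w' hw' => ?_, fun z hz => ?_⟩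
  · rw [Set.Finite.mem_toFinset]
    show toReal (comb w _) ∈ F
    rw [comb_single]; exact hwF i
  · rw [Set.Finite.mem_toFinset] at hv
    have hv' : toReal (comb w v) ∈ F := hv
    have h1 : l (toReal (comb w v)) = c := by rw [hF] at hv'; exact hv'.2
    have h2 : ∀ i, l (toReal (w i)) = c := by
      intro i
      have : toReal (w i) ∈ F := hwF i
      rw [hF] at this; exact this.2
    rw [toReal_comb, map_sum] at h1
    simp only [map_smul, h2, smul_eq_mul, ← Finset.sum_mul] at h1
    have h3 : ∑ i, toReal v i = 1 := by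
      have : (∑ i, toReal v i - 1) * c = 0 := by linarith
      rcases mul_eq_zero.mp this with h | h
      · linarith
      · exact absurd h hc.ne'
    have h4 : ((∑ i, v i : ℤ) : ℝ) = 1 := by push_cast; exact h3
    exact_mod_cast h4
  · have h1 := hmax (fun i => comb w (w' i)) (fun i => by
      have := hw' i
      rw [Set.Finite.mem_toFinset] at this
      exact this)
    rw [det_comb, abs_mul] at h1
    have h2 := abs_pos.mpr hdet
    by_contra hcon
    push Not at hcon
    nlinarith
  · rw [Set.Finite.mem_toFinset]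
    show toReal (comb w z) ∈ F
    rw [← mapOf_symm_toReal w hli]
    have hsub : poly (pull_finite hdet hb).toFinset ⊆ (mapOf w hli).symm ⁻¹' F := by
      rw [poly, hcoe]
      apply convexHull_min
      · rintro _ ⟨v, hv, rfl⟩
        show (mapOf w hli).symm (toReal v) ∈ F
        rw [mapOf_symm_toReal]; exact hv
      · exact hconv.linear_preimage ((mapOf w hli).symm : E n →ₗ[ℝ] E n)
    exact hsub hz

theorem classify (hfin : mobius 2 (CFof 2 (poly (unitVerts 2))) ≠ ⊤) {s : Finset (Fin 3 → ℤ)}
    (heq : mobius 2 (CFof 2 (poly s)) = mobius 2 (CFof 2 (poly (unitVerts 2)))) :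
    SLCongruent (n := 2) (unitVerts 2) s ∨ SLCongruent (n := 2) (halfVerts 2 3) s := by
  classical
  have hne : (CFof 2 (poly s)).Nonempty := by
    rw [Set.nonempty_iff_ne_empty]
    intro h
    rw [h, measure_empty] at heq
    exact (mobius_unit_pos (n := 2)).ne heq
  have hb := poly_bounded s
  obtain ⟨w, hdet, hwF, hmax, ⟨l, c, hc, hlc⟩, V, hVw, hV⟩ := exists_config_data hb (convex_convexHull ℝ _) hne
  set A := mapOf w (linearIndependent_of_det hdet) with hA
  -- the configuration is the triangle
  have hVT : V = unitVerts 2 := by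
    rcases config_two hV with h | ⟨σ, h⟩
    · exact h
    · exfalso
      have h1 : mobius 2 (CFof 2 (poly s)) ≤ mobius 2 (CFof 2 (poly V)) := by
        apply mono_of_subset (n := 2) (mobius 2) (A := A)
        have h0 := smul_CFof_subset hdet hb hwF
        have h00 : poly V = convexHull ℝ (toReal '' pull w (poly s)) := by
          rw [← hVw]; rfl
        rw [h00]
        exact h0
      have h2 : mobius 2 (CFof 2 (poly V)) = mobius 2 (CFof 2 (poly sqVerts)) := by
        subst h
        rw [mobius_poly hV, mobius_poly isUnimodularConfig_sqVerts, int_pm]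
      rw [h2] at h1
      exact absurd (key_lt hfin) (not_lt.2 (heq ▸ h1))
  have hpull : pull w (poly s) = (unitVerts 2 : Set (Fin 3 → ℤ)) := by rw [← hVw, hVT]
  have hext : Ext (poly s) w A :=
    { symm_apply := fun x => mapOf_sum w _ x
      apply_w := fun i => mapOf_apply w _ i
      mem := hwF
      max := hmax
      det := hdet
      nv := fun x hx θ hθ hθ1 hy => nonviolation hb hdet hwF hpull hfin heq hx hθ hθ1 hy }
  -- the coordinates of the points of the polygon have sum one
  have hsum : ∀ x : E 2, x ∈ poly s → ∑ i, A x i = 1 := by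
    intro x hx
    have h1 := hlc x hx
    rw [hext.symm_apply x, map_sum] at h1
    simp only [map_smul, hlc _ (hwF _), smul_eq_mul, ← Finset.sum_mul] at h1
    have : (∑ i, A x i - 1) * c = 0 := by linarith
    rcases mul_eq_zero.mp this with h | h
    · linarith
    · exact absurd h hc.ne'
  -- integer vectors with integer coordinates
  have hcomb : ∀ x : Fin 3 → ℤ, (∀ k, Int.fract (A (toReal x) k) = 0) →
      x = comb (n := 2) w (fun k => ⌊A (toReal x) k⌋) := by
    intro x hx
    apply toReal_injective (n := 2)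
    apply A.injective
    rw [hext.apply_comb]
    funext k
    have := Int.floor_add_fract (A (toReal x) k)
    rw [hx k, add_zero] at this
    exact this.symm
  -- the points of `s`
  have hs1 : ∀ v ∈ s, ∃ i, v = w i := by
    intro v hv
    have hvF : toReal v ∈ poly s := poly_mem (n := 2) hv
    rcases hext.fract v with h | h
    · have h1 := hcomb v h
      have h2 : (fun k => ⌊A (toReal v) k⌋) ∈ pull w (poly s) := by
        show toReal (comb w _) ∈ poly s
        rw [← h1]; exact hvF
      rw [hpull] at h2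
      obtain ⟨i, hi⟩ := mem_unitVerts.mp (by simpa using h2)
      refine ⟨i, ?_⟩
      rw [h1, hi, comb_single]
    · exfalso
      have h1 := hsum _ hvF
      have h2 : ∑ i, A (toReal v) i = ((∑ i, ⌊A (toReal v) i⌋ : ℤ) : ℝ) + 3 / 2 := by
        push_cast
        have : ∀ i, A (toReal v) i = (⌊A (toReal v) i⌋ : ℝ) + 1 / 2 := fun i => by
          have := Int.floor_add_fract (A (toReal v) i)
          rw [h i] at this
          exact this.symm
        rw [Finset.sum_congr rfl fun i _ => this i, Finset.sum_add_distrib]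
        congr 1
        simp
        norm_num
      rw [h1] at h2
      have h3 : (2 : ℝ) * ((∑ i, ⌊A (toReal v) i⌋ : ℤ) : ℝ) = -1 := by linarith
      have h4 : 2 * (∑ i, ⌊A (toReal v) i⌋ : ℤ) = -1 := by exact_mod_cast h3
      omega
  have hs2 : ∀ i, w i ∈ s := by
    intro i
    by_contra hcon
    have h1 : poly s ⊆ {x | A x i = 0} := by
      apply convexHull_min
      · rintro _ ⟨v, hv, rfl⟩
        obtain ⟨j, rfl⟩ := hs1 v (by simpa using hv)
        show A (toReal (w j)) i = 0
        rw [hext.apply_w, Pi.single_apply, if_neg]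
        rintro rfl
        exact hcon (by simpa using hv)
      · rintro x hx y hy a b ha hb' hab
        have hx' : A x i = 0 := hx
        have hy' : A y i = 0 := hy
        show A (a • x + b • y) i = 0
        rw [map_add, map_smul, map_smul, Pi.add_apply, Pi.smul_apply, Pi.smul_apply, hx', hy']
        simp
    have h2 : A (toReal (w i)) i = 0 := h1 (hwF i)
    rw [hext.apply_w] at h2
    simp at h2
  have hsw : s = Finset.univ.image w := by
    ext v
    rw [Finset.mem_image]
    constructor
    · intro hv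
      obtain ⟨i, rfl⟩ := hs1 v hv
      exact ⟨i, Finset.mem_univ _, rfl⟩
    · rintro ⟨i, -, rfl⟩; exact hs2 i
  by_cases hall : ∀ x : Fin 3 → ℤ, ∀ k, Int.fract (A (toReal x) k) = 0
  · left
    rw [hsw]
    exact congr_unit (det_unit fun x => ⟨_, (hcomb x (hall x)).symm⟩)
  · right
    push Not at hall
    obtain ⟨x0, k0, hx0⟩ := hall
    have hx0' : ∀ k, Int.fract (A (toReal x0) k) = 1 / 2 := by
      rcases hext.fract x0 with h | h
      · exact absurd (h k0) hx0
      · exact h
    set u0 : Fin 3 → ℤ := x0 - comb (n := 2) w (fun k => ⌊A (toReal x0) k⌋) with hu0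
    have hu0A : ∀ k, A (toReal u0) k = 1 / 2 := by
      intro k
      rw [hu0, toReal_sub, map_sub, hext.apply_comb, ← hx0' k]
      rfl
    let u : Fin 3 → Fin 3 → ℤ := ![u0, w 1, w 2]
    have hw0 : w 0 = 2 • u 0 - u 1 - u 2 := by
      have h1 : (2 : ℤ) • u0 = w 0 + w 1 + w 2 := by
        apply toReal_injective (n := 2)
        apply A.injective
        funext k
        rw [toReal_smul, toReal_add, toReal_add, map_smul, map_add, map_add, hext.apply_w, hext.apply_w, hext.apply_w,
          Pi.smul_apply, hu0A]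
        fin_cases k <;> simp
      show w 0 = 2 • u0 - w 1 - w 2
      have h2 : (2 : ℕ) • u0 = (2 : ℤ) • u0 := by
        funext j; simp
      rw [h2, h1]
      abel
    have hsu : s = {2 • u 0 - u 1 - u 2, u 1, u 2} := by
      rw [← hw0, hsw]
      ext v
      simp only [Finset.mem_image, Finset.mem_univ, true_and, Finset.mem_insert, Finset.mem_singleton]
      constructor
      · rintro ⟨i, rfl⟩
        fin_cases i
        · left; rfl
        · right; left; rfl
        · right; right; rfl
      · rintro (h | h | h)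
        · exact ⟨0, h.symm⟩
        · exact ⟨1, h.symm⟩
        · exact ⟨2, h.symm⟩
    rw [hsu]
    apply congr_half
    apply det_unit
    intro x
    have hc3 : ∀ (v : Fin 3 → Fin 3 → ℤ) (m : Fin 3 → ℤ),
        comb (n := 2) v m = m 0 • v 0 + m 1 • v 1 + m 2 • v 2 := fun v m => Fin.sum_univ_three _
    -- combination with respect to `w`
    have hcw : ∀ m : Fin 3 → ℤ, comb (n := 2) w m = comb (n := 2) u ![2 * m 0, m 1 - m 0, m 2 - m 0] := by
      intro m
      rw [hc3, hc3, hw0]
      show m 0 • (2 • u 0 - u 1 - u 2) + m 1 • u 1 + m 2 • u 2 =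
        (2 * m 0) • u 0 + (m 1 - m 0) • u 1 + (m 2 - m 0) • u 2
      module
    rcases hext.fract x with h | h
    · exact ⟨_, by rw [← hcw]; exact (hcomb x h).symm⟩
    · refine ⟨![2 * ⌊A (toReal x) 0⌋ + 1, ⌊A (toReal x) 1⌋ - ⌊A (toReal x) 0⌋, ⌊A (toReal x) 2⌋ - ⌊A (toReal x) 0⌋], ?_⟩
      have h1 : comb (n := 2) u ![2 * ⌊A (toReal x) 0⌋ + 1, ⌊A (toReal x) 1⌋ - ⌊A (toReal x) 0⌋,
          ⌊A (toReal x) 2⌋ - ⌊A (toReal x) 0⌋] = comb (n := 2) w (fun k => ⌊A (toReal x) k⌋) + u0 := by
        rw [hcw, hc3, hc3]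
        show (2 * ⌊A (toReal x) 0⌋ + 1) • u0 + (⌊A (toReal x) 1⌋ - ⌊A (toReal x) 0⌋) • w 1 +
          (⌊A (toReal x) 2⌋ - ⌊A (toReal x) 0⌋) • w 2 =
          (2 * ⌊A (toReal x) 0⌋) • u0 + (⌊A (toReal x) 1⌋ - ⌊A (toReal x) 0⌋) • w 1 +
          (⌊A (toReal x) 2⌋ - ⌊A (toReal x) 0⌋) • w 2 + u0
        module
      rw [h1]
      apply toReal_injective (n := 2)
      apply A.injective
      rw [toReal_add, map_add, hext.apply_comb]
      funext k
      rw [Pi.add_apply, hu0A]
      have := Int.floor_add_fract (A (toReal x) k)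
      rw [h k] at this
      exact this

/-- the complete answer in the plane, given finiteness -/
theorem eq_iff (hfin : mobius 2 (CFof 2 (poly (unitVerts 2))) ≠ ⊤) (s : Finset (Fin 3 → ℤ)) :
    mobius 2 (CFof 2 (poly s)) = mobius 2 (CFof 2 (poly (unitVerts 2))) ↔
      (SLCongruent (n := 2) (unitVerts 2) s ∨ SLCongruent (n := 2) (halfVerts 2 3) s) := by
  constructor
  · exact classify hfin
  · rintro (h | h)
    · exact mobius_congr h
    · rw [mobius_congr h]
      exact half_eq (n := 2) (mobius 2) (by decide) (by norm_num) (by norm_num)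

end Pool.Agent.Helper46.Sail
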