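import Pool.Agent.Helper46.SailDefs

namespace Pool.Agent.Helper46.Sail

/-- Integer-linear congruence of two polytopes given by the sets of their vertices: some element of
`SL(n+1, ℤ)` maps one set onto the other. -/
def SLCongruent {n : ℕ} (s t : Finset (Fin (n + 1) → ℤ)) : Prop :=
  ∃ g : Matrix (Fin (n + 1)) (Fin (n + 1)) ℤ, g.det = 1 ∧ t = s.image g.mulVec

end Pool.Agent.Helper46.Sail
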