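import Pool.Agent.Helper46.Extremal
import Pool.Agent.Helper46.CongrDefs

open MeasureTheory Set Filter
open scoped ENNReal Topology Pointwise

namespace Pool.Agent.Helper46.Sail

variable {n : ℕ}

/-! ### Invariance under integer linear congruence -/

lemma hull_image {G : E n ≃ₗ[ℝ] E n} (h1 : ∀ z : Fin (n+1) → ℤ, ∃ z' : Fin (n+1) → ℤ, G (toReal z) = toReal z')
    (h2 : ∀ z : Fin (n+1) → ℤ, ∃ z' : Fin (n+1) → ℤ, G.symm (toReal z) = toReal z') (C : Set (E n)) :
    hull (G '' C) = G '' hull C := by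
  have : {x | x ∈ G '' C ∧ x ≠ 0 ∧ ∃ z : Fin (n + 1) → ℤ, x = toReal z} =
      (G : E n →ₗ[ℝ] E n) '' {x | x ∈ C ∧ x ≠ 0 ∧ ∃ z : Fin (n + 1) → ℤ, x = toReal z} := by
    ext x
    constructor
    · rintro ⟨⟨y, hy, rfl⟩, h0, z, hz⟩
      refine ⟨y, ⟨hy, ?_, ?_⟩, rfl⟩
      · rintro rfl; simp at h0
      · obtain ⟨z', hz'⟩ := h2 z
        exact ⟨z', by rw [← hz', ← hz, LinearEquiv.symm_apply_apply]⟩
    · rintro ⟨y, ⟨hy, h0, z, hz⟩, rfl⟩
      refine ⟨⟨y, hy, rfl⟩, ?_, ?_⟩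
      · intro h
        apply h0
        exact G.injective (by rw [map_zero]; exact h)
      · obtain ⟨z', hz'⟩ := h1 z
        exact ⟨z', by rw [hz]; exact hz'⟩
  rw [hull, this, ← LinearMap.image_convexHull]
  rfl

lemma smul_CFof_le {G : E n ≃ₗ[ℝ] E n} (h1 : ∀ z : Fin (n+1) → ℤ, ∃ z' : Fin (n+1) → ℤ, G (toReal z) = toReal z')
    (h2 : ∀ z : Fin (n+1) → ℤ, ∃ z' : Fin (n+1) → ℤ, G.symm (toReal z) = toReal z') (F : Set (E n)) :
    G • CFof n F ⊆ CFof n (G '' F) := by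
  rintro _ ⟨κ, ⟨C, hC, hne, hd, l, c, hl0, hl, hF⟩, rfl⟩
  refine ⟨G '' C, isConeOf_smul hC G, hne.image _, ?_, l ∘ₗ (G.symm : E n →ₗ[ℝ] E n), c, ?_, ?_, ?_⟩
  · have : vectorSpan ℝ (G '' F) = (vectorSpan ℝ F).map (G : E n →ₗ[ℝ] E n) := by
      rw [vectorSpan_def, vectorSpan_def, Submodule.map_span]
      congr 1
      ext x
      constructor
      · rintro ⟨_, ⟨a, ha, rfl⟩, _, ⟨b, hb, rfl⟩, rfl⟩
        exact ⟨a - b, ⟨a, ha, b, hb, rfl⟩, by simp⟩
      · rintro ⟨_, ⟨a, ha, b, hb, rfl⟩, rfl⟩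
        exact ⟨G a, ⟨a, ha, rfl⟩, G b, ⟨b, hb, rfl⟩, by simp⟩
    rw [this, LinearEquiv.finrank_map_eq, hd]
  · intro h0
    apply hl0
    apply LinearMap.ext
    intro x
    have := LinearMap.congr_fun h0 (G x)
    simpa using this
  · rw [hull_image h1 h2]
    rintro _ ⟨x, hx, rfl⟩
    simpa using hl x hx
  · rw [hull_image h1 h2, hF]
    ext x
    constructor
    · rintro ⟨y, ⟨hy, hyc⟩, rfl⟩
      exact ⟨⟨y, hy, rfl⟩, by simpa using hyc⟩
    · rintro ⟨⟨y, hy, rfl⟩, hyc⟩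
      exact ⟨y, ⟨hy, by simpa using hyc⟩, rfl⟩

lemma mobius_image {G : E n ≃ₗ[ℝ] E n} (h1 : ∀ z : Fin (n+1) → ℤ, ∃ z' : Fin (n+1) → ℤ, G (toReal z) = toReal z')
    (h2 : ∀ z : Fin (n+1) → ℤ, ∃ z' : Fin (n+1) → ℤ, G.symm (toReal z) = toReal z') (F : Set (E n)) :
    mobius n (CFof n (G '' F)) = mobius n (CFof n F) := by
  apply le_antisymm
  · have h := smul_CFof_le (G := G.symm) h2 h1 (G '' F)
    have e : G.symm '' (G '' F) = F := by
      rw [← Set.image_comp]
      have : (G.symm : E n → E n) ∘ (G : E n → E n) = id := by funext x; simp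
      rw [this, Set.image_id]
    rw [e] at h
    exact mono_of_subset (mobius n) h
  · exact mono_of_subset (mobius n) (smul_CFof_le h1 h2 F)

/-- the real linear map of an integer matrix of determinant one -/
noncomputable def realMap (g : Matrix (Fin (n+1)) (Fin (n+1)) ℤ) (hg : g.det = 1) : E n ≃ₗ[ℝ] E n :=
  Matrix.toLinearEquiv' (g.map (Int.cast : ℤ → ℝ)) ((g.map (Int.cast : ℤ → ℝ)).invertibleOfIsUnitDet (by
    rw [← Int.cast_det, hg]; simp))

lemma realMap_toReal (g : Matrix (Fin (n+1)) (Fin (n+1)) ℤ) (hg : g.det = 1) (z : Fin (n+1) → ℤ) :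
    realMap g hg (toReal z) = toReal (g.mulVec z) := by
  show (g.map (Int.cast : ℤ → ℝ)).mulVec (toReal z) = _
  funext i
  simp [Matrix.mulVec, dotProduct, toReal]

lemma realMap_symm_toReal (g : Matrix (Fin (n+1)) (Fin (n+1)) ℤ) (hg : g.det = 1) (z : Fin (n+1) → ℤ) :
    ∃ z' : Fin (n+1) → ℤ, (realMap g hg).symm (toReal z) = toReal z' := by
  refine ⟨g.adjugate.mulVec z, ?_⟩
  rw [LinearEquiv.symm_apply_eq, realMap_toReal, Matrix.mulVec_mulVec, Matrix.mul_adjugate, hg, one_smul,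
    Matrix.one_mulVec]

lemma poly_image (g : Matrix (Fin (n+1)) (Fin (n+1)) ℤ) (hg : g.det = 1) (s : Finset (Fin (n+1) → ℤ)) :
    poly (s.image g.mulVec) = realMap g hg '' poly s := by
  rw [poly, poly]
  rw [show (realMap g hg) '' convexHull ℝ (toReal '' (s : Set (Fin (n+1) → ℤ))) =
    ((realMap g hg : E n →ₗ[ℝ] E n)) '' convexHull ℝ (toReal '' (s : Set (Fin (n+1) → ℤ))) from rfl,
    LinearMap.image_convexHull]
  congr 1
  ext x
  simp only [Finset.coe_image, Set.mem_image]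
  constructor
  · rintro ⟨_, ⟨v, hv, rfl⟩, rfl⟩
    exact ⟨_, ⟨v, hv, rfl⟩, realMap_toReal g hg v⟩
  · rintro ⟨_, ⟨v, hv, rfl⟩, rfl⟩
    exact ⟨_, ⟨v, hv, rfl⟩, (realMap_toReal g hg v).symm⟩

theorem mobius_congr {s t : Finset (Fin (n+1) → ℤ)} (h : SLCongruent s t) :
    mobius n (CFof n (poly t)) = mobius n (CFof n (poly s)) := by
  obtain ⟨g, hg, rfl⟩ := h
  rw [poly_image g hg]
  exact mobius_image (fun z => ⟨_, realMap_toReal g hg z⟩) (realMap_symm_toReal g hg) _

/-! ### The two congruence classes -/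

/-- if all integer vectors are integer combinations of the rows then the matrix is unimodular -/
lemma det_unit {u : Fin 3 → Fin 3 → ℤ} (h : ∀ x : Fin 3 → ℤ, ∃ m, comb (n := 2) u m = x) :
    (Matrix.of u).det = 1 ∨ (Matrix.of u).det = -1 := by
  choose m hm using fun i : Fin 3 => h (Pi.single i 1)
  have h1 := det_comb (n := 2) u m
  have h2 : (Matrix.of fun i => comb (n := 2) u (m i)) = (1 : Matrix (Fin 3) (Fin 3) ℤ) := by
    ext i j
    rw [Matrix.of_apply, hm]
    simp [Matrix.one_apply, Pi.single_apply, eq_comm]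
  rw [h2, Matrix.det_one] at h1
  exact Int.isUnit_iff.1 (IsUnit.of_mul_eq_one _ (by rw [mul_comm]; exact h1.symm))

lemma mulVec_single' (u : Fin 3 → Fin 3 → ℤ) (i : Fin 3) : (Matrix.of u).transpose.mulVec (Pi.single i 1) = u i := by
  funext j
  simp

/-- the triangle with vertices `u 0, u 1, u 2`, for a unimodular matrix -/
lemma congr_unit {u : Fin 3 → Fin 3 → ℤ} (hu : (Matrix.of u).det = 1 ∨ (Matrix.of u).det = -1) :
    SLCongruent (n := 2) (unitVerts 2) (Finset.univ.image u) := by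
  have key : ∀ u : Fin 3 → Fin 3 → ℤ, (Matrix.of u).det = 1 →
      SLCongruent (n := 2) (unitVerts 2) (Finset.univ.image u) := by
    intro u hu
    refine ⟨(Matrix.of u).transpose, by rw [Matrix.det_transpose, hu], ?_⟩
    rw [unitVerts, Finset.image_image]
    congr 1
    funext i
    exact (mulVec_single' u i).symm
  rcases hu with h | h
  · exact key u h
  · have h1 : Finset.univ.image u = Finset.univ.image (fun i => u (Equiv.swap 0 1 i)) := by
      ext x
      simp only [Finset.mem_image, Finset.mem_univ, true_and]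
      constructor
      · rintro ⟨i, rfl⟩; exact ⟨Equiv.swap 0 1 i, by simp⟩
      · rintro ⟨i, rfl⟩; exact ⟨_, rfl⟩
    rw [h1]
    apply key
    have : Matrix.of (fun i => u (Equiv.swap 0 1 i)) = (Matrix.of u).submatrix (Equiv.swap 0 1) id := rfl
    rw [this, Matrix.det_permute, h, Equiv.Perm.sign_swap (by decide)]
    simp

lemma half_image (u : Fin 3 → Fin 3 → ℤ) : (halfVerts 2 3).image (Matrix.of u).transpose.mulVec =
    {2 • u 0 - u 1 - u 2, u 1, u 2} := by
  have h : halfVerts 2 3 = {(![2, -1, -1] : Fin 3 → ℤ), Pi.single 1 1, Pi.single 2 1} := by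
    decide
  rw [h, Finset.image_insert, Finset.image_insert, Finset.image_singleton]
  have e0 : (Matrix.of u).transpose.mulVec ![2, -1, -1] = 2 • u 0 - u 1 - u 2 := by
    funext j
    simp [Matrix.mulVec, dotProduct, Fin.sum_univ_three]
    ring
  have e1 : (Matrix.of u).transpose.mulVec (Pi.single (1 : Fin (2 + 1)) 1) = u 1 := mulVec_single' u 1
  have e2 : (Matrix.of u).transpose.mulVec (Pi.single (2 : Fin (2 + 1)) 1) = u 2 := mulVec_single' u 2
  rw [e0, e1, e2]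

lemma congr_half {u : Fin 3 → Fin 3 → ℤ} (hu : (Matrix.of u).det = 1 ∨ (Matrix.of u).det = -1) :
    SLCongruent (n := 2) (halfVerts 2 3) {2 • u 0 - u 1 - u 2, u 1, u 2} := by
  rcases hu with h | h
  · exact ⟨(Matrix.of u).transpose, by rw [Matrix.det_transpose, h], (half_image u).symm⟩
  · have h1 : ({2 • u 0 - u 1 - u 2, u 1, u 2} : Finset (Fin 3 → ℤ)) =
        {2 • (fun i => u (Equiv.swap 1 2 i)) 0 - (fun i => u (Equiv.swap 1 2 i)) 1 - (fun i => u (Equiv.swap 1 2 i)) 2,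
          (fun i => u (Equiv.swap 1 2 i)) 1, (fun i => u (Equiv.swap 1 2 i)) 2} := by
      have e0 : (Equiv.swap 1 2 : Equiv.Perm (Fin 3)) 0 = 0 := by decide
      have e1 : (Equiv.swap 1 2 : Equiv.Perm (Fin 3)) 1 = 2 := by decide
      have e2 : (Equiv.swap 1 2 : Equiv.Perm (Fin 3)) 2 = 1 := by decide
      simp only [e0, e1, e2]
      rw [Finset.pair_comm (u 1) (u 2)]
      congr 1
      abel
    rw [h1, ← half_image (fun i => u (Equiv.swap 1 2 i))]
    refine ⟨(Matrix.of (fun i => u (Equiv.swap 1 2 i))).transpose, ?_, rfl⟩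
    rw [Matrix.det_transpose]
    have : Matrix.of (fun i => u (Equiv.swap 1 2 i)) = (Matrix.of u).submatrix (Equiv.swap 1 2) id := rfl
    rw [this, Matrix.det_permute, h, Equiv.Perm.sign_swap (by decide)]
    simp

end Pool.Agent.Helper46.Sail
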