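import Mathlib
import Pool.Agent.Helper46.AdelicPlane

/-!
# The dynamical Brauer-Manin equality fails on the projective plane over every number field

For a number field `K` we consider the linear automorphism
`f (x₀ : x₁ : x₂) = (x₀ + 2x₁ + x₂ : x₁ + x₂ : x₂)` of `X = P²`, the point `P = (0 : 0 : 1)`, whose
full orbit is `fⁿ(P) = (n² : n : 1)`, `n ∈ ℤ`, and the smooth conic
`Y : 7x₁² + 5x₁x₂ + x₂² = x₀x₂`.  At `(n² : n : 1)` the equation of `Y` takes the value
`(2n + 1)(3n + 1)`, so no point of the (even two-sided) orbit lies on `Y`.  On the other hand there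
are natural numbers `n_k` with `(2n_k + 1) → 0` in `K_v` for all finite `v` not above `2`, with
`3n_k + 1 → 0` in `K_v` for all `v` above `2`, and with `n_k → ∞`; the points `f^{n_k}(P)` converge
adelically to the point with components `(1 : 0 : 0)` (archimedean places), `(1/4 : -1/2 : 1)`
(finite places not above `2`) and `(1/9 : -1/3 : 1)` (places above `2`), an adelic point of `Y`.
-/

open scoped LinearAlgebra.Projectivization
open NumberField IsDedekindDomain Filter Topology
open Pool.Agent.Helper46.AdelicPlane

namespace Pool.Agent.Helper46.ConicPlaneProof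

noncomputable section

/-! ### The example -/

/-- The automorphism `(x₀ : x₁ : x₂) ↦ (x₀ + 2x₁ + x₂ : x₁ + x₂ : x₂)`. -/
def auto (K : Type*) [Field K] : GL (Fin 3) K where
  val := !![1, 2, 1; 0, 1, 1; 0, 0, 1]
  inv := !![1, -2, 1; 0, 1, -1; 0, 0, 1]
  val_inv := by
    ext i j
    fin_cases i <;> fin_cases j <;> (simp [Matrix.mul_apply, Fin.sum_univ_three]; try ring)
  inv_val := by
    ext i j
    fin_cases i <;> fin_cases j <;> (simp [Matrix.mul_apply, Fin.sum_univ_three]; try ring)

/-- The quadratic form `7x₁² + 5x₁x₂ + x₂² - x₀x₂`. -/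
def conic (K : Type*) [Field K] : MvPolynomial (Fin 3) K :=
  7 * MvPolynomial.X 1 ^ 2 + 5 * MvPolynomial.X 1 * MvPolynomial.X 2 + MvPolynomial.X 2 ^ 2
    - MvPolynomial.X 0 * MvPolynomial.X 2

lemma auto_smul {K : Type*} [Field K] (m : K) :
    auto K • (Projectivization.mk K ![m ^ 2, m, 1] (vec_ne_zero _ _) : P2 K) =
      Projectivization.mk K ![(m + 1) ^ 2, m + 1, 1] (vec_ne_zero _ _) := by
  rw [Projectivization.smul_mk, Projectivization.mk_eq_mk_iff']
  refine ⟨1, ?_⟩
  change (1 : K) • ![(m + 1) ^ 2, m + 1, 1] =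
    Matrix.mulVec (!![1, 2, 1; 0, 1, 1; 0, 0, 1] : Matrix (Fin 3) (Fin 3) K) ![m ^ 2, m, 1]
  ext i
  fin_cases i <;> simp [Matrix.mulVec, dotProduct, Fin.sum_univ_three]
  ring

/-- The action of the automorphism on affine points. -/
lemma auto_smul' {K : Type*} [Field K] (y x : K) :
    auto K • (Projectivization.mk K ![y, x, 1] (vec_ne_zero _ _) : P2 K) =
      Projectivization.mk K ![y + 2 * x + 1, x + 1, 1] (vec_ne_zero _ _) := by
  rw [Projectivization.smul_mk, Projectivization.mk_eq_mk_iff']
  refine ⟨1, ?_⟩
  change (1 : K) • ![y + 2 * x + 1, x + 1, 1] =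
    Matrix.mulVec (!![1, 2, 1; 0, 1, 1; 0, 0, 1] : Matrix (Fin 3) (Fin 3) K) ![y, x, 1]
  ext i
  fin_cases i <;> simp [Matrix.mulVec, dotProduct, Fin.sum_univ_three]

lemma auto_zpow_smul {K : Type*} [Field K] (n : ℤ) (y x : K) :
    (auto K) ^ n • (Projectivization.mk K ![y, x, 1] (vec_ne_zero _ _) : P2 K) =
      Projectivization.mk K ![y + 2 * n * x + n ^ 2, x + n, 1] (vec_ne_zero _ _) := by
  induction n using Int.induction_on with
  | zero => simp
  | succ i ih =>
    rw [add_comm, zpow_add, mul_smul, ih, zpow_one, auto_smul']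
    congr 1
    push_cast
    congr 1
    · ring
    · congr 1
      ring
  | pred i ih =>
    rw [sub_eq_add_neg, add_comm, zpow_add, mul_smul, ih, zpow_neg, zpow_one, inv_smul_eq_iff,
      auto_smul']
    congr 1
    push_cast
    congr 1
    · ring
    · congr 1
      ring

/-- The starting point `P = (0 : 0 : 1)`. -/
def start (K : Type*) [Field K] : P2 K := Projectivization.mk K ![0, 0, 1] (vec_ne_zero _ _)

lemma orbit_eq {K : Type*} [Field K] (n : ℤ) :
    (auto K) ^ n • start K =
      (Projectivization.mk K ![(n : K) ^ 2, n, 1] (vec_ne_zero _ _) : P2 K) := by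
  rw [start, auto_zpow_smul]
  simp

lemma mem_points {K : Type*} [Field K] (F : Type*) [Field F] [Algebra K F] (w : Fin 3 → F)
    (hw : w ≠ 0) :
    Projectivization.mk F w hw ∈ points (conic K) F ↔
      7 * w 1 ^ 2 + 5 * w 1 * w 2 + w 2 ^ 2 - w 0 * w 2 = 0 := by
  constructor
  · intro h
    have := h w hw rfl
    simpa [conic] using this
  · intro h w' hw' e
    rw [Projectivization.mk_eq_mk_iff'] at e
    obtain ⟨a, rfl⟩ := e
    have : a ^ 2 * (7 * w 1 ^ 2 + 5 * w 1 * w 2 + w 2 ^ 2 - w 0 * w 2) = 0 := by rw [h, mul_zero]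
    simp only [conic, map_sub, map_add, map_mul, map_pow, MvPolynomial.aeval_X, Pi.smul_apply,
      smul_eq_mul, map_ofNat]
    linear_combination this

lemma conic_homogeneous (K : Type*) [Field K] : (conic K).IsHomogeneous 2 := by
  unfold conic
  have h7 : (7 : MvPolynomial (Fin 3) K) = MvPolynomial.C 7 := (map_ofNat _ 7).symm
  have h5 : (5 : MvPolynomial (Fin 3) K) = MvPolynomial.C 5 := (map_ofNat _ 5).symm
  rw [h7, h5]
  refine ((MvPolynomial.IsHomogeneous.add ?_ ?_).add ?_).sub ?_
  · exact (MvPolynomial.IsHomogeneous.C_mul ((MvPolynomial.isHomogeneous_X _ _).pow 2) _)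
  · rw [mul_assoc]
    exact MvPolynomial.IsHomogeneous.C_mul
      ((MvPolynomial.isHomogeneous_X K (1 : Fin 3)).mul (MvPolynomial.isHomogeneous_X _ _)) _
  · exact (MvPolynomial.isHomogeneous_X _ _).pow 2
  · exact (MvPolynomial.isHomogeneous_X K (0 : Fin 3)).mul (MvPolynomial.isHomogeneous_X _ _)

lemma conic_irreducible (F : Type*) [Field F] (h7 : (7 : F) ≠ 0) : Irreducible (conic F) := by
  classical
  have e : conic F =
      (-MvPolynomial.X 2) * MvPolynomial.X 0 + (MvPolynomial.C 7 * MvPolynomial.X 1 ^ 2
        + MvPolynomial.C 5 * MvPolynomial.X 1 * MvPolynomial.X 2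
        + MvPolynomial.X 2 ^ 2) := by
    have h7 : (MvPolynomial.C 7 : MvPolynomial (Fin 3) F) = 7 := map_ofNat _ 7
    have h5 : (MvPolynomial.C 5 : MvPolynomial (Fin 3) F) = 5 := map_ofNat _ 5
    rw [h7, h5, conic]
    ring
  rw [e]
  apply MvPolynomial.irreducible_mul_X_add
  · simp
  · simp [MvPolynomial.vars_neg, MvPolynomial.vars_X]
  · intro h
    have h1 := MvPolynomial.vars_add_subset _ _ h
    rw [Finset.mem_union] at h1
    rcases h1 with h1 | h1
    · have h2 := MvPolynomial.vars_add_subset _ _ h1
      rw [Finset.mem_union] at h2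
      rcases h2 with h2 | h2
      · have h3 := MvPolynomial.vars_mul _ _ h2
        rw [Finset.mem_union, MvPolynomial.vars_C] at h3
        rcases h3 with h3 | h3
        · simp at h3
        · have := MvPolynomial.vars_pow _ _ h3
          simp [MvPolynomial.vars_X] at this
      · have h3 := MvPolynomial.vars_mul _ _ h2
        rw [Finset.mem_union] at h3
        rcases h3 with h3 | h3
        · have h4 := MvPolynomial.vars_mul _ _ h3
          simp [MvPolynomial.vars_X] at h4
        · simp [MvPolynomial.vars_X] at h3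
    · have := MvPolynomial.vars_pow _ _ h1
      simp [MvPolynomial.vars_X] at this
  · have hirr : Irreducible (-MvPolynomial.X 2 : MvPolynomial (Fin 3) F) :=
      (MvPolynomial.X_prime (R := F) (i := (2 : Fin 3))).neg.irreducible
    rw [hirr.isRelPrime_iff_not_dvd]
    rintro ⟨c, hc⟩
    have := congrArg (MvPolynomial.eval ![(0 : F), 1, 0]) hc
    simp at this
    exact h7 this

lemma conic_map (K F : Type*) [Field K] [Field F] [Algebra K F] :
    MvPolynomial.map (algebraMap K F) (conic K) = conic F := by
  simp [conic]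

lemma conic_smooth (K F : Type*) [Field K] [Field F] [Algebra K F] [CharZero F] (w : Fin 3 → F)
    (h : ∀ i, MvPolynomial.aeval w (MvPolynomial.pderiv i (conic K)) = 0) : w = 0 := by
  have h7 : ∀ i, MvPolynomial.pderiv i (7 : MvPolynomial (Fin 3) K) = 0 := fun i => by
    rw [show (7 : MvPolynomial (Fin 3) K) = MvPolynomial.C 7 from (map_ofNat _ 7).symm,
      MvPolynomial.pderiv_C]
  have h5 : ∀ i, MvPolynomial.pderiv i (5 : MvPolynomial (Fin 3) K) = 0 := fun i => by
    rw [show (5 : MvPolynomial (Fin 3) K) = MvPolynomial.C 5 from (map_ofNat _ 5).symm,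
      MvPolynomial.pderiv_C]
  have e : ∀ i : Fin 3, MvPolynomial.aeval w (MvPolynomial.pderiv i (conic K)) =
      14 * w 1 * (Pi.single i (1 : F) : Fin 3 → F) 1
        + 5 * ((Pi.single i (1 : F) : Fin 3 → F) 1 * w 2 + w 1 * (Pi.single i (1 : F) : Fin 3 → F) 2)
        + 2 * w 2 * (Pi.single i (1 : F) : Fin 3 → F) 2
        - ((Pi.single i (1 : F) : Fin 3 → F) 0 * w 2
          + w 0 * (Pi.single i (1 : F) : Fin 3 → F) 2) := by
    intro i
    unfold conic
    rw [map_sub, map_add, map_add, Derivation.leibniz, Derivation.leibniz, Derivation.leibniz,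
      Derivation.leibniz, pow_two, pow_two, Derivation.leibniz, Derivation.leibniz, h7, h5]
    fin_cases i <;> simp [MvPolynomial.pderiv_X] <;> ring
  have h0 := h 0
  have h1 := h 1
  have h2 := h 2
  rw [e] at h0 h1 h2
  simp at h0 h1 h2
  have w2 : w 2 = 0 := h0
  rw [w2] at h1 h2
  have w1 : w 1 = 0 := by
    have : (14 : F) * w 1 = 0 := by linear_combination h1
    have h14 : (14 : F) ≠ 0 := by norm_num
    exact (mul_eq_zero.mp this).resolve_left h14
  rw [w1] at h2
  have w0 : w 0 = 0 := by linear_combination -h2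
  ext i
  fin_cases i
  · exact w0
  · exact w1
  · exact w2

/-! ### Convergence -/

lemma exists_seq : ∃ n : ℕ → ℕ, (∀ k, 2 ^ k ∣ 3 * n k + 1) ∧
    (∀ k, (∏ i ∈ Finset.range k, (2 * i + 1)) ∣ 2 * n k + 1) := by
  have key : ∀ k : ℕ, ∃ n : ℕ, 2 ^ k ∣ 3 * n + 1 ∧
      (∏ i ∈ Finset.range k, (2 * i + 1)) ∣ 2 * n + 1 := by
    intro k
    set M := ∏ i ∈ Finset.range k, (2 * i + 1) with hM
    have hodd : Odd M := by
      rw [hM]
      exact Finset.prod_induction _ Odd (fun a b => Odd.mul) odd_one (fun i _ => ⟨i, rfl⟩)
    have hco : Nat.Coprime (2 ^ k) M := by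
      apply Nat.Coprime.pow_left
      exact (Nat.coprime_two_left).mpr hodd
    obtain ⟨r, hr⟩ := hodd
    have h4 : 3 ∣ 4 ^ k - 1 := by
      have := Nat.sub_dvd_pow_sub_pow 4 1 k
      simpa using this
    obtain ⟨s, hs⟩ := h4
    have h4' : 4 ^ k = 3 * s + 1 := by
      have : 1 ≤ 4 ^ k := Nat.one_le_pow _ _ (by norm_num)
      omega
    obtain ⟨n, hn1, hn2⟩ := Nat.chineseRemainder hco s r
    refine ⟨n, ?_, ?_⟩
    · have h : 3 * n + 1 ≡ 3 * s + 1 [MOD 2 ^ k] := (hn1.mul_left 3).add_right 1
      rw [← h4'] at h
      have h0 : 4 ^ k ≡ 0 [MOD 2 ^ k] := by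
        rw [Nat.modEq_zero_iff_dvd]
        exact pow_dvd_pow_of_dvd (by norm_num) k
      exact (Nat.modEq_zero_iff_dvd).mp (h.trans h0)
    · have h : 2 * n + 1 ≡ 2 * r + 1 [MOD M] := (hn2.mul_left 2).add_right 1
      rw [← hr] at h
      have h0 : M ≡ 0 [MOD M] := by
        rw [Nat.modEq_zero_iff_dvd]
      exact (Nat.modEq_zero_iff_dvd).mp (h.trans h0)
  choose n hn1 hn2 using key
  exact ⟨n, hn1, hn2⟩

lemma two_notMem {K : Type*} [Field K] [NumberField K] (v : HeightOneSpectrum (𝓞 K)) {p : ℕ}
    (hp : p.Prime) (hpv : (p : 𝓞 K) ∈ v.asIdeal) (h2 : (2 : 𝓞 K) ∉ v.asIdeal) : Odd p := by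
  rcases hp.eq_two_or_odd' with h | h
  · subst h
    exact absurd (by simpa using hpv) h2
  · exact h

/-- `(n² : n : 1) → (c² : c : 1)` in `P²(F)` when `n → c`. -/
lemma tendsto_pt {F : Type*} [Field F] [TopologicalSpace F] [IsTopologicalRing F] (n : ℕ → ℕ)
    (c : F) (h : Tendsto (fun k => (n k : F)) atTop (𝓝 c)) :
    Tendsto (fun k => (Projectivization.mk F ![(n k : F) ^ 2, n k, 1] (vec_ne_zero _ _) : P2 F))
      atTop (𝓝 (Projectivization.mk F ![c ^ 2, c, 1] (vec_ne_zero _ _))) := by
  apply tendsto_mk
  rw [tendsto_pi_nhds]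
  intro i
  fin_cases i
  · exact h.pow 2
  · exact h
  · exact tendsto_const_nhds

/-- `(n² : n : 1) → (1 : 0 : 0)` in `P²(K_v)` for an archimedean place `v` when `n → ∞`. -/
lemma tendsto_pt_inf {K : Type*} [Field K] [NumberField K] (v : InfinitePlace K) (n : ℕ → ℕ)
    (h : Tendsto n atTop atTop) :
    Tendsto (fun k => (Projectivization.mk v.Completion
      ![(n k : v.Completion) ^ 2, n k, 1] (vec_ne_zero _ _) : P2 v.Completion))
      atTop (𝓝 (Projectivization.mk v.Completion ![1, 0, 0] (vec_ne_zero' _ _))) := by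
  have hne : ∀ᶠ k in atTop, (n k : v.Completion) ≠ 0 := by
    filter_upwards [h.eventually_ge_atTop 1] with k hk
    have : (0 : ℝ) < ‖(n k : v.Completion)‖ := by
      rw [norm_natCast_inf]; exact_mod_cast hk
    exact norm_pos_iff.mp this
  have hinv := tendsto_inv_natCast v n h
  have hmain : Tendsto (fun k => (Projectivization.mk v.Completion
      ![1, ((n k : v.Completion))⁻¹, ((n k : v.Completion))⁻¹ ^ 2] (vec_ne_zero' _ _) :
        P2 v.Completion))
      atTop (𝓝 (Projectivization.mk v.Completion ![1, 0, 0] (vec_ne_zero' _ _))) := by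
    apply tendsto_mk
    rw [tendsto_pi_nhds]
    intro i
    fin_cases i
    · exact tendsto_const_nhds
    · exact hinv
    · have := hinv.pow 2
      simpa using this
  refine hmain.congr' ?_
  filter_upwards [hne] with k hk
  rw [Projectivization.mk_eq_mk_iff']
  refine ⟨((n k : v.Completion))⁻¹ ^ 2, ?_⟩
  ext i
  fin_cases i
  · simp [hk]
  · simp [pow_two, hk]
  · simp

/-- The diagonal image of `(n² : n : 1)`. -/
lemma diag_pt {K : Type*} [Field K] [NumberField K] (n : ℕ) :
    diag K (Projectivization.mk K ![(n : K) ^ 2, n, 1] (vec_ne_zero _ _)) =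
      ((fun v => Projectivization.mk v.Completion
        ![(n : v.Completion) ^ 2, (n : v.Completion), 1] (vec_ne_zero _ _),
       fun v => Projectivization.mk (v.adicCompletion K)
        ![(n : v.adicCompletion K) ^ 2, (n : v.adicCompletion K), 1]
          (vec_ne_zero _ _)) : AdelicP2 K) := by
  have key : ∀ (F : Type _) [Field F] [Algebra K F],
      baseChange K F (Projectivization.mk K ![(n : K) ^ 2, (n : K), 1] (vec_ne_zero _ _)) =
        Projectivization.mk F ![(n : F) ^ 2, (n : F), 1] (vec_ne_zero _ _) := by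
    intro F _ _
    have hw : (fun i => algebraMap K F ((![(n : K) ^ 2, (n : K), 1] : Fin 3 → K) i)) =
        ![(n : F) ^ 2, (n : F), 1] := by
      ext i
      fin_cases i <;> simp
    have hne : (fun i => algebraMap K F ((![(n : K) ^ 2, (n : K), 1] : Fin 3 → K) i)) ≠ 0 := by
      rw [hw]
      exact vec_ne_zero _ _
    have h1 : baseChange K F (Projectivization.mk K ![(n : K) ^ 2, (n : K), 1] (vec_ne_zero _ _)) =
        Projectivization.mk F
          (fun i => algebraMap K F ((![(n : K) ^ 2, (n : K), 1] : Fin 3 → K) i)) hne := rfl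
    rw [h1]
    congr 1
  unfold diag
  congr 1
  · funext v
    exact key _
  · funext v
    exact key _

/-- **The dynamical Brauer-Manin equality fails for the projective plane over every number field.**
For every number field `K` there are a linear automorphism `g` of `X = P²` over `K`, given by an
integral matrix of determinant `1`, a smooth and geometrically irreducible conic `Y = {q = 0}`, and
a point `P` of `P²(K)` such that: the point `P` is not preperiodic; `Y` is not preperiodic; no point
of the two-sided orbit of `P` lies on `Y`; and yet the adelic closure of the forward orbit of `P`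
contains an adelic point of `Y`.  In particular
`C(Y ∩ O_f(P)) ≠ Y(𝔸_K) ∩ C(O_f(P))`. -/
theorem main (K : Type*) [Field K] [NumberField K] :
    ∃ (g : GL (Fin 3) K) (q : MvPolynomial (Fin 3) K) (P : P2 K),
      -- `g` comes from an element of `SL₃(ℤ)`
      (∃ M : Matrix (Fin 3) (Fin 3) ℤ, M.det = 1 ∧
        (g : Matrix (Fin 3) (Fin 3) K) = M.map (Int.castRingHom K)) ∧
      -- `q` is a quadratic form, irreducible over the algebraic closure, defining a smooth conic
      q.IsHomogeneous 2 ∧
      Irreducible (MvPolynomial.map (algebraMap K (AlgebraicClosure K)) q) ∧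
      (∀ w : Fin 3 → AlgebraicClosure K,
        (∀ i, MvPolynomial.aeval w (MvPolynomial.pderiv i q) = 0) → w = 0) ∧
      -- `P` is not preperiodic
      Function.Injective (fun n : ℤ => iter g n P) ∧
      -- `Y` is not preperiodic
      Function.Injective (fun n : ℤ => iter g n '' points q K) ∧
      -- the two-sided orbit of `P` does not meet `Y`
      (∀ n : ℤ, iter g n P ∉ points q K) ∧
      -- the adelic closure of the forward orbit contains an adelic point of `Y`
      (adelicPoints q ∩ adelicClosure (forwardOrbit g P)).Nonempty ∧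
      -- the equality of the conjecture fails
      adelicClosure (points q K ∩ forwardOrbit g P) ≠
        adelicPoints q ∩ adelicClosure (forwardOrbit g P) := by
  unfold adelicClosure
  have hchar : CharZero K := inferInstance
  have hnot : ∀ n : ℤ, iter (auto K) n (start K) ∉ points (conic K) K := by
    intro n h
    unfold iter at h
    rw [orbit_eq, mem_points] at h
    simp only [Matrix.cons_val_zero, Matrix.cons_val_one, Matrix.cons_val] at h
    have h' : ((2 * n + 1 : ℤ) : K) * ((3 * n + 1 : ℤ) : K) = 0 := by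
      push_cast
      linear_combination h
    rw [← Int.cast_mul, Int.cast_eq_zero, mul_eq_zero] at h'
    omega
  have hne : (adelicPoints (conic K) ∩ closure (diag K '' forwardOrbit (auto K) (start K))).Nonempty := by
    obtain ⟨n, hn1, hn2⟩ := exists_seq
    classical
    refine ⟨(fun v => Projectivization.mk v.Completion ![1, 0, 0] (vec_ne_zero' _ _),
      fun v => if (2 : 𝓞 K) ∈ v.asIdeal then
          Projectivization.mk (v.adicCompletion K) ![(-(3 : v.adicCompletion K)⁻¹) ^ 2,
            -(3 : v.adicCompletion K)⁻¹, 1] (vec_ne_zero _ _)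
        else Projectivization.mk (v.adicCompletion K) ![(-(2 : v.adicCompletion K)⁻¹) ^ 2,
            -(2 : v.adicCompletion K)⁻¹, 1] (vec_ne_zero _ _)), ⟨?_, ?_⟩, ?_⟩
    · intro v
      rw [mem_points]
      simp
    · intro v
      have hc : CharZero (v.adicCompletion K) := 
        charZero_of_injective_algebraMap (algebraMap K (v.adicCompletion K)).injective
      have h3 : (3 : v.adicCompletion K) ≠ 0 := by norm_num
      have h2 : (2 : v.adicCompletion K) ≠ 0 := by norm_num
      dsimp only
      split_ifs with h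
      · rw [mem_points]
        simp only [Matrix.cons_val_zero, Matrix.cons_val_one, Matrix.cons_val]
        field_simp
        norm_num
      · rw [mem_points]
        simp only [Matrix.cons_val_zero, Matrix.cons_val_one, Matrix.cons_val]
        field_simp
        norm_num
    · have hatTop : Tendsto n atTop atTop := by
        rw [tendsto_atTop]
        intro b
        obtain ⟨k0, hk0⟩ := pow_unbounded_of_one_lt (3 * b + 1) (one_lt_two)
        filter_upwards [eventually_ge_atTop k0] with k hk
        have h1 : 2 ^ k0 ≤ 2 ^ k := Nat.pow_le_pow_right (by norm_num) hk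
        have h2 := Nat.le_of_dvd (by omega) (hn1 k)
        omega
      refine mem_closure_of_tendsto (f := fun k => diag K ((auto K ^ (n k : ℤ)) • start K))
        (b := atTop) ?_ (Eventually.of_forall fun k => ⟨_, ⟨n k, rfl⟩, rfl⟩)
      have hd : (fun k => diag K ((auto K ^ (n k : ℤ)) • start K)) = fun k =>
          ((fun v => Projectivization.mk v.Completion
            ![((n k : ℕ) : v.Completion) ^ 2, ((n k : ℕ) : v.Completion), 1] (vec_ne_zero _ _),
          fun v => Projectivization.mk (v.adicCompletion K)
            ![((n k : ℕ) : v.adicCompletion K) ^ 2, ((n k : ℕ) : v.adicCompletion K), 1]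
              (vec_ne_zero _ _)) : AdelicP2 K) := by
        funext k
        rw [orbit_eq, Int.cast_natCast]
        exact diag_pt (n k)
      rw [hd]
      refine Tendsto.prodMk_nhds ?_ ?_
      · rw [tendsto_pi_nhds]
        intro v
        exact tendsto_pt_inf v n hatTop
      · rw [tendsto_pi_nhds]
        intro v
        have hc : CharZero (v.adicCompletion K) := 
          charZero_of_injective_algebraMap (algebraMap K (v.adicCompletion K)).injective
        have h3 : (3 : v.adicCompletion K) ≠ 0 := by norm_num
        have h2 : (2 : v.adicCompletion K) ≠ 0 := by norm_num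
        split_ifs with h
        · apply tendsto_pt
          have hz : Tendsto (fun k => ((3 * n k + 1 : ℕ) : v.adicCompletion K)) atTop (𝓝 0) := by
            apply fin_tendsto_zero v 2 (by simpa using h)
            intro j
            filter_upwards [eventually_ge_atTop j] with k hk
            exact (pow_dvd_pow 2 hk).trans (hn1 k)
          have hz2 := (hz.sub_const 1).mul_const (3 : v.adicCompletion K)⁻¹
          have e1 : (0 - 1) * (3 : v.adicCompletion K)⁻¹ = -(3 : v.adicCompletion K)⁻¹ := by ring
          rw [e1] at hz2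
          refine hz2.congr fun k => ?_
          push_cast
          field_simp
          ring
        · apply tendsto_pt
          obtain ⟨p, hp, hpv⟩ := exists_nat_mem v
          have hodd := two_notMem v hp hpv h
          have hz : Tendsto (fun k => ((2 * n k + 1 : ℕ) : v.adicCompletion K)) atTop (𝓝 0) := by
            apply fin_tendsto_zero v p hpv
            intro j
            obtain ⟨i, hi⟩ := hodd.pow (n := j)
            filter_upwards [eventually_gt_atTop i] with k hk
            refine dvd_trans ?_ (hn2 k)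
            rw [hi]
            exact Finset.dvd_prod_of_mem (fun i => 2 * i + 1) (Finset.mem_range.mpr hk)
          have hz2 := (hz.sub_const 1).mul_const (2 : v.adicCompletion K)⁻¹
          have e1 : (0 - 1) * (2 : v.adicCompletion K)⁻¹ = -(2 : v.adicCompletion K)⁻¹ := by ring
          rw [e1] at hz2
          refine hz2.congr fun k => ?_
          push_cast
          field_simp
          ring
  refine ⟨auto K, conic K, start K, ⟨!![1, 2, 1; 0, 1, 1; 0, 0, 1], ?_, ?_⟩,
    conic_homogeneous K, ?_, ?_, ?_, ?_, hnot, hne, ?_⟩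
  · simp [Matrix.det_fin_three]
  · ext i j
    fin_cases i <;> fin_cases j <;> simp [auto]
  · rw [conic_map]
    exact conic_irreducible _ (by norm_num)
  · exact fun w hw => conic_smooth K _ w hw
  · intro m n h
    simp only [iter, orbit_eq] at h
    rw [Projectivization.mk_eq_mk_iff'] at h
    obtain ⟨a, ha⟩ := h
    have h2 := congrFun ha 2
    have h1 := congrFun ha 1
    simp at h1 h2
    rw [h2, one_mul] at h1
    exact_mod_cast h1.symm
  · intro m n h
    by_contra hmn
    simp only at h
    -- the point of `g ^ m • Y` with affine coordinate `x₁ = 0`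
    have hmem : (Projectivization.mk K ![6 * (m : K) ^ 2 - 5 * m + 1, 0, 1] (vec_ne_zero _ _) : P2 K)
        ∈ iter (auto K) m '' points (conic K) K := by
      refine ⟨Projectivization.mk K ![7 * (m : K) ^ 2 - 5 * m + 1, -m, 1] (vec_ne_zero _ _), ?_, ?_⟩
      · rw [mem_points]
        simp only [Matrix.cons_val_zero, Matrix.cons_val_one, Matrix.cons_val]
        ring
      · unfold iter
        rw [auto_zpow_smul]
        congr 1
        congr 1
        · ring
        · congr 1
          ring
    rw [h] at hmem
    obtain ⟨y, hy, hy2⟩ := hmem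
    unfold iter at hy2
    rw [← eq_inv_smul_iff, ← zpow_neg, auto_zpow_smul] at hy2
    rw [hy2, mem_points] at hy
    simp only [Matrix.cons_val_zero, Matrix.cons_val_one, Matrix.cons_val] at hy
    have h' : ((n - m : ℤ) : K) * ((6 * (n + m) - 5 : ℤ) : K) = 0 := by
      push_cast at hy ⊢
      linear_combination hy
    rw [← Int.cast_mul, Int.cast_eq_zero, mul_eq_zero] at h'
    omega
  · intro h
    rw [← h] at hne
    have hempty : points (conic K) K ∩ forwardOrbit (auto K) (start K) = ∅ := by
      ext x
      simp only [Set.mem_inter_iff, Set.mem_empty_iff_false, iff_false, not_and]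
      rintro hx ⟨n, rfl⟩
      exact hnot n hx
    rw [hempty, Set.image_empty, closure_empty] at hne
    exact Set.not_nonempty_empty hne

end

end Pool.Agent.Helper46.ConicPlaneProof
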