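import Mathlib
import Pool.Agent.Helper46.AdelicPlane

/-!
# A Zariski dense orbit on the projective plane violating the Brauer-Manin equality

For a number field `K` we consider the diagonal automorphism `f (x₀ : x₁ : x₂) = (2x₀ : 3x₁ : x₂)`
of `X = P²` and the point `P = (1 : 1 : 1)`, with `fⁿ(P) = (2ⁿ : 3ⁿ : 1)`, `n ∈ ℤ`, and the smooth
cubic curve `Y : x₀³ - x₀²x₂ + x₁²x₂ - x₁x₂² = 0`, an elliptic curve.  The forward orbit of `P` is
Zariski dense, the only point of the two-sided orbit on `Y` is `P` itself, and the points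
`f^{k!}(P)` converge adelically to the point with components `(0 : 1 : 0)` (archimedean places),
`(0 : 1 : 1)` (places above `2`), `(1 : 0 : 1)` (places above `3`) and `(1 : 1 : 1)` (all others),
which is an adelic point of `Y` different from the diagonal image of `P`.
-/

open scoped LinearAlgebra.Projectivization
open NumberField IsDedekindDomain Filter Topology
open Pool.Agent.Helper46.AdelicPlane

namespace Pool.Agent.Helper46.CubicPlaneProof

noncomputable section

/-- The automorphism `(x₀ : x₁ : x₂) ↦ (2x₀ : 3x₁ : x₂)`. -/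
def auto (K : Type*) [Field K] [CharZero K] : GL (Fin 3) K where
  val := Matrix.diagonal ![2, 3, 1]
  inv := Matrix.diagonal ![2⁻¹, 3⁻¹, 1]
  val_inv := by
    rw [Matrix.diagonal_mul_diagonal, ← Matrix.diagonal_one]
    congr 1
    ext i
    fin_cases i <;> simp
  inv_val := by
    rw [Matrix.diagonal_mul_diagonal, ← Matrix.diagonal_one]
    congr 1
    ext i
    fin_cases i <;> simp

/-- The cubic form `x₀³ - x₀²x₂ + x₁²x₂ - x₁x₂²`. -/
def cubic (K : Type*) [Field K] : MvPolynomial (Fin 3) K :=
  MvPolynomial.X 0 ^ 3 - MvPolynomial.X 0 ^ 2 * MvPolynomial.X 2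
    + MvPolynomial.X 1 ^ 2 * MvPolynomial.X 2 - MvPolynomial.X 1 * MvPolynomial.X 2 ^ 2

/-- The starting point `P = (1 : 1 : 1)`. -/
def start (K : Type*) [Field K] : P2 K := Projectivization.mk K ![1, 1, 1] (vec_ne_zero _ _)

lemma auto_smul {K : Type*} [Field K] [CharZero K] (a b : K) :
    auto K • (Projectivization.mk K ![a, b, 1] (vec_ne_zero _ _) : P2 K) =
      Projectivization.mk K ![2 * a, 3 * b, 1] (vec_ne_zero _ _) := by
  rw [Projectivization.smul_mk, Projectivization.mk_eq_mk_iff']
  refine ⟨1, ?_⟩
  change (1 : K) • ![2 * a, 3 * b, 1] =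
    Matrix.mulVec (Matrix.diagonal ![2, 3, 1] : Matrix (Fin 3) (Fin 3) K) ![a, b, 1]
  ext i
  fin_cases i <;> simp [Matrix.mulVec_diagonal]

lemma orbit_eq {K : Type*} [Field K] [CharZero K] (n : ℤ) :
    (auto K) ^ n • start K =
      (Projectivization.mk K ![(2 : K) ^ n, (3 : K) ^ n, 1] (vec_ne_zero _ _) : P2 K) := by
  have h2 : (2 : K) ≠ 0 := by norm_num
  have h3 : (3 : K) ≠ 0 := by norm_num
  induction n using Int.induction_on with
  | zero => simp [start]
  | succ i ih =>
    rw [add_comm, zpow_add, mul_smul, ih, zpow_one, auto_smul]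
    congr 1
    rw [zpow_add₀ h2, zpow_add₀ h3, zpow_one, zpow_one]
  | pred i ih =>
    rw [sub_eq_add_neg, add_comm, zpow_add, mul_smul, ih, zpow_neg, zpow_one, inv_smul_eq_iff,
      auto_smul]
    congr 1
    rw [zpow_add₀ h2, zpow_add₀ h3, zpow_neg_one, zpow_neg_one]
    congr 1
    · field_simp
    · congr 1
      field_simp

lemma mem_points {K : Type*} [Field K] (F : Type*) [Field F] [Algebra K F] (w : Fin 3 → F)
    (hw : w ≠ 0) :
    Projectivization.mk F w hw ∈ points (cubic K) F ↔
      w 0 ^ 3 - w 0 ^ 2 * w 2 + w 1 ^ 2 * w 2 - w 1 * w 2 ^ 2 = 0 := by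
  constructor
  · intro h
    have := h w hw rfl
    simpa [cubic] using this
  · intro h w' hw' e
    rw [Projectivization.mk_eq_mk_iff'] at e
    obtain ⟨a, rfl⟩ := e
    have : a ^ 3 * (w 0 ^ 3 - w 0 ^ 2 * w 2 + w 1 ^ 2 * w 2 - w 1 * w 2 ^ 2) = 0 := by
      rw [h, mul_zero]
    simp only [cubic, map_sub, map_add, map_mul, map_pow, MvPolynomial.aeval_X, Pi.smul_apply,
      smul_eq_mul]
    linear_combination this

lemma cubic_homogeneous (K : Type*) [Field K] : (cubic K).IsHomogeneous 3 := by
  unfold cubic
  refine ((MvPolynomial.IsHomogeneous.sub ?_ ?_).add ?_).sub ?_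
  · exact (MvPolynomial.isHomogeneous_X _ _).pow 3
  · exact ((MvPolynomial.isHomogeneous_X K (0 : Fin 3)).pow 2).mul
      (MvPolynomial.isHomogeneous_X _ _)
  · exact ((MvPolynomial.isHomogeneous_X K (1 : Fin 3)).pow 2).mul
      (MvPolynomial.isHomogeneous_X _ _)
  · exact (MvPolynomial.isHomogeneous_X K (1 : Fin 3)).mul
      ((MvPolynomial.isHomogeneous_X K (2 : Fin 3)).pow 2)

lemma cubic_map (K F : Type*) [Field K] [Field F] [Algebra K F] :
    MvPolynomial.map (algebraMap K F) (cubic K) = cubic F := by
  simp [cubic]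

lemma cubic_irreducible (F : Type*) [Field F] : Irreducible (cubic F) := by
  classical
  set A := MvPolynomial (Fin 2) F
  set e := MvPolynomial.finSuccEquiv F 2
  set y : A := MvPolynomial.X 0 with hy
  set z : A := MvPolynomial.X 1 with hz
  have he : e (cubic F) = (Polynomial.X : Polynomial A) ^ 3 - Polynomial.C z * Polynomial.X ^ 2
      + Polynomial.C (y ^ 2 * z - y * z ^ 2) := by
    have e0 : e (MvPolynomial.X 0) = Polynomial.X := MvPolynomial.finSuccEquiv_X_zero
    have e1 : e (MvPolynomial.X 1) = Polynomial.C y :=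
      MvPolynomial.finSuccEquiv_X_succ (j := (0 : Fin 2))
    have e2 : e (MvPolynomial.X 2) = Polynomial.C z :=
      MvPolynomial.finSuccEquiv_X_succ (j := (1 : Fin 2))
    simp only [cubic, map_sub, map_add, map_mul, map_pow, e0, e1, e2]
    ring
  obtain ⟨c, hc⟩ : ∃ c : A, c = y ^ 2 * z - y * z ^ 2 := ⟨_, rfl⟩
  rw [← hc] at he
  have hcoeff : ∀ n, (e (cubic F)).coeff n =
      (if n = 3 then 1 else 0) - z * (if n = 2 then 1 else 0) + (if n = 0 then c else 0) := by
    intro n
    rw [he]
    simp only [Polynomial.coeff_add, Polynomial.coeff_sub, Polynomial.coeff_X_pow,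
      Polynomial.coeff_C_mul, Polynomial.coeff_C]
  have hdeg : (e (cubic F)).natDegree = 3 := by
    rw [he]
    compute_degree!
  have hlead : (e (cubic F)).leadingCoeff = 1 := by
    rw [Polynomial.leadingCoeff, hdeg, hcoeff]
    simp
  have hprime : Prime z := MvPolynomial.X_prime
  have hmonic : (e (cubic F)).Monic := hlead
  refine (MulEquiv.irreducible_iff e).mp ?_
  have hP : (Ideal.span {z}).IsPrime := (Ideal.span_singleton_prime hprime.ne_zero).mpr hprime
  refine Polynomial.irreducible_of_eisenstein_criterion (P := Ideal.span {z}) hP ?_ ?_ ?_ ?_ ?_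
  · rw [hlead, Ideal.mem_span_singleton]
    exact fun h => hprime.not_isUnit (isUnit_of_dvd_one h)
  · intro n hn
    rw [Polynomial.degree_eq_natDegree hmonic.ne_zero, hdeg] at hn
    have hn' : n < 3 := by exact_mod_cast hn
    rw [hcoeff, Ideal.mem_span_singleton]
    interval_cases n
    · simp
      exact ⟨y ^ 2 - y * z, by rw [hc]; ring⟩
    · simp
    · simp
  · rw [Polynomial.degree_eq_natDegree hmonic.ne_zero, hdeg]
    norm_num
  · rw [hcoeff, Ideal.span_singleton_pow, Ideal.mem_span_singleton]
    rintro ⟨d, hd⟩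
    simp at hd
    rw [hc] at hd
    have h1 : z * (y ^ 2 - y * z) = z * (z * d) := by linear_combination hd
    have h2 := mul_left_cancel₀ hprime.ne_zero h1
    have h3 := congrArg (MvPolynomial.eval ![(1 : F), 0]) h2
    simp [y, z] at h3
  · exact hmonic.isPrimitive

lemma cubic_smooth (K F : Type*) [Field K] [Field F] [Algebra K F] [CharZero F] (w : Fin 3 → F)
    (h : ∀ i, MvPolynomial.aeval w (MvPolynomial.pderiv i (cubic K)) = 0) : w = 0 := by
  have e : ∀ i : Fin 3, MvPolynomial.aeval w (MvPolynomial.pderiv i (cubic K)) =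
      (3 * w 0 ^ 2 - 2 * w 0 * w 2) * (Pi.single i (1 : F) : Fin 3 → F) 0
        + (2 * w 1 * w 2 - w 2 ^ 2) * (Pi.single i (1 : F) : Fin 3 → F) 1
        + (w 1 ^ 2 - w 0 ^ 2 - 2 * w 1 * w 2) * (Pi.single i (1 : F) : Fin 3 → F) 2 := by
    intro i
    unfold cubic
    simp only [map_sub, map_add, Derivation.leibniz, Derivation.leibniz_pow]
    fin_cases i <;> simp [MvPolynomial.pderiv_X] <;> ring
  have h0 := h 0
  have h1 := h 1
  have h2 := h 2
  rw [e] at h0 h1 h2
  simp at h0 h1 h2
  have hz : w 2 = 0 := by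
    by_contra hz
    have hy : w 2 = 2 * w 1 := by
      have : w 2 * (2 * w 1 - w 2) = 0 := by linear_combination h1
      rcases mul_eq_zero.mp this with h | h
      · exact absurd h hz
      · linear_combination -h
    rw [hy] at h0 h2 hz
    have hx : w 0 * (3 * w 0 - 4 * w 1) = 0 := by linear_combination h0
    have hy0 : w 1 = 0 := by
      rcases mul_eq_zero.mp hx with h | h
      · rw [h] at h2
        have : (w 1) ^ 2 = 0 := by
          have h3 : (3 : F) * (w 1) ^ 2 = 0 := by linear_combination -h2
          exact (mul_eq_zero.mp h3).resolve_left (by norm_num)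
        exact pow_eq_zero_iff (by norm_num) |>.mp this
      · have h3 : (43 : F) * (w 1) ^ 2 = 0 := by
          linear_combination (-9 : F) * h2 + (-(3 * w 0 + 4 * w 1)) * h
        have : (w 1) ^ 2 = 0 := (mul_eq_zero.mp h3).resolve_left (by norm_num)
        exact pow_eq_zero_iff (by norm_num) |>.mp this
    exact hz (by rw [hy0, mul_zero])
  rw [hz] at h0 h2
  have hx : w 0 = 0 := by
    have h3 : (3 : F) * (w 0) ^ 2 = 0 := by linear_combination h0
    have : (w 0) ^ 2 = 0 := (mul_eq_zero.mp h3).resolve_left (by norm_num)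
    exact pow_eq_zero_iff (by norm_num) |>.mp this
  rw [hx] at h2
  have hy : w 1 = 0 := by
    have : (w 1) ^ 2 = 0 := by linear_combination h2
    exact pow_eq_zero_iff (by norm_num) |>.mp this
  ext i
  fin_cases i
  · exact hx
  · exact hy
  · exact hz

lemma two_three_inj {a b a' b' : ℕ} (h : 2 ^ a * 3 ^ b = 2 ^ a' * 3 ^ b') : a = a' ∧ b = b' := by
  have key : ∀ {a b a' b' : ℕ}, 2 ^ a * 3 ^ b = 2 ^ a' * 3 ^ b' → a ≤ a' ∧ b ≤ b' := by
    intro a b a' b' h
    constructor
    · have h1 : 2 ^ a ∣ 2 ^ a' * 3 ^ b' := ⟨3 ^ b, h.symm⟩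
      have h2 : Nat.Coprime (2 ^ a) (3 ^ b') := Nat.Coprime.pow _ _ (by norm_num)
      exact (Nat.pow_dvd_pow_iff_le_right (by norm_num)).mp (h2.dvd_of_dvd_mul_right h1)
    · have h1 : 3 ^ b ∣ 2 ^ a' * 3 ^ b' := ⟨2 ^ a, by rw [← h]; ring⟩
      have h2 : Nat.Coprime (3 ^ b) (2 ^ a') := Nat.Coprime.pow _ _ (by norm_num)
      exact (Nat.pow_dvd_pow_iff_le_right (by norm_num)).mp (h2.dvd_of_dvd_mul_left h1)
  have h1 := key h
  have h2 := key h.symm
  omega

/-- No nonzero form vanishes on the forward orbit. -/
lemma orbit_dense {K : Type*} [Field K] [CharZero K] (d : ℕ) (F : MvPolynomial (Fin 3) K)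
    (hF : F.IsHomogeneous d) (h : ∀ n : ℕ, (auto K) ^ n • start K ∈ points F K) : F = 0 := by
  by_contra hne
  have hsum : ∀ n : ℕ, ∑ m ∈ F.support, F.coeff m * ((2 : K) ^ m 0 * 3 ^ m 1) ^ n = 0 := by
    intro n
    have h1 := h n
    have h2 := orbit_eq (K := K) n
    rw [zpow_natCast] at h2
    rw [h2] at h1
    have h3 := h1 _ (vec_ne_zero _ _) rfl
    rw [MvPolynomial.aeval_eq_eval₂Hom, MvPolynomial.coe_eval₂Hom, MvPolynomial.eval₂_eq'] at h3
    rw [← h3]
    refine Finset.sum_congr rfl fun m _ => ?_
    rw [Fin.prod_univ_three]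
    simp only [Matrix.cons_val_zero, Matrix.cons_val_one, Matrix.cons_val, Algebra.algebraMap_self,
      RingHom.id_apply, one_pow, mul_one, zpow_natCast]
    ring
  have hli := (linearIndependent_monoidHom (Multiplicative ℕ) K).comp
    (fun m : F.support => powersHom K ((2 : K) ^ (m : Fin 3 →₀ ℕ) 0 * 3 ^ (m : Fin 3 →₀ ℕ) 1)) (by
      rintro ⟨m, hm⟩ ⟨m', hm'⟩ hmm
      have h1 := congrArg (fun χ : Multiplicative ℕ →* K => χ (Multiplicative.ofAdd 1)) hmm
      simp only [powersHom_apply, toAdd_ofAdd, pow_one] at h1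
      have h2 : 2 ^ m 0 * 3 ^ m 1 = 2 ^ m' 0 * 3 ^ m' 1 := by
        have : (((2 ^ m 0 * 3 ^ m 1 : ℕ)) : K) = ((2 ^ m' 0 * 3 ^ m' 1 : ℕ) : K) := by
          push_cast
          exact h1
        exact_mod_cast this
      obtain ⟨h3, h4⟩ := two_three_inj h2
      have h5 : m.degree = d := by
        have := hF (MvPolynomial.mem_support_iff.mp hm)
        rwa [Finsupp.degree_eq_weight_one]
      have h5' : m'.degree = d := by
        have := hF (MvPolynomial.mem_support_iff.mp hm')
        rwa [Finsupp.degree_eq_weight_one]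
      have h6 : m 0 + m 1 + m 2 = d := by
        rw [← h5, Finsupp.degree_eq_sum, Fin.sum_univ_three]
      have h6' : m' 0 + m' 1 + m' 2 = d := by
        rw [← h5', Finsupp.degree_eq_sum, Fin.sum_univ_three]
      apply Subtype.ext
      ext i
      fin_cases i
      · exact h3
      · exact h4
      · change m 2 = m' 2
        omega)
  rw [Fintype.linearIndependent_iff] at hli
  have hz := hli (fun m => F.coeff m) (by
    funext n
    rw [Finset.sum_apply]
    simp only [Pi.smul_apply, smul_eq_mul, Function.comp_apply, powersHom_apply, Pi.zero_apply]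
    rw [Finset.sum_coe_sort F.support
      (fun m => F.coeff m * ((2 : K) ^ m 0 * 3 ^ m 1) ^ (Multiplicative.toAdd n))]
    exact hsum _)
  obtain ⟨m, hm⟩ := MvPolynomial.support_nonempty.mpr hne
  exact (MvPolynomial.mem_support_iff.mp hm) (hz ⟨m, hm⟩)

/-! ### Convergence -/

lemma factorial_tendsto : Tendsto (fun k : ℕ => Nat.factorial k) atTop atTop :=
  tendsto_atTop_mono Nat.self_le_factorial tendsto_id

/-- `a ^ k! → 1` in `K_v` if `a` is prime to the residue characteristic of `v`. -/
lemma tendsto_one {K : Type*} [Field K] [NumberField K] (v : HeightOneSpectrum (𝓞 K)) {p : ℕ}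
    (hp : p.Prime) (hpv : (p : 𝓞 K) ∈ v.asIdeal) (a : ℕ) (ha : 1 ≤ a) (hco : Nat.Coprime a p) :
    Tendsto (fun k : ℕ => (a : v.adicCompletion K) ^ (Nat.factorial k)) atTop (𝓝 1) := by
  have hz : Tendsto (fun k => ((a ^ (Nat.factorial k) - 1 : ℕ) : v.adicCompletion K)) atTop
      (𝓝 0) := by
    apply fin_tendsto_zero v p hpv
    intro j
    filter_upwards [eventually_ge_atTop (Nat.totient (p ^ j))] with k hk
    have h1 : a ^ Nat.totient (p ^ j) ≡ 1 [MOD p ^ j] :=
      Nat.ModEq.pow_totient (Nat.Coprime.pow_right j hco)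
    have hpos : 0 < Nat.totient (p ^ j) := Nat.totient_pos.mpr (pow_pos hp.pos j)
    obtain ⟨c, hc⟩ := (Nat.dvd_factorial hpos hk)
    have h2 : a ^ Nat.factorial k ≡ 1 [MOD p ^ j] := by
      rw [hc, pow_mul]
      simpa using h1.pow c
    exact (Nat.modEq_iff_dvd' (Nat.one_le_pow _ _ ha)).mp h2.symm
  have h2 := hz.add_const 1
  rw [zero_add] at h2
  refine h2.congr fun k => ?_
  rw [Nat.cast_sub (Nat.one_le_pow _ _ ha)]
  push_cast
  ring

/-- `p ^ k! → 0` in `K_v` if `v` lies above `p`. -/
lemma tendsto_zero {K : Type*} [Field K] [NumberField K] (v : HeightOneSpectrum (𝓞 K)) (p : ℕ)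
    (hpv : (p : 𝓞 K) ∈ v.asIdeal) :
    Tendsto (fun k : ℕ => (p : v.adicCompletion K) ^ (Nat.factorial k)) atTop (𝓝 0) := by
  have hz : Tendsto (fun k => ((p ^ (Nat.factorial k) : ℕ) : v.adicCompletion K)) atTop
      (𝓝 0) := by
    apply fin_tendsto_zero v p hpv
    intro j
    filter_upwards [factorial_tendsto.eventually_ge_atTop j] with k hk
    exact pow_dvd_pow p hk
  refine hz.congr fun k => ?_
  push_cast
  rfl

lemma tendsto_pt {F : Type*} [Field F] [TopologicalSpace F] (u w : ℕ → F)
    (b c : F) (hu : Tendsto u atTop (𝓝 b)) (hw : Tendsto w atTop (𝓝 c)) :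
    Tendsto (fun k => (Projectivization.mk F ![u k, w k, 1] (vec_ne_zero _ _) : P2 F))
      atTop (𝓝 (Projectivization.mk F ![b, c, 1] (vec_ne_zero _ _))) := by
  apply tendsto_mk
  rw [tendsto_pi_nhds]
  intro i
  fin_cases i
  · exact hu
  · exact hw
  · exact tendsto_const_nhds

lemma mk_eq_scaled {F : Type*} [Field F] (x y : F) (hy : y ≠ 0) (m : ℕ) :
    (Projectivization.mk F ![(x / y) ^ m, 1, (y⁻¹) ^ m] (vec_ne_zero'' _ _) : P2 F) =
      Projectivization.mk F ![x ^ m, y ^ m, 1] (vec_ne_zero _ _) := by
  rw [Projectivization.mk_eq_mk_iff']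
  refine ⟨(y⁻¹) ^ m, ?_⟩
  ext i
  fin_cases i
  · simp [div_pow]
    ring
  · simp [hy]
  · simp

lemma tendsto_pt_inf {K : Type*} [Field K] [NumberField K] (v : InfinitePlace K) :
    Tendsto (fun k : ℕ => (Projectivization.mk v.Completion
      ![(2 : v.Completion) ^ (Nat.factorial k), (3 : v.Completion) ^ (Nat.factorial k), 1]
        (vec_ne_zero _ _) : P2 v.Completion))
      atTop (𝓝 (Projectivization.mk v.Completion ![0, 1, 0] (vec_ne_zero'' _ _))) := by
  have n2 : ‖(2 : v.Completion)‖ = 2 := by
    have := norm_natCast_inf v 2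
    simpa using this
  have n3 : ‖(3 : v.Completion)‖ = 3 := by
    have := norm_natCast_inf v 3
    simpa using this
  have h3 : (3 : v.Completion) ≠ 0 := by
    rw [← norm_pos_iff, n3]
    norm_num
  have t1 : Tendsto (fun k : ℕ => ((2 : v.Completion) / 3) ^ (Nat.factorial k)) atTop (𝓝 0) := by
    refine (tendsto_pow_atTop_nhds_zero_of_norm_lt_one ?_).comp factorial_tendsto
    rw [norm_div, n2, n3]
    norm_num
  have t2 : Tendsto (fun k : ℕ => ((3 : v.Completion)⁻¹) ^ (Nat.factorial k)) atTop (𝓝 0) := by
    refine (tendsto_pow_atTop_nhds_zero_of_norm_lt_one ?_).comp factorial_tendsto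
    rw [norm_inv, n3]
    norm_num
  have hmain : Tendsto (fun k : ℕ => (Projectivization.mk v.Completion
      ![((2 : v.Completion) / 3) ^ (Nat.factorial k), 1, ((3 : v.Completion)⁻¹) ^ (Nat.factorial k)]
        (vec_ne_zero'' _ _) : P2 v.Completion))
      atTop (𝓝 (Projectivization.mk v.Completion ![0, 1, 0] (vec_ne_zero'' _ _))) := by
    apply tendsto_mk
    rw [tendsto_pi_nhds]
    intro i
    fin_cases i
    · exact t1
    · exact tendsto_const_nhds
    · exact t2
  refine hmain.congr fun k => ?_
  exact mk_eq_scaled _ _ h3 _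

/-- The diagonal image of `(2ᵐ : 3ᵐ : 1)`. -/
lemma diag_pt {K : Type*} [Field K] [NumberField K] (m : ℕ) :
    diag K (Projectivization.mk K ![(2 : K) ^ m, (3 : K) ^ m, 1] (vec_ne_zero _ _)) =
      ((fun v => Projectivization.mk v.Completion
        ![(2 : v.Completion) ^ m, (3 : v.Completion) ^ m, 1] (vec_ne_zero _ _),
       fun v => Projectivization.mk (v.adicCompletion K)
        ![(2 : v.adicCompletion K) ^ m, (3 : v.adicCompletion K) ^ m, 1]
          (vec_ne_zero _ _)) : AdelicP2 K) := by
  have key : ∀ (F : Type _) [Field F] [Algebra K F],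
      baseChange K F (Projectivization.mk K ![(2 : K) ^ m, (3 : K) ^ m, 1] (vec_ne_zero _ _)) =
        Projectivization.mk F ![(2 : F) ^ m, (3 : F) ^ m, 1] (vec_ne_zero _ _) := by
    intro F _ _
    have hw : (fun i => algebraMap K F ((![(2 : K) ^ m, (3 : K) ^ m, 1] : Fin 3 → K) i)) =
        ![(2 : F) ^ m, (3 : F) ^ m, 1] := by
      have e2 : algebraMap K F 2 = 2 := map_ofNat (algebraMap K F) 2
      have e3 : algebraMap K F 3 = 3 := map_ofNat (algebraMap K F) 3
      ext i
      fin_cases i <;> simp [e2, e3]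
    have hne : (fun i => algebraMap K F ((![(2 : K) ^ m, (3 : K) ^ m, 1] : Fin 3 → K) i)) ≠ 0 := by
      rw [hw]
      exact vec_ne_zero _ _
    rw [baseChange_mk K F _ _ hne]
    congr 1
  unfold diag
  congr 1
  · funext v
    exact key _
  · funext v
    exact key _

/-- **The dynamical Brauer-Manin equality fails for a Zariski dense orbit on the projective plane,
over every number field.**  For every number field `K` there are a diagonal automorphism `g` of
`X = P²` over `K`, a smooth and geometrically irreducible cubic curve `Y = {q = 0}` and a point `P`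
of `Y(K)` such that: the forward orbit of `P` is Zariski dense; `P` is the only point of its
two-sided orbit on `Y`, so that `C(Y ∩ O_f(P))` is the single point `P`; but `C(O_f(P))` contains
a further adelic point of `Y`. -/
theorem main (K : Type*) [Field K] [NumberField K] :
    ∃ (g : GL (Fin 3) K) (q : MvPolynomial (Fin 3) K) (P : P2 K),
      -- `g` is diagonal
      (g : Matrix (Fin 3) (Fin 3) K).IsDiag ∧
      -- `q` is a cubic form, irreducible over the algebraic closure, defining a smooth cubic
      q.IsHomogeneous 3 ∧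
      Irreducible (MvPolynomial.map (algebraMap K (AlgebraicClosure K)) q) ∧
      (∀ w : Fin 3 → AlgebraicClosure K,
        (∀ i, MvPolynomial.aeval w (MvPolynomial.pderiv i q) = 0) → w = 0) ∧
      -- the forward orbit of `P` is Zariski dense
      (∀ (d : ℕ) (F : MvPolynomial (Fin 3) K), F.IsHomogeneous d →
        forwardOrbit g P ⊆ points F K → F = 0) ∧
      -- the two-sided orbit of `P` meets `Y` in `P` only
      (∀ n : ℤ, iter g n P ∈ points q K ↔ n = 0) ∧
      -- the adelic closure of the set of orbit points on `Y` consists of `P`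
      adelicClosure (points q K ∩ forwardOrbit g P) = {diag K P} ∧
      -- the adelic closure of the forward orbit contains another adelic point of `Y`
      (∃ x ∈ adelicPoints q ∩ adelicClosure (forwardOrbit g P), x ≠ diag K P) ∧
      -- the equality of the conjecture fails
      adelicClosure (points q K ∩ forwardOrbit g P) ≠
        adelicPoints q ∩ adelicClosure (forwardOrbit g P) := by
  unfold adelicClosure
  have hiff : ∀ n : ℤ, iter (auto K) n (start K) ∈ points (cubic K) K ↔ n = 0 := by
    intro n
    unfold iter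
    rw [orbit_eq, mem_points]
    simp only [Matrix.cons_val_zero, Matrix.cons_val_one, Matrix.cons_val]
    constructor
    · intro h
      have hQ : ((2 : ℚ) ^ n) ^ 2 * (2 ^ n - 1) + (3 : ℚ) ^ n * (3 ^ n - 1) = 0 := by
        have h1 : (((((2 : ℚ) ^ n) ^ 2 * (2 ^ n - 1) + (3 : ℚ) ^ n * (3 ^ n - 1) : ℚ)) : K)
            = ((0 : ℚ) : K) := by
          push_cast
          linear_combination h
        exact_mod_cast h1
      have p2 : (0 : ℚ) < 2 ^ n := by positivity
      have p3 : (0 : ℚ) < 3 ^ n := by positivity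
      rcases lt_trichotomy n 0 with hn | hn | hn
      · exfalso
        have l2 : (2 : ℚ) ^ n < 1 := zpow_lt_one_of_neg₀ (by norm_num) hn
        have l3 : (3 : ℚ) ^ n < 1 := zpow_lt_one_of_neg₀ (by norm_num) hn
        have e1 : ((2 : ℚ) ^ n) ^ 2 * (2 ^ n - 1) < 0 :=
          mul_neg_of_pos_of_neg (by positivity) (by linarith)
        have e2 : (3 : ℚ) ^ n * (3 ^ n - 1) < 0 := mul_neg_of_pos_of_neg p3 (by linarith)
        linarith
      · exact hn
      · exfalso
        have l2 : (1 : ℚ) < 2 ^ n := one_lt_zpow₀ (by norm_num) hn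
        have l3 : (1 : ℚ) < 3 ^ n := one_lt_zpow₀ (by norm_num) hn
        have e1 : 0 < ((2 : ℚ) ^ n) ^ 2 * (2 ^ n - 1) := mul_pos (by positivity) (by linarith)
        have e2 : 0 < (3 : ℚ) ^ n * (3 ^ n - 1) := mul_pos p3 (by linarith)
        linarith
    · rintro rfl
      simp
  have hset : points (cubic K) K ∩ forwardOrbit (auto K) (start K) = {start K} := by
    ext x
    simp only [Set.mem_inter_iff, Set.mem_singleton_iff]
    constructor
    · rintro ⟨hx, n, rfl⟩
      have h1 := (hiff n).mp hx
      rw [h1, iter, zpow_zero, one_smul]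
    · rintro rfl
      have := (hiff 0).mpr rfl
      refine ⟨?_, 0, by simp [iter]⟩
      simpa [iter] using this
  have hcl : closure (diag K '' (points (cubic K) K ∩ forwardOrbit (auto K) (start K))) =
      {diag K (start K)} := by
    rw [hset, Set.image_singleton, closure_singleton]
  have hex : ∃ x ∈ adelicPoints (cubic K) ∩ closure (diag K '' forwardOrbit (auto K) (start K)),
      x ≠ diag K (start K) := by
    classical
    refine ⟨(fun v => Projectivization.mk v.Completion ![0, 1, 0] (vec_ne_zero'' _ _),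
      fun v => if (2 : 𝓞 K) ∈ v.asIdeal then
          Projectivization.mk (v.adicCompletion K) ![0, 1, 1] (vec_ne_zero _ _)
        else if (3 : 𝓞 K) ∈ v.asIdeal then
          Projectivization.mk (v.adicCompletion K) ![1, 0, 1] (vec_ne_zero _ _)
        else Projectivization.mk (v.adicCompletion K) ![1, 1, 1] (vec_ne_zero _ _)),
        ⟨⟨?_, ?_⟩, ?_⟩, ?_⟩
    · intro v
      rw [mem_points]
      simp
    · intro v
      dsimp only
      split_ifs with h h'
      · rw [mem_points]
        simp
      · rw [mem_points]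
        simp
      · rw [mem_points]
        simp
    · refine mem_closure_of_tendsto
        (f := fun k : ℕ => diag K ((auto K ^ ((Nat.factorial k : ℕ) : ℤ)) • start K))
        (b := atTop) ?_
        (Eventually.of_forall fun k => ⟨_, ⟨Nat.factorial k, rfl⟩, rfl⟩)
      have hd : (fun k : ℕ => diag K ((auto K ^ ((Nat.factorial k : ℕ) : ℤ)) • start K)) = fun k =>
          ((fun v => Projectivization.mk v.Completion
            ![(2 : v.Completion) ^ Nat.factorial k, (3 : v.Completion) ^ Nat.factorial k, 1]
              (vec_ne_zero _ _),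
          fun v => Projectivization.mk (v.adicCompletion K)
            ![(2 : v.adicCompletion K) ^ Nat.factorial k,
              (3 : v.adicCompletion K) ^ Nat.factorial k, 1]
              (vec_ne_zero _ _)) : AdelicP2 K) := by
        funext k
        rw [orbit_eq]
        simp only [zpow_natCast]
        exact diag_pt (Nat.factorial k)
      rw [hd]
      refine Tendsto.prodMk_nhds ?_ ?_
      · rw [tendsto_pi_nhds]
        intro v
        exact tendsto_pt_inf v
      · rw [tendsto_pi_nhds]
        intro v
        have h23 : (2 : 𝓞 K) ∈ v.asIdeal → (3 : 𝓞 K) ∉ v.asIdeal := by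
          intro h2 h3
          apply v.isPrime.ne_top
          rw [Ideal.eq_top_iff_one]
          have : (1 : 𝓞 K) = 3 - 2 := by norm_num
          rw [this]
          exact v.asIdeal.sub_mem h3 h2
        split_ifs with h h'
        · apply tendsto_pt
          · have := tendsto_zero v 2 (by simpa using h)
            simpa using this
          · have := tendsto_one v Nat.prime_two (by simpa using h) 3 (by norm_num) (by norm_num)
            simpa using this
        · apply tendsto_pt
          · have := tendsto_one v Nat.prime_three (by simpa using h') 2 (by norm_num)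
              (by norm_num)
            simpa using this
          · have := tendsto_zero v 3 (by simpa using h')
            simpa using this
        · obtain ⟨p, hp, hpv⟩ := exists_nat_mem v
          have hp2 : Nat.Coprime 2 p := by
            rw [Nat.coprime_primes Nat.prime_two hp]
            rintro rfl
            exact h (by simpa using hpv)
          have hp3 : Nat.Coprime 3 p := by
            rw [Nat.coprime_primes Nat.prime_three hp]
            rintro rfl
            exact h' (by simpa using hpv)
          apply tendsto_pt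
          · have := tendsto_one v hp hpv 2 (by norm_num) hp2
            simpa using this
          · have := tendsto_one v hp hpv 3 (by norm_num) hp3
            simpa using this
    · intro hx
      obtain ⟨v⟩ : Nonempty (InfinitePlace K) := inferInstance
      have h1 := congrArg (fun x : AdelicP2 K => x.1 v) hx
      have h2 := congrArg (fun x : AdelicP2 K => x.1 v) (diag_pt (K := K) 0)
      have h0 : (Projectivization.mk K ![(2 : K) ^ 0, (3 : K) ^ 0, 1] (vec_ne_zero _ _) : P2 K)
          = start K := by
        unfold start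
        congr 1
        simp
      rw [h0] at h2
      simp only at h1 h2
      rw [h2, Projectivization.mk_eq_mk_iff'] at h1
      obtain ⟨a, ha⟩ := h1
      have e0 := congrFun ha 0
      have e1 := congrFun ha 1
      simp at e0 e1
      rw [e0] at e1
      exact zero_ne_one e1
  refine ⟨auto K, cubic K, start K, ?_, cubic_homogeneous K, ?_, ?_, ?_, hiff, hcl, hex, ?_⟩
  · exact Matrix.isDiag_diagonal _
  · rw [cubic_map]
    exact cubic_irreducible _
  · exact fun w hw => cubic_smooth K _ w hw
  · exact fun d F hF h => orbit_dense d F hF fun n => h ⟨n, by rw [iter, zpow_natCast]⟩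
  · intro h
    obtain ⟨x, hx, hx2⟩ := hex
    rw [← h, hcl] at hx
    exact hx2 hx

end

end Pool.Agent.Helper46.CubicPlaneProof
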