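import Mathlib

namespace Pool.Agent.Helper46.Sail

/-- the determinant of the matrix with rows `(p+a+b, a, b)`, `(c, q+c+d, d)`, `(e, f, r+e+f)` -/
def DD (p a b q c d r e f : ℝ) : ℝ :=
  p*q*r + p*q*e + p*q*f + p*c*r + p*c*e + p*c*f + p*d*r + p*d*e +
  a*q*r + a*q*e + a*q*f + a*d*r + 2*(a*d*e) +
  b*q*r + b*q*f + b*c*r + 2*(b*c*f) + b*d*r

lemma four_bound {X m u1 u2 u3 u4 : ℝ} (_hm : 0 ≤ m) (h1 : m^2*u1 ≤ X) (h2 : m^2*u2 ≤ X)
    (h3 : m^2*u3 ≤ X) (h4 : m^2*u4 ≤ X) (n1 : 0 ≤ u1) (n2 : 0 ≤ u2) (n3 : 0 ≤ u3) (n4 : 0 ≤ u4) :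
    m^8*(u1*u2*u3*u4) ≤ X^4 := by
  have hm2 : 0 ≤ m^2 := by positivity
  have hX : 0 ≤ X := le_trans (by positivity) h1
  have h12 : (m^2*u1)*(m^2*u2) ≤ X*X := mul_le_mul h1 h2 (by positivity) hX
  have h34 : (m^2*u3)*(m^2*u4) ≤ X*X := mul_le_mul h3 h4 (by positivity) hX
  have h := mul_le_mul h12 h34 (by positivity) (by positivity)
  calc m^8*(u1*u2*u3*u4) = (m^2*u1)*(m^2*u2)*((m^2*u3)*(m^2*u4)) := by ring
    _ ≤ X*X*(X*X) := h
    _ = X^4 := by ring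

/-- lower bound of a monomial with two large factors -/
lemma mono_bound {m x y u : ℝ} (hm : 0 ≤ m) (hx : m ≤ x) (hy : m ≤ y) (hu : 0 ≤ u) : m^2*u ≤ x*y*u := by
  have : m*m ≤ x*y := mul_le_mul hx hy hm (hm.trans hx)
  nlinarith

/-- lower bound of a monomial with one large factor -/
lemma mono_bound' {m x u v : ℝ} (hm : 0 ≤ m) (hm1 : m ≤ 1) (hx : m ≤ x) (hu : 0 ≤ u) (hv : 0 ≤ v) :
    m^2*(u*v) ≤ x*(u*v) := by
  have h1 : m^2 ≤ m := by nlinarith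
  exact mul_le_mul_of_nonneg_right (h1.trans hx) (mul_nonneg hu hv)

lemma drop {x y z u v w s P : ℝ} (hx : x ≤ 1) (_hx0 : 0 ≤ x) (hy : y ≤ 1) (hy0 : 0 ≤ y) (hz : z ≤ 1) (hz0 : 0 ≤ z)
    (hu : u ≤ 1) (hu0 : 0 ≤ u) (hv : v ≤ 1) (hv0 : 0 ≤ v) (hP : 0 ≤ P) (hw : w = x*y*z*u*v*P) (hs : s = P) :
    w ≤ s := by
  have h1 : x*y*z*u*v ≤ 1 := by
    have a1 : x*y ≤ 1 := mul_le_one₀ hx hy0 hy
    have a2 : x*y*z ≤ 1 := mul_le_one₀ a1 hz0 hz
    have a3 : x*y*z*u ≤ 1 := mul_le_one₀ a2 hu0 hu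
    exact mul_le_one₀ a3 hv0 hv
  rw [hw, hs]
  nlinarith

theorem DD_bound {m p a b q c d r e f : ℝ} (hm : 0 ≤ m) (hm1 : m ≤ 1)
    (hp : 0 ≤ p) (ha : 0 ≤ a) (hb : 0 ≤ b) (hq : 0 ≤ q) (hc : 0 ≤ c) (hd : 0 ≤ d) (hr : 0 ≤ r) (he : 0 ≤ e) (hf : 0 ≤ f)
    (hp1 : p ≤ 1) (ha1 : a ≤ 1) (hb1 : b ≤ 1) (hq1 : q ≤ 1) (hc1 : c ≤ 1) (hd1 : d ≤ 1) (hr1 : r ≤ 1) (he1 : e ≤ 1)
    (hf1 : f ≤ 1)
    (h1 : m ≤ p ∨ m ≤ a ∨ m ≤ b) (h2 : m ≤ q ∨ m ≤ c ∨ m ≤ d) (h3 : m ≤ r ∨ m ≤ e ∨ m ≤ f) :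
    m^12 * (p*a*b*(q*c*d)*(r*e*f)) ≤ (DD p a b q c d r e f)^4 := by
  set X := DD p a b q c d r e f with hX
  have n01 := mul_nonneg (mul_nonneg hp hq) hr
  have n02 := mul_nonneg (mul_nonneg hp hq) he
  have n03 := mul_nonneg (mul_nonneg hp hq) hf
  have n04 := mul_nonneg (mul_nonneg hp hc) hr
  have n05 := mul_nonneg (mul_nonneg hp hc) he
  have n06 := mul_nonneg (mul_nonneg hp hc) hf
  have n07 := mul_nonneg (mul_nonneg hp hd) hr
  have n08 := mul_nonneg (mul_nonneg hp hd) he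
  have n09 := mul_nonneg (mul_nonneg ha hq) hr
  have n10 := mul_nonneg (mul_nonneg ha hq) he
  have n11 := mul_nonneg (mul_nonneg ha hq) hf
  have n12 := mul_nonneg (mul_nonneg ha hd) hr
  have n13 := mul_nonneg (mul_nonneg ha hd) he
  have n14 := mul_nonneg (mul_nonneg hb hq) hr
  have n15 := mul_nonneg (mul_nonneg hb hq) hf
  have n16 := mul_nonneg (mul_nonneg hb hc) hr
  have n17 := mul_nonneg (mul_nonneg hb hc) hf
  have n18 := mul_nonneg (mul_nonneg hb hd) hr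
  have hX0 : 0 ≤ X := by rw [hX, DD]; linarith
  -- each of the eighteen products is at most `X`
  have b01 : p*q*r ≤ X := by rw [hX, DD]; linarith
  have b02 : p*q*e ≤ X := by rw [hX, DD]; linarith
  have b03 : p*q*f ≤ X := by rw [hX, DD]; linarith
  have b04 : p*c*r ≤ X := by rw [hX, DD]; linarith
  have b05 : p*c*e ≤ X := by rw [hX, DD]; linarith
  have b06 : p*c*f ≤ X := by rw [hX, DD]; linarith
  have b07 : p*d*r ≤ X := by rw [hX, DD]; linarith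
  have b08 : p*d*e ≤ X := by rw [hX, DD]; linarith
  have b09 : a*q*r ≤ X := by rw [hX, DD]; linarith
  have b10 : a*q*e ≤ X := by rw [hX, DD]; linarith
  have b11 : a*q*f ≤ X := by rw [hX, DD]; linarith
  have b12 : a*d*r ≤ X := by rw [hX, DD]; linarith
  have b13 : a*d*e ≤ X := by rw [hX, DD]; linarith
  have b14 : b*q*r ≤ X := by rw [hX, DD]; linarith
  have b15 : b*q*f ≤ X := by rw [hX, DD]; linarith
  have b16 : b*c*r ≤ X := by rw [hX, DD]; linarith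
  have b17 : b*c*f ≤ X := by rw [hX, DD]; linarith
  have b18 : b*d*r ≤ X := by rw [hX, DD]; linarith
  have hP0 : 0 ≤ p*a*b*(q*c*d)*(r*e*f) := by positivity
  have hP1 : p*a*b*(q*c*d)*(r*e*f) ≤ 1 := by
    have a1 : p*a*b ≤ 1 := mul_le_one₀ (mul_le_one₀ hp1 ha ha1) hb hb1
    have a2 : q*c*d ≤ 1 := mul_le_one₀ (mul_le_one₀ hq1 hc hc1) hd hd1
    have a3 : r*e*f ≤ 1 := mul_le_one₀ (mul_le_one₀ hr1 he he1) hf hf1
    exact mul_le_one₀ (mul_le_one₀ a1 (by positivity) a2) (by positivity) a3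
  have hm12 : m^12 ≤ m^8 := pow_le_pow_of_le_one hm hm1 (by norm_num)
  -- an allowed product of three large factors
  have good : ∀ {x y z : ℝ}, m ≤ x → m ≤ y → m ≤ z → x*y*z ≤ X → m^12 * (p*a*b*(q*c*d)*(r*e*f)) ≤ X^4 := by
    intro x y z hx hy hz h
    have h1 : m*m*m ≤ x*y*z := mul_le_mul (mul_le_mul hx hy hm (hm.trans hx)) hz hm
      (mul_nonneg (hm.trans hx) (hm.trans hy))
    have h2 : m^3 ≤ X := by nlinarith
    calc m^12 * (p*a*b*(q*c*d)*(r*e*f)) ≤ m^12 * 1 := by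
          apply mul_le_mul_of_nonneg_left hP1 (by positivity)
      _ = (m^3)^4 := by ring
      _ ≤ X^4 := pow_le_pow_left₀ (by positivity) h2 4
  -- the other cells
  have bad : ∀ {u1 u2 u3 u4 : ℝ}, 0 ≤ u1 → 0 ≤ u2 → 0 ≤ u3 → 0 ≤ u4 →
      m^2*u1 ≤ X → m^2*u2 ≤ X → m^2*u3 ≤ X → m^2*u4 ≤ X → p*a*b*(q*c*d)*(r*e*f) ≤ u1*u2*u3*u4 →
      m^12 * (p*a*b*(q*c*d)*(r*e*f)) ≤ X^4 := by
    intro u1 u2 u3 u4 n1 n2 n3 n4 k1 k2 k3 k4 hP
    calc m^12 * (p*a*b*(q*c*d)*(r*e*f)) ≤ m^8 * (p*a*b*(q*c*d)*(r*e*f)) :=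
          mul_le_mul_of_nonneg_right hm12 hP0
      _ ≤ m^8 * (u1*u2*u3*u4) := mul_le_mul_of_nonneg_left hP (by positivity)
      _ ≤ X^4 := four_bound hm k1 k2 k3 k4 n1 n2 n3 n4
  rcases h1 with h1 | h1 | h1 <;> rcases h2 with h2 | h2 | h2 <;> rcases h3 with h3 | h3 | h3
  · exact good h1 h2 h3 b01
  · exact good h1 h2 h3 b02
  · exact good h1 h2 h3 b03
  · exact good h1 h2 h3 b04
  · exact good h1 h2 h3 b05
  · exact good h1 h2 h3 b06
  · exact good h1 h2 h3 b07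
  · exact good h1 h2 h3 b08
  · -- p d f : q c r e
    have k1 := (mono_bound hm h1 h3 hq).trans (by linarith : p*f*q ≤ X)
    have k2 := (mono_bound hm h1 h3 hc).trans (by linarith : p*f*c ≤ X)
    have k3 := (mono_bound hm h1 h2 hr).trans (by linarith : p*d*r ≤ X)
    have k4 := (mono_bound hm h1 h2 he).trans (by linarith : p*d*e ≤ X)
    exact bad hq hc hr he k1 k2 k3 k4
      (drop hp1 hp ha1 ha hb1 hb hd1 hd hf1 hf (by positivity : 0 ≤ q*c*r*e) (by ring) rfl)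
  · exact good h1 h2 h3 b09
  · exact good h1 h2 h3 b10
  · exact good h1 h2 h3 b11
  · -- a c r : p q b d
    have k1 := (mono_bound hm h2 h3 hp).trans (by linarith : c*r*p ≤ X)
    have k2 := (mono_bound hm h1 h3 hq).trans (by linarith : a*r*q ≤ X)
    have k3 := (mono_bound hm h2 h3 hb).trans (by linarith : c*r*b ≤ X)
    have k4 := (mono_bound hm h1 h3 hd).trans (by linarith : a*r*d ≤ X)
    exact bad hp hq hb hd k1 k2 k3 k4
      (drop ha1 ha hc1 hc hr1 hr he1 he hf1 hf (by positivity : 0 ≤ p*q*b*d) (by ring) rfl)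
  · -- a c e : p q d (b f)
    have k1 := (mono_bound hm h2 h3 hp).trans (by linarith : c*e*p ≤ X)
    have k2 := (mono_bound hm h1 h3 hq).trans (by linarith : a*e*q ≤ X)
    have k3 := (mono_bound hm h1 h3 hd).trans (by linarith : a*e*d ≤ X)
    have k4 := (mono_bound' hm hm1 h2 hb hf).trans (by linarith : c*(b*f) ≤ X)
    exact bad hp hq hd (mul_nonneg hb hf) k1 k2 k3 k4
      (drop ha1 ha hc1 hc hr1 hr he1 he le_rfl zero_le_one (by positivity : 0 ≤ p*q*d*(b*f)) (by ring) rfl)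
  · -- a c f : p q b (d e)
    have k1 := (mono_bound hm h2 h3 hp).trans (by linarith : c*f*p ≤ X)
    have k2 := (mono_bound hm h1 h3 hq).trans (by linarith : a*f*q ≤ X)
    have k3 := (mono_bound hm h2 h3 hb).trans (by linarith : c*f*b ≤ X)
    have k4 := (mono_bound' hm hm1 h1 hd he).trans (by linarith : a*(d*e) ≤ X)
    exact bad hp hq hb (mul_nonneg hd he) k1 k2 k3 k4
      (drop ha1 ha hc1 hc hr1 hr hf1 hf le_rfl zero_le_one (by positivity : 0 ≤ p*q*b*(d*e)) (by ring) rfl)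
  · exact good h1 h2 h3 b12
  · exact good h1 h2 h3 b13
  · -- a d f : q r e (p c)
    have k1 := (mono_bound hm h1 h3 hq).trans (by linarith : a*f*q ≤ X)
    have k2 := (mono_bound hm h1 h2 hr).trans (by linarith : a*d*r ≤ X)
    have k3 := (mono_bound hm h1 h2 he).trans (by linarith : a*d*e ≤ X)
    have k4 := (mono_bound' hm hm1 h3 hp hc).trans (by linarith : f*(p*c) ≤ X)
    exact bad hq hr he (mul_nonneg hp hc) k1 k2 k3 k4
      (drop ha1 ha hb1 hb hd1 hd hf1 hf le_rfl zero_le_one (by positivity : 0 ≤ q*r*e*(p*c)) (by ring) rfl)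
  · exact good h1 h2 h3 b14
  · -- b q e : p a r f
    have k1 := (mono_bound hm h2 h3 hp).trans (by linarith : q*e*p ≤ X)
    have k2 := (mono_bound hm h2 h3 ha).trans (by linarith : q*e*a ≤ X)
    have k3 := (mono_bound hm h1 h2 hr).trans (by linarith : b*q*r ≤ X)
    have k4 := (mono_bound hm h1 h2 hf).trans (by linarith : b*q*f ≤ X)
    exact bad hp ha hr hf k1 k2 k3 k4
      (drop hb1 hb hc1 hc hd1 hd hq1 hq he1 he (by positivity : 0 ≤ p*a*r*f) (by ring) rfl)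
  · exact good h1 h2 h3 b15
  · exact good h1 h2 h3 b16
  · -- b c e : r f p (a q)
    have k1 := (mono_bound hm h1 h2 hr).trans (by linarith : b*c*r ≤ X)
    have k2 := (mono_bound hm h1 h2 hf).trans (by linarith : b*c*f ≤ X)
    have k3 := (mono_bound hm h2 h3 hp).trans (by linarith : c*e*p ≤ X)
    have k4 := (mono_bound' hm hm1 h3 ha hq).trans (by linarith : e*(a*q) ≤ X)
    exact bad hr hf hp (mul_nonneg ha hq) k1 k2 k3 k4
      (drop hb1 hb hc1 hc hd1 hd he1 he le_rfl zero_le_one (by positivity : 0 ≤ r*f*p*(a*q)) (by ring) rfl)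
  · exact good h1 h2 h3 b17
  · exact good h1 h2 h3 b18
  · -- b d e : r p a (q f)
    have k1 := (mono_bound hm h1 h2 hr).trans (by linarith : b*d*r ≤ X)
    have k2 := (mono_bound hm h2 h3 hp).trans (by linarith : d*e*p ≤ X)
    have k3 := (mono_bound hm h2 h3 ha).trans (by linarith : d*e*a ≤ X)
    have k4 := (mono_bound' hm hm1 h1 hq hf).trans (by linarith : b*(q*f) ≤ X)
    exact bad hr hp ha (mul_nonneg hq hf) k1 k2 k3 k4
      (drop hb1 hb hc1 hc hd1 hd he1 he le_rfl zero_le_one (by positivity : 0 ≤ r*p*a*(q*f)) (by ring) rfl)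
  · -- b d f : r q c (p e)
    have k1 := (mono_bound hm h1 h2 hr).trans (by linarith : b*d*r ≤ X)
    have k2 := (mono_bound hm h1 h3 hq).trans (by linarith : b*f*q ≤ X)
    have k3 := (mono_bound hm h1 h3 hc).trans (by linarith : b*f*c ≤ X)
    have k4 := (mono_bound' hm hm1 h2 hp he).trans (by linarith : d*(p*e) ≤ X)
    exact bad hr hq hc (mul_nonneg hp he) k1 k2 k3 k4
      (drop ha1 ha hb1 hb hd1 hd hf1 hf le_rfl zero_le_one (by positivity : 0 ≤ r*q*c*(p*e)) (by ring) rfl)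

lemma DD_eq_det (p a b q c d r e f : ℝ) :
    DD p a b q c d r e f = (!![p+a+b, a, b; c, q+c+d, d; e, f, r+e+f] : Matrix (Fin 3) (Fin 3) ℝ).det := by
  rw [Matrix.det_fin_three, DD]
  simp
  ring

end Pool.Agent.Helper46.Sail
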