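import Pool.Agent.Helper46.LamInv

open MeasureTheory Set Filter
open scoped ENNReal Topology

namespace Pool.Agent.Helper46.Sail

variable {n : ℕ}

lemma coord_add' (B : Fr n) (v w : E n) (k : Fin (n+1)) : coord B (v + w) k = coord B v k + coord B w k := by
  simp only [coord, Matrix.add_vecMul, Pi.add_apply]

/-- `lam` is linear in the vector -/
lemma lam_sum (B : Fr n) (v : E n) (k : Fin (n+1)) : lam B v k = ∑ i, v i * lam B (Pi.single i 1) k := by
  have h : ∀ i, coord B (Pi.single i 1) k = (Matrix.of B)⁻¹ i k := by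
    intro i
    simp [coord]
  simp only [lam, h]
  simp only [coord, Matrix.vecMul, dotProduct, Finset.mul_sum]
  exact Finset.sum_congr rfl fun i _ => by ring

lemma continuousAt_lam {B : Fr n} (hB : dtm B ≠ 0) (v : E n) (k : Fin (n+1)) :
    ContinuousAt (fun B : Fr n => lam B v k) B := by
  have h1 : (fun B : Fr n => lam B v k) = fun B : Fr n =>
      (∑ j, B k j) * ∑ j, v j * ((dtm B)⁻¹ * (Matrix.of B).adjugate j k) := by
    funext B
    simp only [lam, zs, coord, Matrix.vecMul, dotProduct, Matrix.inv_def, Ring.inverse_eq_inv', Matrix.smul_apply,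
      smul_eq_mul, dtm]
  rw [h1]
  have hd : Continuous (dtm (n := n)) := by
    unfold dtm
    exact Continuous.matrix_det (continuous_id)
  have ha : ∀ j, Continuous fun B : Fr n => (Matrix.of B).adjugate j k := fun j =>
    (Continuous.matrix_adjugate continuous_id).matrix_elem j k
  apply ContinuousAt.mul
  · apply Continuous.continuousAt
    exact continuous_finsetSum _ fun j _ => (continuous_apply j).comp (continuous_apply k)
  · apply tendsto_finsetSum
    intro j _
    apply ContinuousAt.mul continuousAt_const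
    exact (hd.continuousAt.inv₀ hB).mul (ha j).continuousAt

/-- the frame of the homothetic simplex `{x | x i ≥ - θ}` -/
noncomputable def Bs (n : ℕ) (θ : ℝ) : Fr n := fun k j =>
  2 / (1 + n * θ) * ((if j = k then 1 + (n + 1) * θ else 0) - θ)

lemma Bs_sum {θ : ℝ} (hθ : 0 < θ) (i : Fin (n+1)) :
    ∑ k, ((((if k = i then 1 else 0) + θ) / (1 + (n + 1) * θ)) / (2 / (1 + n * θ))) • Bs n θ k = Pi.single i 1 := by
  have h1 : 0 < 1 + (n:ℝ) * θ := by positivity
  have h2 : 0 < 1 + ((n:ℝ) + 1) * θ := by positivity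
  funext j
  rw [Finset.sum_apply]
  have h3 : ∀ k : Fin (n+1), (((((if k = i then 1 else 0) + θ) / (1 + (n + 1) * θ)) / (2 / (1 + n * θ))) • Bs n θ k) j =
      (if k = i then (if j = k then 1 + (n + 1) * θ else 0) - θ else 0) / (1 + (n + 1) * θ) +
      (θ / (1 + (n + 1) * θ)) * ((if j = k then 1 + (n + 1) * θ else 0) - θ) := by
    intro k
    simp only [Bs, Pi.smul_apply, smul_eq_mul]
    by_cases hki : k = i
    · simp only [hki, if_true]
      field_simp
    · simp only [hki, if_false]
      field_simp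
      ring
  rw [Finset.sum_congr rfl fun k _ => h3 k, Finset.sum_add_distrib, ← Finset.sum_div, Finset.sum_ite_eq',
    ← Finset.mul_sum, Finset.sum_sub_distrib, Finset.sum_ite_eq]
  simp only [Finset.mem_univ, if_true, Finset.sum_const, Finset.card_univ, Fintype.card_fin, nsmul_eq_mul,
    Pi.single_apply]
  push_cast
  field_simp
  split_ifs <;> ring

lemma Bs_li {θ : ℝ} (hθ : 0 < θ) : LinearIndependent ℝ (Bs n θ) := by
  apply linearIndependent_of_top_le_span_of_card_eq_finrank
  · intro x _
    have hx : x = ∑ i, x i • (Pi.single i (1:ℝ) : E n) := by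
      funext j; simp [Finset.sum_apply, Pi.single_apply]
    rw [hx]
    apply Submodule.sum_mem
    intro i _
    apply Submodule.smul_mem
    rw [← Bs_sum hθ i]
    apply Submodule.sum_mem
    intro k _
    exact Submodule.smul_mem _ _ (Submodule.subset_span ⟨k, rfl⟩)
  · simp

lemma Bs_dtm {θ : ℝ} (hθ : 0 < θ) : dtm (Bs n θ) ≠ 0 := dtm_of_linearIndependent (Bs_li hθ)

lemma Bs_zs {θ : ℝ} (k : Fin (n+1)) : zs (Bs n θ) k = 2 / (1 + n * θ) := by
  simp only [zs, Bs, ← Finset.mul_sum, Finset.sum_sub_distrib, Finset.sum_ite_eq', Finset.mem_univ, if_true,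
    Finset.sum_const, Finset.card_univ, Fintype.card_fin, nsmul_eq_mul]
  push_cast
  ring

lemma Bs_lam {θ : ℝ} (hθ : 0 < θ) (i k : Fin (n+1)) :
    lam (Bs n θ) (Pi.single i 1) k = ((if k = i then 1 else 0) + θ) / (1 + (n + 1) * θ) := by
  have h1 : 0 < 1 + (n:ℝ) * θ := by positivity
  rw [lam, coord_eq_of_sum (Bs_dtm hθ) (Bs_sum hθ i), Bs_zs]
  field_simp

lemma Bs_lam_vec {θ : ℝ} (hθ : 0 < θ) (v : E n) (k : Fin (n+1)) :
    lam (Bs n θ) v k = (v k + θ * ∑ i, v i) / (1 + (n + 1) * θ) := by
  rw [lam_sum]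
  simp only [Bs_lam hθ]
  have : ∀ i : Fin (n+1), v i * (((if k = i then 1 else 0) + θ) / (1 + (n + 1) * θ)) =
      ((if k = i then v i else 0) + θ * v i) / (1 + (n + 1) * θ) := by
    intro i; split_ifs <;> ring
  rw [Finset.sum_congr rfl fun i _ => this i, ← Finset.sum_div, Finset.sum_add_distrib, Finset.sum_ite_eq,
    ← Finset.mul_sum]
  simp

lemma Bs_norm {θ : ℝ} (hθ : 0 < θ) (k : Fin (n+1)) : 1 < ‖Bs n θ k‖ ∧ ‖Bs n θ k‖ < Real.exp 1 := by
  have h1 : 0 < 1 + (n:ℝ) * θ := by positivity
  have he : (2:ℝ) < Real.exp 1 := by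
    have := Real.exp_one_gt_d9; linarith
  constructor
  · have h2 : Bs n θ k k = 2 := by
      simp only [Bs, if_true]
      field_simp
      ring
    have h3 := norm_le_pi_norm (Bs n θ k) k
    rw [h2] at h3
    norm_num at h3
    linarith
  · rw [pi_norm_lt_iff (by positivity)]
    intro j
    by_cases hj : j = k
    · have h2 : Bs n θ k j = 2 := by
        simp only [Bs, hj, if_true]
        field_simp
        ring
      rw [h2]; norm_num; exact he
    · simp only [Bs, hj, if_false]
      rw [Real.norm_eq_abs, zero_sub, abs_mul, abs_neg, abs_of_pos hθ, abs_of_pos (by positivity)]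
      have h0 : θ ≤ 1 + n * θ := by
        have hn : 1 ≤ n := by
          by_contra hcon
          have hn0 : n = 0 := by omega
          apply hj
          apply Fin.ext
          have h1 := j.isLt
          have h2 := k.isLt
          omega
        have : (1:ℝ) ≤ n := by exact_mod_cast hn
        nlinarith
      calc 2 / (1 + n * θ) * θ = 2 * (θ / (1 + n * θ)) := by ring
        _ ≤ 2 * 1 := by
          gcongr
          rw [div_le_one h1]; exact h0
        _ < Real.exp 1 := by linarith

/-- near the frame `Bs` the unit simplex is a face -/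
lemma eventually_condV {θ : ℝ} (hθ : 0 < θ) (hθ1 : θ < 1) :
    ∀ᶠ B in 𝓝 (Bs n θ), condV (unitVerts n) B := by
  have hN : 0 < 1 + ((n:ℝ) + 1) * θ := by positivity
  set δ := min (θ / (1 + (n + 1) * θ)) ((1 - θ) / (1 + (n + 1) * θ) / (2 * n + 2)) with hδ
  have hδ0 : 0 < δ := by
    apply lt_min
    · positivity
    · have : 0 < 1 - θ := by linarith
      positivity
  have hev : ∀ i k : Fin (n+1), ∀ᶠ B in 𝓝 (Bs n θ),
      |lam B (Pi.single i 1) k - ((if k = i then 1 else 0) + θ) / (1 + (n + 1) * θ)| < δ := by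
    intro i k
    have := continuousAt_lam (Bs_dtm (n := n) hθ) (Pi.single i 1) k
    have h2 := this.tendsto
    rw [Bs_lam hθ] at h2
    exact (Metric.tendsto_nhds.1 h2 δ hδ0).mono fun B hB => by rwa [Real.dist_eq] at hB
  have hall : ∀ᶠ B in 𝓝 (Bs n θ), ∀ i k : Fin (n+1),
      |lam B (Pi.single i 1) k - ((if k = i then 1 else 0) + θ) / (1 + (n + 1) * θ)| < δ :=
    eventually_all.2 fun i => eventually_all.2 fun k => hev i k
  filter_upwards [hall] with B hB
  intro v hv
  rw [mem_unitVerts]
  constructor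
  · intro h
    by_contra hcon
    push Not at hcon
    -- the minimal coordinate
    obtain ⟨k, -, hk⟩ := Finset.exists_min_image Finset.univ v ⟨0, Finset.mem_univ _⟩
    have hneg : v k ≤ -1 := by
      by_contra hc
      push Not at hc
      have hnn : ∀ i, 0 ≤ v i := fun i => by have := hk i (Finset.mem_univ _); omega
      obtain ⟨i, hi⟩ : ∃ i, v i ≠ 0 := by
        by_contra h'
        push Not at h'
        simp [h'] at hv
      have hzi : 1 ≤ v i := by have := hnn i; omega
      have hsum : v i + ∑ j ∈ Finset.univ.erase i, v j = 1 := by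
        rw [Finset.add_sum_erase _ _ (Finset.mem_univ i)]; exact hv
      have hnn' : 0 ≤ ∑ j ∈ Finset.univ.erase i, v j := Finset.sum_nonneg fun j _ => hnn j
      have h0 : ∑ j ∈ Finset.univ.erase i, v j = 0 := by omega
      have h0' := (Finset.sum_eq_zero_iff_of_nonneg (fun j _ => hnn j)).mp h0
      apply hcon i
      funext j
      by_cases hj : j = i
      · subst hj; simp; omega
      · rw [h0' j (Finset.mem_erase.mpr ⟨hj, Finset.mem_univ j⟩)]
        simp [hj]
    have hl := h k
    rw [lam_sum] at hl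
    have hsumr : ∑ i, (v i : ℝ) = 1 := by exact_mod_cast hv
    -- compare with the value for `Bs`
    have hcmp : ∑ i, toReal v i * lam B (Pi.single i 1) k ≤
        ((v k : ℝ) + θ) / (1 + (n + 1) * θ) + δ * ∑ i, |(v i : ℝ)| := by
      have h1 : ((v k : ℝ) + θ) / (1 + (n + 1) * θ) =
          ∑ i, (v i : ℝ) * (((if k = i then 1 else 0) + θ) / (1 + (n + 1) * θ)) := by
        have : ∀ i : Fin (n+1), (v i : ℝ) * (((if k = i then 1 else 0) + θ) / (1 + (n + 1) * θ)) =
            ((if k = i then (v i : ℝ) else 0) + θ * v i) / (1 + (n + 1) * θ) := by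
          intro i; split_ifs <;> ring
        rw [Finset.sum_congr rfl fun i _ => this i, ← Finset.sum_div, Finset.sum_add_distrib, Finset.sum_ite_eq,
          ← Finset.mul_sum, hsumr]
        simp
      rw [h1, Finset.mul_sum, ← Finset.sum_add_distrib]
      apply Finset.sum_le_sum
      intro i _
      have h2 := hB i k
      rw [abs_lt] at h2
      have h3 : toReal v i = (v i : ℝ) := rfl
      rw [h3]
      have h4 : (v i : ℝ) * (lam B (Pi.single i 1) k - ((if k = i then 1 else 0) + θ) / (1 + (n + 1) * θ)) ≤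
          |(v i : ℝ)| * δ := by
        calc _ ≤ |(v i : ℝ) * (lam B (Pi.single i 1) k - ((if k = i then 1 else 0) + θ) / (1 + (n + 1) * θ))| :=
              le_abs_self _
          _ = |(v i : ℝ)| * |lam B (Pi.single i 1) k - ((if k = i then 1 else 0) + θ) / (1 + (n + 1) * θ)| :=
              abs_mul _ _
          _ ≤ _ := by gcongr; exact (hB i k).le
      linarith
    -- bound on the sum of absolute values
    have habs : ∑ i, |(v i : ℝ)| ≤ (2 * n + 1) * (-(v k : ℝ)) := by
      have h1 : ∀ i, |(v i : ℝ)| = (v i : ℝ) + 2 * max (-(v i : ℝ)) 0 := by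
        intro i
        rcases le_total 0 (v i : ℝ) with h | h
        · rw [abs_of_nonneg h, max_eq_right (by linarith)]; ring
        · rw [abs_of_nonpos h, max_eq_left (by linarith)]; ring
      have hkr : ∀ i, (v k : ℝ) ≤ v i := fun i => by exact_mod_cast hk i (Finset.mem_univ _)
      have hkneg : (v k : ℝ) ≤ -1 := by exact_mod_cast hneg
      -- some coordinate is positive
      obtain ⟨i0, hi0⟩ : ∃ i, 0 < v i := by
        by_contra h'
        push Not at h'
        have : ∑ i, v i ≤ 0 := Finset.sum_nonpos fun i _ => h' i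
        omega
      have h2 : ∑ i, max (-(v i : ℝ)) 0 ≤ n * (-(v k : ℝ)) := by
        rw [← Finset.add_sum_erase _ _ (Finset.mem_univ i0)]
        have h3 : max (-(v i0 : ℝ)) 0 = 0 := by
          apply max_eq_right
          have : (0:ℝ) < v i0 := by exact_mod_cast hi0
          linarith
        rw [h3, zero_add]
        calc ∑ i ∈ Finset.univ.erase i0, max (-(v i : ℝ)) 0 ≤ ∑ i ∈ Finset.univ.erase i0, (-(v k : ℝ)) := by
              apply Finset.sum_le_sum
              intro i _
              exact max_le (by linarith [hkr i]) (by linarith)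
          _ = n * (-(v k : ℝ)) := by
              rw [Finset.sum_const, Finset.card_erase_of_mem (Finset.mem_univ _)]
              simp
      rw [Finset.sum_congr rfl fun i _ => h1 i, Finset.sum_add_distrib, ← Finset.mul_sum, hsumr]
      nlinarith
    have hkneg : (v k : ℝ) ≤ -1 := by exact_mod_cast hneg
    have hδ2 : δ * (2 * n + 2) ≤ (1 - θ) / (1 + (n + 1) * θ) := by
      have := min_le_right (θ / (1 + (n + 1) * θ)) ((1 - θ) / (1 + (n + 1) * θ) / (2 * n + 2))
      rw [← hδ] at this
      calc δ * (2 * n + 2) ≤ (1 - θ) / (1 + (n + 1) * θ) / (2 * n + 2) * (2 * n + 2) := by gcongr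
        _ = _ := by field_simp
    have h5 : ((v k : ℝ) + θ) / (1 + (n + 1) * θ) ≤ (v k : ℝ) * ((1 - θ) / (1 + (n + 1) * θ)) := by
      rw [mul_div_assoc', div_le_div_iff_of_pos_right hN]
      nlinarith
    have h6 : δ * ∑ i, |(v i : ℝ)| ≤ δ * ((2 * n + 1) * (-(v k : ℝ))) := by gcongr
    have h7 : 0 < δ * (-(v k : ℝ)) := mul_pos hδ0 (by linarith)
    nlinarith
  · rintro ⟨i, rfl⟩ k
    have h1 := hB i k
    rw [abs_lt] at h1
    rw [toReal_single]
    have h2 : δ ≤ θ / (1 + (n + 1) * θ) := min_le_left _ _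
    have h3 : θ / (1 + (n + 1) * θ) ≤ ((if k = i then 1 else 0) + θ) / (1 + (n + 1) * θ) := by
      gcongr
      split_ifs <;> linarith
    linarith [h1.1]

lemma eventually_lam_pos {θ : ℝ} (hθ : 0 < θ) {y : E n} (hy : ∀ k, 0 < y k + θ * ∑ i, y i) :
    ∀ᶠ B in 𝓝 (Bs n θ), ∀ k, 0 < lam B y k := by
  rw [eventually_all]
  intro k
  have h1 := (continuousAt_lam (Bs_dtm (n := n) hθ) y k).tendsto
  apply h1.eventually_const_lt
  rw [Bs_lam_vec hθ]
  exact div_pos (hy k) (by positivity)

/-- positivity of the integral over a neighbourhood -/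
lemma int_pos {G : Set (Fr n)} {B0 : Fr n} (h0 : dtm B0 ≠ 0)
    (hw : ∀ i, 1 < ‖B0 i‖ ∧ ‖B0 i‖ < Real.exp 1) (h : G ∈ 𝓝 B0) :
    0 < ∫⁻ B, win (stdGauge n) B * G.indicator 1 B ∂(frMeasure n) := by
  have hd : Continuous (dtm (n := n)) := by
    unfold dtm
    exact Continuous.matrix_det (continuous_id)
  let W : Set (Fr n) := {B | ∀ i, 1 < ‖B i‖ ∧ ‖B i‖ < Real.exp 1}
  have hWo : IsOpen W := by
    have : W = ⋂ i, {B : Fr n | 1 < ‖B i‖} ∩ {B : Fr n | ‖B i‖ < Real.exp 1} := by
      ext; simp [W]
    rw [this]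
    exact isOpen_iInter_of_finite fun i => (isOpen_lt continuous_const (continuous_apply i).norm).inter
      (isOpen_lt (continuous_apply i).norm continuous_const)
  let U : Set (Fr n) := interior G ∩ (W ∩ {B | dtm B ≠ 0})
  have hUo : IsOpen U := isOpen_interior.inter (hWo.inter (isOpen_ne_fun hd continuous_const))
  have hU0 : B0 ∈ U := ⟨mem_interior_iff_mem_nhds.2 h, hw, h0⟩
  have hvol : 0 < volume U := hUo.measure_pos volume ⟨B0, hU0⟩
  have hfr : 0 < frMeasure n U := by
    rw [pos_iff_ne_zero]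
    intro hz
    rw [frMeasure, withDensity_apply_eq_zero measurable_density] at hz
    have : {B : Fr n | ENNReal.ofReal ((|dtm B|⁻¹) ^ (n + 1)) ≠ 0} ∩ U = U := by
      apply Set.inter_eq_right.2
      rintro B ⟨-, -, hB⟩
      have h1 : dtm B ≠ 0 := hB
      show ENNReal.ofReal ((|dtm B|⁻¹) ^ (n + 1)) ≠ 0
      rw [ENNReal.ofReal_ne_zero_iff]
      positivity
    rw [this] at hz
    exact hvol.ne' hz
  calc 0 < frMeasure n U := hfr
    _ = ∫⁻ B, U.indicator 1 B ∂(frMeasure n) := by rw [lintegral_indicator_one hUo.measurableSet]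
    _ ≤ _ := by
      apply lintegral_mono
      intro B
      by_cases hB : B ∈ U
      · have h1 : B ∈ G := interior_subset hB.1
        have h2 : B ∈ {B : Fr n | ∀ i, 1 ≤ stdGauge n i B ∧ stdGauge n i B < Real.exp 1} := fun i =>
          ⟨(hB.2.1 i).1.le, (hB.2.1 i).2⟩
        simp only [win]
        rw [Set.indicator_of_mem hB, Set.indicator_of_mem h1, Set.indicator_of_mem h2]
        simp
      · beta_reduce
        rw [Set.indicator_of_notMem hB]
        exact zero_le

end Pool.Agent.Helper46.Sail
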