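import Pool.Agent.Helper46.KeyCompare

open MeasureTheory Set
open scoped ENNReal

namespace Pool.Agent.Helper46.Sail

open Pool.Agent.Helper46.Planar

section perm

variable {n : ℕ}

/-- permutation of the coordinates -/
noncomputable def pm (σ : Equiv.Perm (Fin (n+1))) : E n ≃ₗ[ℝ] E n := LinearEquiv.funCongrLeft ℝ ℝ σ

lemma pm_apply (σ : Equiv.Perm (Fin (n+1))) (x : E n) : pm σ x = fun i => x (σ i) := rfl

lemma pm_sum (σ : Equiv.Perm (Fin (n+1))) (x : E n) : ∑ j, pm σ x j = ∑ j, x j := by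
  rw [pm_apply]; exact Equiv.sum_comp σ x

lemma condV_pm (σ : Equiv.Perm (Fin (n+1))) (V : Finset (Fin (n+1) → ℤ)) (B : Fr n) :
    condV (V.image fun v i => v (σ i)) (lact (pm σ : E n →ₗ[ℝ] E n) B) ↔ condV V B := by
  have hl : ∀ (v : Fin (n+1) → ℤ) k, lam (lact (pm σ : E n →ₗ[ℝ] E n) B) (toReal fun i => v (σ i)) k =
      lam B (toReal v) k := fun v k => lam_lact (pm σ) (pm_sum σ) B (toReal v) k
  have hi : ∀ v : Fin (n+1) → ℤ, (fun i => v (σ i)) ∈ (V.image fun v i => v (σ i)) ↔ v ∈ V := by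
    intro v
    rw [Finset.mem_image]
    constructor
    · rintro ⟨u, hu, h⟩
      have : u = v := by
        funext i
        have := congrFun h (σ.symm i)
        simpa using this
      rwa [← this]
    · intro h; exact ⟨v, h, rfl⟩
  constructor
  · intro h v hv
    have := h (fun i => v (σ i)) (by rw [← hv]; exact Equiv.sum_comp σ v)
    rw [hi] at this
    simpa only [hl] using this
  · intro h v hv
    have e : v = fun i => (fun j => v (σ.symm j)) (σ i) := by funext i; simp
    have h1 := hi (fun j => v (σ.symm j))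
    rw [e, h1]
    have h2 := hl (fun j => v (σ.symm j))
    simp only [h2]
    apply h
    rw [← hv]; exact Equiv.sum_comp σ.symm v

lemma sc_mem_condV (V : Finset (Fin (n+1) → ℤ)) (s : Fin (n+1) → ℝ) (B : Fr n) :
    sc s B ∈ {B : Fr n | condV V B} ↔ B ∈ {B : Fr n | condV V B} := condV_sc V s B

lemma int_pm (σ : Equiv.Perm (Fin (n+1))) (V : Finset (Fin (n+1) → ℤ)) :
    ∫⁻ B, win (stdGauge n) B * {B : Fr n | condV (V.image fun v i => v (σ i)) B}.indicator 1 B ∂(frMeasure n) =
      ∫⁻ B, win (stdGauge n) B * {B : Fr n | condV V B}.indicator 1 B ∂(frMeasure n) := by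
  rw [← lact_inv stdGauge_gauge (pm σ) (measurable_one.indicator (measurableSet_condV _))
    (fun s B => indicator_congr (sc_mem_condV _ s B))]
  apply lintegral_congr
  intro B
  congr 1
  by_cases h : condV V B
  · rw [Set.indicator_of_mem, Set.indicator_of_mem]
    · rfl
    · exact h
    · exact (condV_pm σ V B).2 h
  · rw [Set.indicator_of_notMem, Set.indicator_of_notMem]
    · exact h
    · exact fun h' => h ((condV_pm σ V B).1 h')

end perm

/-! ### Unimodular configurations in the plane -/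

lemma single_pt (k : Fin 3) : (Pi.single k 1 : Fin 3 → ℤ) = ![pt 0 0, pt 1 0, pt 0 1] k := by
  funext l
  fin_cases k <;> fin_cases l <;> simp [pt]

lemma det_pt (w : Fin 3 → Fin 3 → ℤ) (hw : ∀ a, ∑ k, w a k = 1) : (Matrix.of w).det =
    (w 1 1 - w 0 1) * (w 2 2 - w 0 2) - (w 2 1 - w 0 1) * (w 1 2 - w 0 2) := by
  rw [Matrix.det_fin_three]
  simp only [Matrix.of_apply]
  have h0 := hw 0
  have h1 := hw 1
  have h2 := hw 2
  rw [Fin.sum_univ_three] at h0 h1 h2
  have e0 : w 0 0 = 1 - w 0 1 - w 0 2 := by linarith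
  have e1 : w 1 0 = 1 - w 1 1 - w 1 2 := by linarith
  have e2 : w 2 0 = 1 - w 2 1 - w 2 2 := by linarith
  rw [e0, e1, e2]
  ring

theorem isUnimodularConfig_sqVerts : IsUnimodularConfig sqVerts where
  single_mem k := by
    rw [single_pt]
    fin_cases k <;> simp [sqVerts]
  sum_eq v hv := by
    simp only [sqVerts, Finset.mem_insert, Finset.mem_singleton] at hv
    rcases hv with rfl | rfl | rfl | rfl <;> exact sum_pt _ _
  abs_det_le w hw := by
    have hs : ∀ a, ∑ k, w a k = 1 := by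
      intro a
      have hv := hw a
      simp only [sqVerts, Finset.mem_insert, Finset.mem_singleton] at hv
      rcases hv with h | h | h | h <;> rw [h] <;> exact sum_pt _ _
    rw [det_pt w hs]
    have hb : ∀ a, (w a 1 = 0 ∨ w a 1 = 1) ∧ (w a 2 = 0 ∨ w a 2 = 1) := by
      intro a
      have hv := hw a
      rw [eq_pt (hs a), mem_sqVerts] at hv
      exact hv
    obtain ⟨a0, b0⟩ := hb 0
    obtain ⟨a1, b1⟩ := hb 1
    obtain ⟨a2, b2⟩ := hb 2
    rcases a0 with h | h <;> rcases b0 with h' | h' <;> rcases a1 with k | k <;> rcases b1 with k' | k' <;>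
      rcases a2 with l | l <;> rcases b2 with l' | l' <;> rw [h, h', k, k', l, l'] <;> norm_num
  mem_of_mem_poly z hz := by
    have h1 : poly sqVerts ⊆ {x : E 2 | (x 0 + x 1 + x 2 = 1) ∧ (0 ≤ x 1 ∧ x 1 ≤ 1) ∧ (0 ≤ x 2 ∧ x 2 ≤ 1)} := by
      apply convexHull_min
      · rintro _ ⟨v, hv, rfl⟩
        simp only [sqVerts, Finset.coe_insert, Finset.coe_singleton, Set.mem_insert_iff, Set.mem_singleton_iff] at hv
        rcases hv with rfl | rfl | rfl | rfl <;> simp [toReal, pt]
      · rintro x ⟨hx1, ⟨hx2, hx3⟩, hx4, hx5⟩ y ⟨hy1, ⟨hy2, hy3⟩, hy4, hy5⟩ a b ha hb hab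
        simp only [Set.mem_ofPred_eq, Pi.add_apply, Pi.smul_apply, smul_eq_mul]
        refine ⟨by linear_combination a * hx1 + b * hy1 + hab, ⟨by positivity, ?_⟩, ⟨by positivity, ?_⟩⟩
        · nlinarith
        · nlinarith
    obtain ⟨hz1, ⟨hz2, hz3⟩, hz4, hz5⟩ := h1 hz
    simp only [toReal] at hz1 hz2 hz3 hz4 hz5
    have hs : ∑ k, z k = 1 := by
      rw [Fin.sum_univ_three]; exact_mod_cast hz1
    rw [eq_pt hs, mem_sqVerts, Qm]
    have a1 : 0 ≤ z 1 := by exact_mod_cast hz2
    have a2 : z 1 ≤ 1 := by exact_mod_cast hz3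
    have a3 : 0 ≤ z 2 := by exact_mod_cast hz4
    have a4 : z 2 ≤ 1 := by exact_mod_cast hz5
    omega

/-- in dimension two there are, up to permutations of the coordinates, two unimodular configurations -/
theorem config_two {V : Finset (Fin 3 → ℤ)} (hV : IsUnimodularConfig (n := 2) V) :
    V = unitVerts 2 ∨ ∃ σ : Equiv.Perm (Fin 3), V = sqVerts.image fun v i => v (σ i) := by
  have h1 : ∀ v ∈ V, v ∈ unitVerts 2 ∨ v = ![-1, 1, 1] ∨ v = ![1, -1, 1] ∨ v = ![1, 1, -1] := by
    intro v hv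
    have hs := hV.sum_eq v hv
    have b0 := abs_le_of_config hV hv 0
    have b1 := abs_le_of_config hV hv 1
    have b2 := abs_le_of_config hV hv 2
    rw [abs_le] at b0 b1 b2
    have hs' := hs
    rw [Fin.sum_univ_three] at hs
    have hv' : v = ![v 0, v 1, v 2] := by funext k; fin_cases k <;> rfl
    by_cases c : (v 1 = 0 ∧ v 2 = 0) ∨ (v 1 = 1 ∧ v 2 = 0) ∨ (v 1 = 0 ∧ v 2 = 1)
    · left
      rw [eq_pt hs', mem_unitVerts_pt]
      exact c
    · right
      have : (v 0 = -1 ∧ v 1 = 1 ∧ v 2 = 1) ∨ (v 0 = 1 ∧ v 1 = -1 ∧ v 2 = 1) ∨ (v 0 = 1 ∧ v 1 = 1 ∧ v 2 = -1) := by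
        omega
      rcases this with ⟨h0, h1, h2⟩ | ⟨h0, h1, h2⟩ | ⟨h0, h1, h2⟩
      · left; rw [hv', h0, h1, h2]
      · right; left; rw [hv', h0, h1, h2]
      · right; right; rw [hv', h0, h1, h2]
  have hne : ∀ u v : Fin 3 → ℤ, ∀ k, u ∈ V → v ∈ V →
      |(u 1 - (Pi.single k 1 : Fin 3 → ℤ) 1) * (v 2 - (Pi.single k 1 : Fin 3 → ℤ) 2) -
        (v 1 - (Pi.single k 1 : Fin 3 → ℤ) 1) * (u 2 - (Pi.single k 1 : Fin 3 → ℤ) 2)| ≤ 1 := by
    intro u v k hu hv
    have hw : ∀ i : Fin 3, (![Pi.single k 1, u, v] : Fin 3 → Fin 3 → ℤ) i ∈ V := by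
      intro i
      fin_cases i
      · exact hV.single_mem k
      · exact hu
      · exact hv
    have := hV.abs_det_le (![Pi.single k 1, u, v] : Fin 3 → Fin 3 → ℤ) hw
    rw [det_pt _ (fun a => hV.sum_eq _ (hw a))] at this
    exact this
  have n01 : ¬ ((![-1, 1, 1] : Fin 3 → ℤ) ∈ V ∧ (![1, -1, 1] : Fin 3 → ℤ) ∈ V) := by
    rintro ⟨a, b⟩
    have := hne _ _ 0 a b
    simp at this
  have n02 : ¬ ((![-1, 1, 1] : Fin 3 → ℤ) ∈ V ∧ (![1, 1, -1] : Fin 3 → ℤ) ∈ V) := by
    rintro ⟨a, b⟩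
    have := hne _ _ 0 a b
    simp at this
  have n12 : ¬ ((![1, -1, 1] : Fin 3 → ℤ) ∈ V ∧ (![1, 1, -1] : Fin 3 → ℤ) ∈ V) := by
    rintro ⟨a, b⟩
    have := hne _ _ 1 a b
    simp at this
  have hsub : ∀ v ∈ unitVerts 2, v ∈ V := by
    intro v hv
    obtain ⟨i, rfl⟩ := mem_unitVerts.mp hv
    exact hV.single_mem i
  have hsq : ∀ v, v ∈ sqVerts ↔ v ∈ unitVerts 2 ∨ v = ![-1, 1, 1] := by
    intro v
    constructor
    · intro h
      have hs := isUnimodularConfig_sqVerts.sum_eq v h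
      have e := eq_pt hs
      rw [e, mem_sqVerts] at h
      rcases h with ⟨a | a, b | b⟩
      · left; rw [e, mem_unitVerts_pt]; exact Or.inl ⟨a, b⟩
      · left; rw [e, mem_unitVerts_pt]; exact Or.inr (Or.inr ⟨a, b⟩)
      · left; rw [e, mem_unitVerts_pt]; exact Or.inr (Or.inl ⟨a, b⟩)
      · right; rw [e, a, b]; rfl
    · rintro (h | h)
      · obtain ⟨i, rfl⟩ := mem_unitVerts.mp h
        exact isUnimodularConfig_sqVerts.single_mem i
      · rw [h]
        have : (![-1, 1, 1] : Fin 3 → ℤ) = pt 1 1 := rfl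
        rw [this, mem_sqVerts]; simp [Qm]
  have hkey : ∀ σ : Equiv.Perm (Fin 3), (fun i => (![-1, 1, 1] : Fin 3 → ℤ) (σ i)) ∈ V →
      (∀ v ∈ V, v ∈ unitVerts 2 ∨ v = fun i => (![-1, 1, 1] : Fin 3 → ℤ) (σ i)) →
      V = sqVerts.image fun v i => v (σ i) := by
    intro σ h2 h3
    ext v
    rw [Finset.mem_image]
    constructor
    · intro hv
      refine ⟨fun i => v (σ.symm i), ?_, by funext i; simp⟩
      rw [hsq]
      rcases h3 v hv with h | h
      · left
        obtain ⟨i, rfl⟩ := mem_unitVerts.mp h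
        rw [mem_unitVerts]
        refine ⟨σ i, ?_⟩
        funext j
        simp [Pi.single_apply, Equiv.symm_apply_eq]
      · right
        rw [h]
        funext i; simp
    · rintro ⟨u, hu, rfl⟩
      rw [hsq] at hu
      rcases hu with hu | hu
      · obtain ⟨i, rfl⟩ := mem_unitVerts.mp hu
        have : (fun j => (Pi.single i 1 : Fin 3 → ℤ) (σ j)) = Pi.single (σ.symm i) 1 := by
          funext j
          simp [Pi.single_apply, Equiv.eq_symm_apply]
        rw [this]; exact hV.single_mem _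
      · rw [hu]; exact h2
  by_cases a0 : (![-1, 1, 1] : Fin 3 → ℤ) ∈ V
  · right
    refine ⟨1, hkey 1 a0 fun v hv => ?_⟩
    rcases h1 v hv with h | h | h | h
    · left; exact h
    · right; exact h
    · exfalso; exact n01 ⟨a0, h ▸ hv⟩
    · exfalso; exact n02 ⟨a0, h ▸ hv⟩
  · by_cases a1 : (![1, -1, 1] : Fin 3 → ℤ) ∈ V
    · right
      have e : (fun i => (![-1, 1, 1] : Fin 3 → ℤ) ((Equiv.swap 0 1 : Equiv.Perm (Fin 3)) i)) = ![1, -1, 1] := by
        decide
      refine ⟨Equiv.swap 0 1, hkey _ (by rw [e]; exact a1) fun v hv => ?_⟩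
      rw [e]
      rcases h1 v hv with h | h | h | h
      · left; exact h
      · exfalso; exact a0 (h ▸ hv)
      · right; exact h
      · exfalso; exact n12 ⟨a1, h ▸ hv⟩
    · by_cases a2 : (![1, 1, -1] : Fin 3 → ℤ) ∈ V
      · right
        have e : (fun i => (![-1, 1, 1] : Fin 3 → ℤ) ((Equiv.swap 0 2 : Equiv.Perm (Fin 3)) i)) = ![1, 1, -1] := by
          decide
        refine ⟨Equiv.swap 0 2, hkey _ (by rw [e]; exact a2) fun v hv => ?_⟩
        rw [e]
        rcases h1 v hv with h | h | h | h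
        · left; exact h
        · exfalso; exact a0 (h ▸ hv)
        · exfalso; exact a1 (h ▸ hv)
        · right; exact h
      · left
        ext v
        constructor
        · intro hv
          rcases h1 v hv with h | h | h | h
          · exact h
          · exfalso; exact a0 (h ▸ hv)
          · exfalso; exact a1 (h ▸ hv)
          · exfalso; exact a2 (h ▸ hv)
        · exact hsub v

/-- among the unimodular configurations of the plane the unit triangle has the largest frequency -/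
theorem mobius_config_le {V : Finset (Fin 3 → ℤ)} (hV : IsUnimodularConfig (n := 2) V) :
    mobius 2 (CFof 2 (poly V)) ≤ mobius 2 (CFof 2 (poly (unitVerts 2))) := by
  rcases config_two hV with rfl | ⟨σ, rfl⟩
  · exact le_rfl
  · rw [mobius_poly hV, mobius_poly isUnimodularConfig_unitVerts, int_pm]
    exact key_le

/-- the unit triangle has the largest frequency -/
theorem mobius_two_le (s : Finset (Fin 3 → ℤ)) :
    mobius 2 (CFof 2 (poly s)) ≤ mobius 2 (CFof 2 (poly (unitVerts 2))) := by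
  obtain ⟨V, hV, h⟩ := config_le (n := 2) (mobius 2) s
  exact h.trans (mobius_config_le hV)

end Pool.Agent.Helper46.Sail
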