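import Pool.Agent.Helper46.Inversion
import Pool.Agent.Helper46.DetBound
import Pool.Agent.Helper46.TriangleMax
import Pool.Agent.Helper46.NearSimplex

open MeasureTheory Set
open scoped ENNReal

namespace Pool.Agent.Helper46.Sail

/-- the function `|x|^{-3/4}` on `[-1, 1]` -/
noncomputable def psi : ℝ → ℝ := Set.indicator (Set.Icc (-1) 1) (fun x => |x| ^ (-(3/4) : ℝ))

lemma psi_nonneg (x : ℝ) : 0 ≤ psi x := Set.indicator_nonneg (fun x _ => by positivity) x

lemma integrable_psi : Integrable psi := by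
  unfold psi
  rw [integrable_indicator_iff measurableSet_Icc]
  have h1 : IntegrableOn (fun x : ℝ => |x| ^ (-(3/4) : ℝ)) (Set.Icc 0 1) := by
    have h := intervalIntegral.intervalIntegrable_rpow' (a := 0) (b := 1) (r := -(3/4 : ℝ)) (by norm_num)
    rw [intervalIntegrable_iff_integrableOn_Icc_of_le zero_le_one] at h
    apply h.congr_fun _ measurableSet_Icc
    intro x hx
    simp only [abs_of_nonneg hx.1]
  have h2 : IntegrableOn (fun x : ℝ => |x| ^ (-(3/4) : ℝ)) (Set.Icc (-1) 0) := by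
    have h := (Measure.measurePreserving_neg (volume : Measure ℝ)).integrableOn_comp_preimage
      (f := fun x : ℝ => |x| ^ (-(3/4) : ℝ)) (s := Set.Icc 0 1) (Homeomorph.neg ℝ).measurableEmbedding
    have e1 : (fun x : ℝ => |x| ^ (-(3/4) : ℝ)) ∘ (Neg.neg : ℝ → ℝ) = fun x => |x| ^ (-(3/4) : ℝ) := by
      funext x; simp
    have e2 : (Neg.neg : ℝ → ℝ) ⁻¹' Set.Icc 0 1 = Set.Icc (-1) 0 := by
      ext x
      simp only [Set.mem_preimage, Set.mem_Icc]
      constructor <;> rintro ⟨a, b⟩ <;> constructor <;> linarith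
    rw [e1, e2] at h
    exact h.2 h1
  have h3 : Set.Icc (-1 : ℝ) 1 = Set.Icc (-1) 0 ∪ Set.Icc 0 1 := by
    rw [Set.Icc_union_Icc_eq_Icc] <;> norm_num
  rw [h3]
  exact h2.union h1

/-- the product of the values of `psi` -/
noncomputable def phi (u : Fin 3 → ℝ) : ℝ := ∏ j, psi (u j)

lemma integrable_phi : Integrable phi := by
  unfold phi
  exact Integrable.fintype_prod (f := fun _ => psi) fun _ => integrable_psi

/-- the shear subtracting the other coordinates from the `i`-th -/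
def rowM (i : Fin 3) : Matrix (Fin 3) (Fin 3) ℝ :=
  Matrix.of fun j l => if j = i then (if l = i then 1 else -1) else (if j = l then 1 else 0)

lemma det_rowM (i : Fin 3) : (rowM i).det = 1 := by
  rw [Matrix.det_fin_three]
  fin_cases i <;> simp [rowM]

lemma integrable_phi_row (i : Fin 3) : Integrable (fun u : Fin 3 → ℝ => phi ((rowM i).mulVec u)) := by
  have h1 : MeasurePreserving (Matrix.toLin' (rowM i)) (volume : Measure (Fin 3 → ℝ)) volume := by
    refine ⟨(LinearMap.continuous_of_finiteDimensional _).measurable, ?_⟩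
    rw [Real.map_matrix_volume_pi_eq_smul_volume_pi (by rw [det_rowM]; norm_num), det_rowM]
    simp
  exact h1.integrable_comp_of_integrable integrable_phi

lemma integrable_prod_phi : Integrable (fun A : Fr 2 => ∏ k : Fin 3, phi ((rowM k).mulVec (A k))) :=
  Integrable.fintype_prod (f := fun k u => phi ((rowM k).mulVec u)) fun k => integrable_phi_row k

/-- the set of dual frames -/
def setDual : Set (Fr 2) :=
  {A | ∀ k : Fin 3, ((∀ j, 0 ≤ A k j) ∨ (∀ j, A k j ≤ 0)) ∧ ∑ j ∈ Finset.univ.erase k, |A k j| < |A k k| ∧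
    1 ≤ |A k k|⁻¹ ∧ |A k k|⁻¹ < Real.exp 1}

lemma rpow_bound {X m P : ℝ} (hX : 0 < X) (hm : 0 < m) (hP : 0 < P) (h : m^12 * P ≤ X^4) :
    (X⁻¹)^3 ≤ (m^12)^(-(3/4) : ℝ) * P^(-(3/4) : ℝ) := by
  have h1 : (X^4)^(-(3/4) : ℝ) ≤ (m^12*P)^(-(3/4) : ℝ) :=
    Real.rpow_le_rpow_of_nonpos (by positivity) h (by norm_num)
  rw [Real.mul_rpow (by positivity) hP.le] at h1
  have h2 : (X^4)^(-(3/4) : ℝ) = (X⁻¹)^3 := by
    rw [← Real.rpow_natCast X 4, ← Real.rpow_mul hX.le, inv_pow, ← Real.rpow_natCast X 3, ← Real.rpow_neg hX.le]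
    norm_num
  rw [h2] at h1
  exact h1

lemma psi_eq {x y : ℝ} (h : |x| = y) (hy : y ≤ 1) : psi x = y ^ (-(3/4) : ℝ) := by
  unfold psi
  rw [Set.indicator_of_mem (show x ∈ Set.Icc (-1 : ℝ) 1 from abs_le.1 (h.trans_le hy)), h]

/-- the exponent of the smallest of three numbers -/
lemma row_large {m t p a b : ℝ} (ht : t = p + a + b) (hm : 3 * m ≤ t) : m ≤ p ∨ m ≤ a ∨ m ≤ b := by
  by_contra hcon
  push Not at hcon
  linarith [hcon.1, hcon.2.1, hcon.2.2]

theorem det_lower {A : Fr 2} (hA : A ∈ setDual) (hne : ∀ k j, (rowM k).mulVec (A k) j ≠ 0) :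
    (|dtm A|⁻¹)^3 ≤ (((Real.exp 1 * 3)⁻¹)^12)^(-(3/4) : ℝ) * ∏ k : Fin 3, phi ((rowM k).mulVec (A k)) := by
  have hs : ∀ k : Fin 3, ∃ s : ℝ, |s| = 1 ∧ ∀ j, |A k j| = s * A k j := by
    intro k
    rcases (hA k).1 with h | h
    · exact ⟨1, abs_one, fun j => by rw [abs_of_nonneg (h j), one_mul]⟩
    · exact ⟨-1, by simp, fun j => by rw [abs_of_nonpos (h j)]; ring⟩
  choose s hs1 hsA using hs
  have hdom : ∀ k : Fin 3, ∑ j ∈ Finset.univ.erase k, |A k j| < |A k k| := fun k => (hA k).2.1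
  have hle : ∀ k : Fin 3, |A k k| ≤ 1 := by
    intro k
    have h := (hA k).2.2.1
    by_contra hcon
    push Not at hcon
    have := inv_lt_one_of_one_lt₀ hcon
    linarith
  have hge : ∀ k : Fin 3, 3 * (Real.exp 1 * 3)⁻¹ ≤ |A k k| := by
    intro k
    have h := (hA k).2.2.2
    have h0 : 0 < |A k k| := by
      have h1 := (hA k).2.2.1
      by_contra hcon
      have : |A k k| = 0 := le_antisymm (not_lt.1 hcon) (abs_nonneg _)
      rw [this] at h1
      norm_num at h1
    have h2 : (Real.exp 1)⁻¹ ≤ |A k k| := by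
      rw [inv_le_comm₀ (Real.exp_pos 1) h0]
      exact h.le
    have h3 : 3 * (Real.exp 1 * 3)⁻¹ = (Real.exp 1)⁻¹ := by
      have := (Real.exp_pos 1).ne'
      field_simp
    rw [h3]; exact h2
  -- the diagonal differences
  have hd0 := hdom 0
  have hd1 := hdom 1
  have hd2 := hdom 2
  have u0 : (Finset.univ.erase (0 : Fin 3)) = {1, 2} := by decide
  have u1 : (Finset.univ.erase (1 : Fin 3)) = {0, 2} := by decide
  have u2 : (Finset.univ.erase (2 : Fin 3)) = {0, 1} := by decide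
  rw [u0, Finset.sum_pair (by decide)] at hd0
  rw [u1, Finset.sum_pair (by decide)] at hd1
  rw [u2, Finset.sum_pair (by decide)] at hd2
  -- values of the shears
  have r00 : |(rowM 0).mulVec (A 0) 0| = |A 0 0| - |A 0 1| - |A 0 2| := by
    have : (rowM 0).mulVec (A 0) 0 * s 0 = |A 0 0| - |A 0 1| - |A 0 2| := by
      rw [hsA, hsA, hsA]
      simp [rowM, Matrix.mulVec, dotProduct, Fin.sum_univ_three]
      ring
    have h2 := congrArg abs this
    rw [abs_mul, hs1, mul_one, abs_of_pos (by linarith : 0 < |A 0 0| - |A 0 1| - |A 0 2|)] at h2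
    exact h2
  have r11 : |(rowM 1).mulVec (A 1) 1| = |A 1 1| - |A 1 0| - |A 1 2| := by
    have : (rowM 1).mulVec (A 1) 1 * s 1 = |A 1 1| - |A 1 0| - |A 1 2| := by
      rw [hsA, hsA, hsA]
      simp [rowM, Matrix.mulVec, dotProduct, Fin.sum_univ_three]
      ring
    have h2 := congrArg abs this
    rw [abs_mul, hs1, mul_one, abs_of_pos (by linarith : 0 < |A 1 1| - |A 1 0| - |A 1 2|)] at h2
    exact h2
  have r22 : |(rowM 2).mulVec (A 2) 2| = |A 2 2| - |A 2 0| - |A 2 1| := by
    have : (rowM 2).mulVec (A 2) 2 * s 2 = |A 2 2| - |A 2 0| - |A 2 1| := by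
      rw [hsA, hsA, hsA]
      simp [rowM, Matrix.mulVec, dotProduct, Fin.sum_univ_three]
      ring
    have h2 := congrArg abs this
    rw [abs_mul, hs1, mul_one, abs_of_pos (by linarith : 0 < |A 2 2| - |A 2 0| - |A 2 1|)] at h2
    exact h2
  have roff : ∀ k j, j ≠ k → (rowM k).mulVec (A k) j = A k j := by
    intro k j hjk
    have : (rowM k).mulVec (A k) j = ∑ l, (if j = l then 1 else 0) * A k l := by
      simp only [rowM, Matrix.mulVec, dotProduct, Matrix.of_apply, if_neg hjk]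
    rw [this]; simp
  have hpos : ∀ k j, j ≠ k → 0 < |A k j| := by
    intro k j hjk
    have := hne k j
    rw [roff k j hjk] at this
    exact abs_pos.2 this
  -- names
  obtain ⟨p, hp⟩ : ∃ p, p = |A 0 0| - |A 0 1| - |A 0 2| := ⟨_, rfl⟩
  obtain ⟨a, ha⟩ : ∃ a, a = |A 0 1| := ⟨_, rfl⟩
  obtain ⟨b, hb⟩ : ∃ b, b = |A 0 2| := ⟨_, rfl⟩
  obtain ⟨q, hq⟩ : ∃ q, q = |A 1 1| - |A 1 0| - |A 1 2| := ⟨_, rfl⟩
  obtain ⟨c, hc⟩ : ∃ c, c = |A 1 0| := ⟨_, rfl⟩
  obtain ⟨d, hd⟩ : ∃ d, d = |A 1 2| := ⟨_, rfl⟩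
  obtain ⟨r, hr⟩ : ∃ r, r = |A 2 2| - |A 2 0| - |A 2 1| := ⟨_, rfl⟩
  obtain ⟨e, he⟩ : ∃ e, e = |A 2 0| := ⟨_, rfl⟩
  obtain ⟨f, hf⟩ : ∃ f, f = |A 2 1| := ⟨_, rfl⟩
  have l0 := hle 0
  have l1 := hle 1
  have l2 := hle 2
  have p0 : 0 < p := by linarith
  have a0 : 0 < a := by rw [ha]; exact hpos 0 1 (by decide)
  have b0 : 0 < b := by rw [hb]; exact hpos 0 2 (by decide)
  have q0 : 0 < q := by linarith
  have c0 : 0 < c := by rw [hc]; exact hpos 1 0 (by decide)
  have d0 : 0 < d := by rw [hd]; exact hpos 1 2 (by decide)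
  have r0 : 0 < r := by linarith
  have e0 : 0 < e := by rw [he]; exact hpos 2 0 (by decide)
  have f0 : 0 < f := by rw [hf]; exact hpos 2 1 (by decide)
  have t0 : |A 0 0| = p + a + b := by rw [hp, ha, hb]; ring
  have t1 : |A 1 1| = q + c + d := by rw [hq, hc, hd]; ring
  have t2 : |A 2 2| = r + e + f := by rw [hr, he, hf]; ring
  have hm0 : 0 < (Real.exp 1 * 3)⁻¹ := by positivity
  have hm1 : (Real.exp 1 * 3)⁻¹ ≤ 1 := by
    have := hge 0
    linarith
  have hbound := DD_bound hm0.le hm1 p0.le a0.le b0.le q0.le c0.le d0.le r0.le e0.le f0.le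
    (by linarith) (by linarith) (by linarith) (by linarith) (by linarith) (by linarith) (by linarith)
    (by linarith) (by linarith) (row_large t0 (hge 0)) (row_large t1 (hge 1)) (row_large t2 (hge 2))
  have hdet : |dtm A| = |DD p a b q c d r e f| := by
    have h1 : DD p a b q c d r e f = s 0 * s 1 * s 2 * dtm A := by
      rw [DD_eq_det, ← t0, ← t1, ← t2, ha, hb, hc, hd, he, hf, dtm]
      rw [Matrix.det_fin_three, Matrix.det_fin_three]
      simp only [hsA, Matrix.of_apply]
      simp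
      ring
    rw [h1, abs_mul, abs_mul, abs_mul, hs1, hs1, hs1, one_mul, one_mul, one_mul]
  have hDD0 : 0 < DD p a b q c d r e f := by
    unfold DD; positivity
  rw [abs_of_pos hDD0] at hdet
  rw [hdet]
  refine (rpow_bound hDD0 hm0 (by positivity) hbound).trans_eq ?_
  congr 1
  rw [Fin.prod_univ_three, phi, phi, phi, Fin.prod_univ_three, Fin.prod_univ_three, Fin.prod_univ_three]
  rw [psi_eq (r00.trans hp.symm) (by linarith), psi_eq (r11.trans hq.symm) (by linarith),
    psi_eq (r22.trans hr.symm) (by linarith)]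
  rw [roff 0 1 (by decide), roff 0 2 (by decide), roff 1 0 (by decide), roff 1 2 (by decide),
    roff 2 0 (by decide), roff 2 1 (by decide)]
  rw [psi_eq ha.symm (by linarith), psi_eq hb.symm (by linarith), psi_eq hc.symm (by linarith),
    psi_eq hd.symm (by linarith), psi_eq he.symm (by linarith), psi_eq hf.symm (by linarith)]
  rw [Real.mul_rpow (by positivity) (by positivity), Real.mul_rpow (by positivity) (by positivity),
    Real.mul_rpow (by positivity) (by positivity), Real.mul_rpow (by positivity) (by positivity),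
    Real.mul_rpow (by positivity) (by positivity), Real.mul_rpow (by positivity) (by positivity),
    Real.mul_rpow (by positivity) (by positivity), Real.mul_rpow (by positivity) (by positivity)]
  ring

end Pool.Agent.Helper46.Sail
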