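import Pool.Agent.Helper46.StrictSquare

open MeasureTheory Set Filter
open scoped ENNReal Topology Pointwise

namespace Pool.Agent.Helper46.Sail

variable {n : ℕ}

lemma mapOf_sum (w : Fin (n+1) → Fin (n+1) → ℤ) (hw : LinearIndependent ℝ (fun i => toReal (w i))) (x : E n) :
    x = ∑ i, mapOf w hw x i • toReal (w i) := by
  rw [← mapOf_symm_apply w hw, LinearEquiv.symm_apply_apply]

/-- If the polytope `F` pulls back to the unit simplex and has the same measure as the unit simplex then
integer vectors whose coordinates satisfy an open condition lie on or beyond the hyperplane of `F`. -/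
theorem nonviolation {F : Set (E n)} (hb : Bornology.IsBounded F) {w : Fin (n+1) → Fin (n+1) → ℤ}
    (hdet : (Matrix.of w).det ≠ 0) (hwF : ∀ i, toReal (w i) ∈ F)
    (hpull : pull w F = (unitVerts n : Set (Fin (n+1) → ℤ)))
    (hfin : mobius n (CFof n (poly (unitVerts n))) ≠ ⊤)
    (heq : mobius n (CFof n F) = mobius n (CFof n (poly (unitVerts n))))
    {x : Fin (n+1) → ℤ} (hx : x ≠ 0) {θ : ℝ} (hθ : 0 < θ) (hθ1 : θ < 1)
    (hy : ∀ k, 0 < mapOf w (linearIndependent_of_det hdet) (toReal x) k +
      θ * ∑ i, mapOf w (linearIndependent_of_det hdet) (toReal x) i) :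
    1 ≤ ∑ i, mapOf w (linearIndependent_of_det hdet) (toReal x) i ∧
      (∑ i, mapOf w (linearIndependent_of_det hdet) (toReal x) i = 1 → toReal x ∈ F) := by
  set A := mapOf w (linearIndependent_of_det hdet) with hA
  by_contra hcon
  have hsub : A • CFof n F ⊆ missing (unitVerts n) (A (toReal x)) := by
    rintro _ ⟨κ, ⟨C, hC, hface⟩, rfl⟩
    refine ⟨A '' C, isConeOf_smul hC _, ?_, ?_⟩
    · obtain ⟨b, hb', -, rfl⟩ := hC
      have h1 := pull_face hdet hb hwF hface
      rw [hpull, ← hA, image_cone] at h1
      rw [image_cone]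
      exact (face_iff isUnimodularConfig_unitVerts).1 h1
    · rintro ⟨u, hu, hux⟩
      have hux' : u = toReal x := A.injective hux
      subst hux'
      obtain ⟨b, hb', -, rfl⟩ := hC
      obtain ⟨l, c, hc, hl, hF, hF', -⟩ := face_data hb hface
      have h1 : ∀ i, l (toReal (w i)) = c := by
        intro i
        have := hwF i
        rw [hF] at this; exact this.2
      have h2 : l (toReal x) = c * ∑ i, A (toReal x) i := by
        conv_lhs => rw [mapOf_sum w (linearIndependent_of_det hdet) (toReal x)]
        rw [map_sum, Finset.mul_sum]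
        refine Finset.sum_congr rfl fun i _ => ?_
        rw [map_smul, h1, smul_eq_mul, mul_comm]
      have h3 : toReal x ∈ hull (cone b) :=
        subset_convexHull ℝ _ ⟨hu, toReal_ne_zero.2 hx, x, rfl⟩
      have h4 := hl _ h3
      rw [h2] at h4
      apply hcon
      refine ⟨?_, fun h5 => ?_⟩
      · by_contra h6
        push Not at h6
        nlinarith
      · rw [hF]
        exact ⟨h3, by rw [h2, h5, mul_one]⟩
  have h1 : mobius n (CFof n F) ≤ mobius n (missing (unitVerts n) (A (toReal x))) :=
    mono_of_subset (mobius n) hsub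
  have h2 := missing_lt hθ hθ1 hy hfin
  rw [heq] at h1
  exact absurd h2 (not_lt.2 h1)

/-- data of an extremal polygon -/
structure Ext (F : Set (E 2)) (w : Fin 3 → Fin 3 → ℤ) (A : E 2 ≃ₗ[ℝ] E 2) : Prop where
  symm_apply : ∀ x : E 2, x = ∑ i, A x i • toReal (w i)
  apply_w : ∀ i, A (toReal (w i)) = Pi.single i 1
  mem : ∀ i, toReal (w i) ∈ F
  max : ∀ w' : Fin 3 → Fin 3 → ℤ, (∀ i, toReal (w' i) ∈ F) → |(Matrix.of w').det| ≤ |(Matrix.of w).det|
  det : (Matrix.of w).det ≠ 0
  nv : ∀ (x : Fin 3 → ℤ), x ≠ 0 → ∀ θ : ℝ, 0 < θ → θ < 1 → (∀ k, 0 < A (toReal x) k + θ * ∑ i, A (toReal x) i) →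
    1 ≤ ∑ i, A (toReal x) i ∧ (∑ i, A (toReal x) i = 1 → toReal x ∈ F)

variable {F : Set (E 2)} {w : Fin 3 → Fin 3 → ℤ} {A : E 2 ≃ₗ[ℝ] E 2}

lemma toReal_sub (a b : Fin 3 → ℤ) : (toReal (a - b) : E 2) = toReal a - toReal b := by
  funext i; simp [toReal]

lemma Ext.apply_comb (h : Ext F w A) (m : Fin 3 → ℤ) : A (toReal (comb (n := 2) w m)) = toReal m := by
  rw [toReal_comb, map_sum]
  funext j
  rw [Finset.sum_apply]
  simp only [map_smul, h.apply_w, Pi.smul_apply, smul_eq_mul, Pi.single_apply]
  simp

/-- the integer vector with prescribed integer parts of the coordinates -/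
lemma Ext.shift (h : Ext F w A) (x m : Fin 3 → ℤ) :
    ∃ x' : Fin 3 → ℤ, ∀ k, A (toReal x') k = Int.fract (A (toReal x) k) + m k := by
  refine ⟨x - comb (n := 2) w (fun k => ⌊A (toReal x) k⌋) + comb (n := 2) w m, fun k => ?_⟩
  rw [toReal_add, toReal_sub, map_add, map_sub, h.apply_comb, h.apply_comb]
  simp only [Pi.add_apply, Pi.sub_apply, toReal, Int.fract]

lemma Ext.det_replace (h : Ext F w A) (x : Fin 3 → ℤ) (a : Fin 3) :
    ((Matrix.of (Function.update w a x)).det : ℝ) = A (toReal x) a * (Matrix.of w).det := by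
  have h1 : ((Matrix.of (Function.update w a x)).map (Int.cast : ℤ → ℝ)) =
      (Matrix.of fun i => toReal (w i)).updateRow a (∑ i, A (toReal x) i • (Matrix.of fun i => toReal (w i)) i) := by
    ext i j
    by_cases hi : i = a
    · subst hi
      rw [Matrix.updateRow_self]
      have := congrFun (h.symm_apply (toReal x)) j
      simp only [Matrix.map_apply, Matrix.of_apply, Function.update_self]
      exact this
    · rw [Matrix.updateRow_ne hi]
      simp [Function.update_of_ne hi, toReal]
  rw [Int.cast_det, h1, Matrix.det_updateRow_sum, smul_eq_mul, Int.cast_det]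
  rfl

lemma Ext.one_lt_sum (h : Ext F w A) (x : Fin 3 → ℤ) (hx : ∃ k, Int.fract (A (toReal x) k) ≠ 0) :
    1 < ∑ k, Int.fract (A (toReal x) k) := by
  set f : Fin 3 → ℝ := fun k => Int.fract (A (toReal x) k) with hf
  have hf0 : ∀ k, 0 ≤ f k := fun k => Int.fract_nonneg _
  have hf1 : ∀ k, f k < 1 := fun k => Int.fract_lt_one _
  obtain ⟨b, hb⟩ := hx
  have hfb : 0 < f b := lt_of_le_of_ne (hf0 b) (Ne.symm hb)
  have hzpos : 0 < ∑ k, f k := Finset.sum_pos' (fun k _ => hf0 k) ⟨b, Finset.mem_univ _, hfb⟩
  obtain ⟨x0, hx0⟩ := h.shift x 0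
  have hx0' : ∀ k, A (toReal x0) k = f k := fun k => by rw [hx0]; simp [hf]
  have hx0ne : x0 ≠ 0 := by
    rintro rfl
    have := hx0' b
    have h0 : (toReal (0 : Fin 3 → ℤ) : E 2) = 0 := by funext i; simp [toReal]
    rw [h0, map_zero] at this
    exact hb this.symm
  have hge : 1 ≤ ∑ k, f k := by
    have := (h.nv x0 hx0ne (1/2) (by norm_num) (by norm_num) (fun k => by
      simp only [hx0']
      have := hf0 k
      positivity)).1
    simpa only [hx0'] using this
  by_contra hcon
  have hsum : ∑ k, f k = 1 := le_antisymm (not_lt.1 hcon) hge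
  -- another nonzero coordinate
  obtain ⟨a, hab, ha⟩ : ∃ a, a ≠ b ∧ 0 < f a := by
    by_contra hc
    push Not at hc
    have h1 : ∑ k, f k = f b := by
      rw [← Finset.add_sum_erase _ _ (Finset.mem_univ b)]
      have : ∑ k ∈ Finset.univ.erase b, f k = 0 := by
        apply Finset.sum_eq_zero
        intro k hk
        exact le_antisymm (hc k (Finset.ne_of_mem_erase hk)) (hf0 k)
      rw [this, add_zero]
    have := hf1 b
    linarith
  obtain ⟨x1, hx1⟩ := h.shift x (Pi.single a 1 - Pi.single b 1)
  have hx1' : ∀ k, A (toReal x1) k = f k + ((if k = a then 1 else 0) - (if k = b then 1 else 0)) := by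
    intro k
    rw [hx1]
    simp only [hf, Pi.sub_apply, Pi.single_apply]
    push_cast
    rfl
  have hs1 : ∑ k, A (toReal x1) k = 1 := by
    simp only [hx1', Finset.sum_add_distrib, Finset.sum_sub_distrib]
    rw [hsum]; simp
  have hx1a : A (toReal x1) a = f a + 1 := by rw [hx1']; simp [hab]
  have hx1ne : x1 ≠ 0 := by
    rintro rfl
    have h0 : (toReal (0 : Fin 3 → ℤ) : E 2) = 0 := by funext i; simp [toReal]
    rw [h0, map_zero] at hx1a
    have : (0 : E 2) a = 0 := rfl
    rw [this] at hx1a
    linarith
  have hmem := (h.nv x1 hx1ne (1 - f b / 2) (by linarith [hf1 b]) (by linarith) (fun k => by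
    rw [hs1, hx1']
    have := hf0 k
    have := hf1 b
    by_cases hka : k = a
    · subst hka
      simp only [if_true, hab, if_false]
      linarith
    · by_cases hkb : k = b
      · subst hkb
        simp only [hka, if_false, if_true]
        linarith
      · simp only [hka, hkb, if_false]
        linarith)).2 hs1
  have hdet := h.max (Function.update w a x1) (fun i => by
    by_cases hi : i = a
    · subst hi; simpa using hmem
    · rw [Function.update_of_ne hi]; exact h.mem i)
  have hdr := h.det_replace x1 a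
  rw [hx1a] at hdr
  have h1 : (|(Matrix.of (Function.update w a x1)).det| : ℝ) = (f a + 1) * |((Matrix.of w).det : ℝ)| := by
    rw [hdr, abs_mul, abs_of_pos (by linarith : 0 < f a + 1)]
  have h2 : (|(Matrix.of (Function.update w a x1)).det| : ℝ) ≤ |((Matrix.of w).det : ℝ)| := by exact_mod_cast hdet
  have h3 : 0 < |((Matrix.of w).det : ℝ)| := abs_pos.2 (by exact_mod_cast h.det)
  nlinarith

/-- the coordinates of the integer vectors are integers or half integers -/
theorem Ext.fract (h : Ext F w A) (x : Fin 3 → ℤ) :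
    (∀ k, Int.fract (A (toReal x) k) = 0) ∨ (∀ k, Int.fract (A (toReal x) k) = 1 / 2) := by
  by_cases hx : ∃ k, Int.fract (A (toReal x) k) ≠ 0
  · right
    set f : Fin 3 → ℝ := fun k => Int.fract (A (toReal x) k) with hf
    have hf0 : ∀ k, 0 ≤ f k := fun k => Int.fract_nonneg _
    have hf1 : ∀ k, f k < 1 := fun k => Int.fract_lt_one _
    have hneg : (toReal (-x) : E 2) = - toReal x := by funext i; simp [toReal]
    have hg : ∀ k, Int.fract (A (toReal (-x)) k) = if f k = 0 then 0 else 1 - f k := by
      intro k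
      rw [hneg, map_neg, Pi.neg_apply]
      split_ifs with h0
      · rw [Int.fract_neg_eq_zero]; exact h0
      · rw [Int.fract_neg h0]
    have hz := h.one_lt_sum x hx
    have hz' := h.one_lt_sum (-x) (by
      obtain ⟨k, hk⟩ := hx
      refine ⟨k, ?_⟩
      rw [hg, if_neg hk]
      have := hf1 k
      linarith)
    simp only [hg] at hz'
    have hzf : 1 < ∑ k, f k := hz
    rw [Fin.sum_univ_three] at hz' hzf
    have hall : ∀ k, f k ≠ 0 := by
      intro k hk
      have hle : ∀ j, f j + (if f j = 0 then 0 else 1 - f j) ≤ 1 := by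
        intro j; split_ifs with h0
        · rw [h0]; norm_num
        · linarith
      have hkk : f k + (if f k = 0 then 0 else 1 - f k) = 0 := by rw [if_pos hk, hk]; norm_num
      have h0 := hle 0
      have h1 := hle 1
      have h2 := hle 2
      fin_cases k
      · simp only [Fin.zero_eta] at hkk; linarith
      · simp only [Fin.mk_one] at hkk; linarith
      · simp only [Fin.reduceFinMk] at hkk; linarith
    rw [if_neg (hall 0), if_neg (hall 1), if_neg (hall 2)] at hz'
    set z := f 0 + f 1 + f 2 with hzdef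
    have hz2 : z < 2 := by linarith
    -- the key inequality, for `x` and `-x`
    have key : ∀ (u : Fin 3 → ℤ) (g : Fin 3 → ℝ), (∀ k, Int.fract (A (toReal u) k) = g k) → (∀ k, 0 < g k) →
        (∀ k, g k < 1) → 1 < g 0 + g 1 + g 2 → g 0 + g 1 + g 2 < 2 → ∀ j, g j + (g 0 + g 1 + g 2) ≤ 2 := by
      intro u g hu hg0 hg1 hz1 hz2 j
      by_contra hcon
      push Not at hcon
      obtain ⟨x1, hx1⟩ := h.shift u (-Pi.single j 1)
      have hx1' : ∀ k, A (toReal x1) k = g k - (if k = j then 1 else 0) := by
        intro k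
        rw [hx1, hu]
        simp only [Pi.neg_apply, Pi.single_apply]
        push_cast
        ring
      have hs1 : ∑ k, A (toReal x1) k = g 0 + g 1 + g 2 - 1 := by
        simp only [hx1', Finset.sum_sub_distrib]
        rw [Finset.sum_ite_eq' Finset.univ j, Fin.sum_univ_three]
        simp
      have hx1ne : x1 ≠ 0 := by
        rintro rfl
        have h0 : (toReal (0 : Fin 3 → ℤ) : E 2) = 0 := by funext i; simp [toReal]
        rw [h0, map_zero] at hs1
        simp at hs1
        linarith
      set t := (1 - g j) / (g 0 + g 1 + g 2 - 1) with ht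
      have hden : 0 < g 0 + g 1 + g 2 - 1 := by linarith
      have ht1 : t < 1 := by rw [ht, div_lt_one hden]; linarith
      have ht0 : 0 < t := div_pos (by linarith [hg1 j]) hden
      have htm : t * (g 0 + g 1 + g 2 - 1) = 1 - g j := by rw [ht]; field_simp
      have := (h.nv x1 hx1ne ((t + 1) / 2) (by linarith) (by linarith) (fun k => by
        rw [hs1, hx1']
        have hgk := hg0 k
        by_cases hkj : k = j
        · subst hkj
          simp only [if_true]
          nlinarith
        · simp only [hkj, if_false]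
          have : 0 < (t + 1) / 2 * (g 0 + g 1 + g 2 - 1) := mul_pos (by linarith) hden
          linarith)).1
      rw [hs1] at this
      linarith
    have k1 := key x f (fun k => rfl) (fun k => lt_of_le_of_ne (hf0 k) (Ne.symm (hall k))) hf1 hzf hz2
    have k2 := key (-x) (fun k => 1 - f k) (fun k => by rw [hg, if_neg (hall k)]) (fun k => by linarith [hf1 k])
      (fun k => by have := lt_of_le_of_ne (hf0 k) (Ne.symm (hall k)); linarith) (by simpa using hz') (by linarith)
    have a0 := k1 0
    have a1 := k1 1
    have a2 := k1 2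
    have b0 := k2 0
    have b1 := k2 1
    have b2 := k2 2
    intro k
    show f k = 1 / 2
    fin_cases k
    · simp only [Fin.zero_eta]; linarith
    · simp only [Fin.mk_one]; linarith
    · simp only [Fin.reduceFinMk]; linarith
  · left
    push Not at hx
    exact hx

end Pool.Agent.Helper46.Sail
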