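import Pool.Agent.Helper46.MobiusInv

open MeasureTheory Set
open scoped ENNReal LinearAlgebra.Projectivization

namespace Pool.Agent.Helper46.Sail

variable {n : ℕ}

/-- the conditions on a cone equivalent to having the polytope of a configuration as a face -/
structure FaceCond (V : Finset (Fin (n+1) → ℤ)) (C : Set (E n)) : Prop where
  sub : ∀ v ∈ V, toReal v ∈ C
  ge : ∀ v : Fin (n+1) → ℤ, v ≠ 0 → toReal v ∈ C → 1 ≤ ∑ i, v i
  eq : ∀ v : Fin (n+1) → ℤ, toReal v ∈ C → ∑ i, v i = 1 → v ∈ V

lemma toReal_ne_zero {v : Fin (n+1) → ℤ} : toReal v ≠ 0 ↔ v ≠ 0 := by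
  have h0 : toReal (0 : Fin (n+1) → ℤ) = 0 := by funext i; simp [toReal]
  rw [← h0, Ne, Ne, toReal_injective.eq_iff]

lemma sum_toReal (v : Fin (n+1) → ℤ) : ∑ i, toReal v i = ((∑ i, v i : ℤ) : ℝ) := by
  push_cast; rfl

lemma toReal_mem_pts {v : Fin (n+1) → ℤ} {C : Set (E n)} : toReal v ∈ pts C ↔ toReal v ∈ C ∧ v ≠ 0 := by
  constructor
  · rintro ⟨h1, h2, -⟩; exact ⟨h1, toReal_ne_zero.1 h2⟩
  · rintro ⟨h1, h2⟩; exact ⟨h1, toReal_ne_zero.2 h2, v, rfl⟩

/-- the sum of coordinates -/
noncomputable def sumL (n : ℕ) : E n →ₗ[ℝ] ℝ := ∑ i, LinearMap.proj i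

lemma sumL_apply (x : E n) : sumL n x = ∑ i, x i := by simp [sumL]

theorem face_iff {V : Finset (Fin (n+1) → ℤ)} (hV : IsUnimodularConfig V) {b : Fr n} :
    IsSailFace (cone b) (poly V) ↔ FaceCond V (cone b) := by
  constructor
  · intro h
    obtain ⟨l, c, hc, hl, hF, hF', -⟩ := face_data (poly_bounded _) h
    have he : ∀ i, toReal (Pi.single i (1:ℤ)) ∈ poly V := fun i => poly_mem (hV.single_mem i)
    have h1 : ∀ i, l (Pi.single i (1:ℝ)) = c := by
      intro i
      have := he i
      rw [hF, toReal_single] at this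
      exact this.2
    have h2 : ∀ x : E n, l x = c * ∑ i, x i := by
      intro x
      have hx : x = ∑ i, x i • (Pi.single i (1:ℝ) : E n) := by
        funext j; simp [Finset.sum_apply, Pi.single_apply]
      conv_lhs => rw [hx]
      rw [map_sum, Finset.mul_sum]
      refine Finset.sum_congr rfl fun i _ => ?_
      rw [map_smul, h1, smul_eq_mul, mul_comm]
    refine ⟨fun v hv => ?_, fun v hv0 hv => ?_, fun v hv hv1 => ?_⟩
    · have h3 := poly_mem hv
      rw [hF] at h3
      exact hull_subset h3.1
    · have h3 := hl _ (subset_convexHull ℝ _ (toReal_mem_pts.2 ⟨hv, hv0⟩))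
      rw [h2, sum_toReal] at h3
      have h4 : (1:ℝ) ≤ ((∑ i, v i : ℤ) : ℝ) := by
        by_contra hcon
        push Not at hcon
        nlinarith
      exact_mod_cast h4
    · apply hV.mem_of_mem_poly
      rw [hF]
      have hv0 : v ≠ 0 := by rintro rfl; simp at hv1
      refine ⟨subset_convexHull ℝ _ (toReal_mem_pts.2 ⟨hv, hv0⟩), ?_⟩
      rw [h2, sum_toReal, hv1]; simp
  · rintro ⟨hsub, hge, heq⟩
    have hLpts : ∀ x ∈ pts (cone b), 1 ≤ sumL n x := by
      rintro x ⟨hx, hx0, z, rfl⟩
      rw [sumL_apply, sum_toReal]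
      exact_mod_cast hge z (toReal_ne_zero.1 hx0) hx
    have hset : {x | x ∈ pts (cone b) ∧ sumL n x = 1} = toReal '' (V : Set (Fin (n+1) → ℤ)) := by
      ext x
      constructor
      · rintro ⟨⟨hx, hx0, z, rfl⟩, h1⟩
        rw [sumL_apply, sum_toReal] at h1
        exact ⟨z, by simpa using heq z hx (by exact_mod_cast h1), rfl⟩
      · rintro ⟨z, hz, rfl⟩
        have hz' : z ∈ V := by simpa using hz
        have hz1 := hV.sum_eq z hz'
        refine ⟨toReal_mem_pts.2 ⟨hsub z hz', ?_⟩, ?_⟩
        · rintro rfl; simp at hz1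
        · rw [sumL_apply, sum_toReal, hz1]; simp
    have hmem : ∀ i, Pi.single i (1:ℝ) ∈ toReal '' (V : Set (Fin (n+1) → ℤ)) := fun i =>
      ⟨Pi.single i 1, by simpa using hV.single_mem i, toReal_single i⟩
    refine ⟨?_, ?_, sumL n, 1, ?_, ?_, ?_⟩
    · rw [poly, convexHull_nonempty_iff]
      exact ⟨_, hmem 0⟩
    · rw [poly, ← direction_affineSpan, affineSpan_convexHull, direction_affineSpan]
      have hai : AffineIndependent ℝ (fun i : Fin (n+1) => (Pi.single i (1:ℝ) : E n)) := by
        have hli : LinearIndependent ℝ (fun i : Fin (n+1) => (Pi.single i (1:ℝ) : E n)) := by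
          have := (Pi.basisFun ℝ (Fin (n+1))).linearIndependent
          convert this using 1
          funext i
          simp
        exact hli.affineIndependent
      have h2 := hai.finrank_vectorSpan (n := n) (by simp)
      have h3 : vectorSpan ℝ (Set.range (fun i : Fin (n+1) => (Pi.single i (1:ℝ) : E n))) ≤
          vectorSpan ℝ (toReal '' (V : Set (Fin (n+1) → ℤ))) := by
        apply vectorSpan_mono
        rintro _ ⟨i, rfl⟩
        exact hmem i
      have h4 := Submodule.finrank_mono h3
      have h5 : vectorSpan ℝ (toReal '' (V : Set (Fin (n+1) → ℤ))) ≤ LinearMap.ker (sumL n) := by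
        rw [vectorSpan_def, Submodule.span_le]
        rintro _ ⟨a, ha, a', ha', rfl⟩
        rw [← hset] at ha ha'
        simp [ha.2, ha'.2]
      have h6 : LinearMap.ker (sumL n) ≠ ⊤ := by
        intro h
        have : (Pi.single 0 (1:ℝ) : E n) ∈ LinearMap.ker (sumL n) := h ▸ Submodule.mem_top
        rw [LinearMap.mem_ker, sumL_apply] at this
        simp at this
      have h7 : Module.finrank ℝ (LinearMap.ker (sumL n)) < Module.finrank ℝ (E n) :=
        Submodule.finrank_lt h6
      have h8 : Module.finrank ℝ (vectorSpan ℝ (toReal '' (V : Set (Fin (n+1) → ℤ)))) ≤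
        Module.finrank ℝ (LinearMap.ker (sumL n)) := Submodule.finrank_mono h5
      have h9 : Module.finrank ℝ (E n) = n + 1 := Module.finrank_fin_fun ℝ
      omega
    · intro h0
      have h1 := hmem 0
      rw [← hset] at h1
      have := h1.2
      rw [h0] at this
      simp at this
    · have : hull (cone b) ⊆ {x | 1 ≤ sumL n x} :=
        convexHull_min hLpts (convex_halfSpace_ge (LinearMap.isLinear _) 1)
      exact this
    · rw [poly, ← hset]
      exact (face_convexHull hLpts).symm

/-! ### Cones of a frame -/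

/-- sign vectors -/
def sgn (ε : Fin (n+1) → Bool) (i : Fin (n+1)) : ℝ := if ε i then 1 else -1

lemma sgn_ne (ε : Fin (n+1) → Bool) (i : Fin (n+1)) : sgn ε i ≠ 0 := by
  unfold sgn; split_ifs <;> norm_num

lemma sgn_mul_self (ε : Fin (n+1) → Bool) (i : Fin (n+1)) : sgn ε i * sgn ε i = 1 := by
  unfold sgn; split_ifs <;> norm_num

lemma cone_perm (b : Fr n) (σ : Equiv.Perm (Fin (n+1))) : cone (fun i => b (σ i)) = cone b := by
  ext x
  constructor
  · rintro ⟨t, ht, rfl⟩
    refine ⟨fun i => t (σ.symm i), fun i => ht _, ?_⟩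
    rw [← Equiv.sum_comp σ (fun i => t (σ.symm i) • b i)]
    simp
  · rintro ⟨t, ht, rfl⟩
    refine ⟨fun i => t (σ i), fun i => ht _, ?_⟩
    exact (Equiv.sum_comp σ (fun i => t i • b i)).symm

lemma cone_smul (b : Fr n) {r : Fin (n+1) → ℝ} (hr : ∀ i, 0 < r i) : cone (fun i => r i • b i) = cone b := by
  ext x
  constructor
  · rintro ⟨t, ht, rfl⟩
    exact ⟨fun i => t i * r i, fun i => mul_nonneg (ht i) (hr i).le, by simp [mul_smul]⟩
  · rintro ⟨t, ht, rfl⟩
    refine ⟨fun i => t i / r i, fun i => div_nonneg (ht i) (hr i).le, ?_⟩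
    refine Finset.sum_congr rfl fun i _ => ?_
    rw [smul_smul, div_mul_cancel₀ _ (hr i).ne']

/-- the cones of the continued fraction of a frame are the `2^{n+1}` sign changes -/
lemma isConeOf_ofFrame {B : Fr n} (hB : LinearIndependent ℝ B) {C : Set (E n)} :
    IsConeOf (ofFrame B) C ↔ ∃ ε, C = cone (fun i => sgn ε i • B i) := by
  constructor
  · rintro ⟨b, hb, hκ, rfl⟩
    rw [ofFrame_val hB] at hκ
    -- each `b i` is a multiple of some `B (σ i)`
    have h1 : ∀ i, ∃ j, ∃ t : ℝ, t ≠ 0 ∧ b i = t • B j := by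
      intro i
      have : Projectivization.mk ℝ (b i) (hb.ne_zero i) ∈
          Set.range fun i => Projectivization.mk ℝ (B i) (hB.ne_zero i) := by
        rw [hκ]; exact ⟨i, rfl⟩
      obtain ⟨j, hj⟩ := this
      rw [eq_comm, Projectivization.mk_eq_mk_iff] at hj
      obtain ⟨a, ha⟩ := hj
      exact ⟨j, a, a.ne_zero, ha.symm⟩
    choose σ t ht hbt using h1
    have hinj : Function.Injective σ := by
      intro i i' hii
      by_contra hne
      have h2 : t i' • b i = t i • b i' := by
        rw [hbt i, hbt i', hii, smul_smul, smul_smul, mul_comm]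
      have h4 : LinearIndependent ℝ ![b i, b i'] := by
        have := hb.comp ![i, i'] (by
          intro x y hxy
          fin_cases x <;> fin_cases y <;> simp_all)
        convert this using 1
        funext x
        fin_cases x <;> rfl
      rw [LinearIndependent.pair_iff] at h4
      have := h4 (t i') (-(t i)) (by rw [neg_smul, h2]; simp)
      exact ht i' this.1
    let e : Equiv.Perm (Fin (n+1)) := Equiv.ofBijective σ (Finite.injective_iff_bijective.mp hinj)
    have he : ∀ i, e i = σ i := fun _ => rfl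
    refine ⟨fun j => decide (0 < t (e.symm j)), ?_⟩
    have h5 : b = fun i => |t i| • ((fun j => sgn (fun j => decide (0 < t (e.symm j))) j • B j) (e i)) := by
      funext i
      rw [hbt i, he]
      have : e.symm (σ i) = i := by rw [← he, Equiv.symm_apply_apply]
      have key : sgn (fun j => decide (0 < t (e.symm j))) (σ i) = if 0 < t i then 1 else -1 := by
        simp only [sgn, this, decide_eq_true_eq]
      simp only
      rw [key]
      rcases lt_or_gt_of_ne (ht i) with h | h
      · rw [if_neg (by linarith), abs_of_neg h, smul_smul]; simp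
      · rw [if_pos h, abs_of_pos h, one_smul]
    rw [h5, cone_smul _ (fun i => abs_pos.mpr (ht i))]
    exact cone_perm (fun j => sgn (fun j => decide (0 < t (e.symm j))) j • B j) e
  · rintro ⟨ε, rfl⟩
    have hli : LinearIndependent ℝ (fun i => sgn ε i • B i) := by
      have := hB.units_smul (fun i => Units.mk0 (sgn ε i) (sgn_ne ε i))
      exact this
    refine ⟨_, hli, ?_, rfl⟩
    rw [ofFrame_val hB]
    congr 1
    funext i
    rw [Projectivization.mk_eq_mk_iff']
    exact ⟨sgn ε i, by rw [smul_smul, sgn_mul_self, one_smul]⟩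

end Pool.Agent.Helper46.Sail
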