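import Pool.Agent.Helper46.FaceCone

open MeasureTheory Set
open scoped ENNReal LinearAlgebra.Projectivization

namespace Pool.Agent.Helper46.Sail

variable {n : ℕ}

/-- coordinates of a vector in the frame -/
noncomputable def coord (B : Fr n) (v : E n) (k : Fin (n+1)) : ℝ := Matrix.vecMul v (Matrix.of B)⁻¹ k

/-- coordinate sums of the vectors of the frame -/
def zs (B : Fr n) (k : Fin (n+1)) : ℝ := ∑ j, B k j

/-- the normalised coordinates -/
noncomputable def lam (B : Fr n) (v : E n) (k : Fin (n+1)) : ℝ := zs B k * coord B v k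

lemma sum_coord {B : Fr n} (hB : dtm B ≠ 0) (v : E n) : ∑ k, coord B v k • B k = v := by
  have h1 : Matrix.vecMul (Matrix.vecMul v (Matrix.of B)⁻¹) (Matrix.of B) = v := by
    rw [Matrix.vecMul_vecMul, Matrix.nonsing_inv_mul _ (isUnit_iff_ne_zero.mpr hB), Matrix.vecMul_one]
  funext j
  rw [Finset.sum_apply]
  have := congrFun h1 j
  simp only [Matrix.vecMul, dotProduct, Matrix.of_apply] at this
  simp only [Pi.smul_apply, smul_eq_mul, coord, Matrix.vecMul, dotProduct]
  exact this

lemma coord_sum {B : Fr n} (hB : dtm B ≠ 0) (t : Fin (n+1) → ℝ) : coord B (∑ k, t k • B k) = t := by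
  have h1 : (∑ k, t k • B k) = Matrix.vecMul t (Matrix.of B) := by
    funext j
    simp [Finset.sum_apply, Matrix.vecMul, dotProduct]
  unfold coord
  rw [h1, Matrix.vecMul_vecMul, Matrix.mul_nonsing_inv _ (isUnit_iff_ne_zero.mpr hB), Matrix.vecMul_one]

lemma sum_lam {B : Fr n} (hB : dtm B ≠ 0) (v : E n) : ∑ k, lam B v k = ∑ j, v j := by
  conv_rhs => rw [← sum_coord hB v]
  simp only [Finset.sum_apply, Pi.smul_apply, smul_eq_mul]
  rw [Finset.sum_comm]
  refine Finset.sum_congr rfl fun k _ => ?_
  rw [← Finset.mul_sum, lam, zs, mul_comm]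

lemma mem_cone_iff {B : Fr n} (hB : dtm B ≠ 0) (ε : Fin (n+1) → Bool) (v : E n) :
    v ∈ cone (fun i => sgn ε i • B i) ↔ ∀ k, 0 ≤ sgn ε k * coord B v k := by
  constructor
  · rintro ⟨t, ht, rfl⟩ k
    have : (∑ i, t i • sgn ε i • B i) = ∑ i, (t i * sgn ε i) • B i := by simp [smul_smul]
    rw [this, coord_sum hB]
    have e : sgn ε k * (t k * sgn ε k) = t k * (sgn ε k * sgn ε k) := by ring
    rw [e, sgn_mul_self, mul_one]
    exact ht k
  · intro h
    refine ⟨fun k => sgn ε k * coord B v k, h, ?_⟩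
    conv_lhs => rw [← sum_coord hB v]
    refine Finset.sum_congr rfl fun k _ => ?_
    rw [smul_smul]
    congr 1
    have e : sgn ε k * coord B v k * sgn ε k = (sgn ε k * sgn ε k) * coord B v k := by ring
    rw [e, sgn_mul_self, one_mul]

/-- the condition that the integer points of the normalised triangle are those of `V` -/
def condV (V : Finset (Fin (n+1) → ℤ)) (B : Fr n) : Prop :=
  ∀ v : Fin (n+1) → ℤ, ∑ i, v i = 1 → ((∀ k, 0 ≤ lam B (toReal v) k) ↔ v ∈ V)

lemma cone_add {b : Fr n} {x y : E n} (hx : x ∈ cone b) (hy : y ∈ cone b) : x + y ∈ cone b := by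
  obtain ⟨t, ht, rfl⟩ := hx
  obtain ⟨s, hs, rfl⟩ := hy
  exact ⟨fun i => t i + s i, fun i => add_nonneg (ht i) (hs i), by simp [add_smul, Finset.sum_add_distrib]⟩

lemma orthant_subset {b : Fr n} (h : ∀ i, toReal (Pi.single i (1:ℤ)) ∈ cone b) {x : E n} (hx : ∀ i, 0 ≤ x i) :
    x ∈ cone b := by
  have hx' : x = ∑ i, x i • (toReal (Pi.single i (1:ℤ)) : E n) := by
    funext j; simp [Finset.sum_apply, toReal_single, Pi.single_apply]
  rw [hx']
  have : ∀ s : Finset (Fin (n+1)), ∑ i ∈ s, x i • (toReal (Pi.single i (1:ℤ)) : E n) ∈ cone b := by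
    intro s
    induction s using Finset.induction_on with
    | empty => exact ⟨0, fun _ => le_rfl, by simp⟩
    | insert a s ha ih =>
      rw [Finset.sum_insert ha]
      exact cone_add (cone_smul_mem (h a) (hx a)) ih
  exact this _

lemma gen_mem_cone (b : Fr n) (k : Fin (n+1)) : b k ∈ cone b :=
  ⟨Pi.single k 1, fun i => by simp only [Pi.single_apply]; split_ifs <;> norm_num, by simp [Pi.single_apply]⟩

/-- the generators of a cone with a unimodular configuration as face have nonnegative sum -/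
lemma zs_nonneg {V : Finset (Fin (n+1) → ℤ)} (hV : IsUnimodularConfig V) {b : Fr n} (h : FaceCond V (cone b))
    (k : Fin (n+1)) : 0 ≤ ∑ j, b k j := by
  by_contra hcon
  push Not at hcon
  have horth : ∀ i, toReal (Pi.single i (1:ℤ)) ∈ cone b := fun i => h.sub _ (hV.single_mem i)
  set z := ∑ j, b k j with hz
  obtain ⟨N, hN⟩ := exists_nat_gt (((n:ℝ) + 1) / (-z))
  have hNz : (n:ℝ) + 1 < N * (-z) := by
    rwa [div_lt_iff₀ (by linarith)] at hN
  let m : Fin (n+1) → ℤ := fun j => ⌈(N:ℝ) * b k j⌉
  have hm : toReal m = (N:ℝ) • b k + fun j => ((⌈(N:ℝ) * b k j⌉ : ℤ) : ℝ) - N * b k j := by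
    funext j; simp [toReal, m]
  have hmem : toReal m ∈ cone b := by
    rw [hm]
    apply cone_add (cone_smul_mem (gen_mem_cone b k) (by positivity))
    apply orthant_subset horth
    intro i
    have := Int.le_ceil ((N:ℝ) * b k i)
    linarith
  have hsum : ((∑ j, m j : ℤ) : ℝ) < 0 := by
    have h1 : ((∑ j, m j : ℤ) : ℝ) = ∑ j, (⌈(N:ℝ) * b k j⌉ : ℝ) := by push_cast; rfl
    have h2 : ∑ j, (⌈(N:ℝ) * b k j⌉ : ℝ) ≤ ∑ j, ((N:ℝ) * b k j + 1) := by
      apply Finset.sum_le_sum
      intro j _
      exact (Int.ceil_lt_add_one _).le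
    rw [Finset.sum_add_distrib, ← Finset.mul_sum] at h2
    simp only [Finset.sum_const, Finset.card_univ, Fintype.card_fin, nsmul_eq_mul, mul_one] at h2
    rw [h1]
    push_cast at h2
    rw [← hz] at h2
    linarith
  have hsum' : ∑ j, m j < 0 := by exact_mod_cast hsum
  have hm0 : m ≠ 0 := by
    intro h0; rw [h0] at hsum'; simp at hsum'
  have := h.ge m hm0 hmem
  omega

theorem face_ofFrame {V : Finset (Fin (n+1) → ℤ)} (hV : IsUnimodularConfig V) {B : Fr n} (hB : dtm B ≠ 0)
    (hz : ∀ k, zs B k ≠ 0) : ofFrame B ∈ CFof n (poly V) ↔ condV V B := by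
  have hli := linearIndependent_of_dtm hB
  -- sign comparison
  have hcmp : ∀ ε : Fin (n+1) → Bool, (∀ k, 0 < sgn ε k * zs B k) → ∀ v k,
      (0 ≤ sgn ε k * coord B v k ↔ 0 ≤ lam B v k) := by
    intro ε hε v k
    have h1 : lam B v k = (sgn ε k * zs B k) * (sgn ε k * coord B v k) := by
      have : (sgn ε k * zs B k) * (sgn ε k * coord B v k) = (sgn ε k * sgn ε k) * (zs B k * coord B v k) := by ring
      rw [this, sgn_mul_self, one_mul]; rfl
    rw [h1]
    exact (mul_nonneg_iff_of_pos_left (hε k)).symm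
  constructor
  · rintro ⟨C, hC, hface⟩
    obtain ⟨ε, rfl⟩ := (isConeOf_ofFrame hli).1 hC
    rw [face_iff hV] at hface
    have hε : ∀ k, 0 < sgn ε k * zs B k := by
      intro k
      have h1 := zs_nonneg hV hface k
      have h2 : ∑ j, (fun i => sgn ε i • B i) k j = sgn ε k * zs B k := by
        simp [zs, Finset.mul_sum]
      rw [h2] at h1
      exact lt_of_le_of_ne h1 (Ne.symm (mul_ne_zero (sgn_ne ε k) (hz k)))
    intro v hv
    constructor
    · intro h
      apply hface.eq v _ hv
      rw [mem_cone_iff hB]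
      exact fun k => (hcmp ε hε _ k).2 (h k)
    · intro h k
      have := hface.sub v h
      rw [mem_cone_iff hB] at this
      exact (hcmp ε hε _ k).1 (this k)
  · intro h
    let ε : Fin (n+1) → Bool := fun k => decide (0 < zs B k)
    have hε : ∀ k, 0 < sgn ε k * zs B k := by
      intro k
      simp only [sgn, ε, decide_eq_true_eq]
      split_ifs with h1
      · linarith
      · have := lt_of_le_of_ne (not_lt.1 h1) (hz k)
        linarith
    refine ⟨cone (fun i => sgn ε i • B i), (isConeOf_ofFrame hli).2 ⟨ε, rfl⟩, ?_⟩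
    rw [face_iff hV]
    refine ⟨fun v hv => ?_, fun v hv0 hv => ?_, fun v hv hv1 => ?_⟩
    · rw [mem_cone_iff hB]
      exact fun k => (hcmp ε hε _ k).2 ((h v (hV.sum_eq v hv)).2 hv k)
    · rw [mem_cone_iff hB] at hv
      have hlam : ∀ k, 0 ≤ lam B (toReal v) k := fun k => (hcmp ε hε _ k).1 (hv k)
      have hsum := sum_lam hB (toReal v)
      rw [sum_toReal] at hsum
      have h0 : 0 ≤ ∑ k, lam B (toReal v) k := Finset.sum_nonneg fun k _ => hlam k
      rcases h0.eq_or_lt with h1 | h1
      · exfalso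
        have h2 := (Finset.sum_eq_zero_iff_of_nonneg (fun k _ => hlam k)).1 h1.symm
        have h3 : ∀ k, coord B (toReal v) k = 0 := by
          intro k
          have := h2 k (Finset.mem_univ k)
          rw [lam] at this
          rcases mul_eq_zero.1 this with h | h
          · exact absurd h (hz k)
          · exact h
        have h4 := sum_coord hB (toReal v)
        simp only [h3, zero_smul, Finset.sum_const_zero] at h4
        exact toReal_ne_zero.2 hv0 h4.symm
      · rw [hsum] at h1
        have : 0 < ∑ i, v i := by exact_mod_cast h1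
        omega
    · rw [mem_cone_iff hB] at hv
      exact (h v hv1).1 fun k => (hcmp ε hε _ k).1 (hv k)

/-! ### Measurability -/

lemma measurable_coord (v : E n) (k : Fin (n+1)) : Measurable fun B : Fr n => coord B v k := by
  have h1 : (fun B : Fr n => coord B v k) = fun B : Fr n =>
      ∑ j, v j * ((dtm B)⁻¹ * (Matrix.of B).adjugate j k) := by
    funext B
    simp only [coord, Matrix.vecMul, dotProduct, Matrix.inv_def, Ring.inverse_eq_inv', Matrix.smul_apply,
      smul_eq_mul, dtm]
  rw [h1]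
  apply Finset.measurable_sum
  intro j _
  apply Measurable.mul measurable_const
  apply Measurable.mul measurable_dtm.inv
  have : Continuous fun B : Fr n => (Matrix.of B).adjugate j k :=
    (Continuous.matrix_adjugate continuous_id).matrix_elem j k
  exact this.measurable

lemma measurable_zs (k : Fin (n+1)) : Measurable fun B : Fr n => zs B k := by
  apply Finset.measurable_sum
  intro j _
  exact (measurable_pi_apply j).comp (measurable_pi_apply k)

lemma measurable_lam (v : E n) (k : Fin (n+1)) : Measurable fun B : Fr n => lam B v k :=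
  (measurable_zs k).mul (measurable_coord v k)

lemma measurableSet_condV (V : Finset (Fin (n+1) → ℤ)) : MeasurableSet {B : Fr n | condV V B} := by
  have : {B : Fr n | condV V B} = ⋂ v : Fin (n+1) → ℤ, {B | ∑ i, v i = 1 → ((∀ k, 0 ≤ lam B (toReal v) k) ↔ v ∈ V)} := by
    ext; simp [condV]
  rw [this]
  apply MeasurableSet.iInter
  intro v
  have hA : MeasurableSet {B : Fr n | ∀ k, 0 ≤ lam B (toReal v) k} := by
    have : {B : Fr n | ∀ k, 0 ≤ lam B (toReal v) k} = ⋂ k, {B | 0 ≤ lam B (toReal v) k} := by ext; simp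
    rw [this]
    exact MeasurableSet.iInter fun k => measurableSet_le measurable_const (measurable_lam _ k)
  by_cases h1 : ∑ i, v i = 1
  · by_cases h2 : v ∈ V
    · have : {B : Fr n | ∑ i, v i = 1 → ((∀ k, 0 ≤ lam B (toReal v) k) ↔ v ∈ V)} = {B | ∀ k, 0 ≤ lam B (toReal v) k} := by
        ext; simp [h1, h2]
      rw [this]; exact hA
    · have : {B : Fr n | ∑ i, v i = 1 → ((∀ k, 0 ≤ lam B (toReal v) k) ↔ v ∈ V)} = {B | ∀ k, 0 ≤ lam B (toReal v) k}ᶜ := by
        ext; simp [h1, h2]
      rw [this]; exact hA.compl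
  · have : {B : Fr n | ∑ i, v i = 1 → ((∀ k, 0 ≤ lam B (toReal v) k) ↔ v ∈ V)} = Set.univ := by
      ext; simp [h1]
    rw [this]; exact MeasurableSet.univ

lemma measurableSet_cone (ε : Fin (n+1) → Bool) (v : E n) :
    MeasurableSet {B : Fr n | ∀ k, 0 ≤ sgn ε k * coord B v k} := by
  have : {B : Fr n | ∀ k, 0 ≤ sgn ε k * coord B v k} = ⋂ k, {B | 0 ≤ sgn ε k * coord B v k} := by ext; simp
  rw [this]
  exact MeasurableSet.iInter fun k => measurableSet_le measurable_const (measurable_const.mul (measurable_coord v k))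

lemma measurableSet_dtm : MeasurableSet {B : Fr n | dtm B ≠ 0} :=
  (measurableSet_singleton (0:ℝ)).compl.preimage measurable_dtm

/-- measurability of a set of the form `P B → Q` with constant `Q` -/
lemma measurableSet_imp_const {α : Type*} [MeasurableSpace α] {P : α → Prop} (hP : MeasurableSet {x | P x}) (Q : Prop) :
    MeasurableSet {x | P x → Q} := by
  by_cases h : Q
  · have : {x | P x → Q} = Set.univ := by ext; simp [h]
    rw [this]; exact MeasurableSet.univ
  · have : {x | P x → Q} = {x | P x}ᶜ := by ext; simp [h]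
    rw [this]; exact hP.compl

lemma measurableSet_CFof {V : Finset (Fin (n+1) → ℤ)} (hV : IsUnimodularConfig V) :
    MeasurableSet (CFof n (poly V)) := by
  classical
  rw [measurableSet_CF]
  -- the set for one sign vector
  let S : (Fin (n+1) → Bool) → Set (Fr n) := fun ε =>
    (⋂ v : V, {B | ∀ k, 0 ≤ sgn ε k * coord B (toReal v.1) k}) ∩
    ((⋂ v : Fin (n+1) → ℤ, {B | (∀ k, 0 ≤ sgn ε k * coord B (toReal v) k) → (v ≠ 0 → 1 ≤ ∑ i, v i)}) ∩
    (⋂ v : Fin (n+1) → ℤ, {B | (∀ k, 0 ≤ sgn ε k * coord B (toReal v) k) → (∑ i, v i = 1 → v ∈ V)}))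
  have hS : ∀ ε, MeasurableSet (S ε) := by
    intro ε
    refine MeasurableSet.inter ?_ (MeasurableSet.inter ?_ ?_)
    · exact MeasurableSet.iInter fun v => measurableSet_cone ε _
    · exact MeasurableSet.iInter fun v => measurableSet_imp_const (measurableSet_cone ε _) _
    · exact MeasurableSet.iInter fun v => measurableSet_imp_const (measurableSet_cone ε _) _
  have hmem : ∀ B : Fr n, dtm B ≠ 0 → (ofFrame B ∈ CFof n (poly V) ↔ B ∈ ⋃ ε, S ε) := by
    intro B hB
    have hli := linearIndependent_of_dtm hB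
    simp only [Set.mem_iUnion]
    constructor
    · rintro ⟨C, hC, hface⟩
      obtain ⟨ε, rfl⟩ := (isConeOf_ofFrame hli).1 hC
      rw [face_iff hV] at hface
      refine ⟨ε, ?_, ?_, ?_⟩
      · rw [Set.mem_iInter]
        rintro ⟨v, hv⟩
        exact (mem_cone_iff hB ε _).1 (hface.sub v hv)
      · rw [Set.mem_iInter]
        intro v hv hv0
        exact hface.ge v hv0 ((mem_cone_iff hB ε _).2 hv)
      · rw [Set.mem_iInter]
        intro v hv hv1
        exact hface.eq v ((mem_cone_iff hB ε _).2 hv) hv1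
    · rintro ⟨ε, h1, h2, h3⟩
      rw [Set.mem_iInter] at h1 h2 h3
      refine ⟨_, (isConeOf_ofFrame hli).2 ⟨ε, rfl⟩, ?_⟩
      rw [face_iff hV]
      exact ⟨fun v hv => (mem_cone_iff hB ε _).2 (h1 ⟨v, hv⟩),
        fun v hv0 hv => h2 v ((mem_cone_iff hB ε _).1 hv) hv0,
        fun v hv hv1 => h3 v ((mem_cone_iff hB ε _).1 hv) hv1⟩
  have e : ofFrame (n := n) ⁻¹' CFof n (poly V) =
      ((⋃ ε, S ε) ∩ {B | dtm B ≠ 0}) ∪ (if axesCF n ∈ CFof n (poly V) then {B | dtm B ≠ 0}ᶜ else ∅) := by
    ext B
    by_cases h : dtm B = 0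
    · have hli : ¬ LinearIndependent ℝ B := fun h' => dtm_of_linearIndependent h' h
      simp only [Set.mem_preimage, Set.mem_union, Set.mem_inter_iff, Set.mem_ofPred_eq, h, ne_eq,
        not_true_eq_false, and_false, false_or]
      rw [ofFrame_neg hli]
      split_ifs with h1
      · simp [h1, h]
      · simp [h1]
    · simp only [Set.mem_preimage, Set.mem_union, Set.mem_inter_iff, Set.mem_ofPred_eq, ne_eq, h,
        not_false_eq_true, and_true]
      rw [hmem B h]
      split_ifs with h1
      · simp [h]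
      · simp
  rw [e]
  apply MeasurableSet.union
  · exact (MeasurableSet.iUnion hS).inter measurableSet_dtm
  · split_ifs
    · exact measurableSet_dtm.compl
    · exact MeasurableSet.empty

/-- the coordinate sums of the vectors of a frame do not vanish almost everywhere -/
lemma ae_zs : ∀ᵐ B ∂(frMeasure n), ∀ k, zs B k ≠ 0 := by
  rw [ae_all_iff]
  intro k
  let L : Fr n →ₗ[ℝ] ℝ := sumL n ∘ₗ LinearMap.proj k
  have hL : ∀ B, L B = zs B k := fun B => by simp [L, zs, sumL_apply]
  have hne : LinearMap.ker L ≠ ⊤ := by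
    intro h
    have : (fun _ => Pi.single 0 1 : Fr n) ∈ LinearMap.ker L := h ▸ Submodule.mem_top
    rw [LinearMap.mem_ker, hL] at this
    simp [zs] at this
  have hnull := Measure.addHaar_submodule (volume : Measure (Fr n)) (LinearMap.ker L) hne
  have h : ∀ᵐ B : Fr n, zs B k ≠ 0 := by
    rw [ae_iff]
    have e : {B : Fr n | ¬ zs B k ≠ 0} = (LinearMap.ker L : Set (Fr n)) := by
      ext B
      simp [hL]
    rw [e]; exact hnull
  exact frMeasure_ac.ae_le h

/-- the frequency of a unimodular configuration as an integral over frames -/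
theorem mobius_poly {V : Finset (Fin (n+1) → ℤ)} (hV : IsUnimodularConfig V) :
    mobius n (CFof n (poly V)) = ∫⁻ B, win (stdGauge n) B * {B : Fr n | condV V B}.indicator 1 B ∂(frMeasure n) := by
  rw [mobius_apply (measurableSet_CFof hV)]
  apply lintegral_congr_ae
  filter_upwards [ae_dtm, ae_zs] with B hB hz
  congr 1
  have := face_ofFrame hV hB hz
  by_cases h : condV V B
  · rw [Set.indicator_of_mem, Set.indicator_of_mem]
    · exact h
    · exact this.2 h
  · rw [Set.indicator_of_notMem, Set.indicator_of_notMem]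
    · exact h
    · exact fun h' => h (this.1 h')

end Pool.Agent.Helper46.Sail
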