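import Pool.Agent.Helper46.Shear

open MeasureTheory Set
open scoped ENNReal

namespace Pool.Agent.Helper46.Sail

open Pool.Agent.Helper46.Planar

/-- the integer points of the plane `x_0 + x_1 + x_2 = 1` -/
def pt (i j : ℤ) : Fin 3 → ℤ := ![1 - i - j, i, j]

lemma sum_pt (i j : ℤ) : ∑ k, pt i j k = 1 := by
  rw [Fin.sum_univ_three]
  show (1 - i - j) + i + j = 1
  ring

lemma eq_pt {v : Fin 3 → ℤ} (hv : ∑ k, v k = 1) : v = pt (v 1) (v 2) := by
  rw [Fin.sum_univ_three] at hv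
  funext k
  fin_cases k
  · show v 0 = 1 - v 1 - v 2; linarith
  · rfl
  · rfl

lemma pt_inj {i j i' j' : ℤ} : pt i j = pt i' j' ↔ i = i' ∧ j = j' := by
  constructor
  · intro h
    exact ⟨congrFun h 1, congrFun h 2⟩
  · rintro ⟨rfl, rfl⟩; rfl

/-- the vertices of the unit square -/
def sqVerts : Finset (Fin 3 → ℤ) := {pt 0 0, pt 1 0, pt 0 1, pt 1 1}

lemma mem_sqVerts {i j : ℤ} : pt i j ∈ sqVerts ↔ Qm i j := by
  simp only [sqVerts, Finset.mem_insert, Finset.mem_singleton, pt_inj, Qm]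
  constructor
  · rintro (⟨rfl, rfl⟩ | ⟨rfl, rfl⟩ | ⟨rfl, rfl⟩ | ⟨rfl, rfl⟩) <;> simp
  · rintro ⟨rfl | rfl, rfl | rfl⟩ <;> simp

lemma mem_unitVerts_pt {i j : ℤ} : pt i j ∈ unitVerts 2 ↔ Tm i j := by
  rw [mem_unitVerts, Tm]
  constructor
  · rintro ⟨k, hk⟩
    have h1 := congrFun hk 1
    have h2 := congrFun hk 2
    fin_cases k
    · left; exact ⟨by simpa [pt] using h1, by simpa [pt] using h2⟩
    · right; left; exact ⟨by simpa [pt] using h1, by simpa [pt] using h2⟩
    · right; right; exact ⟨by simpa [pt] using h1, by simpa [pt] using h2⟩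
  · rintro (⟨rfl, rfl⟩ | ⟨rfl, rfl⟩ | ⟨rfl, rfl⟩)
    · exact ⟨0, by funext k; fin_cases k <;> simp [pt]⟩
    · exact ⟨1, by funext k; fin_cases k <;> simp [pt]⟩
    · exact ⟨2, by funext k; fin_cases k <;> simp [pt]⟩

/-- coefficients of the affine function `coord B (pt i j) k` -/
noncomputable def cf (B : Fr 2) (k : Fin 3) : ℝ × ℝ × ℝ :=
  (coord B (Pi.single 0 1) k, coord B (Pi.single 1 1) k - coord B (Pi.single 0 1) k,
    coord B (Pi.single 2 1) k - coord B (Pi.single 0 1) k)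

lemma coord_add {n : ℕ} (B : Fr n) (v w : E n) (k : Fin (n+1)) : coord B (v + w) k = coord B v k + coord B w k := by
  simp only [coord, Matrix.add_vecMul, Pi.add_apply]

lemma coord_smul {n : ℕ} (B : Fr n) (c : ℝ) (v : E n) (k : Fin (n+1)) : coord B (c • v) k = c * coord B v k := by
  simp only [coord, Matrix.smul_vecMul, Pi.smul_apply, smul_eq_mul]

lemma toReal_pt (i j : ℤ) : (toReal (pt i j) : E 2) = (1 - (i:ℝ) - j) • Pi.single 0 1 + (i:ℝ) • Pi.single 1 1 +
    (j:ℝ) • Pi.single 2 1 := by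
  funext k
  fin_cases k <;> simp [toReal, pt]

lemma coord_pt (B : Fr 2) (i j : ℤ) (k : Fin 3) : coord (n := 2) B (toReal (pt i j)) k = af (cf B k) i j := by
  rw [toReal_pt, coord_add, coord_add, coord_smul, coord_smul, coord_smul, cf, af]
  simp only
  ring

/-- the linear parts are independent -/
lemma cf_det {B : Fr 2} (hB : dtm B ≠ 0) (hz : zs B 0 ≠ 0) :
    (cf B 1).2.1 * (cf B 2).2.2 - (cf B 2).2.1 * (cf B 1).2.2 ≠ 0 := by
  intro h
  -- a nontrivial combination of the two functions is constant on the plane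
  obtain ⟨s, t, hst, h1, h2⟩ : ∃ s t : ℝ, (s ≠ 0 ∨ t ≠ 0) ∧ s * (cf B 1).2.1 + t * (cf B 2).2.1 = 0 ∧
      s * (cf B 1).2.2 + t * (cf B 2).2.2 = 0 := by
    by_cases hx : (cf B 1).2.1 = 0 ∧ (cf B 2).2.1 = 0
    · by_cases hy : (cf B 2).2.2 = 0
      · exact ⟨0, 1, Or.inr one_ne_zero, by rw [hx.2]; ring, by rw [hy]; ring⟩
      · exact ⟨(cf B 2).2.2, -(cf B 1).2.2, Or.inl hy, by rw [hx.1, hx.2]; ring, by ring⟩
    · refine ⟨(cf B 2).2.1, -(cf B 1).2.1, ?_, by ring, by linarith⟩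
      by_contra hcon
      push Not at hcon
      exact hx ⟨by linarith [hcon.2], hcon.1⟩
  -- the linear functional
  set c := s * (cf B 1).1 + t * (cf B 2).1 with hc
  have hlin : ∀ v : E 2, s * coord B v 1 + t * coord B v 2 = c * ∑ j, v j := by
    intro v
    have hv : v = v 0 • Pi.single 0 1 + v 1 • Pi.single 1 1 + v 2 • Pi.single 2 1 := by
      funext k
      fin_cases k <;> simp
    have hcoord : ∀ k : Fin 3, coord (n := 2) B v k = v 0 * coord (n := 2) B (Pi.single 0 1) k +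
        v 1 * coord (n := 2) B (Pi.single 1 1) k + v 2 * coord (n := 2) B (Pi.single 2 1) k := by
      intro k
      conv_lhs => rw [hv]
      rw [coord_add, coord_add, coord_smul, coord_smul, coord_smul]
    rw [hcoord 1, hcoord 2, Fin.sum_univ_three]
    simp only [cf] at h1 h2 hc
    rw [hc]
    linear_combination (v 1) * h1 + (v 2) * h2
  have hB0 : ∀ k : Fin 3, coord (n := 2) B (B 0) k = if k = 0 then 1 else 0 := by
    intro k
    have : B 0 = ∑ j, (Pi.single 0 1 : Fin 3 → ℝ) j • B j := by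
      simp [Pi.single_apply]
    conv_lhs => rw [this]
    have := congrFun (coord_sum (n := 2) hB (Pi.single 0 1)) k
    rw [this, Pi.single_apply]
  have hc0 : c = 0 := by
    have := hlin (B 0)
    rw [hB0, hB0] at this
    simp only [Fin.isValue, one_ne_zero, if_false, Fin.reduceEq, mul_zero, add_zero] at this
    rcases mul_eq_zero.1 this.symm with h | h
    · exact h
    · exact absurd h hz
  have hBk : ∀ i k : Fin 3, coord (n := 2) B (B i) k = if k = i then 1 else 0 := by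
    intro i k
    have : B i = ∑ j, (Pi.single i 1 : Fin 3 → ℝ) j • B j := by
      simp [Pi.single_apply]
    conv_lhs => rw [this]
    have := congrFun (coord_sum (n := 2) hB (Pi.single i 1)) k
    rw [this, Pi.single_apply]
  rcases hst with hs | ht
  · have := hlin (B 1)
    rw [hBk, hBk, hc0] at this
    simp at this
    exact hs this
  · have := hlin (B 2)
    rw [hBk, hBk, hc0] at this
    simp at this
    exact ht this

/-- the frames with the square as a face, the vertex `(1,1)` being nearest to the first facet -/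
def setQ : Set (Fr 2) :=
  {B | condV (n := 2) sqVerts B ∧ lam B (toReal (pt 1 1)) 0 ≤ lam B (toReal (pt 0 1)) 0 ∧
    lam B (toReal (pt 1 1)) 0 ≤ lam B (toReal (pt 1 0)) 0}

/-- the frames with the triangle as a face, the vertex `(1,1)` being cut by the first facet only -/
def setT : Set (Fr 2) :=
  {B | condV (n := 2) (unitVerts 2) B ∧ 0 ≤ lam B (toReal (pt 1 1)) 1 ∧ 0 ≤ lam B (toReal (pt 1 1)) 2}

lemma measurable_setQ : MeasurableSet setQ :=
  (measurableSet_condV _).inter ((measurableSet_le (measurable_lam _ _) (measurable_lam _ _)).inter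
    (measurableSet_le (measurable_lam _ _) (measurable_lam _ _)))

lemma measurable_setT : MeasurableSet setT :=
  (measurableSet_condV _).inter ((measurableSet_le measurable_const (measurable_lam _ _)).inter
    (measurableSet_le measurable_const (measurable_lam _ _)))

/-- the affine map of the fibre -/
def fm (B : Fr 2) (p : ℝ × ℝ) : ℝ × ℝ := (p.1 * zs B 0 + zs B 1, p.2 * zs B 0 + zs B 2)

lemma vol_fm {B : Fr 2} (hz : zs B 0 ≠ 0) (S : Set (ℝ × ℝ)) :
    volume (fm B ⁻¹' S) = ENNReal.ofReal |(zs B 0 * zs B 0)⁻¹| * volume S := by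
  let L : ℝ × ℝ →ₗ[ℝ] ℝ × ℝ := Matrix.toLin (Module.Basis.finTwoProd ℝ) (Module.Basis.finTwoProd ℝ)
    !![zs B 0, 0; 0, zs B 0]
  have hdet : LinearMap.det L = zs B 0 * zs B 0 := by
    rw [LinearMap.det_toLin, Matrix.det_fin_two_of]; ring
  have hL : fm B ⁻¹' S = L ⁻¹' ((fun x => x + (zs B 1, zs B 2)) ⁻¹' S) := by
    ext p
    simp only [Set.mem_preimage, L, Matrix.toLin_finTwoProd_apply, fm]
    have : (p.1 * zs B 0 + zs B 1, p.2 * zs B 0 + zs B 2) =
      (zs B 0 * p.1 + 0 * p.2, 0 * p.1 + zs B 0 * p.2) + (zs B 1, zs B 2) := by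
      ext <;> simp <;> ring
    rw [this]
  rw [hL, Measure.addHaar_preimage_linearMap _ (by rw [hdet]; exact mul_ne_zero hz hz), hdet,
    measure_preimage_add_right]

lemma lam_sh {B : Fr 2} (hB : dtm B ≠ 0) (p : ℝ × ℝ) (i j : ℤ) :
    lam (sh p B) (toReal (pt i j)) 1 = (fm B p).1 * af (cf B 1) i j ∧
    lam (sh p B) (toReal (pt i j)) 2 = (fm B p).2 * af (cf B 2) i j ∧
    lam (sh p B) (toReal (pt i j)) 0 = 1 - ((fm B p).1 * af (cf B 1) i j + (fm B p).2 * af (cf B 2) i j) := by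
  have h1 : lam (sh p B) (toReal (pt i j)) 1 = (fm B p).1 * af (cf B 1) i j := by
    rw [lam, coord_sh hB, zs_sh_one]
    show _ * coord B (toReal (pt i j)) 1 = _
    rw [coord_pt]; rfl
  have h2 : lam (sh p B) (toReal (pt i j)) 2 = (fm B p).2 * af (cf B 2) i j := by
    rw [lam, coord_sh hB, zs_sh_two]
    show _ * coord B (toReal (pt i j)) 2 = _
    rw [coord_pt]; rfl
  refine ⟨h1, h2, ?_⟩
  have h3 := sum_lam (n := 2) (B := sh p B) (by rw [dtm_sh]; exact hB) (toReal (pt i j))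
  rw [sum_toReal, sum_pt] at h3
  rw [Fin.sum_univ_three, h1, h2] at h3
  push_cast at h3
  linarith

/-- the condition `condV` in the fibre -/
lemma condV_sh {V : Finset (Fin 3 → ℤ)} {B : Fr 2} (hB : dtm B ≠ 0) (p : ℝ × ℝ) :
    condV (n := 2) V (sh p B) ↔ ∀ i j, ((0 ≤ (fm B p).1 * af (cf B 1) i j ∧ 0 ≤ (fm B p).2 * af (cf B 2) i j ∧
      (fm B p).1 * af (cf B 1) i j + (fm B p).2 * af (cf B 2) i j ≤ 1) ↔ pt i j ∈ V) := by
  have key : ∀ i j, (∀ k, 0 ≤ lam (sh p B) (toReal (pt i j)) k) ↔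
      (0 ≤ (fm B p).1 * af (cf B 1) i j ∧ 0 ≤ (fm B p).2 * af (cf B 2) i j ∧
      (fm B p).1 * af (cf B 1) i j + (fm B p).2 * af (cf B 2) i j ≤ 1) := by
    intro i j
    obtain ⟨h1, h2, h0⟩ := lam_sh hB p i j
    rw [Fin.forall_fin_succ, Fin.forall_fin_two]
    show (0 ≤ lam (sh p B) (toReal (pt i j)) 0 ∧ 0 ≤ lam (sh p B) (toReal (pt i j)) 1 ∧
      0 ≤ lam (sh p B) (toReal (pt i j)) 2) ↔ _
    rw [h0, h1, h2]
    constructor
    · rintro ⟨a, b, c⟩; exact ⟨b, c, by linarith⟩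
    · rintro ⟨a, b, c⟩; exact ⟨by linarith, a, b⟩
  constructor
  · intro h i j
    rw [← key]
    exact h (pt i j) (sum_pt i j)
  · intro h v hv
    rw [eq_pt hv, key]
    exact h _ _

lemma fiber_le {B : Fr 2} (hB : dtm B ≠ 0) (hz : zs B 0 ≠ 0) :
    volume {p : ℝ × ℝ | sh p B ∈ setQ} ≤ ENNReal.ofReal (3 / 4) * volume {p : ℝ × ℝ | sh p B ∈ setT} := by
  have hD := cf_det hB hz
  set u := cf B 1 with hu
  set v := cf B 2 with hv
  -- the two lines of ties
  let L1 : Set (ℝ × ℝ) := {p | u.2.1 * p.1 + v.2.1 * p.2 = 0}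
  let L2 : Set (ℝ × ℝ) := {p | u.2.2 * p.1 + v.2.2 * p.2 = 0}
  have hnull : ∀ a b : ℝ, (a ≠ 0 ∨ b ≠ 0) → volume {p : ℝ × ℝ | a * p.1 + b * p.2 = 0} = 0 := by
    intro a b hab
    let l : ℝ × ℝ →ₗ[ℝ] ℝ := a • LinearMap.fst ℝ ℝ ℝ + b • LinearMap.snd ℝ ℝ ℝ
    have hl : ∀ p, l p = a * p.1 + b * p.2 := fun p => by simp [l]
    have hne : LinearMap.ker l ≠ ⊤ := by
      intro h
      have h1 : ((1:ℝ), (0:ℝ)) ∈ LinearMap.ker l := h ▸ Submodule.mem_top
      have h2 : ((0:ℝ), (1:ℝ)) ∈ LinearMap.ker l := h ▸ Submodule.mem_top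
      rw [LinearMap.mem_ker, hl] at h1 h2
      simp at h1 h2
      rcases hab with h | h
      · exact h h1
      · exact h h2
    have := Measure.addHaar_submodule (volume : Measure (ℝ × ℝ)) (LinearMap.ker l) hne
    have e : {p : ℝ × ℝ | a * p.1 + b * p.2 = 0} = (LinearMap.ker l : Set (ℝ × ℝ)) := by
      ext p; simp [hl]
    rw [e]; exact this
  have hL1 : volume L1 = 0 := by
    apply hnull
    by_contra hcon
    push Not at hcon
    apply hD; rw [hcon.1, hcon.2]; ring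
  have hL2 : volume L2 = 0 := by
    apply hnull
    by_contra hcon
    push Not at hcon
    apply hD; rw [hcon.1, hcon.2]; ring
  have hsub : {p : ℝ × ℝ | sh p B ∈ setQ} ⊆ fm B ⁻¹' (SQab u v ∪ (L1 ∪ L2)) := by
    rintro p ⟨hc, h1, h2⟩
    rw [condV_sh hB] at hc
    obtain ⟨-, -, g11⟩ := lam_sh hB p 1 1
    obtain ⟨-, -, g01⟩ := lam_sh hB p 0 1
    obtain ⟨-, -, g10⟩ := lam_sh hB p 1 0
    rw [g11, g01] at h1
    rw [g11, g10] at h2
    rw [← hu, ← hv] at hc h1 h2
    rw [Set.mem_preimage]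
    by_cases hl1 : fm B p ∈ L1
    · right; left; exact hl1
    by_cases hl2 : fm B p ∈ L2
    · right; right; exact hl2
    left
    refine ⟨fun i j hij => (hc i j).2 (mem_sqVerts.2 hij), fun i j hij => ?_, ?_, ?_⟩
    · have := (not_congr (hc i j)).2 (fun h => hij (mem_sqVerts.1 h))
      by_contra hcon
      push Not at hcon
      exact this ⟨hcon.1, hcon.2.1, hcon.2.2⟩
    · apply lt_of_le_of_ne (by linarith)
      intro h
      apply hl1
      show u.2.1 * (fm B p).1 + v.2.1 * (fm B p).2 = 0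
      simp only [af] at h
      push_cast at h
      linarith
    · apply lt_of_le_of_ne (by linarith)
      intro h
      apply hl2
      show u.2.2 * (fm B p).1 + v.2.2 * (fm B p).2 = 0
      simp only [af] at h
      push_cast at h
      linarith
  have hsup : fm B ⁻¹' STab u v ⊆ {p : ℝ × ℝ | sh p B ∈ setT} := by
    rintro p ⟨h1, h2, h3, h4⟩
    have hTQ : ∀ i j, Tm i j → Qm i j := by
      rintro i j (⟨rfl, rfl⟩ | ⟨rfl, rfl⟩ | ⟨rfl, rfl⟩) <;> simp [Qm]
    refine ⟨?_, ?_, ?_⟩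
    · rw [condV_sh hB]
      intro i j
      rw [mem_unitVerts_pt, ← hu, ← hv]
      constructor
      · rintro ⟨a, b, c⟩
        by_contra hcon
        rcases h4 i j hcon with h | h | h <;> linarith
      · intro h
        exact ⟨(h1 i j (hTQ i j h)).1, (h1 i j (hTQ i j h)).2, h2 i j h⟩
    · rw [(lam_sh hB p 1 1).1]
      exact (h1 1 1 (by simp [Qm])).1
    · rw [(lam_sh hB p 1 1).2.1]
      exact (h1 1 1 (by simp [Qm])).2
  calc volume {p : ℝ × ℝ | sh p B ∈ setQ} ≤ volume (fm B ⁻¹' (SQab u v ∪ (L1 ∪ L2))) := measure_mono hsub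
    _ = ENNReal.ofReal |(zs B 0 * zs B 0)⁻¹| * volume (SQab u v ∪ (L1 ∪ L2)) := vol_fm hz _
    _ ≤ ENNReal.ofReal |(zs B 0 * zs B 0)⁻¹| * (volume (SQab u v) + (volume L1 + volume L2)) := by
        gcongr
        exact (measure_union_le _ _).trans (by gcongr; exact measure_union_le _ _)
    _ = ENNReal.ofReal |(zs B 0 * zs B 0)⁻¹| * volume (SQab u v) := by rw [hL1, hL2]; simp
    _ ≤ ENNReal.ofReal |(zs B 0 * zs B 0)⁻¹| * (ENNReal.ofReal (3 / 4) * volume (STab u v)) := by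
        gcongr
        exact planar hD
    _ = ENNReal.ofReal (3 / 4) * (ENNReal.ofReal |(zs B 0 * zs B 0)⁻¹| * volume (STab u v)) := by ring
    _ = ENNReal.ofReal (3 / 4) * volume (fm B ⁻¹' STab u v) := by rw [vol_fm hz]
    _ ≤ _ := by gcongr

end Pool.Agent.Helper46.Sail
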