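import Pool.Agent.Helper46.Transfer

open MeasureTheory Set
open scoped ENNReal

namespace Pool.Agent.Helper46.Sail

variable {n : ℕ}

/-- the exponent -/
noncomputable def θe (n : ℕ) : ℝ := n / (n + 1)

lemma θe_nonneg : 0 ≤ θe n := by unfold θe; positivity

lemma θe_lt : θe n < 1 := by
  unfold θe
  rw [div_lt_one (by positivity)]
  linarith

/-- the function `|x|^{-n/(n+1)}` on `[-3, 3]` -/
noncomputable def psn (n : ℕ) : ℝ → ℝ := Set.indicator (Set.Icc (-3) 3) (fun x => |x| ^ (-(θe n)))

lemma integrable_psn : Integrable (psn n) := by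
  unfold psn
  rw [integrable_indicator_iff measurableSet_Icc]
  have h1 : IntegrableOn (fun x : ℝ => |x| ^ (-(θe n))) (Set.Icc 0 3) := by
    have h := intervalIntegral.intervalIntegrable_rpow' (a := 0) (b := 3) (r := -(θe n))
      (by have := θe_lt (n := n); linarith)
    rw [intervalIntegrable_iff_integrableOn_Icc_of_le (by norm_num)] at h
    apply h.congr_fun _ measurableSet_Icc
    intro x hx
    simp only [abs_of_nonneg hx.1]
  have h2 : IntegrableOn (fun x : ℝ => |x| ^ (-(θe n))) (Set.Icc (-3) 0) := by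
    have h := (Measure.measurePreserving_neg (volume : Measure ℝ)).integrableOn_comp_preimage
      (f := fun x : ℝ => |x| ^ (-(θe n))) (s := Set.Icc 0 3) (Homeomorph.neg ℝ).measurableEmbedding
    have e1 : (fun x : ℝ => |x| ^ (-(θe n))) ∘ (Neg.neg : ℝ → ℝ) = fun x => |x| ^ (-(θe n)) := by
      funext x; simp
    have e2 : (Neg.neg : ℝ → ℝ) ⁻¹' Set.Icc 0 3 = Set.Icc (-3) 0 := by
      ext x
      simp only [Set.mem_preimage, Set.mem_Icc]
      constructor <;> rintro ⟨a, b⟩ <;> constructor <;> linarith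
    rw [e1, e2] at h
    exact h.2 h1
  have h3 : Set.Icc (-3 : ℝ) 3 = Set.Icc (-3) 0 ∪ Set.Icc 0 3 := by
    rw [Set.Icc_union_Icc_eq_Icc] <;> norm_num
  rw [h3]
  exact h2.union h1

lemma integrable_psn_prod : Integrable (fun A : Fr n => ∏ k : Fin (n+1), ∏ i : Fin (n+1), psn n (A k i)) :=
  Integrable.fintype_prod (f := fun (_ : Fin (n+1)) (u : E n) => ∏ i : Fin (n+1), psn n (u i)) fun _ =>
    Integrable.fintype_prod (f := fun (_ : Fin (n+1)) => psn n) fun _ => integrable_psn

lemma ae_entry : ∀ᵐ A : Fr n, ∀ k i, A k i ≠ 0 := by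
  rw [ae_all_iff]
  intro k
  rw [ae_all_iff]
  intro i
  let L : Fr n →ₗ[ℝ] ℝ := LinearMap.proj i ∘ₗ LinearMap.proj k
  have hne : LinearMap.ker L ≠ ⊤ := by
    intro h
    have : (fun _ => fun _ => 1 : Fr n) ∈ LinearMap.ker L := h ▸ Submodule.mem_top
    rw [LinearMap.mem_ker] at this
    simp [L] at this
  have hnull := Measure.addHaar_submodule (volume : Measure (Fr n)) (LinearMap.ker L) hne
  rw [ae_iff]
  have e : {A : Fr n | ¬ A k i ≠ 0} = (LinearMap.ker L : Set (Fr n)) := by
    ext A
    simp [L]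
  rw [e]; exact hnull

lemma exp_one_lt_three : Real.exp 1 < 3 := by
  have := Real.exp_one_lt_d9
  linarith

/-- the pointwise bound -/
theorem density_bound {V : Finset (Fin (n+1) → ℤ)} (hV : IsUnimodularConfig V) {A : Fr n} (hA : dtm A ≠ 0) (hne : ∀ k i, A k i ≠ 0) (hc : vm (fun _ => 1) A ∈ U n)
    (hT : condV V (dual (csc (fun i => (vm (fun _ => 1) A i)⁻¹) A))) :
    (|dtm A|⁻¹)^(n+1) * |dtm (csc (fun i => (vm (fun _ => 1) A i)⁻¹) A)| ≤
      ((3:ℝ)^((n+1)*(n+1)))^(θe n) * ∏ k : Fin (n+1), ∏ i : Fin (n+1), psn n (A k i) := by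
  set c := vm (fun _ => 1) A with hcdef
  set f := csc (fun i => (c i)⁻¹) A with hf
  have hc1 : ∀ i, 1 ≤ c i := fun i => (hc i).1
  have hc3 : ∀ i, c i < 3 := fun i => (hc i).2.trans exp_one_lt_three
  have hc0 : ∀ i, c i ≠ 0 := fun i => by have := hc1 i; linarith
  have hP1 : 1 ≤ ∏ i, c i := by
    have := Finset.prod_le_prod (s := Finset.univ) (f := fun _ : Fin (n+1) => (1:ℝ))
      (g := fun k => c k) (fun _ _ => zero_le_one) (fun k _ => hc1 k)
    simpa using this
  have hdf : dtm f = dtm A * (∏ i, c i)⁻¹ := by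
    rw [hf, dtm_csc, Finset.prod_inv_distrib]
  have hf0 : dtm f ≠ 0 := by
    rw [hdf]; exact mul_ne_zero hA (inv_ne_zero (by linarith))
  obtain ⟨h0, hs, hcol⟩ := admissible_bound hV hf0 (vm_csc_self hc0) hT
  have hfA : ∀ k i, f k i = A k i * (c i)⁻¹ := fun k i => rfl
  have hAf : ∀ k i, A k i = f k i * c i := by
    intro k i
    rw [hfA]; field_simp [hc0 i]
  have hA0 : ∀ k i, 0 < A k i := by
    intro k i
    rcases (mul_nonneg (h0 k i) (by linarith [hc1 i] : (0:ℝ) ≤ c i)).lt_or_eq with h | h
    · rw [hAf]; exact h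
    · exfalso; apply hne k i; rw [hAf]; exact h.symm
  have hf1 : ∀ k i, f k i ≤ 1 := by
    intro k i
    rw [← hs i]
    exact Finset.single_le_sum (f := fun k => f k i) (fun k _ => h0 k i) (Finset.mem_univ k)
  have hA3 : ∀ k i, A k i ≤ 3 := by
    intro k i
    rw [hAf]
    nlinarith [hf1 k i, h0 k i, hc1 i, hc3 i]
  have hpsn : ∀ k i, psn n (A k i) = (A k i) ^ (-(θe n)) := by
    intro k i
    unfold psn
    rw [Set.indicator_of_mem (show A k i ∈ Set.Icc (-3:ℝ) 3 from ⟨by linarith [hA0 k i], hA3 k i⟩),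
      abs_of_pos (hA0 k i)]
  have hprod : ∏ k : Fin (n+1), ∏ i : Fin (n+1), psn n (A k i) = (∏ k : Fin (n+1), ∏ i : Fin (n+1), A k i) ^ (-(θe n)) := by
    simp_rw [hpsn]
    rw [← Real.finsetProd_rpow _ _ (fun k _ => Finset.prod_nonneg fun i _ => (hA0 k i).le)]
    refine Finset.prod_congr rfl fun k _ => ?_
    rw [← Real.finsetProd_rpow _ _ (fun i _ => (hA0 k i).le)]
  -- the product of all the entries
  set P := ∏ k : Fin (n+1), ∏ i : Fin (n+1), A k i with hP
  have hPpos : 0 < P := Finset.prod_pos fun k _ => Finset.prod_pos fun i _ => hA0 k i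
  have hdA : 0 < |dtm A| := abs_pos.2 hA
  have hdfA : |dtm f| ≤ |dtm A| := by
    rw [hdf, abs_mul, abs_inv, abs_of_pos (by linarith : 0 < ∏ i, c i)]
    exact mul_le_of_le_one_right (abs_nonneg _) (inv_le_one_of_one_le₀ hP1)
  have hcolA : ∀ i, (∏ k, A k i) * ((3:ℝ)^(n+1))⁻¹ ≤ |dtm A| := by
    intro i
    refine le_trans ?_ ((hcol i).trans hdfA)
    have : ∏ k, f k i = (∏ k, A k i) * ((c i)^(n+1))⁻¹ := by
      simp only [hfA, Finset.prod_mul_distrib]
      simp
    rw [this]
    have hp : 0 ≤ ∏ k, A k i := Finset.prod_nonneg fun k _ => (hA0 k i).le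
    have hci : (c i)^(n+1) ≤ (3:ℝ)^(n+1) := pow_le_pow_left₀ (by linarith [hc1 i]) (hc3 i).le _
    have hci0 : 0 < (c i)^(n+1) := pow_pos (by linarith [hc1 i]) _
    exact mul_le_mul_of_nonneg_left (inv_anti₀ hci0 hci) hp
  have hall : P * ((3:ℝ)^((n+1)*(n+1)))⁻¹ ≤ |dtm A|^(n+1) := by
    have h1 : ∏ i : Fin (n+1), ((∏ k, A k i) * ((3:ℝ)^(n+1))⁻¹) ≤ ∏ _i : Fin (n+1), |dtm A| :=
      Finset.prod_le_prod (fun i _ => mul_nonneg (Finset.prod_nonneg fun k _ => (hA0 k i).le) (by positivity))
        fun i _ => hcolA i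
    rw [Finset.prod_mul_distrib, Finset.prod_comm] at h1
    simp only [Finset.prod_const, Finset.card_univ, Fintype.card_fin] at h1
    rw [pow_mul, ← inv_pow]
    exact h1
  have hroot : (|dtm A|⁻¹)^n = (|dtm A|^(n+1)) ^ (-(θe n)) := by
    rw [← Real.rpow_natCast |dtm A| (n+1), ← Real.rpow_mul hdA.le, inv_pow, ← Real.rpow_natCast |dtm A| n,
      ← Real.rpow_neg hdA.le]
    congr 1
    unfold θe
    push_cast
    field_simp
  calc (|dtm A|⁻¹)^(n+1) * |dtm f| ≤ (|dtm A|⁻¹)^(n+1) * |dtm A| :=
        mul_le_mul_of_nonneg_left hdfA (by positivity)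
    _ = (|dtm A|⁻¹)^n := by
        rw [pow_succ, mul_assoc, inv_mul_cancel₀ hdA.ne', mul_one]
    _ = (|dtm A|^(n+1)) ^ (-(θe n)) := hroot
    _ ≤ (P * ((3:ℝ)^((n+1)*(n+1)))⁻¹) ^ (-(θe n)) :=
        Real.rpow_le_rpow_of_nonpos (by positivity) hall (by have := θe_nonneg (n := n); linarith)
    _ = _ := by
        rw [Real.mul_rpow hPpos.le (by positivity), hprod, mul_comm]
        congr 1
        rw [Real.inv_rpow (by positivity), Real.rpow_neg (by positivity), inv_inv]

/-- **Finiteness** of the frequency of the unimodular configurations, in every dimension. -/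
theorem mobius_config_ne_top {V : Finset (Fin (n+1) → ℤ)} (hV : IsUnimodularConfig V) :
    mobius n (CFof n (poly V)) ≠ ⊤ := by
  -- the frequency as an integral over the dual frames
  have hcm : Measurable ({B : Fr n | condV V B}.indicator (1 : Fr n → ℝ≥0∞)) :=
    measurable_one.indicator (measurableSet_condV _)
  have hN : Gauge (n := n) (fun k B => |zs B k|) :=
    { meas := fun k => (measurable_zs k).abs
      hom := fun k s B => by
        have : zs (sc s B) k = Real.exp (s k) * zs B k := by simp [zs, sc, Finset.mul_sum]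
        rw [this, abs_mul, abs_of_pos (Real.exp_pos _)]
      pos := by
        filter_upwards [ae_zs] with B hB k
        exact abs_pos.2 (hB k) }
  rw [mobius_poly hV,
    win_indep stdGauge_gauge hN hcm (fun s B => by
      have := condV_sc V s B
      by_cases h : condV V B
      · rw [Set.indicator_of_mem (show sc s B ∈ {B : Fr n | condV V B} from this.2 h),
          Set.indicator_of_mem (show B ∈ {B : Fr n | condV V B} from h)]
        rfl
      · rw [Set.indicator_of_notMem (show sc s B ∉ {B : Fr n | condV V B} from fun h' => h (this.1 h')),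
          Set.indicator_of_notMem (show B ∉ {B : Fr n | condV V B} from h)])]
  have hΦ : Measurable fun B : Fr n => win (fun k B => |zs B k|) B * {B : Fr n | condV V B}.indicator 1 B :=
    (measurable_win hN).mul hcm
  rw [← lintegral_dual hΦ]
  set F : Fr n → ℝ≥0∞ := fun A => {B : Fr n | condV V B}.indicator 1 (dual A) with hFdef
  have hF : Measurable F := hcm.comp measurable_dual
  have h1 : ∀ A : Fr n, win (fun k B => |zs B k|) (dual A) * {B : Fr n | condV V B}.indicator 1 (dual A) =
      (Upm n).indicator 1 (vi (fun _ => 1) A) * F A := by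
    intro A
    rw [hFdef]
    congr 1
    unfold win
    have : dual A ∈ {B : Fr n | ∀ i, 1 ≤ |zs B i| ∧ |zs B i| < Real.exp 1} ↔ vi (fun _ => 1) A ∈ Upm n := by
      simp only [Upm, Set.mem_ofPred_eq, vi_one]
    by_cases h : vi (fun _ => 1) A ∈ Upm n
    · rw [Set.indicator_of_mem h, Set.indicator_of_mem (this.2 h)]; rfl
    · rw [Set.indicator_of_notMem h, Set.indicator_of_notMem (fun h' => h (this.1 h'))]
  rw [lintegral_congr h1]
  apply window_transfer hF
  · intro t ht A
    simp only [hFdef]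
    rw [dual_rsc ht]
    have := condV_rsc (s := fun k => (t k)⁻¹) (fun k => inv_ne_zero (ht k)) V (dual A)
    by_cases h : condV V (dual A)
    · rw [Set.indicator_of_mem (show dual A ∈ {B : Fr n | condV V B} from h),
        Set.indicator_of_mem (show rsc (fun k => (t k)⁻¹) (dual A) ∈ {B : Fr n | condV V B} from this.2 h)]
      rfl
    · rw [Set.indicator_of_notMem (show dual A ∉ {B : Fr n | condV V B} from h),
        Set.indicator_of_notMem (show rsc (fun k => (t k)⁻¹) (dual A) ∉ {B : Fr n | condV V B} from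
          fun h' => h (this.1 h'))]
  · -- the final integral
    have hvm : Measurable fun A : Fr n => vm (fun _ => 1) A := measurable_vm measurable_const measurable_id
    have hfm : Measurable fun A : Fr n => csc (fun i => (vm (fun _ => 1) A i)⁻¹) A :=
      measurable_csc (measurable_pinv hvm) measurable_id
    have hJm : Measurable fun A : Fr n => (U n).indicator (1 : (Fin (n+1) → ℝ) → ℝ≥0∞) (vm (fun _ => 1) A) *
        (F (csc (fun i => (vm (fun _ => 1) A i)⁻¹) A) *
        ENNReal.ofReal |dtm (csc (fun i => (vm (fun _ => 1) A i)⁻¹) A)|) := by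
      apply Measurable.mul
      · exact (measurable_one.indicator measurableSet_U).comp hvm
      · exact (hF.comp hfm).mul (ENNReal.measurable_ofReal.comp (measurable_dtm.comp hfm).abs)
    have hint := (integrable_psn_prod (n := n)).const_mul (((3:ℝ)^((n+1)*(n+1)))^(θe n))
    refine (lt_of_le_of_lt ?_ hint.lintegral_lt_top).ne
    rw [frMeasure, lintegral_withDensity_eq_lintegral_mul _ measurable_density hJm]
    apply lintegral_mono_ae
    filter_upwards [ae_entry] with A hne
    simp only [Pi.mul_apply]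
    by_cases hA : dtm A = 0
    · rw [hA]; simp
    by_cases hc : vm (fun _ => 1) A ∈ U n
    · by_cases hT : condV V (dual (csc (fun i => (vm (fun _ => 1) A i)⁻¹) A))
      · have h2 : F (csc (fun i => (vm (fun _ => 1) A i)⁻¹) A) = 1 := by
          simp only [hFdef]
          rw [Set.indicator_of_mem (show _ ∈ {B : Fr n | condV V B} from hT)]
          rfl
        rw [Set.indicator_of_mem hc, h2, Pi.one_apply, one_mul, one_mul, ← ENNReal.ofReal_mul (by positivity)]
        exact ENNReal.ofReal_le_ofReal (density_bound hV hA hne hc hT)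
      · have h2 : F (csc (fun i => (vm (fun _ => 1) A i)⁻¹) A) = 0 := by
          simp only [hFdef]
          exact Set.indicator_of_notMem (show _ ∉ {B : Fr n | condV V B} from hT) _
        rw [h2, zero_mul, mul_zero, mul_zero]
        exact zero_le
    · rw [Set.indicator_of_notMem hc, zero_mul, mul_zero]
      exact zero_le

/-- **Finiteness** of the frequency of the unit simplex, in every dimension. -/
theorem mobius_unit_ne_top_all : mobius n (CFof n (poly (unitVerts n))) ≠ ⊤ :=
  mobius_config_ne_top isUnimodularConfig_unitVerts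

/-- **Finiteness** of the frequency of every integer polytope. -/
theorem mobius_ne_top (s : Finset (Fin (n+1) → ℤ)) : mobius n (CFof n (poly s)) ≠ ⊤ := by
  obtain ⟨V, hV, hle⟩ := config_le (mobius n) s
  exact ne_top_of_le_ne_top (mobius_config_ne_top hV) hle

end Pool.Agent.Helper46.Sail
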