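import Pool.Agent.Helper46.DualBound

open MeasureTheory Set
open scoped ENNReal

namespace Pool.Agent.Helper46.Sail

/-! ### Dominance -/

/-- the set of frames in which the `k`-th coordinate of `e_k` dominates -/
def setD : Set (Fr 2) :=
  {B | ∀ k : Fin 3, (∀ i : Fin 3, 0 ≤ lam (n := 2) B (Pi.single i 1) k) ∧
    ∑ j ∈ Finset.univ.erase k, lam (n := 2) B (Pi.single j 1) k < lam (n := 2) B (Pi.single k 1) k}

lemma measurableSet_setD : MeasurableSet setD := by
  have : setD = ⋂ k : Fin 3, ((⋂ i : Fin 3, {B : Fr 2 | 0 ≤ lam (n := 2) B (Pi.single i 1) k}) ∩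
      {B | ∑ j ∈ Finset.univ.erase k, lam (n := 2) B (Pi.single j 1) k < lam (n := 2) B (Pi.single k 1) k}) := by
    ext B; simp [setD]
  rw [this]
  refine MeasurableSet.iInter fun k => (MeasurableSet.iInter fun i => ?_).inter ?_
  · exact measurableSet_le measurable_const (measurable_lam (n := 2) _ _)
  · exact measurableSet_lt (Finset.measurable_sum _ fun j _ => measurable_lam (n := 2) _ _) (measurable_lam (n := 2) _ _)

lemma sc_mem_setD (s : Fin 3 → ℝ) (B : Fr 2) : sc (n := 2) s B ∈ setD ↔ B ∈ setD := by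
  simp only [setD, Set.mem_ofPred_eq, lam_sc]

/-- the reflected vertex -/
def refl (i : Fin 3) : Fin 3 → ℤ := fun j => if j = i then -1 else 1

lemma sum_refl (i : Fin 3) : ∑ j, refl i j = 1 := by
  fin_cases i <;> rfl

lemma refl_notMem (i : Fin 3) : refl i ∉ unitVerts 2 := by
  intro h
  obtain ⟨k, hk⟩ := mem_unitVerts.mp h
  have h1 := congrFun hk i
  rw [Pi.single_apply] at h1
  simp only [refl, if_true] at h1
  split_ifs at h1

lemma lam_refl (B : Fr 2) (i k : Fin 3) : lam (n := 2) B (toReal (refl i)) k =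
    ∑ j ∈ Finset.univ.erase i, lam (n := 2) B (Pi.single j 1) k - lam (n := 2) B (Pi.single i 1) k := by
  rw [lam_sum, ← Finset.sum_erase_add _ _ (Finset.mem_univ i)]
  have h1 : ∀ j ∈ Finset.univ.erase i, toReal (n := 2) (refl i) j * lam (n := 2) B (Pi.single j 1) k =
      lam (n := 2) B (Pi.single j 1) k := by
    intro j hj
    have : j ≠ i := (Finset.mem_erase.1 hj).1
    simp [toReal, refl, this]
  rw [Finset.sum_congr rfl h1]
  simp [toReal, refl, sub_eq_add_neg]

theorem exists_perm {B : Fr 2} (hB : condV (n := 2) (unitVerts 2) B) :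
    ∃ σ : Equiv.Perm (Fin 3), (fun i => B (σ i)) ∈ setD := by
  have hpos : ∀ i k : Fin 3, 0 ≤ lam (n := 2) B (Pi.single i 1) k := by
    intro i k
    have h := (hB (Pi.single i 1) (by simp)).2 (mem_unitVerts.mpr ⟨i, rfl⟩) k
    rwa [toReal_single] at h
  have hex : ∀ i : Fin 3, ∃ k : Fin 3, ∑ j ∈ Finset.univ.erase i, lam (n := 2) B (Pi.single j 1) k <
      lam (n := 2) B (Pi.single i 1) k := by
    intro i
    have h : ¬ ∀ k, 0 ≤ lam (n := 2) B (toReal (refl i)) k := fun h =>
      refl_notMem i ((hB (refl i) (sum_refl i)).1 h)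
    push Not at h
    obtain ⟨k, hk⟩ := h
    rw [lam_refl] at hk
    exact ⟨k, by linarith⟩
  choose σ hσ using hex
  have hinj : Function.Injective σ := by
    intro i i' hii
    by_contra hne
    have h1 := hσ i
    have h2 := hσ i'
    rw [← hii] at h2
    have h3 := Finset.single_le_sum (f := fun j => lam (n := 2) B (Pi.single j 1) (σ i))
      (fun j _ => hpos j _) (Finset.mem_erase.2 ⟨Ne.symm hne, Finset.mem_univ i'⟩)
    have h4 := Finset.single_le_sum (f := fun j => lam (n := 2) B (Pi.single j 1) (σ i))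
      (fun j _ => hpos j _) (Finset.mem_erase.2 ⟨hne, Finset.mem_univ i⟩)
    linarith
  refine ⟨Equiv.ofBijective σ ((Finite.injective_iff_bijective).1 hinj), fun k => ⟨fun i => ?_, ?_⟩⟩
  · rw [lam_perm (n := 2)]
    exact hpos _ _
  · rw [lam_perm (n := 2)]
    have : ∀ j ∈ Finset.univ.erase k, lam (n := 2) (fun i => B ((Equiv.ofBijective σ ((Finite.injective_iff_bijective).1 hinj)) i))
        (Pi.single j 1) k = lam (n := 2) B (Pi.single j 1) (σ k) := fun j _ => lam_perm (n := 2) _ _ _ _
    rw [Finset.sum_congr rfl this]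
    exact hσ k

/-! ### The dual gauge -/

lemma coord_sc (s : Fin 3 → ℝ) (B : Fr 2) (v : E 2) (k : Fin 3) :
    coord (n := 2) (sc (n := 2) s B) v k = Real.exp (-(s k)) * coord (n := 2) B v k := by
  have hp : (∏ i, Real.exp (s i)) ≠ 0 := Finset.prod_ne_zero_iff.mpr fun i _ => (Real.exp_pos _).ne'
  by_cases hB : dtm B = 0
  · rw [coord_of_dtm_eq_zero hB, coord_of_dtm_eq_zero, mul_zero]
    rw [dtm_sc, hB, mul_zero]
  · have hB' : dtm (sc (n := 2) s B) ≠ 0 := by rw [dtm_sc]; exact mul_ne_zero hp hB
    have h : coord (sc (n := 2) s B) v = fun k => Real.exp (-(s k)) * coord B v k := by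
      apply coord_eq_of_sum hB'
      conv_rhs => rw [← sum_coord hB v]
      refine Finset.sum_congr rfl fun k _ => ?_
      rw [sc, smul_smul]
      congr 1
      have : Real.exp (-(s k)) * Real.exp (s k) = 1 := by rw [← Real.exp_add]; simp
      linear_combination (coord B v k) * this
    rw [h]

/-- the dual gauge -/
noncomputable def dualGauge : Fin 3 → Fr 2 → ℝ := fun k B => |dual (n := 2) B k k|⁻¹

lemma dualGauge_gauge : Gauge (n := 2) dualGauge where
  meas k := by
    have : Measurable fun B : Fr 2 => dual (n := 2) B k k :=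
      ((measurable_pi_apply k).comp (measurable_pi_apply k)).comp measurable_dual
    exact this.abs.inv
  hom k s B := by
    simp only [dualGauge, dual_apply]
    rw [coord_sc, abs_mul, abs_of_pos (Real.exp_pos _), mul_inv, Real.exp_neg, inv_inv]
  pos := by
    let S : Set (Fr 2) := {A | ∃ k : Fin 3, A k k = 0}
    have hS : MeasurableSet S := by
      have : S = ⋃ k : Fin 3, {A : Fr 2 | A k k = 0} := by ext; simp [S]
      rw [this]
      refine MeasurableSet.iUnion fun k => ?_
      exact (measurableSet_singleton (0:ℝ)).preimage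
        (((measurable_pi_apply k).comp (measurable_pi_apply k)) : Measurable fun A : Fr 2 => A k k)
    have h0 : frMeasure 2 S = 0 := by
      apply frMeasure_ac
      have : S = ⋃ k : Fin 3, {A : Fr 2 | A k k = 0} := by ext; simp [S]
      rw [this, measure_iUnion_null_iff]
      intro k
      let L : Fr 2 →ₗ[ℝ] ℝ := LinearMap.proj k ∘ₗ LinearMap.proj k
      have e : {A : Fr 2 | A k k = 0} = (LinearMap.ker L : Set (Fr 2)) := by
        ext A; simp [L]
      rw [e]
      apply Measure.addHaar_submodule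
      intro h
      have : (fun _ => fun _ => 1 : Fr 2) ∈ LinearMap.ker L := h ▸ Submodule.mem_top
      rw [LinearMap.mem_ker] at this
      simp [L] at this
    have h1 := lintegral_dual (n := 2) (measurable_one.indicator hS : Measurable (S.indicator (1 : Fr 2 → ℝ≥0∞)))
    rw [lintegral_indicator_one hS, h0, lintegral_eq_zero_iff] at h1
    · filter_upwards [h1] with B hB k
      have hk : dual (n := 2) B k k ≠ 0 := by
        intro hk
        have hmem : dual (n := 2) B ∈ S := ⟨k, hk⟩
        rw [Set.indicator_of_mem hmem] at hB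
        simp at hB
      exact inv_pos.2 (abs_pos.2 hk)
    · exact (measurable_one.indicator hS).comp measurable_dual

lemma measurableSet_setDual : MeasurableSet setDual := by
  have me : ∀ k j : Fin 3, Measurable fun A : Fr 2 => A k j := fun k j =>
    (measurable_pi_apply j).comp (measurable_pi_apply k)
  have : setDual = ⋂ k : Fin 3, (((⋂ j : Fin 3, {A : Fr 2 | 0 ≤ A k j}) ∪ (⋂ j : Fin 3, {A : Fr 2 | A k j ≤ 0})) ∩
      ({A | ∑ j ∈ Finset.univ.erase k, |A k j| < |A k k|} ∩ ({A | 1 ≤ |A k k|⁻¹} ∩ {A | |A k k|⁻¹ < Real.exp 1}))) := by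
    ext A; simp [setDual]
  rw [this]
  refine MeasurableSet.iInter fun k => MeasurableSet.inter (MeasurableSet.union ?_ ?_) (MeasurableSet.inter ?_
    (MeasurableSet.inter ?_ ?_))
  · exact MeasurableSet.iInter fun j => measurableSet_le measurable_const (me k j)
  · exact MeasurableSet.iInter fun j => measurableSet_le (me k j) measurable_const
  · exact measurableSet_lt (Finset.measurable_sum _ fun j _ => (me k j).abs) (me k k).abs
  · exact measurableSet_le measurable_const (me k k).abs.inv
  · exact measurableSet_lt (me k k).abs.inv measurable_const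

lemma dual_mem {B : Fr 2} (h : B ∈ setD) (hw : ∀ k, 1 ≤ dualGauge k B ∧ dualGauge k B < Real.exp 1) :
    dual (n := 2) B ∈ setDual := by
  intro k
  have hl : ∀ j, lam (n := 2) B (Pi.single j 1) k = zs (n := 2) B k * dual (n := 2) B k j := by
    intro j
    rw [dual_apply, lam]
  obtain ⟨h1, h2⟩ := h k
  simp only [hl] at h1 h2
  have hpos : 0 < zs (n := 2) B k * dual (n := 2) B k k :=
    lt_of_le_of_lt (Finset.sum_nonneg fun j _ => h1 j) h2
  have hz : zs (n := 2) B k ≠ 0 := by
    intro h0
    rw [h0, zero_mul] at hpos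
    exact lt_irrefl _ hpos
  refine ⟨?_, ?_, (hw k).1, (hw k).2⟩
  · rcases lt_or_gt_of_ne hz with hz | hz
    · right
      intro j
      have := h1 j
      by_contra hcon
      push Not at hcon
      nlinarith
    · left
      intro j
      have := h1 j
      by_contra hcon
      push Not at hcon
      nlinarith
  · have h3 : ∀ j, |zs (n := 2) B k| * |dual (n := 2) B k j| = zs (n := 2) B k * dual (n := 2) B k j := by
      intro j
      rw [← abs_mul, abs_of_nonneg (h1 j)]
    have h4 : |zs (n := 2) B k| * ∑ j ∈ Finset.univ.erase k, |dual (n := 2) B k j| <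
        |zs (n := 2) B k| * |dual (n := 2) B k k| := by
      rw [Finset.mul_sum, h3, Finset.sum_congr rfl fun j _ => h3 j]
      exact h2
    exact lt_of_mul_lt_mul_left h4 (abs_nonneg _)

lemma ae_rowM : ∀ᵐ A : Fr 2, ∀ k j : Fin 3, (rowM k).mulVec (A k) j ≠ 0 := by
  rw [ae_all_iff]
  intro k
  rw [ae_all_iff]
  intro j
  let L : Fr 2 →ₗ[ℝ] ℝ := LinearMap.proj j ∘ₗ Matrix.toLin' (rowM k) ∘ₗ LinearMap.proj k
  have hL : ∀ A, L A = (rowM k).mulVec (A k) j := fun A => by simp [L]
  have hne : LinearMap.ker L ≠ ⊤ := by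
    intro h
    have h1 : ∀ u : Fin 3 → ℝ, (rowM k).mulVec u j = 0 := by
      intro u
      have : (fun _ => u : Fr 2) ∈ LinearMap.ker L := h ▸ Submodule.mem_top
      rw [LinearMap.mem_ker, hL] at this
      exact this
    have h2 : IsUnit (rowM k) := by
      rw [Matrix.isUnit_iff_isUnit_det, det_rowM]; exact isUnit_one
    have h3 := h1 ((rowM k)⁻¹.mulVec (Pi.single j 1))
    rw [Matrix.mulVec_mulVec, Matrix.mul_nonsing_inv _ (by rw [det_rowM]; exact isUnit_one), Matrix.one_mulVec] at h3
    simp at h3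
  have hnull := Measure.addHaar_submodule (volume : Measure (Fr 2)) (LinearMap.ker L) hne
  rw [ae_iff]
  have e : {A : Fr 2 | ¬ (rowM k).mulVec (A k) j ≠ 0} = (LinearMap.ker L : Set (Fr 2)) := by
    ext A
    simp [hL]
  rw [e]; exact hnull

/-- the measure of the set of dual frames is finite -/
theorem setDual_finite : ∫⁻ A, setDual.indicator 1 A ∂(frMeasure 2) < ⊤ := by
  have hC : (0:ℝ) ≤ (((Real.exp 1 * 3)⁻¹)^12)^(-(3/4) : ℝ) := by positivity
  have hint := (integrable_prod_phi.const_mul ((((Real.exp 1 * 3)⁻¹)^12)^(-(3/4) : ℝ))).lintegral_lt_top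
  refine lt_of_le_of_lt ?_ hint
  rw [frMeasure, lintegral_withDensity_eq_lintegral_mul _ measurable_density
    (measurable_one.indicator measurableSet_setDual)]
  apply lintegral_mono_ae
  filter_upwards [ae_rowM] with A hA
  simp only [Pi.mul_apply]
  by_cases h : A ∈ setDual
  · rw [Set.indicator_of_mem h, Pi.one_apply, mul_one]
    exact ENNReal.ofReal_le_ofReal (det_lower h hA)
  · rw [Set.indicator_of_notMem h, mul_zero]
    exact zero_le

/-- **Finiteness** of the frequency of the unit triangle. -/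
theorem mobius_unit_ne_top : mobius 2 (CFof 2 (poly (unitVerts 2))) ≠ ⊤ := by
  have hw := measurable_win (n := 2) stdGauge_gauge
  have hD : Measurable (setD.indicator (1 : Fr 2 → ℝ≥0∞)) := measurable_one.indicator measurableSet_setD
  have h1 : ∫⁻ B, win (n := 2) (stdGauge 2) B * setD.indicator 1 B ∂(frMeasure 2) < ⊤ := by
    rw [win_indep (n := 2) stdGauge_gauge dualGauge_gauge hD (fun s B => indicator_congr (sc_mem_setD s B))]
    have h2 : ∫⁻ B, setDual.indicator 1 (dual (n := 2) B) ∂(frMeasure 2) = ∫⁻ A, setDual.indicator 1 A ∂(frMeasure 2) :=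
      lintegral_dual (n := 2) (measurable_one.indicator measurableSet_setDual)
    refine lt_of_le_of_lt ?_ (h2.trans_lt setDual_finite)
    apply lintegral_mono
    intro B
    show win (n := 2) dualGauge B * setD.indicator 1 B ≤ setDual.indicator 1 (dual (n := 2) B)
    by_cases hB : B ∈ setD
    · by_cases hB' : B ∈ {B : Fr 2 | ∀ i, 1 ≤ dualGauge i B ∧ dualGauge i B < Real.exp 1}
      · rw [Set.indicator_of_mem (dual_mem hB hB'), Set.indicator_of_mem hB, win, Set.indicator_of_mem hB']
        simp
      · rw [win, Set.indicator_of_notMem hB', zero_mul]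
        exact zero_le
    · rw [Set.indicator_of_notMem hB, mul_zero]
      exact zero_le
  rw [mobius_poly isUnimodularConfig_unitVerts]
  have h3 : ∫⁻ B, win (n := 2) (stdGauge 2) B * {B : Fr 2 | condV (n := 2) (unitVerts 2) B}.indicator 1 B ∂(frMeasure 2) ≤
      ∑ σ : Equiv.Perm (Fin 3), ∫⁻ B, win (n := 2) (stdGauge 2) B * setD.indicator 1 (fun i => B (σ i)) ∂(frMeasure 2) := by
    rw [← lintegral_finsetSum]
    · apply lintegral_mono
      intro B
      show win (n := 2) (stdGauge 2) B * {B : Fr 2 | condV (n := 2) (unitVerts 2) B}.indicator 1 B ≤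
        ∑ σ : Equiv.Perm (Fin 3), win (n := 2) (stdGauge 2) B * setD.indicator 1 (fun i => B (σ i))
      rw [← Finset.mul_sum]
      gcongr
      by_cases hB : condV (n := 2) (unitVerts 2) B
      · obtain ⟨σ, hσ⟩ := exists_perm hB
        rw [Set.indicator_of_mem (show B ∈ {B : Fr 2 | condV (n := 2) (unitVerts 2) B} from hB)]
        have h4 : setD.indicator (1 : Fr 2 → ℝ≥0∞) (fun i => B (σ i)) = 1 := by
          rw [Set.indicator_of_mem hσ]; rfl
        calc (1 : Fr 2 → ℝ≥0∞) B = setD.indicator (1 : Fr 2 → ℝ≥0∞) (fun i => B (σ i)) := by rw [h4]; rfl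
          _ ≤ _ := Finset.single_le_sum (f := fun σ : Equiv.Perm (Fin 3) =>
              setD.indicator (1 : Fr 2 → ℝ≥0∞) (fun i => B (σ i))) (fun _ _ => zero_le) (Finset.mem_univ σ)
      · rw [Set.indicator_of_notMem (show B ∉ {B : Fr 2 | condV (n := 2) (unitVerts 2) B} from hB)]
        exact zero_le
    · intro σ _
      apply hw.mul
      apply hD.comp
      exact measurable_pi_lambda _ fun i => measurable_pi_apply (σ i)
  refine (lt_of_le_of_lt h3 ?_).ne
  rw [Finset.sum_congr rfl fun σ _ => perm_inv (n := 2) σ hD]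
  exact ENNReal.sum_lt_top.2 fun _ _ => h1

end Pool.Agent.Helper46.Sail
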