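import Pool.Agent.Helper46.FrameMeasure

open MeasureTheory Set
open scoped ENNReal LinearAlgebra.Projectivization

namespace Pool.Agent.Helper46.Sail

variable {n : ℕ}

lemma lact_sc (g : E n →ₗ[ℝ] E n) (s : Fin (n+1) → ℝ) (B : Fr n) : lact g (sc s B) = sc s (lact g B) := by
  funext i; simp [lact_apply, sc]

lemma Gauge.lact {N : Fin (n+1) → Fr n → ℝ} (hN : Gauge N) {g : E n →ₗ[ℝ] E n} (hg : LinearMap.det g ≠ 0) :
    Gauge (fun i B => N i (lact g B)) where
  meas i := (hN.meas i).comp (mp_lact g hg).measurable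
  hom i s B := by rw [lact_sc, hN.hom]
  pos := (mp_lact g hg).quasiMeasurePreserving.ae hN.pos

/-- invariance under the left action -/
theorem lact_inv {N : Fin (n+1) → Fr n → ℝ} (hN : Gauge N) (g : E n ≃ₗ[ℝ] E n) {f : Fr n → ℝ≥0∞}
    (hf : Measurable f) (hinv : ∀ s B, f (sc s B) = f B) :
    ∫⁻ B, win N B * f (lact (g : E n →ₗ[ℝ] E n) B) ∂(frMeasure n) = ∫⁻ B, win N B * f B ∂(frMeasure n) := by
  have hg : LinearMap.det (g : E n →ₗ[ℝ] E n) ≠ 0 := (LinearEquiv.isUnit_det' g).ne_zero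
  have hg' : LinearMap.det (g.symm : E n →ₗ[ℝ] E n) ≠ 0 := (LinearEquiv.isUnit_det' g.symm).ne_zero
  have hN' := hN.lact hg'
  have hm : Measurable fun B => win (fun i B => N i (lact (g.symm : E n →ₗ[ℝ] E n) B)) B * f B :=
    (measurable_win hN').mul hf
  rw [win_indep hN hN' hf hinv, ← (mp_lact _ hg).lintegral_comp hm]
  apply lintegral_congr
  intro B
  congr 1
  unfold win
  have : lact (g.symm : E n →ₗ[ℝ] E n) (lact (g : E n →ₗ[ℝ] E n) B) = B := by
    funext i; simp [lact_apply]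
  by_cases h : B ∈ {B | ∀ i, 1 ≤ N i B ∧ N i B < Real.exp 1}
  · rw [Set.indicator_of_mem h, Set.indicator_of_mem]
    · rfl
    · show ∀ i, 1 ≤ N i _ ∧ N i _ < _
      rw [this]; exact h
  · rw [Set.indicator_of_notMem h, Set.indicator_of_notMem]
    intro h'
    apply h
    have h'' : ∀ i, 1 ≤ N i (lact (g.symm : E n →ₗ[ℝ] E n) (lact (g : E n →ₗ[ℝ] E n) B)) ∧
      N i (lact (g.symm : E n →ₗ[ℝ] E n) (lact (g : E n →ₗ[ℝ] E n) B)) < Real.exp 1 := h'
    rw [this] at h''; exact h''

/-- the standard gauge -/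
noncomputable def stdGauge (n : ℕ) : Fin (n+1) → Fr n → ℝ := fun i B => ‖B i‖

lemma linearIndependent_of_dtm {B : Fr n} (h : dtm B ≠ 0) : LinearIndependent ℝ B := by
  have : IsUnit (Matrix.of B) := by
    rw [Matrix.isUnit_iff_isUnit_det, isUnit_iff_ne_zero]; exact h
  exact Matrix.linearIndependent_rows_iff_isUnit.mpr this

lemma dtm_of_linearIndependent {B : Fr n} (h : LinearIndependent ℝ B) : dtm B ≠ 0 := by
  have : IsUnit (Matrix.of B) := Matrix.linearIndependent_rows_iff_isUnit.mp h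
  rwa [Matrix.isUnit_iff_isUnit_det, isUnit_iff_ne_zero] at this

lemma stdGauge_gauge : Gauge (stdGauge n) where
  meas i := (measurable_pi_apply i).norm
  hom i s B := by
    simp only [stdGauge, sc, norm_smul, Real.norm_eq_abs, abs_of_pos (Real.exp_pos _)]
  pos := by
    filter_upwards [ae_dtm] with B hB i
    exact norm_pos_iff.mpr ((linearIndependent_of_dtm hB).ne_zero i)

/-- invariance under permutations -/
theorem perm_inv (σ : Equiv.Perm (Fin (n+1))) {f : Fr n → ℝ≥0∞} (hf : Measurable f) :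
    ∫⁻ B, win (stdGauge n) B * f (fun i => B (σ i)) ∂(frMeasure n) =
      ∫⁻ B, win (stdGauge n) B * f B ∂(frMeasure n) := by
  let M : Matrix (Fin (n+1)) (Fin (n+1)) ℝ := (1 : Matrix (Fin (n+1)) (Fin (n+1)) ℝ).submatrix σ id
  have hM : M.det ≠ 0 := by
    simp only [M]
    rw [Matrix.det_permute]
    simp
  have hM' : ∀ B : Fr n, ract M B = fun i => B (σ i) := by
    intro B
    funext i
    simp [ract_apply, M, Matrix.one_apply]
  have hmp := mp_ract M hM
  have hm : Measurable fun B => win (stdGauge n) B * f B := (measurable_win stdGauge_gauge).mul hf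
  rw [← hmp.lintegral_comp hm]
  apply lintegral_congr
  intro B
  rw [hM']
  congr 1
  unfold win
  have : (fun i => B (σ i)) ∈ {B : Fr n | ∀ i, 1 ≤ stdGauge n i B ∧ stdGauge n i B < Real.exp 1} ↔
      B ∈ {B : Fr n | ∀ i, 1 ≤ stdGauge n i B ∧ stdGauge n i B < Real.exp 1} := by
    simp only [Set.mem_ofPred_eq, stdGauge]
    constructor
    · intro h i
      have := h (σ.symm i)
      simpa using this
    · intro h i
      exact h (σ i)
  by_cases h : B ∈ {B : Fr n | ∀ i, 1 ≤ stdGauge n i B ∧ stdGauge n i B < Real.exp 1}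
  · rw [Set.indicator_of_mem h, Set.indicator_of_mem (this.2 h)]; rfl
  · rw [Set.indicator_of_notMem h, Set.indicator_of_notMem (fun h' => h (this.1 h'))]

end Pool.Agent.Helper46.Sail
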