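import Pool.Agent.Helper46.SailDefs

/-!
# The Möbius measure on the space of continued fractions

A continued fraction is given by the lines spanned by the vectors `B 0, …, B n` of a frame (a basis)
of `ℝ^{n+1}`. The measure `|det B|^{-(n+1)} dB` on the space of frames is invariant under the linear
group and under rescaling of the vectors `B i`. The Möbius measure of a set `S` of continued
fractions is the mass, for this measure, of the set of frames spanning elements of `S` all of whose
vectors are normalised by `1 ≤ ‖B i‖ < e`.
-/

open scoped LinearAlgebra.Projectivization
open MeasureTheory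

namespace Pool.Agent.Helper46.Sail

/-- `n + 1` vectors of `ℝ^{n+1}` -/
abbrev Fr (n : ℕ) : Type := Fin (n + 1) → E n

/-- the determinant of the matrix with rows `B 0, …, B n` -/
noncomputable def dtm {n : ℕ} (B : Fr n) : ℝ := (Matrix.of B).det

/-- the measure `|det B|^{-(n+1)} dB` on frames (`dB` is Lebesgue measure) -/
noncomputable def frMeasure (n : ℕ) : Measure (Fr n) :=
  volume.withDensity fun B => ENNReal.ofReal ((|dtm B|⁻¹) ^ (n + 1))

/-- the continued fraction given by the coordinate axes -/
noncomputable def axesCF (n : ℕ) : CF n :=
  ⟨Set.range fun i => Projectivization.mk ℝ (Pi.basisFun ℝ (Fin (n + 1)) i)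
      ((Pi.basisFun ℝ (Fin (n + 1))).ne_zero i),
    _, Projectivization.Independent.mk _ (Pi.basisFun ℝ (Fin (n + 1))).ne_zero
      (Pi.basisFun ℝ (Fin (n + 1))).linearIndependent, rfl⟩

open Classical in
/-- the continued fraction given by the lines spanned by the vectors of a frame (dependent families
of vectors, which form a null set, are sent to the coordinate axes) -/
noncomputable def ofFrame {n : ℕ} (B : Fr n) : CF n :=
  if h : LinearIndependent ℝ B then
    ⟨Set.range fun i => Projectivization.mk ℝ (B i) (h.ne_zero i),
      _, Projectivization.Independent.mk B h.ne_zero h, rfl⟩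
  else axesCF n

/-- a set of continued fractions is measurable if the set of frames spanning its elements is
Borel measurable -/
noncomputable instance (n : ℕ) : MeasurableSpace (CF n) := MeasurableSpace.map ofFrame inferInstance

/-- The Möbius measure: the image of the measure `|det B|^{-(n+1)} dB` restricted to the frames
with `1 ≤ ‖B i‖ < e` for all `i`. -/
noncomputable def mobius (n : ℕ) : Measure (CF n) :=
  Measure.map ofFrame ((frMeasure n).restrict {B | ∀ i, 1 ≤ ‖B i‖ ∧ ‖B i‖ < Real.exp 1})

end Pool.Agent.Helper46.Sail
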