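import Pool.Agent.Helper46.SailMain
import Pool.Agent.Helper46.MobiusDefs

open MeasureTheory Set
open scoped ENNReal

namespace Pool.Agent.Helper46.Sail

variable {n : ℕ}

lemma measurable_dtm : Measurable (dtm (n := n)) := by
  have : Continuous (dtm (n := n)) := by
    unfold dtm
    exact Continuous.matrix_det (continuous_id)
  exact this.measurable

lemma measurable_density : Measurable fun B : Fr n => ENNReal.ofReal ((|dtm B|⁻¹) ^ (n + 1)) := by
  apply ENNReal.measurable_ofReal.comp
  exact ((measurable_dtm.abs).inv).pow_const _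

instance : SFinite (frMeasure n) := by unfold frMeasure; infer_instance

lemma ae_dtm : ∀ᵐ B ∂(frMeasure n), dtm B ≠ 0 := by
  rw [frMeasure, ae_withDensity_iff measurable_density]
  filter_upwards with B h h0
  apply h
  rw [h0]
  simp

lemma frMeasure_ac : frMeasure n ≪ (volume : Measure (Fr n)) := withDensity_absolutelyContinuous _ _

/-- a linear map multiplying the determinant by `d`, with determinant `± d^{n+1}`, preserves the measure -/
lemma mp_of_linear (L : Fr n →ₗ[ℝ] Fr n) (d : ℝ) (hd : d ≠ 0) (h1 : |LinearMap.det L| = |d| ^ (n + 1))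
    (h2 : ∀ B, dtm (L B) = d * dtm B) : MeasurePreserving L (frMeasure n) (frMeasure n) := by
  have hL : LinearMap.det L ≠ 0 := by
    intro h
    rw [h, abs_zero] at h1
    exact (pow_ne_zero _ (abs_ne_zero.mpr hd)) h1.symm
  have hc : Continuous L := LinearMap.continuous_of_finiteDimensional L
  refine ⟨hc.measurable, ?_⟩
  ext S hS
  rw [Measure.map_apply hc.measurable hS, frMeasure, withDensity_apply _ (hc.measurable hS),
    withDensity_apply _ hS]
  have hvol : Measure.map L (volume : Measure (Fr n)) = ENNReal.ofReal |(LinearMap.det L)⁻¹| • volume :=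
    Measure.map_linearMap_addHaar_eq_smul_addHaar volume hL
  have e1 : ∀ B : Fr n, ENNReal.ofReal ((|dtm B|⁻¹) ^ (n + 1)) =
      ENNReal.ofReal |LinearMap.det L| * ENNReal.ofReal ((|dtm (L B)|⁻¹) ^ (n + 1)) := by
    intro B
    rw [← ENNReal.ofReal_mul (abs_nonneg _), h1, h2, abs_mul, mul_inv, mul_pow, ← mul_assoc, ← mul_pow,
      mul_inv_cancel₀ (abs_ne_zero.mpr hd), one_pow, one_mul]
  calc ∫⁻ B in L ⁻¹' S, ENNReal.ofReal ((|dtm B|⁻¹) ^ (n + 1))
      = ∫⁻ B in L ⁻¹' S, ENNReal.ofReal |LinearMap.det L| * ENNReal.ofReal ((|dtm (L B)|⁻¹) ^ (n + 1)) := by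
        simp_rw [← e1]
    _ = ENNReal.ofReal |LinearMap.det L| * ∫⁻ B in L ⁻¹' S, ENNReal.ofReal ((|dtm (L B)|⁻¹) ^ (n + 1)) := by
        exact lintegral_const_mul _ (measurable_density.comp hc.measurable)
    _ = ENNReal.ofReal |LinearMap.det L| *
          ∫⁻ B in S, ENNReal.ofReal ((|dtm B|⁻¹) ^ (n + 1)) ∂(Measure.map L volume) := by
        rw [setLIntegral_map hS measurable_density hc.measurable]
    _ = ENNReal.ofReal |LinearMap.det L| * (ENNReal.ofReal |(LinearMap.det L)⁻¹| *
          ∫⁻ B in S, ENNReal.ofReal ((|dtm B|⁻¹) ^ (n + 1))) := by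
        rw [hvol, Measure.restrict_smul, lintegral_smul_measure, smul_eq_mul]
    _ = _ := by
        rw [← mul_assoc, ← ENNReal.ofReal_mul (abs_nonneg _), ← abs_mul, mul_inv_cancel₀ hL, abs_one,
          ENNReal.ofReal_one, one_mul]

/-- left action of a linear map -/
noncomputable def lact (g : E n →ₗ[ℝ] E n) : Fr n →ₗ[ℝ] Fr n :=
  LinearMap.pi fun i => g ∘ₗ LinearMap.proj i

lemma lact_apply (g : E n →ₗ[ℝ] E n) (B : Fr n) (i : Fin (n+1)) : lact g B i = g (B i) := rfl

lemma dtm_lact (g : E n →ₗ[ℝ] E n) (B : Fr n) : dtm (lact g B) = LinearMap.det g * dtm B := by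
  have h : Matrix.of (lact g B) = Matrix.of B * (LinearMap.toMatrix' g).transpose := by
    ext i j
    rw [Matrix.mul_apply]
    show g (B i) j = _
    have := LinearMap.toMatrix'_mulVec g (B i)
    rw [← this]
    simp only [Matrix.mulVec, dotProduct, Matrix.transpose_apply, Matrix.of_apply]
    exact Finset.sum_congr rfl fun k _ => mul_comm _ _
  rw [dtm, h, Matrix.det_mul, Matrix.det_transpose, LinearMap.det_toMatrix', mul_comm]
  rfl

lemma mp_lact (g : E n →ₗ[ℝ] E n) (hg : LinearMap.det g ≠ 0) :
    MeasurePreserving (lact g) (frMeasure n) (frMeasure n) := by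
  apply mp_of_linear _ _ hg _ (dtm_lact g)
  rw [lact, LinearMap.det_pi]
  simp [abs_pow]

/-- the action of a matrix on the index of the frame -/
noncomputable def ract (M : Matrix (Fin (n+1)) (Fin (n+1)) ℝ) : Fr n →ₗ[ℝ] Fr n where
  toFun B := fun i => ∑ j, M i j • B j
  map_add' B B' := by funext i; simp [Finset.sum_add_distrib]
  map_smul' c B := by
    funext i
    simp only [Pi.smul_apply, RingHom.id_apply, Finset.smul_sum]
    exact Finset.sum_congr rfl fun j _ => smul_comm _ _ _

lemma ract_apply (M : Matrix (Fin (n+1)) (Fin (n+1)) ℝ) (B : Fr n) (i : Fin (n+1)) :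
    ract M B i = ∑ j, M i j • B j := rfl

lemma of_ract (M : Matrix (Fin (n+1)) (Fin (n+1)) ℝ) (B : Fr n) :
    Matrix.of (ract M B) = M * Matrix.of B := by
  ext i j
  simp [ract_apply, Matrix.mul_apply, Finset.sum_apply]

lemma dtm_ract (M : Matrix (Fin (n+1)) (Fin (n+1)) ℝ) (B : Fr n) : dtm (ract M B) = M.det * dtm B := by
  rw [dtm, of_ract, Matrix.det_mul]; rfl

lemma det_ract (M : Matrix (Fin (n+1)) (Fin (n+1)) ℝ) : LinearMap.det (ract (n := n) M) = M.det ^ (n + 1) := by
  let e : Fr n ≃ₗ[ℝ] Fr n :=
    { toFun := fun B i j => B j i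
      invFun := fun B i j => B j i
      map_add' := fun _ _ => rfl
      map_smul' := fun _ _ => rfl
      left_inv := fun _ => rfl
      right_inv := fun _ => rfl }
  have h : (ract (n := n) M) = (e : Fr n →ₗ[ℝ] Fr n) ∘ₗ
      (LinearMap.pi fun i => (Matrix.toLin' M) ∘ₗ LinearMap.proj i) ∘ₗ (e.symm : Fr n →ₗ[ℝ] Fr n) := by
    ext B i j
    simp [ract_apply, e, Matrix.mulVec, dotProduct, Finset.sum_apply]
  rw [h, LinearMap.det_conj, LinearMap.det_pi]
  simp

lemma mp_ract (M : Matrix (Fin (n+1)) (Fin (n+1)) ℝ) (hM : M.det ≠ 0) :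
    MeasurePreserving (ract M) (frMeasure n) (frMeasure n) := by
  apply mp_of_linear _ _ hM _ (dtm_ract M)
  rw [det_ract, abs_pow]

/-! ### Scaling of the vectors, gauges and windows -/

/-- multiplication of the vectors by `exp (s i)` -/
noncomputable def sc (s : Fin (n+1) → ℝ) (B : Fr n) : Fr n := fun i => Real.exp (s i) • B i

lemma sc_eq_ract (s : Fin (n+1) → ℝ) (B : Fr n) :
    sc s B = ract (Matrix.diagonal fun i => Real.exp (s i)) B := by
  funext i
  simp [sc, ract_apply, Matrix.diagonal_apply]

lemma mp_sc (s : Fin (n+1) → ℝ) : MeasurePreserving (sc (n := n) s) (frMeasure n) (frMeasure n) := by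
  have : sc (n := n) s = ract (Matrix.diagonal fun i => Real.exp (s i)) := by
    funext B; exact sc_eq_ract s B
  rw [this]
  apply mp_ract
  rw [Matrix.det_diagonal]
  exact Finset.prod_ne_zero_iff.mpr fun i _ => (Real.exp_pos _).ne'

lemma sc_sc (s t : Fin (n+1) → ℝ) (B : Fr n) : sc s (sc t B) = sc (s + t) B := by
  funext i; simp [sc, smul_smul, Real.exp_add]

lemma sc_zero (B : Fr n) : sc 0 B = B := by
  funext i; simp [sc]

lemma measurable_sc_uncurry : Measurable (fun p : (Fin (n+1) → ℝ) × Fr n => sc p.1 p.2) := by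
  apply measurable_pi_lambda
  intro i
  exact (Real.measurable_exp.comp ((measurable_pi_apply i).comp measurable_fst)).smul
    ((measurable_pi_apply i).comp measurable_snd)

/-- a gauge: a family of positive functions, the `i`-th of which is homogeneous of degree one in the
`i`-th vector and of degree zero in the others -/
structure Gauge (N : Fin (n+1) → Fr n → ℝ) : Prop where
  meas : ∀ i, Measurable (N i)
  hom : ∀ i s B, N i (sc s B) = Real.exp (s i) * N i B
  pos : ∀ᵐ B ∂(frMeasure n), ∀ i, 0 < N i B

/-- the window of a gauge -/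
noncomputable def win (N : Fin (n+1) → Fr n → ℝ) (B : Fr n) : ℝ≥0∞ :=
  Set.indicator {B | ∀ i, 1 ≤ N i B ∧ N i B < Real.exp 1} 1 B

lemma measurable_win {N : Fin (n+1) → Fr n → ℝ} (hN : Gauge N) : Measurable (win N) := by
  apply Measurable.indicator measurable_one
  have : {B | ∀ i, 1 ≤ N i B ∧ N i B < Real.exp 1} = ⋂ i, {B | 1 ≤ N i B ∧ N i B < Real.exp 1} := by
    ext; simp
  rw [this]
  exact MeasurableSet.iInter fun i => (measurableSet_le measurable_const (hN.meas i)).inter
    (measurableSet_lt (hN.meas i) measurable_const)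

lemma win_integral {N : Fin (n+1) → Fr n → ℝ} (hN : Gauge N) {B : Fr n} (hB : ∀ i, 0 < N i B) :
    ∫⁻ s : Fin (n+1) → ℝ, win N (sc s B) = 1 := by
  have h1 : ∀ s : Fin (n+1) → ℝ, win N (sc s B) =
      Set.indicator (Set.pi Set.univ fun i => Set.Ico (-Real.log (N i B)) (1 - Real.log (N i B))) 1 s := by
    intro s
    unfold win
    have : sc s B ∈ {B | ∀ i, 1 ≤ N i B ∧ N i B < Real.exp 1} ↔
        s ∈ (Set.pi Set.univ fun i => Set.Ico (-Real.log (N i B)) (1 - Real.log (N i B))) := by
      simp only [Set.mem_ofPred_eq, Set.mem_pi, Set.mem_univ, true_imp_iff, Set.mem_Ico]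
      refine forall_congr' fun i => ?_
      rw [hN.hom]
      have e : Real.exp (s i) * N i B = Real.exp (s i + Real.log (N i B)) := by
        rw [Real.exp_add, Real.exp_log (hB i)]
      rw [e, ← Real.exp_zero, Real.exp_le_exp, Real.exp_lt_exp]
      constructor
      · rintro ⟨a, b⟩; exact ⟨by linarith, by linarith⟩
      · rintro ⟨a, b⟩; exact ⟨by linarith, by linarith⟩
    by_cases hs : sc s B ∈ {B | ∀ i, 1 ≤ N i B ∧ N i B < Real.exp 1}
    · rw [Set.indicator_of_mem hs, Set.indicator_of_mem (this.1 hs)]; rfl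
    · rw [Set.indicator_of_notMem hs, Set.indicator_of_notMem (fun h => hs (this.2 h))]
  simp_rw [h1]
  rw [lintegral_indicator_one (MeasurableSet.univ_pi fun i => measurableSet_Ico), Real.volume_pi_Ico]
  simp

/-- independence of the window -/
theorem win_indep {N N' : Fin (n+1) → Fr n → ℝ} (hN : Gauge N) (hN' : Gauge N') {f : Fr n → ℝ≥0∞}
    (hf : Measurable f) (hinv : ∀ s B, f (sc s B) = f B) :
    ∫⁻ B, win N B * f B ∂(frMeasure n) = ∫⁻ B, win N' B * f B ∂(frMeasure n) := by
  have hw := measurable_win hN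
  have hw' := measurable_win hN'
  have hwu : ∀ {N : Fin (n+1) → Fr n → ℝ}, Gauge N →
      Measurable (fun p : (Fin (n+1) → ℝ) × Fr n => win N (sc p.1 p.2)) := fun h =>
    (measurable_win h).comp measurable_sc_uncurry
  calc ∫⁻ B, win N B * f B ∂(frMeasure n)
      = ∫⁻ B, win N B * f B * (∫⁻ s : Fin (n+1) → ℝ, win N' (sc s B)) ∂(frMeasure n) := by
        apply lintegral_congr_ae
        filter_upwards [hN'.pos] with B hB
        rw [win_integral hN' hB, mul_one]
    _ = ∫⁻ B, (∫⁻ s : Fin (n+1) → ℝ, win N B * f B * win N' (sc s B)) ∂(frMeasure n) := by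
        apply lintegral_congr
        intro B
        rw [lintegral_const_mul]
        exact (hwu hN').comp (measurable_id.prodMk measurable_const)
    _ = ∫⁻ s : Fin (n+1) → ℝ, ∫⁻ B, win N B * f B * win N' (sc s B) ∂(frMeasure n) := by
        rw [lintegral_lintegral_swap]
        apply Measurable.aemeasurable
        apply Measurable.mul
        · exact (hw.mul hf).comp measurable_fst
        · exact (hwu hN').comp measurable_swap
    _ = ∫⁻ s : Fin (n+1) → ℝ, ∫⁻ B, win N (sc (-s) B) * f B * win N' B ∂(frMeasure n) := by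
        apply lintegral_congr
        intro s
        have hm : Measurable fun B => win N (sc (-s) B) * f B * win N' B :=
          (((hwu hN).comp (measurable_const.prodMk measurable_id)).mul hf).mul hw'
        rw [← (mp_sc s).lintegral_comp hm]
        apply lintegral_congr
        intro B
        rw [sc_sc, neg_add_cancel, sc_zero, hinv]
    _ = ∫⁻ B, (∫⁻ s : Fin (n+1) → ℝ, win N (sc (-s) B) * f B * win N' B) ∂(frMeasure n) := by
        rw [lintegral_lintegral_swap]
        apply Measurable.aemeasurable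
        apply Measurable.mul
        · apply Measurable.mul
          · exact (hwu hN).comp ((measurable_fst.neg).prodMk measurable_snd)
          · exact hf.comp measurable_snd
        · exact hw'.comp measurable_snd
    _ = ∫⁻ B, win N' B * f B ∂(frMeasure n) := by
        apply lintegral_congr_ae
        filter_upwards [hN.pos] with B hB
        have h1 : ∫⁻ s : Fin (n+1) → ℝ, win N (sc (-s) B) = 1 := by
          have := (Measure.measurePreserving_neg (volume : Measure (Fin (n+1) → ℝ))).lintegral_comp
            (f := fun s => win N (sc s B)) ((hwu hN).comp (measurable_id.prodMk measurable_const))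
          rw [this, win_integral hN hB]
        have h2 : ∀ s : Fin (n+1) → ℝ, win N (sc (-s) B) * f B * win N' B =
            win N (sc (-s) B) * (win N' B * f B) := fun s => by ring
        simp_rw [h2]
        rw [lintegral_mul_const, h1, one_mul]
        exact (hwu hN).comp ((measurable_id.neg).prodMk measurable_const)

end Pool.Agent.Helper46.Sail
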