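import Pool.Agent.Helper46.Extremal

open MeasureTheory Set Filter
open scoped ENNReal Topology Pointwise

namespace Pool.Agent.Helper46.Sail

variable {n : ℕ}

/-- a frame near which the unit simplex is a face -/
structure Good (B0 : Fr n) : Prop where
  dtm_ne : dtm B0 ≠ 0
  norm : ∀ i, 1 < ‖B0 i‖ ∧ ‖B0 i‖ < Real.exp 1
  pos : ∀ i k, 0 < lam B0 (Pi.single i 1) k
  adm : ∀ v : Fin (n+1) → ℤ, ∑ i, v i = 1 → v ∉ unitVerts n → ∃ k, lam B0 (toReal v) k < 0

lemma Good.zs_ne {B0 : Fr n} (h : Good B0) (k : Fin (n+1)) : zs B0 k ≠ 0 := by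
  intro h0
  have := h.pos 0 k
  rw [lam, h0, zero_mul] at this
  exact lt_irrefl _ this

lemma continuous_dtm' : Continuous (dtm (n := n)) := by
  unfold dtm
  exact Continuous.matrix_det (continuous_id)

lemma continuous_zs (k : Fin (n+1)) : Continuous fun B : Fr n => zs B k := by
  unfold zs
  exact continuous_finsetSum _ fun j _ => (continuous_apply j).comp (continuous_apply k)

/-- an integer point of the level-one section of the cone is bounded by the vertices of the section -/
lemma abs_le_of_lam {B : Fr n} (hB : dtm B ≠ 0) {M : ℝ}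
    (hM : ∀ k i, |B k i| ≤ M * |zs B k|) (hz : ∀ k, zs B k ≠ 0) {v : E n} (hv : ∑ i, v i = 1)
    (hl : ∀ k, 0 ≤ lam B v k) (i : Fin (n+1)) : |v i| ≤ M := by
  have h1 : v i = ∑ k, lam B v k * (B k i / zs B k) := by
    conv_lhs => rw [← sum_coord hB v]
    rw [Finset.sum_apply]
    refine Finset.sum_congr rfl fun k _ => ?_
    rw [Pi.smul_apply, smul_eq_mul, lam]
    have := hz k
    field_simp
  rw [h1]
  calc |∑ k, lam B v k * (B k i / zs B k)| ≤ ∑ k, |lam B v k * (B k i / zs B k)| := Finset.abs_sum_le_sum_abs _ _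
    _ ≤ ∑ k, lam B v k * M := by
        apply Finset.sum_le_sum
        intro k _
        rw [abs_mul, abs_of_nonneg (hl k), abs_div]
        apply mul_le_mul_of_nonneg_left _ (hl k)
        rw [div_le_iff₀ (abs_pos.2 (hz k))]
        exact hM k i
    _ = M := by rw [← Finset.sum_mul, sum_lam hB, hv, one_mul]

/-- near a good frame the unit simplex is a face -/
lemma Good.eventually_condV {B0 : Fr n} (h : Good B0) : ∀ᶠ B in 𝓝 B0, condV (unitVerts n) B := by
  -- a bound
  obtain ⟨M, hM⟩ : ∃ M : ℝ, ∀ k i, |B0 k i| < M * |zs B0 k| := by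
    have h1 : ∀ k i, ∃ M : ℝ, |B0 k i| < M * |zs B0 k| := fun k i =>
      ⟨|B0 k i| / |zs B0 k| + 1, by
        have := abs_pos.2 (h.zs_ne k)
        rw [add_mul, div_mul_cancel₀ _ this.ne']
        linarith⟩
    choose f hf using h1
    refine ⟨∑ k, ∑ i, |f k i|, fun k i => (hf k i).trans_le ?_⟩
    apply mul_le_mul_of_nonneg_right _ (abs_nonneg _)
    calc f k i ≤ |f k i| := le_abs_self _
      _ ≤ ∑ i, |f k i| := Finset.single_le_sum (f := fun i => |f k i|) (fun _ _ => abs_nonneg _)
          (Finset.mem_univ i)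
      _ ≤ ∑ k, ∑ i, |f k i| := Finset.single_le_sum (f := fun k => ∑ i, |f k i|)
          (fun _ _ => Finset.sum_nonneg fun _ _ => abs_nonneg _) (Finset.mem_univ k)
  have e1 : ∀ᶠ B in 𝓝 B0, ∀ k i, |B k i| < M * |zs B k| := by
    rw [eventually_all]; intro k
    rw [eventually_all]; intro i
    have c1 : Continuous fun B : Fr n => |B k i| := ((continuous_apply i).comp (continuous_apply k)).abs
    have c2 : Continuous fun B : Fr n => M * |zs B k| := continuous_const.mul (continuous_zs k).abs
    exact (c1.tendsto B0).eventually_lt (c2.tendsto B0) (hM k i)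
  have e2 : ∀ᶠ B in 𝓝 B0, dtm B ≠ 0 := continuous_dtm'.continuousAt.eventually_ne h.dtm_ne
  have e3 : ∀ᶠ B in 𝓝 B0, ∀ k, zs B k ≠ 0 := by
    rw [eventually_all]; intro k
    exact (continuous_zs k).continuousAt.eventually_ne (h.zs_ne k)
  have e4 : ∀ᶠ B in 𝓝 B0, ∀ i k, 0 < lam B (Pi.single i 1) k := by
    rw [eventually_all]; intro i
    rw [eventually_all]; intro k
    exact (continuousAt_lam h.dtm_ne _ k).tendsto.eventually_const_lt (h.pos i k)
  let S : Finset (Fin (n+1) → ℤ) := Finset.Icc (fun _ => -⌈M⌉) (fun _ => ⌈M⌉)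
  have e5 : ∀ᶠ B in 𝓝 B0, ∀ v ∈ S, ∑ i, v i = 1 → v ∉ unitVerts n → ∃ k, lam B (toReal v) k < 0 := by
    rw [Filter.eventually_all_finset]
    intro v _
    by_cases h1 : ∑ i, v i = 1
    · by_cases h2 : v ∈ unitVerts n
      · exact Eventually.of_forall fun B _ h3 => absurd h2 h3
      · obtain ⟨k, hk⟩ := h.adm v h1 h2
        filter_upwards [(continuousAt_lam h.dtm_ne (toReal v) k).tendsto.eventually_lt_const hk] with B hB _ _
        exact ⟨k, hB⟩
    · exact Eventually.of_forall fun B h3 => absurd h3 h1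
  filter_upwards [e1, e2, e3, e4, e5] with B b1 b2 b3 b4 b5
  intro v hv
  constructor
  · intro hl
    by_contra hcon
    have hvr : ∑ i, toReal v i = 1 := by rw [sum_toReal, hv]; norm_num
    have hb : ∀ i, |toReal v i| ≤ M := fun i => abs_le_of_lam b2 (fun k i => (b1 k i).le) b3 hvr hl i
    have hS : v ∈ S := by
      rw [Finset.mem_Icc]
      constructor
      · intro i
        have := (abs_le.1 (hb i)).1
        have h1 : (-(⌈M⌉ : ℝ)) ≤ (v i : ℝ) := by
          have := Int.le_ceil M
          simp only [toReal] at *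
          linarith
        exact_mod_cast h1
      · intro i
        have := (abs_le.1 (hb i)).2
        have h1 : (v i : ℝ) ≤ (⌈M⌉ : ℝ) := by
          have := Int.le_ceil M
          simp only [toReal] at *
          linarith
        exact_mod_cast h1
    obtain ⟨k, hk⟩ := b5 v hS hv hcon
    exact absurd (hl k) (not_le.2 hk)
  · intro hmem k
    obtain ⟨i, rfl⟩ := mem_unitVerts.1 hmem
    rw [toReal_single]
    exact (b4 i k).le

/-- removing the cones containing `y` strictly decreases the measure -/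
theorem missing_lt' {y : E n} {B0 : Fr n} (hg : Good B0) (hy : ∀ k, 0 < lam B0 y k)
    (hfin : mobius n (CFof n (poly (unitVerts n))) ≠ ⊤) :
    mobius n (missing (unitVerts n) y) < mobius n (CFof n (poly (unitVerts n))) := by
  have hV := isUnimodularConfig_unitVerts (n := n)
  have hw := measurable_win (n := n) stdGauge_gauge
  set c : Set (Fr n) := {B | condV (unitVerts n) B} with hc
  set G : Set (Fr n) := {B | ∀ k, 0 ≤ lam B y k} with hG
  have hcm : MeasurableSet c := measurableSet_condV _
  have hGm : MeasurableSet G := measurableSet_lamNonneg y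
  have h1 : mobius n (missing (unitVerts n) y) =
      ∫⁻ B, win (stdGauge n) B * (c \ G).indicator 1 B ∂(frMeasure n) := by
    rw [mobius_apply (measurableSet_missing _ _)]
    apply lintegral_congr_ae
    filter_upwards [ae_dtm, ae_zs] with B hB hz
    congr 1
    have := missing_ofFrame hV hB hz y
    by_cases h : B ∈ c \ G
    · rw [Set.indicator_of_mem h, Set.indicator_of_mem]
      exact this.2 ⟨h.1, h.2⟩
    · rw [Set.indicator_of_notMem h, Set.indicator_of_notMem]
      exact fun h' => h ⟨(this.1 h').1, (this.1 h').2⟩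
  have h2 : mobius n (CFof n (poly (unitVerts n))) =
      ∫⁻ B, win (stdGauge n) B * (c \ G).indicator 1 B ∂(frMeasure n) +
      ∫⁻ B, win (stdGauge n) B * (c ∩ G).indicator 1 B ∂(frMeasure n) := by
    rw [mobius_poly hV, ← lintegral_add_left]
    · apply lintegral_congr
      intro B
      rw [← mul_add]
      congr 1
      by_cases hB : B ∈ c
      · by_cases hB' : B ∈ G
        · have a1 : B ∉ c \ G := fun h => h.2 hB'
          have a2 : B ∈ c ∩ G := ⟨hB, hB'⟩
          rw [Set.indicator_of_mem hB, Set.indicator_of_notMem a1, Set.indicator_of_mem a2, zero_add]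
        · have a1 : B ∈ c \ G := ⟨hB, hB'⟩
          have a2 : B ∉ c ∩ G := fun h => hB' h.2
          rw [Set.indicator_of_mem hB, Set.indicator_of_mem a1, Set.indicator_of_notMem a2, add_zero]
      · rw [Set.indicator_of_notMem hB, Set.indicator_of_notMem (fun h => hB h.1),
          Set.indicator_of_notMem (fun h => hB h.1), add_zero]
    · exact hw.mul (measurable_one.indicator (hcm.diff hGm))
  have h3 : 0 < ∫⁻ B, win (stdGauge n) B * (c ∩ G).indicator 1 B ∂(frMeasure n) := by
    apply int_pos hg.dtm_ne hg.norm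
    have hev : ∀ᶠ B in 𝓝 B0, ∀ k, 0 < lam B y k := by
      rw [eventually_all]; intro k
      exact (continuousAt_lam hg.dtm_ne y k).tendsto.eventually_const_lt (hy k)
    filter_upwards [hg.eventually_condV, hev] with B hB1 hB2
    exact ⟨hB1, fun k => (hB2 k).le⟩
  rw [h1, h2]
  rw [h2] at hfin
  exact ENNReal.lt_add_right (ENNReal.add_ne_top.1 hfin).1 h3.ne'

/-- the frame given by linear forms -/
theorem exists_good (L : Fin (n+1) → E n) (u : Fin (n+1) → ℝ) (hu : ∀ k, 0 < u k)
    (hσ : ∀ i, ∑ k, u k * L k i = 1) (hdet : (Matrix.of L).det ≠ 0) (hpos : ∀ i k, 0 < L k i)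
    (hadm : ∀ v : Fin (n+1) → ℤ, ∑ i, v i = 1 → v ∉ unitVerts n → ∃ k, ∑ i, L k i * (v i : ℝ) < 0) :
    ∃ B0 : Fr n, Good B0 ∧ ∀ (v : E n) k, lam B0 v k = u k * ∑ i, L k i * v i := by
  have hU : IsUnit (Matrix.of L).det := isUnit_iff_ne_zero.2 hdet
  set P : Matrix (Fin (n+1)) (Fin (n+1)) ℝ := (Matrix.of L)⁻¹ with hP
  have hPL : P * Matrix.of L = 1 := Matrix.nonsing_inv_mul _ hU
  have hLP : Matrix.of L * P = 1 := Matrix.mul_nonsing_inv _ hU
  have hcol : ∀ k, (fun i => P i k) ≠ 0 := by
    intro k h0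
    have h1 := congrFun (congrFun hLP k) k
    rw [Matrix.mul_apply] at h1
    have h2 : ∀ i, P i k = 0 := fun i => congrFun h0 i
    simp [h2] at h1
  have hsum : ∀ k, ∑ i, P i k = u k := by
    intro k
    have h1 : ∀ i, P i k = ∑ j, u j * (L j i * P i k) := by
      intro i
      calc P i k = (∑ j, u j * L j i) * P i k := by rw [hσ i, one_mul]
        _ = ∑ j, u j * (L j i * P i k) := by
            rw [Finset.sum_mul]
            exact Finset.sum_congr rfl fun j _ => by ring
    calc ∑ i, P i k = ∑ i, ∑ j, u j * (L j i * P i k) := Finset.sum_congr rfl fun i _ => h1 i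
      _ = ∑ j, u j * ∑ i, L j i * P i k := by
          rw [Finset.sum_comm]
          exact Finset.sum_congr rfl fun j _ => by rw [Finset.mul_sum]
      _ = ∑ j, u j * (Matrix.of L * P) j k := rfl
      _ = u k := by rw [hLP]; simp [Matrix.one_apply]
  set c : Fin (n+1) → ℝ := fun k => 2 / ‖(fun i => P i k : E n)‖ with hc
  have hcpos : ∀ k, 0 < c k := fun k => div_pos (by norm_num) (norm_pos_iff.2 (hcol k))
  let B0 : Fr n := fun k => c k • (fun i => P i k : E n)
  have hB0 : dtm B0 ≠ 0 := by
    have : Matrix.of B0 = Matrix.diagonal c * P.transpose := by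
      ext k i
      rw [Matrix.diagonal_mul]
      rfl
    rw [dtm, this, Matrix.det_mul, Matrix.det_diagonal, Matrix.det_transpose]
    apply mul_ne_zero
    · exact Finset.prod_ne_zero_iff.2 fun k _ => (hcpos k).ne'
    · intro h0
      have := congrArg Matrix.det hLP
      rw [Matrix.det_mul, h0, mul_zero, Matrix.det_one] at this
      exact zero_ne_one this
  have hlam : ∀ (v : E n) k, lam B0 v k = u k * ∑ i, L k i * v i := by
    intro v k
    have h1 : ∑ k, ((∑ i, L k i * v i) / c k) • B0 k = v := by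
      funext j
      rw [Finset.sum_apply]
      have h2 : ∀ k, (((∑ i, L k i * v i) / c k) • B0 k) j = P j k * ∑ i, L k i * v i := by
        intro k
        show (∑ i, L k i * v i) / c k * (c k * P j k) = _
        have := (hcpos k).ne'
        field_simp
      rw [Finset.sum_congr rfl fun k _ => h2 k]
      calc ∑ k, P j k * ∑ i, L k i * v i = (P.mulVec ((Matrix.of L).mulVec v)) j := rfl
        _ = v j := by rw [Matrix.mulVec_mulVec, hPL, Matrix.one_mulVec]
    rw [lam, coord_eq_of_sum hB0 h1]
    have h3 : zs B0 k = c k * u k := by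
      rw [← hsum k, Finset.mul_sum]; rfl
    rw [h3]
    have := (hcpos k).ne'
    field_simp
  refine ⟨B0, ⟨hB0, fun k => ?_, fun i k => ?_, fun v hv hv' => ?_⟩, hlam⟩
  · have : ‖B0 k‖ = 2 := by
      show ‖c k • (fun i => P i k : E n)‖ = 2
      rw [norm_smul, Real.norm_eq_abs, abs_of_pos (hcpos k)]
      exact div_mul_cancel₀ _ (norm_pos_iff.2 (hcol k)).ne'
    rw [this]
    have := Real.exp_one_gt_d9
    constructor
    · norm_num
    · linarith
  · rw [hlam]
    apply mul_pos (hu k)
    simpa [Pi.single_apply] using hpos i k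
  · obtain ⟨k, hk⟩ := hadm v hv hv'
    refine ⟨k, ?_⟩
    rw [hlam]
    exact mul_neg_of_pos_of_neg (hu k) hk

end Pool.Agent.Helper46.Sail
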