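import Mathlib

namespace Pool.Agent.Helper46.Sail

variable {n : ℕ}

/-- the conditions on the lattice of coordinates with respect to the vertices of an extremal simplex -/
structure NV (Λ : AddSubgroup (Fin (n+1) → ℝ)) : Prop where
  int : ∀ z : Fin (n+1) → ℤ, (fun i => (z i : ℝ)) ∈ Λ
  hom : ∀ y ∈ Λ, ∀ θ : ℝ, 0 < θ → θ < 1 → (∀ k, 0 < y k + θ * ∑ i, y i) → 1 ≤ ∑ i, y i
  spike : ∀ y ∈ Λ, ∀ a b, a ≠ b → 0 < y b → y b < ∑ i, y i → (∀ k, k ≠ a → k ≠ b → 0 ≤ y k) →
    1 ≤ ∑ i, y i ∧ (∑ i, y i = 1 → ∀ k, 0 ≤ y k)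

variable {Λ : AddSubgroup (Fin (n+1) → ℝ)}

lemma NV.sub_int (h : NV Λ) {y : Fin (n+1) → ℝ} (hy : y ∈ Λ) (z : Fin (n+1) → ℤ) :
    (fun i => y i - (z i : ℝ)) ∈ Λ := Λ.sub_mem hy (h.int z)

lemma NV.fract_mem (h : NV Λ) {y : Fin (n+1) → ℝ} (hy : y ∈ Λ) : (fun i => Int.fract (y i)) ∈ Λ :=
  h.sub_int hy fun i => ⌊y i⌋

/-- all the nonzero fractional parts are at least the fractional part of the sum -/
lemma NV.fract_le (h : NV Λ) (hn : 2 ≤ n) {φ : Fin (n+1) → ℝ} (hφ : φ ∈ Λ) (h0 : ∀ k, 0 ≤ φ k)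
    (h1 : ∀ k, φ k < 1) (hne : ∃ k, φ k ≠ 0) :
    0 < Int.fract (∑ k, φ k) ∧ ∀ b, φ b ≠ 0 → Int.fract (∑ k, φ k) ≤ φ b := by
  have hS0 : 0 < ∑ k, φ k := by
    obtain ⟨b, hb⟩ := hne
    exact Finset.sum_pos' (fun k _ => h0 k) ⟨b, Finset.mem_univ _, lt_of_le_of_ne (h0 b) (Ne.symm hb)⟩
  set p := ⌊∑ k, φ k⌋ with hp
  have hS : (p : ℝ) + Int.fract (∑ k, φ k) = ∑ k, φ k := Int.floor_add_fract _
  constructor
  · apply lt_of_le_of_ne (Int.fract_nonneg _)
    intro h00
    rw [← h00, add_zero] at hS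
    have hp1 : 1 ≤ p := by
      have : (0:ℝ) < p := by rw [hS]; exact hS0
      have : 0 < p := by exact_mod_cast this
      omega
    have hp1' : (1:ℝ) ≤ p := by exact_mod_cast hp1
    obtain ⟨b, hb⟩ := hne
    have hb0 : 0 < φ b := lt_of_le_of_ne (h0 b) (Ne.symm hb)
    obtain ⟨a, ha⟩ : ∃ a, a ≠ b := by
      have : Nontrivial (Fin (n+1)) := Fin.nontrivial_iff_two_le.2 (by omega)
      exact exists_ne b
    obtain ⟨c, hc⟩ : ∃ c, c ∉ ({a, b} : Finset (Fin (n+1))) := by
      by_contra hcon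
      push Not at hcon
      have h2 : Finset.univ ⊆ ({a, b} : Finset (Fin (n+1))) := fun c _ => hcon c
      have h3 := Finset.card_le_card h2
      have h4 : ({a, b} : Finset (Fin (n+1))).card ≤ 2 := Finset.card_le_two
      rw [Finset.card_univ, Fintype.card_fin] at h3
      omega
    rw [Finset.mem_insert, Finset.mem_singleton] at hc
    push Not at hc
    obtain ⟨hca, hcb⟩ := hc
    have hy := h.sub_int hφ (fun i => (if i = a then p else 0) - (if i = c then 1 else 0))
    have e : ∀ i, φ i - (((if i = a then p else 0) - (if i = c then 1 else 0) : ℤ) : ℝ) =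
        φ i - (if i = a then (p:ℝ) else 0) + (if i = c then (1:ℝ) else 0) := by
      intro i; push_cast; ring
    simp only [e] at hy
    have hsum : ∑ i, (φ i - (if i = a then (p:ℝ) else 0) + (if i = c then (1:ℝ) else 0)) = 1 := by
      rw [Finset.sum_add_distrib, Finset.sum_sub_distrib]
      simp [← hS]
    have hsp := h.spike _ hy a b ha (by
      simp only [if_neg (Ne.symm ha), if_neg (Ne.symm hcb)]; linarith) (by
      rw [hsum]
      simp only [if_neg (Ne.symm ha), if_neg (Ne.symm hcb)]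
      linarith [h1 b]) (by
      intro k hka hkb
      simp only [if_neg hka]
      have := h0 k
      split_ifs <;> linarith)
    have := hsp.2 hsum a
    simp only [if_true, if_neg (Ne.symm hca)] at this
    linarith [h1 a]
  · intro b hb
    by_contra hcon
    push Not at hcon
    have hb0 : 0 < φ b := lt_of_le_of_ne (h0 b) (Ne.symm hb)
    obtain ⟨a, ha⟩ : ∃ a, a ≠ b := by
      have : Nontrivial (Fin (n+1)) := Fin.nontrivial_iff_two_le.2 (by omega)
      exact exists_ne b
    have hy := h.sub_int hφ (fun i => (if i = a then p else 0))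
    have e : ∀ i, φ i - (((if i = a then p else 0) : ℤ) : ℝ) = φ i - (if i = a then (p:ℝ) else 0) := by
      intro i; push_cast; ring
    simp only [e] at hy
    have hsum : ∑ i, (φ i - (if i = a then (p:ℝ) else 0)) = Int.fract (∑ k, φ k) := by
      rw [Finset.sum_sub_distrib]
      simp only [Finset.sum_ite_eq', Finset.mem_univ, if_true]
      linarith
    have hsp := h.spike _ hy a b ha (by
      simp only [if_neg (Ne.symm ha)]; linarith) (by
      rw [hsum]
      simp only [if_neg (Ne.symm ha)]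
      linarith) (by
      intro k hka hkb
      simp only [if_neg hka]
      have := h0 k
      linarith)
    rw [hsum] at hsp
    have := Int.fract_lt_one (∑ k, φ k)
    linarith [hsp.1]

/-- fractional parts of the opposite vector -/
lemma fract_neg_eq (x : ℝ) : Int.fract (-x) = if Int.fract x = 0 then 0 else 1 - Int.fract x := by
  split_ifs with h
  · exact Int.fract_neg_eq_zero.2 h
  · exact Int.fract_neg h

/-- all the nonzero fractional parts are equal -/
lemma NV.fract_eq (h : NV Λ) (hn : 2 ≤ n) {y : Fin (n+1) → ℝ} (hy : y ∈ Λ)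
    (hne : ∃ k, Int.fract (y k) ≠ 0) :
    0 < Int.fract (∑ k, Int.fract (y k)) ∧
      ∀ b, Int.fract (y b) ≠ 0 → Int.fract (y b) = Int.fract (∑ k, Int.fract (y k)) := by
  obtain ⟨h1, h2⟩ := h.fract_le hn (h.fract_mem hy) (fun k => Int.fract_nonneg _) (fun k => Int.fract_lt_one _) hne
  have hneg : (fun i => - y i) ∈ Λ := Λ.neg_mem hy
  have hψ : ∀ k, Int.fract (- y k) = if Int.fract (y k) = 0 then 0 else 1 - Int.fract (y k) :=
    fun k => fract_neg_eq _
  obtain ⟨h3, h4⟩ := h.fract_le hn (h.fract_mem hneg) (fun k => Int.fract_nonneg _)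
    (fun k => Int.fract_lt_one _) (by
      obtain ⟨k, hk⟩ := hne
      refine ⟨k, ?_⟩
      show Int.fract (- y k) ≠ 0
      rw [hψ, if_neg hk]
      linarith [Int.fract_lt_one (y k)])
  refine ⟨h1, fun b hb => le_antisymm ?_ (h2 b hb)⟩
  have h5 : Int.fract (∑ k, Int.fract (- y k)) = 1 - Int.fract (∑ k, Int.fract (y k)) := by
    have e : ∑ k, Int.fract (- y k) = ((Finset.univ.filter fun k => Int.fract (y k) ≠ 0).card : ℤ) +
        (- ∑ k, Int.fract (y k)) := by
      have e1 : ∀ k, Int.fract (- y k) = (if Int.fract (y k) ≠ 0 then (1:ℝ) else 0) - Int.fract (y k) := by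
        intro k
        rw [hψ]
        split_ifs with h6 h7
        · exact absurd h6 h7
        · rw [h6]; ring
        · ring
      rw [Finset.sum_congr rfl fun k _ => e1 k, Finset.sum_sub_distrib, Finset.sum_ite]
      simp
      ring
    rw [e, Int.fract_intCast_add, Int.fract_neg]
    exact h1.ne'
  have h6 := h4 b (by
    show Int.fract (- y b) ≠ 0
    rw [hψ, if_neg hb]
    linarith [Int.fract_lt_one (y b)])
  rw [h5, hψ, if_neg hb] at h6
  linarith

/-- bound for the common value of the nonzero fractional parts -/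
lemma NV.le_half (h : NV Λ) (hn : 2 ≤ n) {y : Fin (n+1) → ℝ} (hy : y ∈ Λ)
    (hne : ∃ k, Int.fract (y k) ≠ 0) :
    ∃ p : ℕ, 1 ≤ p ∧ (((Finset.univ.filter fun k => Int.fract (y k) ≠ 0).card : ℝ) - 1) *
      Int.fract (∑ k, Int.fract (y k)) = p ∧ Int.fract (∑ k, Int.fract (y k)) ≤ 1 / 2 := by
  obtain ⟨h1, h2⟩ := h.fract_eq hn hy hne
  set s := Int.fract (∑ k, Int.fract (y k)) with hs
  set J := Finset.univ.filter fun k => Int.fract (y k) ≠ 0 with hJ
  have hs1 : s < 1 := Int.fract_lt_one _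
  have hval : ∀ k, Int.fract (y k) = if k ∈ J then s else 0 := by
    intro k
    by_cases hk : k ∈ J
    · rw [if_pos hk]
      rw [hJ, Finset.mem_filter] at hk
      exact h2 k hk.2
    · rw [if_neg hk]
      by_contra h3
      exact hk (by rw [hJ, Finset.mem_filter]; exact ⟨Finset.mem_univ _, h3⟩)
  have hS : ∑ k, Int.fract (y k) = J.card * s := by
    rw [Finset.sum_congr rfl fun k _ => hval k, Finset.sum_ite_mem, Finset.univ_inter, Finset.sum_const,
      nsmul_eq_mul]
  have hJ1 : 1 ≤ J.card := by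
    obtain ⟨k, hk⟩ := hne
    exact Finset.card_pos.2 ⟨k, by rw [hJ, Finset.mem_filter]; exact ⟨Finset.mem_univ _, hk⟩⟩
  have hfl : (⌊∑ k, Int.fract (y k)⌋ : ℝ) + s = J.card * s := by
    rw [← hS]; exact Int.floor_add_fract _
  have hp0 : 0 ≤ ⌊∑ k, Int.fract (y k)⌋ := Int.floor_nonneg.2 (Finset.sum_nonneg fun k _ => Int.fract_nonneg _)
  obtain ⟨p, hp⟩ := Int.eq_ofNat_of_zero_le hp0
  rw [hp] at hfl
  have hfl' : (p : ℝ) = ((J.card : ℝ) - 1) * s := by
    have : (((p : ℤ) : ℝ)) = (p : ℝ) := by push_cast; rfl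
    rw [this] at hfl
    linarith
  -- at least two nonzero fractional parts
  have hJ2 : 2 ≤ J.card := by
    by_contra hcon
    have hJ1' : J.card = 1 := by omega
    rw [hJ1'] at hS
    have := h.hom _ (h.fract_mem hy) (1/2) (by norm_num) (by norm_num) (fun k => by
      have h3 := Int.fract_nonneg (y k)
      have h4 : 0 < ∑ k, Int.fract (y k) := by rw [hS]; push_cast; linarith
      linarith)
    rw [hS] at this
    push_cast at this
    linarith
  have hp1 : 1 ≤ p := by
    have h3 : (2:ℝ) ≤ J.card := by exact_mod_cast hJ2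
    have h4 : (0:ℝ) < p := by
      rw [hfl']
      exact mul_pos (by linarith) h1
    have h5 : 0 < p := by exact_mod_cast h4
    omega
  refine ⟨p, hp1, hfl'.symm, ?_⟩
  by_contra hcon
  push Not at hcon
  have hpJ : p ≤ J.card := by
    have h3 : (1:ℝ) ≤ J.card := by exact_mod_cast hJ1
    have h4 : (p:ℝ) ≤ J.card := by
      rw [hfl']
      nlinarith
    exact_mod_cast h4
  obtain ⟨I, hIJ, hI⟩ := Finset.exists_subset_card_eq hpJ
  have hy' := h.sub_int (h.fract_mem hy) (fun i => if i ∈ I then 1 else 0)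
  have e : ∀ i, Int.fract (y i) - (((if i ∈ I then 1 else 0 : ℤ)) : ℝ) =
      Int.fract (y i) - (if i ∈ I then (1:ℝ) else 0) := by
    intro i; push_cast; ring
  simp only [e] at hy'
  have hsum : ∑ i, (Int.fract (y i) - (if i ∈ I then (1:ℝ) else 0)) = s := by
    rw [Finset.sum_sub_distrib, hS, Finset.sum_ite_mem, Finset.univ_inter, Finset.sum_const, nsmul_eq_mul, hI,
      hfl']
    ring
  have h3 := h.hom _ hy' (1 / (2 * s)) (by positivity) (by
    rw [div_lt_one (by positivity)]; linarith) (fun k => by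
    rw [hsum]
    have h4 : 1 / (2 * s) * s = 1 / 2 := by field_simp
    rw [h4]
    split_ifs with hk
    · rw [hval k, if_pos (hIJ hk)]
      linarith
    · have := Int.fract_nonneg (y k)
      linarith)
  rw [hsum] at h3
  linarith

/-- the nonzero fractional parts are halves -/
lemma NV.half (h : NV Λ) (hn : 2 ≤ n) {y : Fin (n+1) → ℝ} (hy : y ∈ Λ)
    (hne : ∃ k, Int.fract (y k) ≠ 0) :
    (∀ k, Int.fract (y k) ≠ 0 → Int.fract (y k) = 1 / 2) ∧
      Odd (Finset.univ.filter fun k => Int.fract (y k) ≠ 0).card ∧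
      3 ≤ (Finset.univ.filter fun k => Int.fract (y k) ≠ 0).card := by
  obtain ⟨h1, h2⟩ := h.fract_eq hn hy hne
  obtain ⟨p, hp1, hp, hle⟩ := h.le_half hn hy hne
  have hneg : (fun i => - y i) ∈ Λ := Λ.neg_mem hy
  have hne' : ∃ k, Int.fract ((fun i => - y i) k) ≠ 0 := by
    obtain ⟨k, hk⟩ := hne
    refine ⟨k, ?_⟩
    show Int.fract (- y k) ≠ 0
    rw [fract_neg_eq, if_neg hk]
    linarith [Int.fract_lt_one (y k)]
  obtain ⟨h3, h4⟩ := h.fract_eq hn hneg hne'
  obtain ⟨-, -, -, hle'⟩ := h.le_half hn hneg hne'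
  obtain ⟨k, hk⟩ := hne
  have h5 := h2 k hk
  have h6 := h4 k (by
    show Int.fract (- y k) ≠ 0
    rw [fract_neg_eq, if_neg hk]
    linarith [Int.fract_lt_one (y k)])
  rw [fract_neg_eq, if_neg hk] at h6
  have hs : Int.fract (∑ k, Int.fract (y k)) = 1 / 2 := by linarith
  rw [hs] at hp
  have hcard : (Finset.univ.filter fun k => Int.fract (y k) ≠ 0).card = 2 * p + 1 := by
    have : (((Finset.univ.filter fun k => Int.fract (y k) ≠ 0).card : ℕ) : ℝ) = ((2 * p + 1 : ℕ) : ℝ) := by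
      push_cast
      linarith
    exact_mod_cast this
  refine ⟨fun k hk => by rw [h2 k hk, hs], ⟨p, hcard⟩, by omega⟩

lemma NV.sum_half (h : NV Λ) (hn : 2 ≤ n) {y : Fin (n+1) → ℝ} (hy : y ∈ Λ)
    (hne : ∃ k, Int.fract (y k) ≠ 0) : ∃ j : ℤ, Odd j ∧ ∑ k, Int.fract (y k) = j / 2 := by
  obtain ⟨h1, h2, -⟩ := h.half hn hy hne
  refine ⟨((Finset.univ.filter fun k => Int.fract (y k) ≠ 0).card : ℤ), by exact_mod_cast h2, ?_⟩
  have : ∀ k, Int.fract (y k) = if Int.fract (y k) ≠ 0 then (1/2 : ℝ) else 0 := by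
    intro k
    by_cases hk : Int.fract (y k) ≠ 0
    · rw [if_pos hk]; exact h1 k hk
    · rw [if_neg hk]; push Not at hk; exact hk
  rw [Finset.sum_congr rfl fun k _ => this k, ← Finset.sum_filter, Finset.sum_const, nsmul_eq_mul]
  push_cast
  ring

/-- the set of nonzero fractional parts does not depend on the vector -/
lemma NV.same (h : NV Λ) (hn : 2 ≤ n) {y z : Fin (n+1) → ℝ} (hy : y ∈ Λ) (hz : z ∈ Λ)
    (hne : ∃ k, Int.fract (y k) ≠ 0) (hnez : ∃ k, Int.fract (z k) ≠ 0) (k : Fin (n+1)) :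
    Int.fract (y k) = Int.fract (z k) := by
  have hyz : (fun i => y i + z i) ∈ Λ := Λ.add_mem hy hz
  have hint : ∀ k, Int.fract (y k + z k) = 0 := by
    by_contra hcon
    push Not at hcon
    obtain ⟨j1, o1, e1⟩ := h.sum_half hn hy hne
    obtain ⟨j2, o2, e2⟩ := h.sum_half hn hz hnez
    obtain ⟨j3, o3, e3⟩ := h.sum_half hn hyz hcon
    choose m hm using fun k => Int.fract_add (y k) (z k)
    have e4 : ∑ k, Int.fract (y k + z k) - ∑ k, Int.fract (y k) - ∑ k, Int.fract (z k) = ((∑ k, m k : ℤ) : ℝ) := by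
      rw [← Finset.sum_sub_distrib, ← Finset.sum_sub_distrib, Finset.sum_congr rfl fun k _ => hm k]
      push_cast
      rfl
    rw [e1, e2, e3] at e4
    have e5 : ((j3 - j1 - j2 : ℤ) : ℝ) = ((2 * ∑ k, m k : ℤ) : ℝ) := by
      push_cast at e4 ⊢
      linarith
    have e6 : j3 - j1 - j2 = 2 * ∑ k, m k := by exact_mod_cast e5
    obtain ⟨a1, b1⟩ := o1
    obtain ⟨a2, b2⟩ := o2
    obtain ⟨a3, b3⟩ := o3
    omega
  have h1 := hint k
  obtain ⟨m, hm⟩ := Int.fract_add (y k) (z k)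
  rw [h1] at hm
  have hcase : ∀ {w : Fin (n+1) → ℝ}, w ∈ Λ → (∃ k, Int.fract (w k) ≠ 0) →
      Int.fract (w k) = 0 ∨ Int.fract (w k) = 1 / 2 := by
    intro w hw hnew
    by_cases hk : Int.fract (w k) = 0
    · left; exact hk
    · right; exact (h.half hn hw hnew).1 k hk
  rcases hcase hy hne with c1 | c1 <;> rcases hcase hz hnez with c2 | c2
  · rw [c1, c2]
  · exfalso
    rw [c1, c2] at hm
    have : ((2 * m : ℤ) : ℝ) = ((-1 : ℤ) : ℝ) := by push_cast; linarith
    have : 2 * m = -1 := by exact_mod_cast this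
    omega
  · exfalso
    rw [c1, c2] at hm
    have : ((2 * m : ℤ) : ℝ) = ((-1 : ℤ) : ℝ) := by push_cast; linarith
    have : 2 * m = -1 := by exact_mod_cast this
    omega
  · rw [c1, c2]

/-- the classification of the lattices -/
theorem NV.classify (h : NV Λ) (hn : 2 ≤ n) :
    (∀ y ∈ Λ, ∀ k, Int.fract (y k) = 0) ∨ ∃ J : Finset (Fin (n+1)), Odd J.card ∧ 3 ≤ J.card ∧
      (∃ y ∈ Λ, ∀ k, Int.fract (y k) = if k ∈ J then 1 / 2 else 0) ∧
      ∀ y ∈ Λ, (∀ k, Int.fract (y k) = 0) ∨ ∀ k, Int.fract (y k) = if k ∈ J then 1 / 2 else 0 := by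
  by_cases hall : ∀ y ∈ Λ, ∀ k, Int.fract (y k) = 0
  · left; exact hall
  · right
    push Not at hall
    obtain ⟨y, hy, hne⟩ := hall
    obtain ⟨h1, h2, h3⟩ := h.half hn hy hne
    have hval : ∀ k, Int.fract (y k) =
        if k ∈ (Finset.univ.filter fun k => Int.fract (y k) ≠ 0) then 1 / 2 else 0 := by
      intro k
      by_cases hk : Int.fract (y k) ≠ 0
      · rw [if_pos (by rw [Finset.mem_filter]; exact ⟨Finset.mem_univ _, hk⟩)]; exact h1 k hk
      · rw [if_neg (by rw [Finset.mem_filter]; exact fun h' => hk h'.2)]; push Not at hk; exact hk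
    refine ⟨_, h2, h3, ⟨y, hy, hval⟩, fun z hz => ?_⟩
    by_cases hz0 : ∀ k, Int.fract (z k) = 0
    · left; exact hz0
    · right
      push Not at hz0
      intro k
      rw [← h.same hn hy hz hne hz0 k]
      exact hval k

end Pool.Agent.Helper46.Sail
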