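import Pool.Agent.Helper46.MobiusInv
import Pool.Agent.Helper46.FaceFrame

open MeasureTheory Set
open scoped ENNReal

namespace Pool.Agent.Helper46.Sail

variable {n : ℕ}

/-- the frame given by the rows of a matrix -/
def fr (M : Matrix (Fin (n+1)) (Fin (n+1)) ℝ) : Fr n := fun i j => M i j

lemma of_fr (M : Matrix (Fin (n+1)) (Fin (n+1)) ℝ) : Matrix.of (fr M) = M := rfl

lemma measurable_fr_mul {α : Type*} [MeasurableSpace α] {F G : α → Matrix (Fin (n+1)) (Fin (n+1)) ℝ}
    (hF : ∀ i j, Measurable fun x => F x i j) (hG : ∀ i j, Measurable fun x => G x i j) :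
    ∀ i j, Measurable fun x => (F x * G x) i j := by
  intro i j
  simp only [Matrix.mul_apply]
  exact Finset.measurable_sum _ fun k _ => (hF i k).mul (hG k j)

lemma measurable_inv_apply (i j : Fin (n+1)) : Measurable fun B : Fr n => (Matrix.of B)⁻¹ i j := by
  have h : (fun B : Fr n => (Matrix.of B)⁻¹ i j) = fun B => coord B (Pi.single i 1) j := by
    funext B
    rw [coord]
    simp
  rw [h]
  exact measurable_coord _ _

/-- the inverse -/
noncomputable def iv (B : Fr n) : Fr n := fr (Matrix.of B)⁻¹

lemma measurable_iv : Measurable (iv (n := n)) :=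
  measurable_pi_lambda _ fun i => measurable_pi_lambda _ fun j => measurable_inv_apply i j

lemma mp_right (M : Matrix (Fin (n+1)) (Fin (n+1)) ℝ) (hM : M.det ≠ 0) :
    MeasurePreserving (fun B : Fr n => fr (Matrix.of B * M)) (frMeasure n) (frMeasure n) := by
  have h : (fun B : Fr n => fr (Matrix.of B * M)) = lact (Matrix.toLin' M.transpose) := by
    funext B i
    rw [lact_apply, Matrix.toLin'_apply]
    funext j
    simp only [fr, Matrix.mul_apply, Matrix.mulVec, dotProduct, Matrix.transpose_apply, Matrix.of_apply]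
    exact Finset.sum_congr rfl fun k _ => mul_comm _ _
  rw [h]
  apply mp_lact
  rw [LinearMap.det_toLin', Matrix.det_transpose]
  exact hM

lemma mp_left (M : Matrix (Fin (n+1)) (Fin (n+1)) ℝ) (hM : M.det ≠ 0) :
    MeasurePreserving (fun B : Fr n => fr (M * Matrix.of B)) (frMeasure n) (frMeasure n) := by
  have h : (fun B : Fr n => fr (M * Matrix.of B)) = ract M := by
    funext B
    rw [← of_ract]; rfl
  rw [h]
  exact mp_ract M hM

instance : SigmaFinite (frMeasure n) := by
  unfold frMeasure
  exact SigmaFinite.withDensity_of_ne_top' fun B => ENNReal.ofReal_ne_top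

/-- the measure on frames is invariant under inversion -/
theorem lintegral_iv {f : Fr n → ℝ≥0∞} (hf : Measurable f) :
    ∫⁻ B, f (iv B) ∂(frMeasure n) = ∫⁻ B, f B ∂(frMeasure n) := by
  by_cases hμ : frMeasure n = 0
  · rw [hμ]; simp
  obtain ⟨h, hpos, hm, hlt⟩ := exists_pos_lintegral_lt_of_sigmaFinite (frMeasure n) (ε := 1) one_ne_zero
  set g : Fr n → ℝ≥0∞ := fun B => (h B : ℝ≥0∞) with hg
  have hgm : Measurable g := hm.coe_nnreal_ennreal
  have hg0 : ∫⁻ B, g B ∂(frMeasure n) ≠ 0 := by
    intro h0
    rw [lintegral_eq_zero_iff hgm] at h0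
    apply hμ
    rw [← Measure.measure_univ_eq_zero]
    have : (Set.univ : Set (Fr n)) = {B | ¬ g B = 0} := by
      ext B
      simp [hg, (hpos B).ne']
    rw [this]
    exact h0
  have hgt : ∫⁻ B, g B ∂(frMeasure n) ≠ ⊤ := (hlt.trans ENNReal.one_lt_top).ne
  have me : ∀ i j, Measurable fun B : Fr n => Matrix.of B i j := fun i j =>
    (measurable_pi_apply j).comp (measurable_pi_apply i)
  have e1 : ∀ i j, Measurable fun p : Fr n × Fr n => Matrix.of p.1 i j := fun i j => (me i j).comp measurable_fst
  have e2 : ∀ i j, Measurable fun p : Fr n × Fr n => Matrix.of p.2 i j := fun i j => (me i j).comp measurable_snd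
  have e3 : ∀ i j, Measurable fun p : Fr n × Fr n => (Matrix.of p.1)⁻¹ i j := fun i j =>
    (measurable_inv_apply i j).comp measurable_fst
  have mfr : ∀ {F : Fr n × Fr n → Matrix (Fin (n+1)) (Fin (n+1)) ℝ}, (∀ i j, Measurable fun p => F p i j) →
      Measurable fun p => fr (F p) := fun hF =>
    measurable_pi_lambda _ fun i => measurable_pi_lambda _ fun j => hF i j
  have hkey : (∫⁻ B, f (iv B) ∂(frMeasure n)) * ∫⁻ B, g B ∂(frMeasure n) =
      (∫⁻ B, f B ∂(frMeasure n)) * ∫⁻ B, g B ∂(frMeasure n) := by
    calc (∫⁻ x, f (iv x) ∂(frMeasure n)) * ∫⁻ y, g y ∂(frMeasure n)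
        = ∫⁻ x, f (iv x) * ∫⁻ y, g y ∂(frMeasure n) ∂(frMeasure n) :=
          (lintegral_mul_const _ (hf.comp measurable_iv)).symm
      _ = ∫⁻ x, (∫⁻ y, f (iv x) * g (fr (Matrix.of y * Matrix.of x)) ∂(frMeasure n)) ∂(frMeasure n) := by
          apply lintegral_congr_ae
          filter_upwards [ae_dtm] with x hx
          rw [← (mp_right (Matrix.of x) hx).lintegral_comp hgm, lintegral_const_mul]
          exact hgm.comp (mp_right (Matrix.of x) hx).measurable
      _ = ∫⁻ y, (∫⁻ x, f (iv x) * g (fr (Matrix.of y * Matrix.of x)) ∂(frMeasure n)) ∂(frMeasure n) := by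
          rw [lintegral_lintegral_swap]
          apply Measurable.aemeasurable
          apply Measurable.mul
          · exact (hf.comp measurable_iv).comp measurable_fst
          · exact hgm.comp (mfr (measurable_fr_mul e2 e1))
      _ = ∫⁻ y, (∫⁻ x, f (fr ((Matrix.of x)⁻¹ * Matrix.of y)) * g x ∂(frMeasure n)) ∂(frMeasure n) := by
          apply lintegral_congr_ae
          filter_upwards [ae_dtm] with y hy
          have hm1 : Measurable fun x : Fr n => f (fr ((Matrix.of x)⁻¹ * Matrix.of y)) * g x := by
            apply Measurable.mul _ hgm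
            apply hf.comp
            apply measurable_pi_lambda _ fun i => measurable_pi_lambda _ fun j => ?_
            exact measurable_fr_mul (F := fun x : Fr n => (Matrix.of x)⁻¹) (G := fun _ => Matrix.of y)
              (fun i j => measurable_inv_apply i j) (fun i j => measurable_const) i j
          rw [← (mp_left (Matrix.of y) hy).lintegral_comp hm1]
          apply lintegral_congr
          intro x
          congr 2
          rw [of_fr, Matrix.mul_inv_rev, Matrix.mul_assoc, Matrix.nonsing_inv_mul _ (isUnit_iff_ne_zero.mpr hy),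
            Matrix.mul_one]
          rfl
      _ = ∫⁻ x, (∫⁻ y, f (fr ((Matrix.of x)⁻¹ * Matrix.of y)) * g x ∂(frMeasure n)) ∂(frMeasure n) := by
          rw [lintegral_lintegral_swap]
          apply Measurable.aemeasurable
          apply Measurable.mul
          · exact hf.comp (mfr (measurable_fr_mul (fun i j => (measurable_inv_apply i j).comp measurable_snd) e1))
          · exact hgm.comp measurable_snd
      _ = ∫⁻ x, (∫⁻ y, f y ∂(frMeasure n)) * g x ∂(frMeasure n) := by
          apply lintegral_congr_ae
          filter_upwards [ae_dtm] with x hx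
          have hx' : ((Matrix.of x)⁻¹).det ≠ 0 := by
            rw [Matrix.det_nonsing_inv]
            intro h0
            have h1 := Ring.inverse_mul_cancel (Matrix.of x).det (isUnit_iff_ne_zero.mpr hx)
            rw [h0, zero_mul] at h1
            exact zero_ne_one h1
          rw [lintegral_mul_const, (mp_left _ hx').lintegral_comp hf]
          exact hf.comp (mp_left _ hx').measurable
      _ = (∫⁻ B, f B ∂(frMeasure n)) * ∫⁻ B, g B ∂(frMeasure n) := lintegral_const_mul _ hgm
  exact (ENNReal.mul_left_inj hg0 hgt).1 hkey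

/-- transposition -/
def tr : Fr n →ₗ[ℝ] Fr n where
  toFun B := fun i j => B j i
  map_add' _ _ := rfl
  map_smul' _ _ := rfl

lemma tr_apply (B : Fr n) (i j : Fin (n+1)) : tr B i j = B j i := rfl

lemma mp_tr : MeasurePreserving (tr (n := n)) (frMeasure n) (frMeasure n) := by
  apply mp_of_linear _ 1 one_ne_zero
  · have h : (tr (n := n)) ∘ₗ tr = LinearMap.id := by
      ext B; rfl
    have h1 := congrArg LinearMap.det h
    rw [LinearMap.det_comp, LinearMap.det_id] at h1
    rw [abs_one, one_pow]
    rcases mul_self_eq_one_iff.mp h1 with h2 | h2 <;> rw [h2] <;> simp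
  · intro B
    rw [one_mul]
    show (Matrix.of B).transpose.det = _
    rw [Matrix.det_transpose]; rfl

/-- the dual frame -/
noncomputable def dual (B : Fr n) : Fr n := tr (iv B)

lemma dual_apply (B : Fr n) (i j : Fin (n+1)) : dual B i j = coord B (Pi.single j 1) i := by
  show (Matrix.of B)⁻¹ j i = _
  rw [coord]
  simp

lemma measurable_dual : Measurable (dual (n := n)) := mp_tr.measurable.comp measurable_iv

theorem lintegral_dual {f : Fr n → ℝ≥0∞} (hf : Measurable f) :
    ∫⁻ B, f (dual B) ∂(frMeasure n) = ∫⁻ B, f B ∂(frMeasure n) := by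
  have h1 := lintegral_iv (n := n) (hf.comp mp_tr.measurable)
  have h2 := (mp_tr (n := n)).lintegral_comp hf
  simp only [Function.comp_apply] at h1
  rw [h2] at h1
  exact h1

end Pool.Agent.Helper46.Sail
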