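import Pool.Agent.Helper46.SquareSide

open MeasureTheory Set
open scoped ENNReal

namespace Pool.Agent.Helper46.Sail

open Pool.Agent.Helper46.Planar

/-- exchanging the first and the `a`-th vector -/
def sw (a : Fin 3) : Equiv.Perm (Fin 3) := Equiv.swap 0 a

lemma condV_perm (V : Finset (Fin 3 → ℤ)) (σ : Equiv.Perm (Fin 3)) (B : Fr 2) :
    condV (n := 2) V (fun i => B (σ i)) ↔ condV (n := 2) V B := by
  simp only [condV]
  refine forall_congr' fun v => imp_congr_right fun _ => iff_congr ?_ Iff.rfl
  simp only [lam_perm (n := 2)]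
  exact ⟨fun h k => by simpa using h (σ.symm k), fun h k => h (σ k)⟩

lemma mem_setT_perm (a : Fin 3) (B : Fr 2) : (fun i => B (sw a i)) ∈ setT ↔
    condV (n := 2) (unitVerts 2) B ∧ 0 ≤ lam B (toReal (pt 1 1)) (sw a 1) ∧ 0 ≤ lam B (toReal (pt 1 1)) (sw a 2) := by
  show (condV (n := 2) (unitVerts 2) (fun i => B (sw a i)) ∧ _) ↔ _
  rw [condV_perm]
  simp only [lam_perm (n := 2)]

lemma not_all {B : Fr 2} (hB : condV (n := 2) (unitVerts 2) B) : ¬ ∀ k, 0 ≤ lam B (toReal (pt 1 1)) k := by
  intro h
  have := (hB (pt 1 1) (sum_pt 1 1)).1 h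
  rw [mem_unitVerts_pt] at this
  rcases this with ⟨h, -⟩ | ⟨-, h⟩ | ⟨h, -⟩ <;> omega

/-- the triangle -/
lemma le_triangle : 3 * ∫⁻ B, win (n := 2) (stdGauge 2) B * setT.indicator 1 B ∂(frMeasure 2) ≤
    ∫⁻ B, win (n := 2) (stdGauge 2) B * {B : Fr 2 | condV (n := 2) (unitVerts 2) B}.indicator 1 B ∂(frMeasure 2) := by
  have hw := measurable_win (n := 2) stdGauge_gauge
  have hf : Measurable (setT.indicator (1 : Fr 2 → ℝ≥0∞)) := measurable_one.indicator measurable_setT
  have hp : ∀ a : Fin 3, ∫⁻ B, win (n := 2) (stdGauge 2) B *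
      setT.indicator 1 (fun i => B (sw a i)) ∂(frMeasure 2) =
      ∫⁻ B, win (n := 2) (stdGauge 2) B * setT.indicator 1 B ∂(frMeasure 2) := fun a =>
    perm_inv (n := 2) (sw a) hf
  have hm : ∀ a : Fin 3, Measurable fun B : Fr 2 => win (n := 2) (stdGauge 2) B *
      setT.indicator 1 (fun i => B (sw a i)) := fun a =>
    hw.mul (hf.comp (measurable_pi_lambda _ fun i => measurable_pi_apply _))
  calc 3 * ∫⁻ B, win (n := 2) (stdGauge 2) B * setT.indicator 1 B ∂(frMeasure 2)
      = ∫⁻ B, (win (n := 2) (stdGauge 2) B * setT.indicator 1 (fun i => B (sw 0 i)) +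
          (win (n := 2) (stdGauge 2) B * setT.indicator 1 (fun i => B (sw 1 i)) +
          win (n := 2) (stdGauge 2) B * setT.indicator 1 (fun i => B (sw 2 i)))) ∂(frMeasure 2) := by
        rw [lintegral_add_left (hm 0), lintegral_add_left (hm 1), hp, hp, hp]
        ring
    _ ≤ _ := by
        apply lintegral_mono
        intro B
        beta_reduce
        rw [← mul_add, ← mul_add]
        gcongr
        have e0 := mem_setT_perm 0 B
        have e1 := mem_setT_perm 1 B
        have e2 := mem_setT_perm 2 B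
        have s01 : sw 0 1 = 1 := by decide
        have s02 : sw 0 2 = 2 := by decide
        have s11 : sw 1 1 = 0 := by decide
        have s12 : sw 1 2 = 2 := by decide
        have s21 : sw 2 1 = 1 := by decide
        have s22 : sw 2 2 = 0 := by decide
        rw [s01, s02] at e0
        rw [s11, s12] at e1
        rw [s21, s22] at e2
        by_cases hB : condV (n := 2) (unitVerts 2) B
        · have hna := not_all hB
          rw [Fin.forall_fin_succ, Fin.forall_fin_two] at hna
          have hna' : ¬ (0 ≤ lam (n := 2) B (toReal (pt 1 1)) 0 ∧ 0 ≤ lam (n := 2) B (toReal (pt 1 1)) 1 ∧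
            0 ≤ lam (n := 2) B (toReal (pt 1 1)) 2) := hna
          have hB' : B ∈ {B : Fr 2 | condV (n := 2) (unitVerts 2) B} := hB
          rw [Set.indicator_of_mem hB']
          by_cases h0 : (fun i => B (sw 0 i)) ∈ setT
          · have n1 : (fun i => B (sw 1 i)) ∉ setT := fun h1 =>
              hna' ⟨(e1.1 h1).2.1, (e0.1 h0).2.1, (e0.1 h0).2.2⟩
            have n2 : (fun i => B (sw 2 i)) ∉ setT := fun h2 =>
              hna' ⟨(e2.1 h2).2.2, (e0.1 h0).2.1, (e0.1 h0).2.2⟩
            rw [Set.indicator_of_notMem n1, Set.indicator_of_notMem n2, Set.indicator_of_mem h0]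
            simp
          · rw [Set.indicator_of_notMem h0]
            by_cases h1 : (fun i => B (sw 1 i)) ∈ setT
            · have n2 : (fun i => B (sw 2 i)) ∉ setT := fun h2 =>
                hna' ⟨(e2.1 h2).2.2, (e2.1 h2).2.1, (e1.1 h1).2.2⟩
              rw [Set.indicator_of_notMem n2, Set.indicator_of_mem h1]
              simp
            · rw [Set.indicator_of_notMem h1]
              by_cases h2 : (fun i => B (sw 2 i)) ∈ setT
              · rw [Set.indicator_of_mem h2]; simp
              · rw [Set.indicator_of_notMem h2]; simp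
        · have n0 : (fun i => B (sw 0 i)) ∉ setT := fun h => hB (e0.1 h).1
          have n1 : (fun i => B (sw 1 i)) ∉ setT := fun h => hB (e1.1 h).1
          have n2 : (fun i => B (sw 2 i)) ∉ setT := fun h => hB (e2.1 h).1
          rw [Set.indicator_of_notMem n0, Set.indicator_of_notMem n1, Set.indicator_of_notMem n2]
          simp

/-- comparison of the two parts -/
lemma setQ_le_setT : ∫⁻ B, win (n := 2) (stdGauge 2) B * setQ.indicator 1 B ∂(frMeasure 2) ≤
    ENNReal.ofReal (3 / 4) * ∫⁻ B, win (n := 2) (stdGauge 2) B * setT.indicator 1 B ∂(frMeasure 2) := by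
  have hfQ : Measurable (setQ.indicator (1 : Fr 2 → ℝ≥0∞)) := measurable_one.indicator measurable_setQ
  have hfT : Measurable (setT.indicator (1 : Fr 2 → ℝ≥0∞)) := measurable_one.indicator measurable_setT
  rw [win_indep (n := 2) stdGauge_gauge shGauge_gauge hfQ (fun s B => indicator_congr (sc_mem_setQ s B)),
    win_indep (n := 2) stdGauge_gauge shGauge_gauge hfT (fun s B => indicator_congr (sc_mem_setT s B)),
    fiber_formula measurable_setQ, fiber_formula measurable_setT]
  have hm : ∀ {S : Set (Fr 2)}, MeasurableSet S → Measurable fun B : Fr 2 => volume {p : ℝ × ℝ | sh p B ∈ S} := by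
    intro S hS
    have h1 : MeasurableSet ((fun q : (ℝ × ℝ) × Fr 2 => sh q.1 q.2) ⁻¹' S) := measurable_sh_uncurry hS
    exact measurable_measure_prodMk_right h1
  rw [← lintegral_const_mul]
  · apply lintegral_mono_ae
    filter_upwards [ae_dtm, ae_zs] with B hB hz
    have := fiber_le hB (hz 0)
    calc slice B * win (n := 2) shGauge B * volume {p : ℝ × ℝ | sh p B ∈ setQ}
        ≤ slice B * win (n := 2) shGauge B * (ENNReal.ofReal (3 / 4) * volume {p : ℝ × ℝ | sh p B ∈ setT}) := by
          gcongr
      _ = _ := by ring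
  · exact (measurable_slice.mul (measurable_win (n := 2) shGauge_gauge)).mul (hm measurable_setT)

/-- the key inequality -/
theorem key_le : ∫⁻ B, win (n := 2) (stdGauge 2) B * {B : Fr 2 | condV (n := 2) sqVerts B}.indicator 1 B ∂(frMeasure 2) ≤
    ∫⁻ B, win (n := 2) (stdGauge 2) B * {B : Fr 2 | condV (n := 2) (unitVerts 2) B}.indicator 1 B ∂(frMeasure 2) := by
  refine square_le.trans (le_trans ?_ le_triangle)
  calc 4 * ∫⁻ B, win (n := 2) (stdGauge 2) B * setQ.indicator 1 B ∂(frMeasure 2)
      ≤ 4 * (ENNReal.ofReal (3 / 4) * ∫⁻ B, win (n := 2) (stdGauge 2) B * setT.indicator 1 B ∂(frMeasure 2)) := by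
        gcongr
        exact setQ_le_setT
    _ = 3 * ∫⁻ B, win (n := 2) (stdGauge 2) B * setT.indicator 1 B ∂(frMeasure 2) := by
        rw [← mul_assoc]
        congr 1
        rw [show (4 : ℝ≥0∞) = ENNReal.ofReal 4 by simp, ← ENNReal.ofReal_mul (by norm_num)]
        norm_num

end Pool.Agent.Helper46.Sail
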