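import Pool.Agent.Helper46.Classify
import Pool.Agent.Helper46.Finiteness

open MeasureTheory Set
open scoped ENNReal LinearAlgebra.Projectivization

namespace Pool.Agent.Helper46.Sail

variable {n : ℕ}

/-- invariance of the Möbius measure under an invertible matrix, formulated with frames -/
theorem mobius_matrix (g : Matrix (Fin (n+1)) (Fin (n+1)) ℝ) (hg : g.det ≠ 0) {S T : Set (CF n)}
    (hS : MeasurableSet S)
    (h : ∀ B : Fr n, dtm B ≠ 0 → (ofFrame (fun i => g.mulVec (B i)) ∈ T ↔ ofFrame B ∈ S)) :
    mobius n T = mobius n S := by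
  let G : E n ≃ₗ[ℝ] E n := Matrix.toLinearEquiv' g (g.invertibleOfIsUnitDet (isUnit_iff_ne_zero.mpr hg))
  have hG : ∀ x, G x = g.mulVec x := fun x => rfl
  have hT : T = (fun x => G⁻¹ • x) ⁻¹' S := by
    ext κ
    obtain ⟨p, ⟨f, hf, hl⟩, hκ⟩ := κ.2
    -- `κ` is the image of a frame
    have hli : LinearIndependent ℝ (fun i => G.symm (f i)) := by
      have := hl.map' (G.symm : E n →ₗ[ℝ] E n) (LinearEquiv.ker G.symm)
      exact this
    have hB := dtm_of_linearIndependent hli
    have h1 := h (fun i => G.symm (f i)) hB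
    have e1 : (fun i => g.mulVec (G.symm (f i))) = f := by
      funext i
      rw [← hG, LinearEquiv.apply_symm_apply]
    have e2 : ofFrame f = κ := by
      apply Subtype.ext
      rw [ofFrame_val hl, hκ]
    have e3 : ofFrame (fun i => G.symm (f i)) = G⁻¹ • κ := by
      rw [← e2]
      have := ofFrame_lact (n := n) (G⁻¹ : E n ≃ₗ[ℝ] E n) hl
      exact this
    rw [e1, e2, e3] at h1
    exact h1
  rw [hT]
  exact measure_preimage_smul_of_nullMeasurableSet (μ := mobius n) hS.nullMeasurableSet G⁻¹

end Pool.Agent.Helper46.Sail
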