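import Pool.Agent.Helper46.KleinDefs
import Pool.Agent.Helper46.MobiusMatrix

open MeasureTheory Set
open scoped ENNReal LinearAlgebra.Projectivization

namespace Pool.Agent.Helper46.Klein

variable {n : ℕ}

lemma line_le {v w : E n} (h : v ∈ line w) : line v ⊆ line w := by
  obtain ⟨a, rfl⟩ := h
  rintro x ⟨t, rfl⟩
  exact ⟨t * a, by rw [smul_smul]⟩

lemma mem_line (v : E n) : v ∈ line v := ⟨1, by simp⟩

lemma line_eq_iff {v w : E n} (hv : v ≠ 0) (hw : w ≠ 0) :
    line v = line w ↔ Projectivization.mk ℝ v hv = Projectivization.mk ℝ w hw := by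
  rw [Projectivization.mk_eq_mk_iff']
  constructor
  · intro h
    have : v ∈ line w := h ▸ mem_line v
    obtain ⟨a, ha⟩ := this
    exact ⟨a, ha.symm⟩
  · rintro ⟨a, rfl⟩
    have ha : a ≠ 0 := by rintro rfl; simp at hv
    apply Set.Subset.antisymm
    · exact line_le ⟨a, rfl⟩
    · exact line_le ⟨a⁻¹, by rw [smul_smul, inv_mul_cancel₀ ha, one_smul]⟩

/-- the line of a point of the projective space -/
noncomputable def pline (L : ℙ ℝ (E n)) : Set (E n) := line L.rep

lemma pline_mk (v : E n) (hv : v ≠ 0) : pline (Projectivization.mk ℝ v hv) = line v := by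
  rw [pline, line_eq_iff (Projectivization.rep_nonzero _) hv, Projectivization.mk_rep]

lemma pline_injective : Function.Injective (pline (n := n)) := by
  intro L M h
  rw [pline, pline, line_eq_iff (Projectivization.rep_nonzero _) (Projectivization.rep_nonzero _),
    Projectivization.mk_rep, Projectivization.mk_rep] at h
  exact h

/-- the comparison map -/
noncomputable def toK (κ : Sail.CF n) : CF n :=
  ⟨pline '' κ.1, by
    obtain ⟨p, ⟨f, hf, hl⟩, hκ⟩ := κ.2
    refine ⟨⟨f, Sail.dtm_of_linearIndependent hl⟩, ?_⟩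
    rw [hκ, ← Set.range_comp]
    congr 1
    funext i
    exact pline_mk _ _⟩

lemma toK_ofFrame (B : Frame n) : toK (Sail.ofFrame B.vec) = lines B := by
  apply Subtype.ext
  show pline '' (Sail.ofFrame B.vec).1 = Set.range fun i => line (B.vec i)
  rw [Sail.ofFrame_val (Sail.linearIndependent_of_dtm B.det_ne), ← Set.range_comp]
  congr 1
  funext i
  exact pline_mk _ _

lemma exists_frame (κ : Sail.CF n) : ∃ B : Frame n, Sail.ofFrame B.vec = κ := by
  obtain ⟨p, ⟨f, hf, hl⟩, hκ⟩ := κ.2
  refine ⟨⟨f, Sail.dtm_of_linearIndependent hl⟩, ?_⟩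
  apply Subtype.ext
  rw [Sail.ofFrame_val hl, hκ]

lemma toK_bijective : Function.Bijective (toK (n := n)) := by
  constructor
  · intro κ κ' h
    apply Subtype.ext
    have h1 : pline '' κ.1 = pline '' κ'.1 := congrArg Subtype.val h
    exact pline_injective.image_injective h1
  · intro κ
    obtain ⟨B, hB⟩ := κ.2
    refine ⟨Sail.ofFrame B.vec, ?_⟩
    rw [toK_ofFrame]
    exact Subtype.ext hB.symm

lemma vec_injective : Function.Injective (Frame.vec (n := n)) := by
  rintro ⟨v, hv⟩ ⟨w, hw⟩ h
  simp only at h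
  subst h
  rfl

lemma range_vec : Set.range (Frame.vec : Frame n → Fin (n+1) → E n) = {B | Sail.dtm B ≠ 0} := by
  ext B
  constructor
  · rintro ⟨B', rfl⟩; exact B'.det_ne
  · intro h; exact ⟨⟨B, h⟩, rfl⟩

lemma measurable_vec : Measurable (Frame.vec : Frame n → Fin (n+1) → E n) := comap_measurable _

lemma measurableEmbedding_val : MeasurableEmbedding (Frame.vec : Frame n → Fin (n+1) → E n) where
  injective := vec_injective
  measurable := measurable_vec
  measurableSet_image' := by
    rintro _ ⟨A, hA, rfl⟩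
    rw [Set.image_preimage_eq_inter_range, range_vec]
    exact hA.inter ((measurableSet_singleton (0:ℝ)).compl.preimage Sail.measurable_dtm)

/-- the comparison map is a measurable equivalence -/
noncomputable def eqK (n : ℕ) : Sail.CF n ≃ᵐ CF n where
  toEquiv := Equiv.ofBijective toK toK_bijective
  measurable_toFun := by
    classical
    intro S hS
    have hS' : MeasurableSet (lines ⁻¹' S) := hS
    show MeasurableSet (Sail.ofFrame ⁻¹' (toK ⁻¹' S))
    have hd : MeasurableSet {B : Fin (n+1) → E n | Sail.dtm B ≠ 0} :=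
      (measurableSet_singleton (0:ℝ)).compl.preimage Sail.measurable_dtm
    have e : Sail.ofFrame ⁻¹' (toK ⁻¹' S) = (Frame.vec '' (lines (n := n) ⁻¹' S)) ∪
        (if toK (Sail.axesCF n) ∈ S then {B | Sail.dtm B ≠ 0}ᶜ else ∅) := by
      ext B
      by_cases hB : Sail.dtm B ≠ 0
      · have h1 : toK (Sail.ofFrame B) = lines ⟨B, hB⟩ := toK_ofFrame ⟨B, hB⟩
        have h2 : B ∉ (if toK (Sail.axesCF n) ∈ S then {B | Sail.dtm B ≠ 0}ᶜ else ∅) := by
          split_ifs
          · exact fun h => h hB
          · exact fun h => h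
        rw [Set.mem_union, or_iff_left h2]
        simp only [Set.mem_preimage]
        rw [h1]
        constructor
        · intro h; exact ⟨⟨B, hB⟩, h, rfl⟩
        · rintro ⟨B', h, rfl⟩; exact h
      · have hB' : Sail.ofFrame B = Sail.axesCF n :=
          Sail.ofFrame_neg fun h => hB (Sail.dtm_of_linearIndependent h)
        simp only [Set.mem_preimage, Set.mem_union]
        rw [hB']
        have h2 : B ∉ Frame.vec '' (lines (n := n) ⁻¹' S) := by
          rintro ⟨B', -, rfl⟩; exact hB B'.det_ne
        rw [or_iff_right h2]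
        split_ifs with h3
        · exact ⟨fun _ => hB, fun _ => h3⟩
        · exact ⟨fun h => h3 h, fun h => h.elim⟩
    rw [e]
    apply MeasurableSet.union
    · exact measurableEmbedding_val.measurableSet_image.2 hS'
    · split_ifs
      · exact hd.compl
      · exact MeasurableSet.empty
  measurable_invFun := by
    intro S hS
    have hS' : MeasurableSet (Sail.ofFrame ⁻¹' S) := hS
    show MeasurableSet (lines ⁻¹' ((Equiv.ofBijective toK toK_bijective).symm ⁻¹' S))
    have e : lines ⁻¹' ((Equiv.ofBijective toK toK_bijective).symm ⁻¹' S) =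
        (Frame.vec : Frame n → Fin (n+1) → E n) ⁻¹' (Sail.ofFrame ⁻¹' S) := by
      ext B
      simp only [Set.mem_preimage]
      rw [← toK_ofFrame]
      have : (Equiv.ofBijective toK toK_bijective).symm (toK (Sail.ofFrame B.vec)) = Sail.ofFrame B.vec :=
        (Equiv.ofBijective toK toK_bijective).symm_apply_apply _
      rw [this]
    rw [e]
    exact measurable_vec hS'

lemma eqK_apply (κ : Sail.CF n) : eqK n κ = toK κ := rfl

lemma map_eqK : Measure.map (eqK n) (Sail.mobius n) = mobius n := by
  have hlines : Measurable (lines (n := n)) := fun _ h => h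
  ext S hS
  rw [MeasurableEquiv.map_apply, Sail.mobius, mobius, Measure.map_apply hlines hS,
    Measure.map_apply Sail.measurable_ofFrame ((eqK n).measurable hS)]
  set W : Set (Fin (n+1) → E n) := {B | ∀ i, 1 ≤ ‖B i‖ ∧ ‖B i‖ < Real.exp 1} with hW
  set A : Set (Fin (n+1) → E n) := Sail.ofFrame ⁻¹' (eqK n ⁻¹' S) with hA
  have hAm : MeasurableSet A := Sail.measurable_ofFrame ((eqK n).measurable hS)
  have hWm : MeasurableSet W := by
    have : W = ⋂ i, {B | 1 ≤ ‖B i‖ ∧ ‖B i‖ < Real.exp 1} := by
      ext; simp [W]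
    rw [this]
    exact MeasurableSet.iInter fun i => (measurableSet_le measurable_const (measurable_pi_apply i).norm).inter
      (measurableSet_lt (measurable_pi_apply i).norm measurable_const)
  have hSm : MeasurableSet (lines (n := n) ⁻¹' S) := hlines hS
  rw [Measure.restrict_apply hAm, Measure.restrict_apply hSm, Sail.frMeasure,
    withDensity_apply _ (hAm.inter hWm)]
  have e1 : lines (n := n) ⁻¹' S ∩ {B | ∀ i, 1 ≤ ‖B.vec i‖ ∧ ‖B.vec i‖ < Real.exp 1} =
      (Frame.vec : Frame n → Fin (n+1) → E n) ⁻¹' (A ∩ W) := by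
    ext B
    simp only [Set.mem_inter_iff, Set.mem_preimage, A, W]
    rw [eqK_apply, toK_ofFrame]
    rfl
  rw [e1, withDensity_apply _ (measurable_vec (hAm.inter hWm))]
  have e2 := measurableEmbedding_val.restrict_map (Measure.comap Frame.vec (volume : Measure (Fin (n+1) → E n)))
    (A ∩ W)
  have e3 : ∫⁻ B in (Frame.vec : Frame n → Fin (n+1) → E n) ⁻¹' (A ∩ W),
      ENNReal.ofReal ((|(Matrix.of B.vec).det|⁻¹) ^ (n + 1)) ∂(Measure.comap Frame.vec volume) =
      ∫⁻ B in (A ∩ W), ENNReal.ofReal ((|(Matrix.of B).det|⁻¹) ^ (n + 1))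
        ∂(Measure.map (Frame.vec : Frame n → Fin (n+1) → E n) (Measure.comap Frame.vec volume)) := by
    rw [e2, measurableEmbedding_val.lintegral_map]
  rw [e3, measurableEmbedding_val.map_comap, Measure.restrict_restrict (hAm.inter hWm)]
  rw [range_vec]
  have hd : MeasurableSet {B : Fin (n+1) → E n | Sail.dtm B ≠ 0} :=
    (measurableSet_singleton (0:ℝ)).compl.preimage Sail.measurable_dtm
  rw [← lintegral_indicator (hAm.inter hWm), ← lintegral_indicator ((hAm.inter hWm).inter hd)]
  apply lintegral_congr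
  intro B
  by_cases h1 : B ∈ A ∩ W
  · by_cases h2 : B ∈ {B : Fin (n+1) → E n | Sail.dtm B ≠ 0}
    · rw [Set.indicator_of_mem h1, Set.indicator_of_mem (Set.mem_inter h1 h2)]
      rfl
    · rw [Set.indicator_of_mem h1, Set.indicator_of_notMem (fun h => h2 h.2)]
      have h3 : Sail.dtm B = 0 := by
        by_contra h4; exact h2 h4
      rw [h3]; simp
  · rw [Set.indicator_of_notMem h1, Set.indicator_of_notMem (fun h => h1 h.1)]

/-- the two measures agree on all sets -/
lemma mobius_eq (S : Set (CF n)) : mobius n S = Sail.mobius n (toK ⁻¹' S) := by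
  rw [← map_eqK, MeasurableEquiv.map_apply]
  rfl

lemma cone_eq (B : Frame n) : cone B = Sail.cone B.vec := rfl

lemma face_iff_sail {C F : Set (E n)} : IsSailFace C F ↔ Sail.IsSailFace C F := by
  constructor
  · rintro ⟨h1, h2, a, c, ha, h3, h4⟩
    refine ⟨h1, h2, ∑ i, (a i) • LinearMap.proj i, c, ?_, ?_, ?_⟩
    · intro h0
      apply ha
      funext j
      have := congrArg (fun l : E n →ₗ[ℝ] ℝ => l (Pi.single j 1)) h0
      simpa [Pi.single_apply] using this
    · intro x hx
      simpa using h3 x hx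
    · have he : ∀ x : E n, (∑ i, (a i) • (LinearMap.proj i : E n →ₗ[ℝ] ℝ)) x = ∑ i, a i * x i := by
        intro x; simp
      rw [h4]
      ext x
      show (x ∈ hull C ∧ _) ↔ (x ∈ hull C ∧ _)
      rw [he]
  · rintro ⟨h1, h2, l, c, hl, h3, h4⟩
    have hla : ∀ x, ∑ i, l (Pi.single i 1) * x i = l x := by
      intro x
      have hx : x = ∑ i, x i • (Pi.single i (1:ℝ) : E n) := by
        funext j; simp [Finset.sum_apply, Pi.single_apply]
      conv_rhs => rw [hx]
      rw [map_sum]
      refine Finset.sum_congr rfl fun i _ => ?_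
      rw [map_smul, smul_eq_mul, mul_comm]
    refine ⟨h1, h2, fun i => l (Pi.single i 1), c, ?_, ?_, ?_⟩
    · intro h0
      apply hl
      ext x
      have := hla (Pi.single x 1)
      simp only [LinearMap.coe_comp, Function.comp_apply]
      rw [show LinearMap.single ℝ (fun _ => ℝ) x (1:ℝ) = Pi.single x 1 from rfl, ← this]
      simp [fun i => congrFun h0 i]
    · intro x hx
      rw [hla]; exact h3 x hx
    · rw [h4]
      ext x
      simp only [hla]
      rfl

/-- the sets of continued fractions with a given face agree -/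
lemma CFof_eq (F : Set (E n)) : toK ⁻¹' (CFof n F) = Sail.CFof n F := by
  ext κ
  constructor
  · rintro ⟨B, hB, hF⟩
    rw [← toK_ofFrame] at hB
    have hκ := toK_bijective.1 hB
    refine ⟨cone B, ⟨B.vec, Sail.linearIndependent_of_dtm B.det_ne, ?_, rfl⟩, face_iff_sail.1 hF⟩
    rw [← hκ]
    exact Sail.ofFrame_val (Sail.linearIndependent_of_dtm B.det_ne)
  · rintro ⟨C, ⟨b, hb, hκ, rfl⟩, hF⟩
    refine ⟨⟨b, Sail.dtm_of_linearIndependent hb⟩, ?_, face_iff_sail.2 hF⟩
    rw [← toK_ofFrame]
    congr 1
    apply Subtype.ext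
    rw [hκ]
    exact Sail.ofFrame_val hb

lemma mobius_CFof (s : Finset (Fin (n+1) → ℤ)) : mobius n (CFof n (poly s)) = Sail.mobius n (Sail.CFof n (Sail.poly s)) := by
  rw [mobius_eq, CFof_eq]
  rfl

/-- invariance of the Möbius measure -/
theorem mobius_matrix (g : Matrix (Fin (n+1)) (Fin (n+1)) ℝ) (hg : g.det ≠ 0) {S T : Set (CF n)}
    (hS : MeasurableSet S)
    (h : ∀ B B' : Frame n, (∀ i, B'.vec i = g.mulVec (B.vec i)) → (lines B' ∈ T ↔ lines B ∈ S)) :
    mobius n T = mobius n S := by
  rw [mobius_eq, mobius_eq]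
  apply Sail.mobius_matrix g hg ((eqK n).measurable hS)
  intro B hB
  have hB' : Sail.dtm (fun i => g.mulVec (B i)) ≠ 0 := by
    have h1 : Sail.dtm (fun i => g.mulVec (B i)) = Sail.dtm B * g.det := by
      show (Matrix.of fun i => g.mulVec (B i)).det = _
      have : (Matrix.of fun i => g.mulVec (B i)) = Matrix.of B * g.transpose := by
        ext i j
        simp only [Matrix.mul_apply, Matrix.of_apply, Matrix.transpose_apply, Matrix.mulVec, dotProduct]
        exact Finset.sum_congr rfl fun k _ => mul_comm _ _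
      rw [this, Matrix.det_mul, Matrix.det_transpose]
      rfl
    rw [h1]
    exact mul_ne_zero hB hg
  have h2 := h ⟨B, hB⟩ ⟨fun i => g.mulVec (B i), hB'⟩ (fun i => rfl)
  rw [← toK_ofFrame, ← toK_ofFrame] at h2
  exact h2

end Pool.Agent.Helper46.Klein
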