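import Pool.Agent.Helper46.KleinDefs

namespace Pool.Agent.Helper46.Klein

/-- A unimodular configuration: a finite set of integer points of the hyperplane
`x_0 + … + x_n = 1` which contains `e_0, …, e_n`, all of whose maximal minors are `0` or `± 1`,
and which consists of all the integer points of its convex hull. -/
structure IsUnimodularConfig {n : ℕ} (V : Finset (Fin (n + 1) → ℤ)) : Prop where
  /-- it contains the unit vectors -/
  single_mem : ∀ i, Pi.single i 1 ∈ V
  /-- it lies in the hyperplane `x_0 + … + x_n = 1` -/
  sum_eq : ∀ v ∈ V, ∑ i, v i = 1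
  /-- all its maximal minors are `0` or `± 1` -/
  abs_det_le : ∀ w : Fin (n + 1) → Fin (n + 1) → ℤ, (∀ i, w i ∈ V) → |(Matrix.of w).det| ≤ 1
  /-- its convex hull contains no other integer point -/
  mem_of_mem_poly : ∀ z, toReal z ∈ poly V → z ∈ V

end Pool.Agent.Helper46.Klein
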