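import Pool.Agent.Helper46.KleinBridge
import Pool.Agent.Helper46.KleinConfigDefs
import Pool.Agent.Helper46.FiniteAll

open MeasureTheory Set

namespace Pool.Agent.Helper46.Klein

lemma config_iff {n : ℕ} {V : Finset (Fin (n + 1) → ℤ)} : IsUnimodularConfig V ↔ Sail.IsUnimodularConfig V :=
  ⟨fun h => ⟨h.single_mem, h.sum_eq, h.abs_det_le, h.mem_of_mem_poly⟩,
    fun h => ⟨h.single_mem, h.sum_eq, h.abs_det_le, h.mem_of_mem_poly⟩⟩

theorem reduction (n : ℕ) :
    (∀ g : Matrix (Fin (n + 1)) (Fin (n + 1)) ℝ, g.det ≠ 0 → ∀ S T : Set (CF n), MeasurableSet S →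
      (∀ B B' : Frame n, (∀ i, B'.vec i = g.mulVec (B.vec i)) → (lines B' ∈ T ↔ lines B ∈ S)) →
      mobius n T = mobius n S) ∧
    {V : Finset (Fin (n + 1) → ℤ) | IsUnimodularConfig V}.Finite ∧
    (∀ s : Finset (Fin (n + 1) → ℤ), mobius n (CFof n (poly s)) < ⊤ ∧
      ∃ V, IsUnimodularConfig V ∧ mobius n (CFof n (poly s)) ≤ mobius n (CFof n (poly V))) ∧
    ∃ V : Finset (Fin (n + 1) → ℤ), IsUnimodularConfig V ∧ 0 < mobius n (CFof n (poly V)) ∧
      ∀ s : Finset (Fin (n + 1) → ℤ), mobius n (CFof n (poly s)) ≤ mobius n (CFof n (poly V)) := by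
  refine ⟨fun g hg S T hS h => mobius_matrix g hg hS h, ?_, fun s => ⟨?_, ?_⟩, ?_⟩
  · have : {V : Finset (Fin (n + 1) → ℤ) | IsUnimodularConfig V} = {V | Sail.IsUnimodularConfig V} := by
      ext V; exact config_iff
    rw [this]
    exact Sail.finite_configs n
  · rw [mobius_CFof]
    exact lt_top_iff_ne_top.2 (Sail.mobius_ne_top s)
  · obtain ⟨V, hV, hle⟩ := Sail.config_le (Sail.mobius n) s
    exact ⟨V, config_iff.2 hV, by rw [mobius_CFof, mobius_CFof]; exact hle⟩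
  · obtain ⟨V, hV, hmax⟩ := Sail.exists_max (Sail.mobius n)
    refine ⟨V, config_iff.2 hV, ?_, fun s => by rw [mobius_CFof, mobius_CFof]; exact hmax s⟩
    rw [mobius_CFof]
    exact lt_of_lt_of_le Sail.mobius_unit_pos (hmax (Sail.unitVerts n))

end Pool.Agent.Helper46.Klein
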