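import Mathlib

open MeasureTheory

namespace Pool.Agent.Helper46.Klein

/-- The space `ℝ^{n+1}`. -/
abbrev E (n : ℕ) : Type := Fin (n + 1) → ℝ

/-- The line spanned by the vector `v`. -/
def line {n : ℕ} (v : E n) : Set (E n) := {x | ∃ t : ℝ, x = t • v}

/-- A frame: `n + 1` linearly independent vectors of `ℝ^{n+1}`. -/
structure Frame (n : ℕ) where
  /-- the vectors of the frame -/
  vec : Fin (n + 1) → E n
  /-- they are linearly independent -/
  det_ne : (Matrix.of vec).det ≠ 0

/-- The space `CF_n` of `n`-dimensional continued fractions: sets of `n + 1` lines through the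
origin of `ℝ^{n+1}` spanned by the vectors of a frame. -/
def CF (n : ℕ) : Type := {κ : Set (Set (E n)) // ∃ B : Frame n, κ = Set.range fun i => line (B.vec i)}

/-- The continued fraction given by the lines spanned by the vectors of a frame. -/
def lines {n : ℕ} (B : Frame n) : CF n := ⟨Set.range fun i => line (B.vec i), B, rfl⟩

/-- The closed simplicial cone spanned by the vectors of a frame. -/
def cone {n : ℕ} (B : Frame n) : Set (E n) :=
  {x | ∃ t : Fin (n + 1) → ℝ, (∀ i, 0 ≤ t i) ∧ x = ∑ i, t i • B.vec i}

/-- The real vector with the same coordinates as the integer vector `z`. -/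
def toReal {n : ℕ} (z : Fin (n + 1) → ℤ) : E n := fun i => (z i : ℝ)

/-- The convex hull of the nonzero integer points of `C`. Its boundary is the sail of `C`. -/
def hull {n : ℕ} (C : Set (E n)) : Set (E n) :=
  convexHull ℝ {x | x ∈ C ∧ x ≠ 0 ∧ ∃ z : Fin (n + 1) → ℤ, x = toReal z}

/-- `F` is an `n`-dimensional face of the sail of `C`: a nonempty `n`-dimensional set cut out of the
hull by a supporting hyperplane `{x | a_0 x_0 + … + a_n x_n = c}`. -/
def IsSailFace {n : ℕ} (C F : Set (E n)) : Prop :=
  F.Nonempty ∧ Module.finrank ℝ (vectorSpan ℝ F) = n ∧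
    ∃ (a : E n) (c : ℝ), a ≠ 0 ∧ (∀ x ∈ hull C, c ≤ ∑ i, a i * x i) ∧
      F = {x | x ∈ hull C ∧ ∑ i, a i * x i = c}

/-- `CF_n(F)`: the set of continued fractions having `F` as one of their faces. The `2^{n+1}` cones
bounded by the lines of a continued fraction are the cones of the frames spanning these lines. -/
def CFof (n : ℕ) (F : Set (E n)) : Set (CF n) :=
  {κ | ∃ B : Frame n, lines B = κ ∧ IsSailFace (cone B) F}

/-- The polytope spanned by a finite set of integer points. -/
def poly {n : ℕ} (s : Finset (Fin (n + 1) → ℤ)) : Set (E n) :=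
  convexHull ℝ (toReal '' (s : Set (Fin (n + 1) → ℤ)))

/-- Borel sets of frames. -/
instance (n : ℕ) : MeasurableSpace (Frame n) := MeasurableSpace.comap Frame.vec inferInstance

/-- A set of continued fractions is measurable if the set of frames spanning its elements is. -/
instance (n : ℕ) : MeasurableSpace (CF n) := MeasurableSpace.map lines inferInstance

/-- The Möbius measure on `CF_n`: the image of the measure `|det B|^{-(n+1)} dB` on the frames `B`
with `1 ≤ ‖B i‖ < e` for all `i`. -/
noncomputable def mobius (n : ℕ) : Measure (CF n) :=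
  Measure.map lines
    (((Measure.comap Frame.vec volume).withDensity fun B =>
        ENNReal.ofReal ((|(Matrix.of B.vec).det|⁻¹) ^ (n + 1))).restrict
      {B | ∀ i, 1 ≤ ‖B.vec i‖ ∧ ‖B.vec i‖ < Real.exp 1})

/-- Integer-linear congruence of two polytopes given by the sets of their vertices: some element of
`SL(n+1, ℤ)` maps one set onto the other. -/
def Congruent {n : ℕ} (s t : Finset (Fin (n + 1) → ℤ)) : Prop :=
  ∃ g : Matrix (Fin (n + 1)) (Fin (n + 1)) ℤ, g.det = 1 ∧ t = s.image g.mulVec

end Pool.Agent.Helper46.Klein
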