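import Pool.Agent.Helper46.KleinBridge

open MeasureTheory Set

namespace Pool.Agent.Helper46.Klein

lemma unit_two : ({![1, 0, 0], ![0, 1, 0], ![0, 0, 1]} : Finset (Fin 3 → ℤ)) = Sail.unitVerts 2 := by
  decide

lemma half_two : ({![2, -1, -1], ![0, 1, 0], ![0, 0, 1]} : Finset (Fin 3 → ℤ)) = Sail.halfVerts 2 3 := by
  decide

theorem planar_answer :
    (∀ (n : ℕ) (g : Matrix (Fin (n + 1)) (Fin (n + 1)) ℝ), g.det ≠ 0 → ∀ S T : Set (CF n), MeasurableSet S →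
      (∀ B B' : Frame n, (∀ i, B'.vec i = g.mulVec (B.vec i)) → (lines B' ∈ T ↔ lines B ∈ S)) →
      mobius n T = mobius n S) ∧
    0 < mobius 2 (CFof 2 (poly {![1, 0, 0], ![0, 1, 0], ![0, 0, 1]})) ∧
    mobius 2 (CFof 2 (poly {![1, 0, 0], ![0, 1, 0], ![0, 0, 1]})) < ⊤ ∧
    ∀ s : Finset (Fin 3 → ℤ),
      mobius 2 (CFof 2 (poly s)) ≤ mobius 2 (CFof 2 (poly {![1, 0, 0], ![0, 1, 0], ![0, 0, 1]})) ∧
      (mobius 2 (CFof 2 (poly s)) = mobius 2 (CFof 2 (poly {![1, 0, 0], ![0, 1, 0], ![0, 0, 1]})) ↔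
        Congruent (n := 2) {![1, 0, 0], ![0, 1, 0], ![0, 0, 1]} s ∨
        Congruent (n := 2) {![2, -1, -1], ![0, 1, 0], ![0, 0, 1]} s) := by
  have hfin := Sail.mobius_unit_ne_top
  have e : mobius 2 (CFof 2 (poly {![1, 0, 0], ![0, 1, 0], ![0, 0, 1]})) =
      Sail.mobius 2 (Sail.CFof 2 (Sail.poly (Sail.unitVerts 2))) := by
    rw [← unit_two]
    exact mobius_CFof (n := 2) _
  refine ⟨fun n g hg S T hS h => mobius_matrix g hg hS h, ?_, ?_, fun s => ⟨?_, ?_⟩⟩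
  · rw [e]; exact Sail.mobius_unit_pos
  · rw [e]; exact lt_top_iff_ne_top.2 hfin
  · rw [e, mobius_CFof]; exact Sail.mobius_two_le s
  · rw [e, mobius_CFof, unit_two, half_two]
    exact Sail.eq_iff hfin s

end Pool.Agent.Helper46.Klein
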