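import Mathlib

namespace Pool.Agent.Helper46.Klein

/-- The vertices `e_0, …, e_n` of the unit simplex. -/
def unitVerts (n : ℕ) : Finset (Fin (n + 1) → ℤ) :=
  Finset.univ.image fun i => Pi.single i 1

/-- The vertices `2e_0 - e_1 - … - e_{k-1}, e_1, …, e_n` of the simplex `H_k`. -/
def halfVerts (n k : ℕ) : Finset (Fin (n + 1) → ℤ) :=
  Finset.univ.image fun i =>
    if i = 0 then (fun j => if j = 0 then 2 else if (j : ℕ) < k then -1 else 0) else Pi.single i 1

end Pool.Agent.Helper46.Klein
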