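import Pool.Agent.Helper46.SpikeFrame
import Pool.Agent.Helper46.HalfLattice
import Pool.Agent.Helper46.CongrClasses
import Pool.Agent.Helper46.FiniteAll

open MeasureTheory Set Filter
open scoped ENNReal Topology Pointwise

namespace Pool.Agent.Helper46.Sail

variable {n : ℕ}

lemma comb_add' (u : Fin (n+1) → Fin (n+1) → ℤ) (a b : Fin (n+1) → ℤ) : comb u (a + b) = comb u a + comb u b := by
  simp only [comb, Pi.add_apply, add_smul, Finset.sum_add_distrib]

lemma comb_comb (u v : Fin (n+1) → Fin (n+1) → ℤ) (z : Fin (n+1) → ℤ) :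
    comb (fun i => comb u (v i)) z = comb u (comb v z) := by
  simp only [comb, Finset.smul_sum, smul_smul, Finset.sum_apply, Pi.smul_apply, smul_eq_mul, Finset.sum_smul]
  rw [Finset.sum_comm]

lemma comb_perm (w : Fin (n+1) → Fin (n+1) → ℤ) (σ : Equiv.Perm (Fin (n+1))) (z : Fin (n+1) → ℤ) :
    comb (fun i => w (σ i)) (fun i => z (σ i)) = comb w z := by
  simp only [comb]
  exact Equiv.sum_comp σ (fun i => z i • w i)

lemma mulVec_transpose (u : Fin (n+1) → Fin (n+1) → ℤ) (z : Fin (n+1) → ℤ) :
    (Matrix.of u).transpose.mulVec z = comb u z := by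
  funext j
  simp [comb, Matrix.mulVec, dotProduct, Finset.sum_apply, mul_comm]

/-- if all integer vectors are integer combinations of the rows then the matrix is unimodular -/
lemma det_unit' {u : Fin (n+1) → Fin (n+1) → ℤ} (h : ∀ x : Fin (n+1) → ℤ, ∃ m, comb u m = x) :
    (Matrix.of u).det = 1 ∨ (Matrix.of u).det = -1 := by
  choose m hm using fun i : Fin (n+1) => h (Pi.single i 1)
  have h1 := det_comb u m
  have h2 : (Matrix.of fun i => comb u (m i)) = (1 : Matrix (Fin (n+1)) (Fin (n+1)) ℤ) := by
    ext i j
    rw [Matrix.of_apply, hm]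
    simp [Matrix.one_apply, Pi.single_apply, eq_comm]
  rw [h2, Matrix.det_one] at h1
  exact Int.isUnit_iff.1 (IsUnit.of_mul_eq_one _ (by rw [mul_comm]; exact h1.symm))

lemma unitVerts_image (u : Fin (n+1) → Fin (n+1) → ℤ) :
    (unitVerts n).image (Matrix.of u).transpose.mulVec = Finset.univ.image u := by
  rw [unitVerts, Finset.image_image]
  congr 1
  funext i
  rw [Function.comp_apply, mulVec_transpose, comb_single]

lemma image_perm (u : Fin (n+1) → Fin (n+1) → ℤ) (σ : Equiv.Perm (Fin (n+1))) :
    Finset.univ.image (fun i => u (σ i)) = Finset.univ.image u := by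
  ext x
  simp only [Finset.mem_image, Finset.mem_univ, true_and]
  constructor
  · rintro ⟨i, rfl⟩; exact ⟨_, rfl⟩
  · rintro ⟨i, rfl⟩; exact ⟨σ.symm i, by simp⟩

/-- the simplex with vertices the rows of a unimodular matrix -/
lemma congr_unit' (hn : 1 ≤ n) {u : Fin (n+1) → Fin (n+1) → ℤ}
    (hu : (Matrix.of u).det = 1 ∨ (Matrix.of u).det = -1) :
    SLCongruent (unitVerts n) (Finset.univ.image u) := by
  rcases hu with h | h
  · exact ⟨_, by rw [Matrix.det_transpose, h], (unitVerts_image u).symm⟩
  · have h01 : (0 : Fin (n+1)) ≠ ⟨1, by omega⟩ := by simp [Fin.ext_iff]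
    set σ : Equiv.Perm (Fin (n+1)) := Equiv.swap 0 ⟨1, by omega⟩ with hσ
    refine ⟨(Matrix.of fun i => u (σ i)).transpose, ?_, ?_⟩
    · rw [Matrix.det_transpose]
      have : Matrix.of (fun i => u (σ i)) = (Matrix.of u).submatrix σ id := rfl
      rw [this, Matrix.det_permute, h, hσ, Equiv.Perm.sign_swap h01]
      simp
    · rw [unitVerts_image, image_perm]

lemma halfVerts_image (k : ℕ) (u : Fin (n+1) → Fin (n+1) → ℤ) :
    (halfVerts n k).image (Matrix.of u).transpose.mulVec = Finset.univ.image fun i => comb u (halfFam n k i) := by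
  have : halfVerts n k = Finset.univ.image (halfFam n k) := by
    ext z; simp [mem_halfVerts, eq_comm]
  rw [this, Finset.image_image]
  congr 1
  funext i
  rw [Function.comp_apply, mulVec_transpose]

lemma congr_half' {k : ℕ} (hk3 : 3 ≤ k) (hkn : k ≤ n + 1) {u : Fin (n+1) → Fin (n+1) → ℤ}
    (hu : (Matrix.of u).det = 1 ∨ (Matrix.of u).det = -1) :
    SLCongruent (halfVerts n k) (Finset.univ.image fun i => comb u (halfFam n k i)) := by
  rcases hu with h | h
  · exact ⟨_, by rw [Matrix.det_transpose, h], (halfVerts_image k u).symm⟩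
  · set p : Fin (n+1) := ⟨1, by omega⟩ with hp
    set q : Fin (n+1) := ⟨2, by omega⟩ with hq
    have hpq : p ≠ q := by simp [hp, hq]
    have hp0 : p ≠ 0 := by simp [hp, Fin.ext_iff]
    have hq0 : q ≠ 0 := by simp [hq, Fin.ext_iff]
    set σ : Equiv.Perm (Fin (n+1)) := Equiv.swap p q with hσ
    have hσ0 : σ 0 = 0 := Equiv.swap_apply_of_ne_of_ne (Ne.symm hp0) (Ne.symm hq0)
    have hσσ : ∀ i, σ (σ i) = i := fun i => Equiv.swap_apply_self p q i
    have hlt : ∀ j : Fin (n+1), ((σ j : Fin (n+1)) : ℕ) < k ↔ (j : ℕ) < k := by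
      intro j
      by_cases h1 : j = p
      · rw [h1, hσ, Equiv.swap_apply_left]
        show 2 < k ↔ 1 < k
        omega
      · by_cases h2 : j = q
        · rw [h2, hσ, Equiv.swap_apply_right]
          show 1 < k ↔ 2 < k
          omega
        · rw [hσ, Equiv.swap_apply_of_ne_of_ne h1 h2]
    have hfam : ∀ i, (fun j => halfFam n k i (σ j)) = halfFam n k (σ i) := by
      intro i
      by_cases hi : i = 0
      · rw [hi, hσ0]
        funext j
        simp only [halfFam, if_true]
        have e1 : (σ j = 0) ↔ j = 0 := by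
          constructor
          · intro h'; rw [← hσσ j, h', hσ0]
          · rintro rfl; exact hσ0
        simp only [e1, hlt]
      · have hi' : σ i ≠ 0 := by
          intro h'; apply hi; rw [← hσσ i, h', hσ0]
        simp only [halfFam, if_neg hi, if_neg hi']
        funext j
        simp only [Pi.single_apply]
        have e1 : (σ j = i) ↔ j = σ i := by
          constructor
          · intro h'; rw [← h', hσσ]
          · rintro rfl; exact hσσ i
        simp only [e1]
    refine ⟨(Matrix.of fun i => u (σ i)).transpose, ?_, ?_⟩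
    · rw [Matrix.det_transpose]
      have : Matrix.of (fun i => u (σ i)) = (Matrix.of u).submatrix σ id := rfl
      rw [this, Matrix.det_permute, h, hσ, Equiv.Perm.sign_swap hpq]
      simp
    · rw [halfVerts_image]
      have e : (fun i => comb (fun i => u (σ i)) (halfFam n k i)) =
          fun i => (fun i => comb u (halfFam n k i)) (σ i) := by
        funext i
        have h1 : halfFam n k i = fun j => (halfFam n k (σ i)) (σ j) := by
          rw [hfam (σ i), hσσ]
        show comb (fun i => u (σ i)) (halfFam n k i) = comb u (halfFam n k (σ i))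
        rw [h1]
        exact comb_perm u σ _
      rw [e, image_perm (fun i => comb u (halfFam n k i)) σ]

/-- the data of a simplex with a nonzero frequency -/
lemma simplex_data {s : Finset (Fin (n+1) → ℤ)} (hs : s.card = n + 1) (hne : (CFof n (poly s)).Nonempty) :
    ∃ w : Fin (n+1) → Fin (n+1) → ℤ, ∃ hdet : (Matrix.of w).det ≠ 0, (∀ i, toReal (w i) ∈ poly s) ∧
      s = Finset.univ.image w ∧ pull w (poly s) = (unitVerts n : Set (Fin (n+1) → ℤ)) ∧
      ∀ x ∈ poly s, ∀ k, 0 ≤ mapOf w (linearIndependent_of_det hdet) x k := by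
  have hb := poly_bounded s
  obtain ⟨κ, C, ⟨b, hbli, -, rfl⟩, hface⟩ := hne
  obtain ⟨l, c, hc, hl, hF, hF', -⟩ := face_data hb hface
  have hspan : Submodule.span ℝ (poly s) = ⊤ := by
    refine span_face (l := l) hc (fun x hx => ?_) hface.1 hface.2.1
    rw [hF] at hx
    exact hx.2
  let e : Fin (n+1) ≃ s := (s.equivFinOfCardEq hs).symm
  let w : Fin (n+1) → Fin (n+1) → ℤ := fun i => (e i : Fin (n+1) → ℤ)
  have hrange : Set.range (fun i => toReal (w i)) = toReal '' (s : Set (Fin (n+1) → ℤ)) := by
    ext x
    constructor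
    · rintro ⟨i, rfl⟩
      exact ⟨w i, by simp [w], rfl⟩
    · rintro ⟨z, hz, rfl⟩
      refine ⟨e.symm ⟨z, by simpa using hz⟩, ?_⟩
      simp [w]
  have hli : LinearIndependent ℝ (fun i => toReal (w i)) := by
    apply linearIndependent_of_top_le_span_of_card_eq_finrank
    · rw [← hspan, Submodule.span_le, hrange]
      exact convexHull_min Submodule.subset_span (Submodule.convex _)
    · simp
  have hdet := det_of_linearIndependent hli
  have hwF : ∀ i, toReal (w i) ∈ poly s := fun i => poly_mem (e i).2
  have h1 : (mapOf w hli) '' poly s ⊆ poly (unitVerts n) := by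
    rw [poly, ← hrange]
    rw [show (mapOf w hli) '' convexHull ℝ (Set.range fun i => toReal (w i)) =
      ((mapOf w hli : E n →ₗ[ℝ] E n)) '' convexHull ℝ (Set.range fun i => toReal (w i)) from rfl,
      LinearMap.image_convexHull]
    apply convexHull_mono
    rintro _ ⟨_, ⟨i, rfl⟩, rfl⟩
    refine ⟨Pi.single i 1, by simp [unitVerts], ?_⟩
    rw [toReal_single]
    exact (mapOf_apply w hli i).symm
  refine ⟨w, hdet, hwF, ?_, ?_, ?_⟩
  · ext z
    rw [Finset.mem_image]
    constructor
    · intro hz
      exact ⟨e.symm ⟨z, hz⟩, Finset.mem_univ _, by simp [w]⟩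
    · rintro ⟨i, -, rfl⟩
      exact (e i).2
  · ext z
    constructor
    · intro hz
      have hz' : toReal (comb w z) ∈ poly s := hz
      apply isUnimodularConfig_unitVerts.mem_of_mem_poly
      apply h1
      refine ⟨_, hz', ?_⟩
      rw [← mapOf_symm_toReal w hli, LinearEquiv.apply_symm_apply]
    · intro hz
      obtain ⟨i, rfl⟩ := mem_unitVerts.mp (by simpa using hz)
      show toReal (comb w _) ∈ poly s
      rw [comb_single]; exact hwF i
  · intro x hx k
    have h2 : mapOf w hli x ∈ poly (unitVerts n) := h1 ⟨x, hx, rfl⟩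
    have h3 : poly (unitVerts n) ⊆ {x : E n | ∀ i, 0 ≤ x i} := by
      apply convexHull_min
      · rintro _ ⟨v, hv, rfl⟩
        obtain ⟨i, rfl⟩ := mem_unitVerts.mp (by simpa using hv)
        rw [toReal_single]
        intro j
        simp only [Pi.single_apply]
        split_ifs <;> norm_num
      · rintro x hx1 y hy1 a b ha hb hab i
        have := mul_nonneg ha (hx1 i)
        have := mul_nonneg hb (hy1 i)
        simp only [Pi.add_apply, Pi.smul_apply, smul_eq_mul]
        linarith
    exact h3 h2 k

theorem simplex_classify (hn : 2 ≤ n) {s : Finset (Fin (n+1) → ℤ)} (hs : s.card = n + 1)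
    (heq : mobius n (CFof n (poly s)) = mobius n (CFof n (poly (unitVerts n)))) :
    SLCongruent (unitVerts n) s ∨ ∃ k, Odd k ∧ 3 ≤ k ∧ k ≤ n + 1 ∧ SLCongruent (halfVerts n k) s := by
  classical
  have hfin : mobius n (CFof n (poly (unitVerts n))) ≠ ⊤ := mobius_unit_ne_top_all
  have hne : (CFof n (poly s)).Nonempty := by
    rw [Set.nonempty_iff_ne_empty]
    intro h
    rw [h, measure_empty] at heq
    exact (mobius_unit_pos (n := n)).ne heq
  have hb := poly_bounded s
  obtain ⟨w, hdet, hwF, hsw, hpull, hnonneg⟩ := simplex_data hs hne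
  set A := mapOf w (linearIndependent_of_det hdet) with hA
  have hAcomb : ∀ m : Fin (n+1) → ℤ, A (toReal (comb w m)) = toReal m := by
    intro m
    rw [hA, ← mapOf_symm_toReal w (linearIndependent_of_det hdet), LinearEquiv.apply_symm_apply]
  let f : (Fin (n+1) → ℤ) →+ (Fin (n+1) → ℝ) :=
    { toFun := fun x => A (toReal x)
      map_zero' := by
        have : (toReal (0 : Fin (n+1) → ℤ) : E n) = 0 := by funext i; simp [toReal]
        rw [this, map_zero]
      map_add' := fun x y => by rw [toReal_add, map_add] }
  have hf : ∀ x, f x = A (toReal x) := fun x => rfl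
  have hnv : NV f.range :=
    { int := fun z => ⟨comb w z, by rw [hf, hAcomb]; rfl⟩
      hom := by
        rintro _ ⟨x, rfl⟩ θ hθ hθ1 hy
        rw [hf] at hy ⊢
        have hx : x ≠ 0 := by
          rintro rfl
          rw [← hf, map_zero] at hy
          have := hy 0
          simp at this
        exact (nonviolation' hb hdet hwF hpull hfin heq hx (homothety_pos hθ hθ1 hy)).1
      spike := by
        rintro _ ⟨x, rfl⟩ a b hab hb0 hbs hk
        rw [hf] at hb0 hbs hk ⊢
        have hx : x ≠ 0 := by
          rintro rfl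
          rw [← hf, map_zero] at hb0
          simp at hb0
        obtain ⟨h1, h2⟩ := nonviolation' hb hdet hwF hpull hfin heq hx (spike_pos hab hb0 hbs hk)
        exact ⟨h1, fun h3 => hnonneg _ (h2 h3)⟩ }
  have hcomb : ∀ x : Fin (n+1) → ℤ, (∀ k, Int.fract (A (toReal x) k) = 0) →
      x = comb w (fun k => ⌊A (toReal x) k⌋) := by
    intro x hx
    apply toReal_injective
    apply A.injective
    rw [hAcomb]
    funext k
    have := Int.floor_add_fract (A (toReal x) k)
    rw [hx k, add_zero] at this
    exact this.symm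
  rcases hnv.classify hn with hall | ⟨J, hodd, h3, ⟨_, ⟨x0, rfl⟩, hx0⟩, hJ⟩
  · left
    rw [hsw]
    exact congr_unit' (by omega) (det_unit' fun x => ⟨_, (hcomb x (hall _ ⟨x, rfl⟩)).symm⟩)
  · right
    have hJn : J.card ≤ n + 1 := by
      have := Finset.card_le_univ J
      rwa [Fintype.card_fin] at this
    refine ⟨J.card, hodd, h3, hJn, ?_⟩
    set k := J.card with hk
    -- the permutation
    have hcard : Fintype.card {i : Fin (n+1) // (i : ℕ) < k} = Fintype.card {i : Fin (n+1) // i ∈ J} := by
      rw [Fintype.card_coe, Fintype.card_subtype, Fin.card_filter_val_lt]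
      omega
    let e0 : {i : Fin (n+1) // (i : ℕ) < k} ≃ {i : Fin (n+1) // i ∈ J} := Fintype.equivOfCardEq hcard
    let σ : Equiv.Perm (Fin (n+1)) := e0.extendSubtype
    have hσ : ∀ i, σ i ∈ J ↔ (i : ℕ) < k := by
      intro i
      constructor
      · intro h
        by_contra hcon
        exact e0.extendSubtype_not_mem i hcon h
      · intro h
        exact e0.extendSubtype_mem i h
    let w' : Fin (n+1) → Fin (n+1) → ℤ := fun i => w (σ i)
    set u0 : Fin (n+1) → ℤ := x0 - comb w (fun k => ⌊A (toReal x0) k⌋) with hu0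
    have htsub : ∀ a b : Fin (n+1) → ℤ, (toReal (a - b) : E n) = toReal a - toReal b := by
      intro a b; funext i; simp [toReal]
    have hu0A : ∀ k, A (toReal u0) k = if k ∈ J then 1 / 2 else 0 := by
      intro k
      rw [hu0, htsub, map_sub, hAcomb, ← hx0 k]
      rfl
    let u : Fin (n+1) → Fin (n+1) → ℤ := Function.update w' 0 u0
    have hu0' : u 0 = u0 := Function.update_self _ _ _
    have hui : ∀ i, i ≠ 0 → u i = w' i := fun i hi => Function.update_of_ne hi _ _
    -- twice `u0`
    have h2u : (2 : ℤ) • u0 = comb w (fun i => if i ∈ J then 1 else 0) := by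
      apply toReal_injective
      apply A.injective
      rw [hAcomb, toReal_smul, map_smul]
      funext i
      rw [Pi.smul_apply, hu0A]
      simp only [toReal]
      split_ifs <;> norm_num
    have h2u' : (2 : ℤ) • u0 = comb w' (fun i => if (i : ℕ) < k then 1 else 0) := by
      rw [h2u, ← comb_perm w σ]
      congr 1
      funext i
      simp only [hσ]
    have hfam : ∀ i, comb u (halfFam n k i) = w' i := by
      intro i
      by_cases hi : i = 0
      · rw [hi]
        have e1 : comb u (halfFam n k 0) = (2:ℤ) • u0 - (comb w' (fun i => if (i : ℕ) < k then 1 else 0) - w' 0) := by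
          rw [comb, comb, ← Finset.add_sum_erase _ _ (Finset.mem_univ (0 : Fin (n+1))),
            ← Finset.add_sum_erase (Finset.univ) (fun i : Fin (n+1) => (if (i : ℕ) < k then (1:ℤ) else 0) • w' i)
              (Finset.mem_univ (0 : Fin (n+1)))]
          have e2 : ((0 : Fin (n+1)) : ℕ) < k := by rw [Fin.val_zero]; omega
          rw [if_pos e2, one_smul, hu0']
          have e3 : ∀ i ∈ Finset.univ.erase (0 : Fin (n+1)), halfFam n k 0 i • u i =
              -((if (i : ℕ) < k then (1:ℤ) else 0) • w' i) := by
            intro i hi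
            rw [Finset.mem_erase] at hi
            rw [hui i hi.1]
            simp only [halfFam, if_true, if_neg hi.1]
            split_ifs <;> simp
          rw [Finset.sum_congr rfl e3, Finset.sum_neg_distrib]
          simp only [halfFam, if_true]
          abel
        rw [e1, h2u']
        abel
      · have : halfFam n k i = Pi.single i 1 := by simp only [halfFam, if_neg hi]
        rw [this, comb_single, hui i hi]
    have hw'comb : ∀ z, comb w' z = comb u (comb (halfFam n k) z) := by
      intro z
      rw [← comb_comb]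
      congr 1
      funext i
      exact (hfam i).symm
    have hwcomb : ∀ z, ∃ m, comb u m = comb w z := fun z => ⟨comb (halfFam n k) (fun i => z (σ i)), by
      rw [← hw'comb]
      exact comb_perm w σ z⟩
    have hunit : ∀ x : Fin (n+1) → ℤ, ∃ m, comb u m = x := by
      intro x
      rcases hJ _ ⟨x, rfl⟩ with h | h
      · obtain ⟨m, hm⟩ := hwcomb (fun k => ⌊A (toReal x) k⌋)
        exact ⟨m, by rw [hm]; exact (hcomb x h).symm⟩
      · obtain ⟨m, hm⟩ := hwcomb (fun k => ⌊A (toReal x) k⌋)
        refine ⟨m + Pi.single 0 1, ?_⟩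
        rw [comb_add', comb_single, hu0', hm]
        apply toReal_injective
        apply A.injective
        rw [toReal_add, map_add, hAcomb]
        funext i
        rw [Pi.add_apply, hu0A, ← h i]
        exact Int.floor_add_fract (A (toReal x) i)
    have hs' : s = Finset.univ.image fun i => comb u (halfFam n k i) := by
      rw [hsw]
      have : (fun i => comb u (halfFam n k i)) = fun i => w (σ i) := by
        funext i; exact hfam i
      rw [this, image_perm]
    rw [hs']
    exact congr_half' h3 hJn (det_unit' hunit)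

/-- the complete answer for simplices -/
theorem simplex_eq_iff (hn : 2 ≤ n) {s : Finset (Fin (n+1) → ℤ)} (hs : s.card = n + 1) :
    mobius n (CFof n (poly s)) = mobius n (CFof n (poly (unitVerts n))) ↔
      (SLCongruent (unitVerts n) s ∨ ∃ k, Odd k ∧ 3 ≤ k ∧ k ≤ n + 1 ∧ SLCongruent (halfVerts n k) s) := by
  constructor
  · exact simplex_classify hn hs
  · rintro (h | ⟨k, hk, hk3, hkn, h⟩)
    · exact mobius_congr h
    · rw [mobius_congr h]
      exact half_eq (mobius n) hk hk3 hkn

end Pool.Agent.Helper46.Sail
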