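import Pool.Agent.Helper46.KleinBridge
import Pool.Agent.Helper46.KleinSimplexDefs
import Pool.Agent.Helper46.SimplexClassify

open MeasureTheory Set

namespace Pool.Agent.Helper46.Klein

lemma not_congruent_of {n : ℕ} {s t : Finset (Fin (n + 1) → ℤ)} (h : ¬ Sail.Congruent s t) : ¬ Congruent s t := by
  rintro ⟨g, hg, hst⟩
  exact h ⟨g, by rw [hg]; exact isUnit_one, hst⟩

theorem simplex_answer (n : ℕ) (hn : 2 ≤ n) :
    (∀ g : Matrix (Fin (n + 1)) (Fin (n + 1)) ℝ, g.det ≠ 0 → ∀ S T : Set (CF n), MeasurableSet S →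
      (∀ B B' : Frame n, (∀ i, B'.vec i = g.mulVec (B.vec i)) → (lines B' ∈ T ↔ lines B ∈ S)) →
      mobius n T = mobius n S) ∧
    0 < mobius n (CFof n (poly (unitVerts n))) ∧
    mobius n (CFof n (poly (unitVerts n))) < ⊤ ∧
    (∀ s : Finset (Fin (n + 1) → ℤ), s.card = n + 1 →
      mobius n (CFof n (poly s)) ≤ mobius n (CFof n (poly (unitVerts n))) ∧
      (mobius n (CFof n (poly s)) = mobius n (CFof n (poly (unitVerts n))) ↔
        Congruent (unitVerts n) s ∨
        ∃ k, Odd k ∧ 3 ≤ k ∧ k ≤ n + 1 ∧ Congruent (halfVerts n k) s)) ∧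
    ∀ k, Odd k → 3 ≤ k → k ≤ n + 1 → ¬ Congruent (halfVerts n k) (unitVerts n) ∧
      ∀ k', Odd k' → 3 ≤ k' → k' ≤ n + 1 → k ≠ k' → ¬ Congruent (halfVerts n k) (halfVerts n k') := by
  have hfin := Sail.mobius_unit_ne_top_all (n := n)
  have e : mobius n (CFof n (poly (unitVerts n))) =
      Sail.mobius n (Sail.CFof n (Sail.poly (Sail.unitVerts n))) := mobius_CFof _
  refine ⟨fun g hg S T hS h => mobius_matrix g hg hS h, ?_, ?_, fun s hs => ⟨?_, ?_⟩,
    fun k hk hk3 hkn => ⟨not_congruent_of (Sail.not_congruent_unit n k),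
      fun k' hk' hk3' hkn' hne =>
        not_congruent_of (Sail.not_congruent_half (by omega) (by omega) hkn hkn' hne)⟩⟩
  · rw [e]; exact Sail.mobius_unit_pos
  · rw [e]; exact lt_top_iff_ne_top.2 hfin
  · rw [e, mobius_CFof]; exact Sail.simplex_le (Sail.mobius n) s hs
  · rw [e, mobius_CFof]
    exact Sail.simplex_eq_iff hn hs

end Pool.Agent.Helper46.Klein
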