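import Pool.Agent.Helper46.FiberCompare

open MeasureTheory Set
open scoped ENNReal

namespace Pool.Agent.Helper46.Sail

variable {n : ℕ}

lemma coord_of_dtm_eq_zero {B : Fr n} (hB : dtm B = 0) (v : E n) (k : Fin (n+1)) : coord B v k = 0 := by
  have : (Matrix.of B)⁻¹ = 0 := by
    apply Matrix.nonsing_inv_apply_not_isUnit
    rw [isUnit_iff_ne_zero, not_not]; exact hB
  rw [coord, this, Matrix.vecMul_zero]; rfl

lemma lam_of_dtm_eq_zero {B : Fr n} (hB : dtm B = 0) (v : E n) (k : Fin (n+1)) : lam B v k = 0 := by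
  rw [lam, coord_of_dtm_eq_zero hB, mul_zero]

lemma coord_eq_of_sum {B : Fr n} (hB : dtm B ≠ 0) {v : E n} {t : Fin (n+1) → ℝ} (h : ∑ k, t k • B k = v) :
    coord B v = t := by
  rw [← h]; exact coord_sum hB t

lemma dtm_sc (s : Fin (n+1) → ℝ) (B : Fr n) : dtm (sc s B) = (∏ i, Real.exp (s i)) * dtm B := by
  rw [sc_eq_ract, dtm_ract, Matrix.det_diagonal]

lemma lam_sc (s : Fin (n+1) → ℝ) (B : Fr n) (v : E n) (k : Fin (n+1)) : lam (sc s B) v k = lam B v k := by
  have hp : (∏ i, Real.exp (s i)) ≠ 0 := Finset.prod_ne_zero_iff.mpr fun i _ => (Real.exp_pos _).ne'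
  by_cases hB : dtm B = 0
  · rw [lam_of_dtm_eq_zero hB, lam_of_dtm_eq_zero]
    rw [dtm_sc, hB, mul_zero]
  · have hB' : dtm (sc s B) ≠ 0 := by rw [dtm_sc]; exact mul_ne_zero hp hB
    have h : coord (sc s B) v = fun k => Real.exp (-(s k)) * coord B v k := by
      apply coord_eq_of_sum hB'
      conv_rhs => rw [← sum_coord hB v]
      refine Finset.sum_congr rfl fun k _ => ?_
      rw [sc, smul_smul]
      congr 1
      have : Real.exp (-(s k)) * Real.exp (s k) = 1 := by rw [← Real.exp_add]; simp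
      linear_combination (coord B v k) * this
    have hz : zs (sc s B) k = Real.exp (s k) * zs B k := by simp [zs, sc, Finset.mul_sum]
    rw [lam, lam, h, hz]
    have : Real.exp (-(s k)) * Real.exp (s k) = 1 := by rw [← Real.exp_add]; simp
    linear_combination (zs B k * coord B v k) * this

lemma condV_sc (V : Finset (Fin (n+1) → ℤ)) (s : Fin (n+1) → ℝ) (B : Fr n) : condV V (sc s B) ↔ condV V B := by
  simp only [condV, lam_sc]

/-- permutation of the frame -/
lemma lam_perm (σ : Equiv.Perm (Fin (n+1))) (B : Fr n) (v : E n) (k : Fin (n+1)) :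
    lam (fun i => B (σ i)) v k = lam B v (σ k) := by
  have hd : dtm (fun i => B (σ i)) = 0 ↔ dtm B = 0 := by
    have h1 : dtm (fun i => B (σ i)) = (Equiv.Perm.sign σ : ℤ) * dtm B := by
      show (Matrix.of fun i => B (σ i)).det = _
      have : (Matrix.of fun i => B (σ i)) = (Matrix.of B).submatrix σ id := rfl
      rw [this, Matrix.det_permute]
      rfl
    rw [h1, mul_eq_zero]
    constructor
    · rintro (h | h)
      · exfalso
        have : ((Equiv.Perm.sign σ : ℤ) : ℝ) ≠ 0 := by
          rcases Int.units_eq_one_or (Equiv.Perm.sign σ) with h | h <;> rw [h] <;> simp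
        exact this h
      · exact h
    · intro h; right; exact h
  by_cases hB : dtm B = 0
  · rw [lam_of_dtm_eq_zero hB, lam_of_dtm_eq_zero (hd.2 hB)]
  · have h : coord (fun i => B (σ i)) v = fun k => coord B v (σ k) := by
      apply coord_eq_of_sum (fun h => hB (hd.1 h))
      conv_rhs => rw [← sum_coord hB v]
      exact Equiv.sum_comp σ (fun k => coord B v k • B k)
    rw [lam, lam, h]; rfl

/-- left action of a linear map preserving the coordinate sum -/
lemma lam_lact (g : E n ≃ₗ[ℝ] E n) (hg : ∀ v : E n, ∑ j, g v j = ∑ j, v j) (B : Fr n) (v : E n) (k : Fin (n+1)) :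
    lam (lact (g : E n →ₗ[ℝ] E n) B) (g v) k = lam B v k := by
  have hgd : LinearMap.det (g : E n →ₗ[ℝ] E n) ≠ 0 := (LinearEquiv.isUnit_det' g).ne_zero
  by_cases hB : dtm B = 0
  · rw [lam_of_dtm_eq_zero hB, lam_of_dtm_eq_zero]
    rw [dtm_lact, hB, mul_zero]
  · have hB' : dtm (lact (g : E n →ₗ[ℝ] E n) B) ≠ 0 := by
      rw [dtm_lact]; exact mul_ne_zero hgd hB
    have h : coord (lact (g : E n →ₗ[ℝ] E n) B) (g v) = coord B v := by
      apply coord_eq_of_sum hB'
      conv_rhs => rw [← sum_coord hB v]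
      rw [map_sum]
      exact Finset.sum_congr rfl fun k _ => by rw [lact_apply, map_smul]; rfl
    have hz : zs (lact (g : E n →ₗ[ℝ] E n) B) k = zs B k := by
      simp only [zs, lact_apply]
      exact hg _
    rw [lam, lam, h, hz]

end Pool.Agent.Helper46.Sail
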