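import Pool.Agent.Helper46.Missing
import Pool.Agent.Helper46.Inversion

open MeasureTheory Set
open scoped ENNReal

namespace Pool.Agent.Helper46.Sail

variable {n : ℕ}

/-- Minkowski's theorem on linear forms -/
theorem minkowski_box (M : Matrix (Fin (n+1)) (Fin (n+1)) ℝ) (hM : M.det ≠ 0) {τ : Fin (n+1) → ℝ}
    (hτ : ∀ k, 0 < τ k) (h : |M.det| < ∏ k, τ k) :
    ∃ x : Fin (n+1) → ℤ, x ≠ 0 ∧ ∀ k, |M.mulVec (toReal x) k| < τ k := by
  let box : Set (E n) := Set.pi Set.univ fun k => Set.Ioo (-(τ k)) (τ k)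
  let S : Set (E n) := Matrix.toLin' M ⁻¹' box
  have hmem : ∀ x, x ∈ S ↔ ∀ k, |M.mulVec x k| < τ k := by
    intro x
    simp only [S, box, Set.mem_preimage, Set.mem_pi, Set.mem_univ, true_imp_iff, Set.mem_Ioo,
      Matrix.toLin'_apply, abs_lt]
  have hvol : volume S = ENNReal.ofReal |M.det|⁻¹ * ENNReal.ofReal (∏ k, (2 * τ k)) := by
    rw [Measure.addHaar_preimage_linearMap volume (by rw [LinearMap.det_toLin']; exact hM) box,
      LinearMap.det_toLin', abs_inv]
    congr 1
    rw [Real.volume_pi_Ioo, ENNReal.ofReal_prod_of_nonneg (fun k _ => by linarith [hτ k])]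
    exact Finset.prod_congr rfl fun k _ => by congr 1; ring
  have hsymm : ∀ x ∈ S, -x ∈ S := by
    intro x hx
    rw [hmem] at hx ⊢
    intro k
    rw [Matrix.mulVec_neg, Pi.neg_apply, abs_neg]
    exact hx k
  have hconv : Convex ℝ S := by
    apply Convex.linear_preimage
    exact convex_pi fun k _ => convex_Ioo _ _
  have hfund := ZSpan.isAddFundamentalDomain' (Pi.basisFun ℝ (Fin (n+1))) volume
  have hF : volume (ZSpan.fundamentalDomain (Pi.basisFun ℝ (Fin (n+1)))) = 1 := by
    rw [ZSpan.fundamentalDomain_pi_basisFun, Real.volume_pi_Ico]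
    simp
  have hlt : volume (ZSpan.fundamentalDomain (Pi.basisFun ℝ (Fin (n+1)))) * 2 ^ Module.finrank ℝ (E n) < volume S := by
    rw [hF, one_mul, hvol, ← ENNReal.ofReal_mul (by positivity), Finset.prod_mul_distrib]
    have h9 : Module.finrank ℝ (E n) = n + 1 := Module.finrank_fin_fun ℝ
    rw [h9]
    have h2 : (2:ℝ≥0∞) ^ (n+1) = ENNReal.ofReal (2 ^ (n+1)) := by
      rw [ENNReal.ofReal_pow (by norm_num)]; simp
    rw [h2, ENNReal.ofReal_lt_ofReal_iff_of_nonneg (by positivity)]
    simp only [Finset.prod_const, Finset.card_univ, Fintype.card_fin]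
    have h3 : 0 < |M.det| := abs_pos.2 hM
    rw [← mul_assoc, mul_comm (|M.det|⁻¹), mul_assoc]
    have h4 : 1 < |M.det|⁻¹ * ∏ k, τ k := by
      rw [inv_mul_eq_div, one_lt_div h3]; exact h
    nlinarith [pow_pos (show (0:ℝ) < 2 by norm_num) (n+1)]
  have : Countable (Submodule.span ℤ (Set.range (Pi.basisFun ℝ (Fin (n+1))))).toAddSubgroup :=
    inferInstanceAs (Countable (Submodule.span ℤ (Set.range (Pi.basisFun ℝ (Fin (n+1))))))
  obtain ⟨x, hx0, hx⟩ := exists_ne_zero_mem_lattice_of_measure_mul_two_pow_lt_measure hfund hsymm hconv hlt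
  have hxm : (x : E n) ∈ Submodule.span ℤ (Set.range (Pi.basisFun ℝ (Fin (n+1)))) := x.2
  rw [Module.Basis.mem_span_iff_repr_mem] at hxm
  choose z hz using hxm
  have hzx : toReal z = (x : E n) := by
    funext i
    have := hz i
    simp only [Pi.basisFun_repr] at this
    rw [toReal, ← this]
    simp
  refine ⟨z, ?_, ?_⟩
  · rintro rfl
    apply hx0
    apply Subtype.ext
    rw [← hzx]
    funext i; simp [toReal]
  · rw [hzx, ← hmem]; exact hx

/-- a unimodular configuration does not contain three collinear points -/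
lemma no_three {V : Finset (Fin (n+1) → ℤ)} (hV : IsUnimodularConfig V) (i : Fin (n+1)) {x : Fin (n+1) → ℤ}
    (hx : x ≠ 0) (h1 : Pi.single i 1 + x ∈ V) (h2 : Pi.single i 1 + (-x) ∈ V) : False := by
  have hxi : x i = 0 := by
    have a1 := abs_le.1 (abs_le_of_config hV h1 i)
    have a2 := abs_le.1 (abs_le_of_config hV h2 i)
    simp only [Pi.add_apply, Pi.single_eq_same, Pi.neg_apply] at a1 a2
    omega
  obtain ⟨l, hl⟩ : ∃ l, x l ≠ 0 := by
    by_contra hcon
    push Not at hcon
    exact hx (funext hcon)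
  have hli : l ≠ i := by rintro rfl; exact hl hxi
  set v' : Fin (n+1) → ℤ := Pi.single i 1 + (-x) with hv'
  set M1 : Matrix (Fin (n+1)) (Fin (n+1)) ℤ := (1 : Matrix (Fin (n+1)) (Fin (n+1)) ℤ).updateRow l v' with hM1
  have hdet1 : M1.det = v' l := by
    have h3 : v' = ∑ j, v' j • (1 : Matrix (Fin (n+1)) (Fin (n+1)) ℤ) j := by
      funext k
      simp [Finset.sum_apply, Matrix.one_apply]
    rw [hM1]
    conv_lhs => rw [h3]
    rw [Matrix.det_updateRow_sum]
    simp
  have hrow : M1.updateRow i (Pi.single i 1) = M1 := by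
    ext a b
    by_cases ha : a = i
    · subst ha
      rw [Matrix.updateRow_self, hM1, Matrix.updateRow_ne (Ne.symm hli)]
      simp [Matrix.one_apply, Pi.single_apply, eq_comm]
    · rw [Matrix.updateRow_ne ha]
  have hdet2 : (M1.updateRow i (Pi.single i 1 + x)).det = 2 * v' l := by
    have e : (Pi.single i 1 + x : Fin (n+1) → ℤ) = (2:ℤ) • Pi.single i 1 + (-1 : ℤ) • v' := by
      rw [hv']
      funext j
      simp only [Pi.add_apply, Pi.smul_apply, Pi.neg_apply, smul_eq_mul]
      ring
    rw [e, Matrix.det_updateRow_add, Matrix.det_updateRow_smul, Matrix.det_updateRow_smul, hrow, hdet1]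
    have h0 : (M1.updateRow i v').det = 0 := by
      apply Matrix.det_zero_of_row_eq hli
      rw [Matrix.updateRow_ne hli, Matrix.updateRow_self, hM1, Matrix.updateRow_self]
    rw [h0]
    ring
  have h3 := hV.abs_det_le (fun j => (M1.updateRow i (Pi.single i 1 + x)) j) (by
    intro j
    by_cases hji : j = i
    · subst hji
      rw [Matrix.updateRow_self]; exact h1
    · rw [Matrix.updateRow_ne hji]
      by_cases hjl : j = l
      · subst hjl
        rw [hM1, Matrix.updateRow_self]; exact h2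
      · rw [hM1, Matrix.updateRow_ne hjl]
        have : (1 : Matrix (Fin (n+1)) (Fin (n+1)) ℤ) j = Pi.single j 1 := by
          funext b
          simp [Matrix.one_apply, Pi.single_apply, eq_comm]
        rw [this]; exact hV.single_mem j)
  have h4 : (Matrix.of fun j => (M1.updateRow i (Pi.single i 1 + x)) j).det = 2 * v' l := hdet2
  rw [h4] at h3
  have h5 : v' l = - x l := by
    rw [hv']
    simp [hli]
  rw [h5, abs_le] at h3
  omega

/-- the column bound -/
theorem column_bound {V : Finset (Fin (n+1) → ℤ)} (hV : IsUnimodularConfig V) {A : Fr n} (hA : dtm A ≠ 0)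
    (h1 : ∀ i, ∑ k, A k i = 1) (h0 : ∀ k i, 0 ≤ A k i)
    (hT : ∀ v : Fin (n+1) → ℤ, ∑ i, v i = 1 → (∀ k, 0 ≤ (Matrix.of A).mulVec (toReal v) k) → v ∈ V)
    (i : Fin (n+1)) : ∏ k, A k i ≤ |dtm A| := by
  by_contra hcon
  push Not at hcon
  have hpos : ∀ k, 0 < A k i := by
    intro k
    rcases (h0 k i).lt_or_eq with h | h
    · exact h
    · exfalso
      have : ∏ k, A k i = 0 := Finset.prod_eq_zero (Finset.mem_univ k) h.symm
      rw [this] at hcon
      exact absurd hcon (not_lt.2 (abs_nonneg _))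
  obtain ⟨x, hx0, hx⟩ := minkowski_box (Matrix.of A) hA hpos hcon
  -- sums of the coordinates
  have hsum : ∀ y : E n, ∑ k, (Matrix.of A).mulVec y k = ∑ j, y j := by
    intro y
    simp only [Matrix.mulVec, dotProduct, Matrix.of_apply]
    rw [Finset.sum_comm]
    refine Finset.sum_congr rfl fun j _ => ?_
    rw [← Finset.sum_mul, h1, one_mul]
  have key : ∀ x : Fin (n+1) → ℤ, (∀ k, |(Matrix.of A).mulVec (toReal x) k| < A k i) → ∑ j, x j ≤ 0 →
      ∑ j, x j = 0 ∧ (Pi.single i 1 + x) ∈ V := by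
    intro x hx hs
    have hval : ∀ k, (Matrix.of A).mulVec (toReal (Pi.single i 1 + x)) k = A k i + (Matrix.of A).mulVec (toReal x) k := by
      intro k
      have : toReal (Pi.single i 1 + x) = Pi.single i (1:ℝ) + toReal x := by
        rw [← toReal_single]
        funext j; simp [toReal]
      rw [this, Matrix.mulVec_add, Pi.add_apply]
      simp
    have hp : ∀ k, 0 < (Matrix.of A).mulVec (toReal (Pi.single i 1 + x)) k := by
      intro k
      rw [hval]
      have := (abs_lt.1 (hx k)).1
      linarith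
    have h2 := hsum (toReal (Pi.single i 1 + x))
    have h3 : 0 < ∑ k, (Matrix.of A).mulVec (toReal (Pi.single i 1 + x)) k :=
      Finset.sum_pos (fun k _ => hp k) ⟨0, Finset.mem_univ 0⟩
    rw [h2, sum_toReal] at h3
    have h4 : 0 < ∑ j, ((Pi.single i 1 : Fin (n+1) → ℤ) + x) j := by exact_mod_cast h3
    have h5 : ∑ j, ((Pi.single i 1 : Fin (n+1) → ℤ) + x) j = 1 + ∑ j, x j := by
      simp [Finset.sum_add_distrib]
    rw [h5] at h4
    have h6 : ∑ j, x j = 0 := by omega
    refine ⟨h6, hT _ (by rw [h5, h6]; norm_num) fun k => (hp k).le⟩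
  have hneg : ∀ k, |(Matrix.of A).mulVec (toReal (-x)) k| < A k i := by
    intro k
    have : toReal (-x) = -toReal (n := n) x := by funext j; simp [toReal]
    rw [this, Matrix.mulVec_neg, Pi.neg_apply, abs_neg]
    exact hx k
  have hsn : ∑ j, (-x) j = -∑ j, x j := by simp
  have hs0 : ∑ j, x j = 0 := by
    rcases le_total (∑ j, x j) 0 with h | h
    · exact (key x hx h).1
    · have := (key (-x) hneg (by rw [hsn]; omega)).1
      rw [hsn] at this; omega
  exact no_three hV i hx0 (key x hx hs0.le).2 (key (-x) hneg (by rw [hsn, hs0]; norm_num)).2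

end Pool.Agent.Helper46.Sail
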