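import Pool.Agent.Helper46.NearSimplex

open MeasureTheory Set Filter
open scoped ENNReal Topology

namespace Pool.Agent.Helper46.Sail

variable {n : ℕ}

lemma lam_eq_sgn (ε : Fin (n+1) → Bool) (B : Fr n) (v : E n) (k : Fin (n+1)) :
    lam B v k = (sgn ε k * zs B k) * (sgn ε k * coord B v k) := by
  have : (sgn ε k * zs B k) * (sgn ε k * coord B v k) = (sgn ε k * sgn ε k) * (zs B k * coord B v k) := by ring
  rw [this, sgn_mul_self, one_mul]; rfl

lemma mem_cone_iff_lam {B : Fr n} (hB : dtm B ≠ 0) {ε : Fin (n+1) → Bool} (hε : ∀ k, 0 < sgn ε k * zs B k) (v : E n) :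
    v ∈ cone (fun i => sgn ε i • B i) ↔ ∀ k, 0 ≤ lam B v k := by
  rw [mem_cone_iff hB]
  refine forall_congr' fun k => ?_
  rw [lam_eq_sgn ε]
  exact (mul_nonneg_iff_of_pos_left (hε k)).symm

lemma pos_of_faceCond {V : Finset (Fin (n+1) → ℤ)} (hV : IsUnimodularConfig V) {B : Fr n}
    (hz : ∀ k, zs B k ≠ 0) {ε : Fin (n+1) → Bool} (h : FaceCond V (cone (fun i => sgn ε i • B i))) :
    ∀ k, 0 < sgn ε k * zs B k := by
  intro k
  have h1 := zs_nonneg hV h k
  have h2 : ∑ j, (fun i => sgn ε i • B i) k j = sgn ε k * zs B k := by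
    simp [zs, Finset.mul_sum]
  rw [h2] at h1
  exact lt_of_le_of_ne h1 (Ne.symm (mul_ne_zero (sgn_ne ε k) (hz k)))

lemma faceCond_iff_condV {V : Finset (Fin (n+1) → ℤ)} (hV : IsUnimodularConfig V) {B : Fr n} (hB : dtm B ≠ 0)
    (hz : ∀ k, zs B k ≠ 0) {ε : Fin (n+1) → Bool} (hε : ∀ k, 0 < sgn ε k * zs B k) :
    FaceCond V (cone (fun i => sgn ε i • B i)) ↔ condV V B := by
  constructor
  · intro hface v hv
    constructor
    · intro h
      exact hface.eq v ((mem_cone_iff_lam hB hε _).2 h) hv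
    · intro h
      exact (mem_cone_iff_lam hB hε _).1 (hface.sub v h)
  · intro h
    refine ⟨fun v hv => ?_, fun v hv0 hv => ?_, fun v hv hv1 => ?_⟩
    · rw [mem_cone_iff_lam hB hε]
      exact (h v (hV.sum_eq v hv)).2 hv
    · rw [mem_cone_iff_lam hB hε] at hv
      have hsum := sum_lam hB (toReal v)
      rw [sum_toReal] at hsum
      have h0 : 0 ≤ ∑ k, lam B (toReal v) k := Finset.sum_nonneg fun k _ => hv k
      rcases h0.eq_or_lt with h1 | h1
      · exfalso
        have h2 := (Finset.sum_eq_zero_iff_of_nonneg (fun k _ => hv k)).1 h1.symm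
        have h3 : ∀ k, coord B (toReal v) k = 0 := by
          intro k
          have := h2 k (Finset.mem_univ k)
          rw [lam] at this
          rcases mul_eq_zero.1 this with h | h
          · exact absurd h (hz k)
          · exact h
        have h4 := sum_coord hB (toReal v)
        simp only [h3, zero_smul, Finset.sum_const_zero] at h4
        exact toReal_ne_zero.2 hv0 h4.symm
      · rw [hsum] at h1
        have : 0 < ∑ i, v i := by exact_mod_cast h1
        omega
    · rw [mem_cone_iff_lam hB hε] at hv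
      exact (h v hv1).1 hv

/-- the continued fractions with a face `conv V` on a cone which does not contain `y` -/
def missing (V : Finset (Fin (n+1) → ℤ)) (y : E n) : Set (CF n) :=
  {κ | ∃ C, IsConeOf κ C ∧ FaceCond V C ∧ y ∉ C}

lemma measurableSet_missing (V : Finset (Fin (n+1) → ℤ)) (y : E n) : MeasurableSet (missing V y) := by
  classical
  rw [measurableSet_CF]
  let S : (Fin (n+1) → Bool) → Set (Fr n) := fun ε =>
    ((⋂ v : V, {B | ∀ k, 0 ≤ sgn ε k * coord B (toReal v.1) k}) ∩
    ((⋂ v : Fin (n+1) → ℤ, {B | (∀ k, 0 ≤ sgn ε k * coord B (toReal v) k) → (v ≠ 0 → 1 ≤ ∑ i, v i)}) ∩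
    (⋂ v : Fin (n+1) → ℤ, {B | (∀ k, 0 ≤ sgn ε k * coord B (toReal v) k) → (∑ i, v i = 1 → v ∈ V)}))) ∩
    {B | ∀ k, 0 ≤ sgn ε k * coord B y k}ᶜ
  have hS : ∀ ε, MeasurableSet (S ε) := by
    intro ε
    refine MeasurableSet.inter (MeasurableSet.inter ?_ (MeasurableSet.inter ?_ ?_)) ?_
    · exact MeasurableSet.iInter fun v => measurableSet_cone ε _
    · exact MeasurableSet.iInter fun v => measurableSet_imp_const (measurableSet_cone ε _) _
    · exact MeasurableSet.iInter fun v => measurableSet_imp_const (measurableSet_cone ε _) _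
    · exact (measurableSet_cone ε _).compl
  have hmem : ∀ B : Fr n, dtm B ≠ 0 → (ofFrame B ∈ missing V y ↔ B ∈ ⋃ ε, S ε) := by
    intro B hB
    have hli := linearIndependent_of_dtm hB
    simp only [Set.mem_iUnion]
    constructor
    · rintro ⟨C, hC, hface, hy⟩
      obtain ⟨ε, rfl⟩ := (isConeOf_ofFrame hli).1 hC
      refine ⟨ε, ⟨?_, ?_, ?_⟩, ?_⟩
      · rw [Set.mem_iInter]
        rintro ⟨v, hv⟩
        exact (mem_cone_iff hB ε _).1 (hface.sub v hv)
      · rw [Set.mem_iInter]
        intro v hv hv0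
        exact hface.ge v hv0 ((mem_cone_iff hB ε _).2 hv)
      · rw [Set.mem_iInter]
        intro v hv hv1
        exact hface.eq v ((mem_cone_iff hB ε _).2 hv) hv1
      · intro h
        exact hy ((mem_cone_iff hB ε _).2 h)
    · rintro ⟨ε, ⟨h1, h2, h3⟩, h4⟩
      rw [Set.mem_iInter] at h1 h2 h3
      refine ⟨_, (isConeOf_ofFrame hli).2 ⟨ε, rfl⟩, ?_, ?_⟩
      · exact ⟨fun v hv => (mem_cone_iff hB ε _).2 (h1 ⟨v, hv⟩),
          fun v hv0 hv => h2 v ((mem_cone_iff hB ε _).1 hv) hv0,
          fun v hv hv1 => h3 v ((mem_cone_iff hB ε _).1 hv) hv1⟩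
      · intro h
        exact h4 ((mem_cone_iff hB ε _).1 h)
  have e : ofFrame (n := n) ⁻¹' missing V y =
      ((⋃ ε, S ε) ∩ {B | dtm B ≠ 0}) ∪ (if axesCF n ∈ missing V y then {B | dtm B ≠ 0}ᶜ else ∅) := by
    ext B
    by_cases h : dtm B = 0
    · have hli : ¬ LinearIndependent ℝ B := fun h' => dtm_of_linearIndependent h' h
      simp only [Set.mem_preimage, Set.mem_union, Set.mem_inter_iff, Set.mem_ofPred_eq, h, ne_eq,
        not_true_eq_false, and_false, false_or]
      rw [ofFrame_neg hli]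
      split_ifs with h1
      · simp [h1, h]
      · simp [h1]
    · simp only [Set.mem_preimage, Set.mem_union, Set.mem_inter_iff, Set.mem_ofPred_eq, ne_eq, h,
        not_false_eq_true, and_true]
      rw [hmem B h]
      split_ifs with h1
      · simp [h]
      · simp
  rw [e]
  apply MeasurableSet.union
  · exact (MeasurableSet.iUnion hS).inter measurableSet_dtm
  · split_ifs
    · exact measurableSet_dtm.compl
    · exact MeasurableSet.empty

lemma measurableSet_lamNonneg (y : E n) : MeasurableSet {B : Fr n | ∀ k, 0 ≤ lam B y k} := by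
  have : {B : Fr n | ∀ k, 0 ≤ lam B y k} = ⋂ k, {B | 0 ≤ lam B y k} := by ext; simp
  rw [this]
  exact MeasurableSet.iInter fun k => measurableSet_le measurable_const (measurable_lam _ k)

lemma missing_ofFrame {V : Finset (Fin (n+1) → ℤ)} (hV : IsUnimodularConfig V) {B : Fr n} (hB : dtm B ≠ 0)
    (hz : ∀ k, zs B k ≠ 0) (y : E n) :
    ofFrame B ∈ missing V y ↔ condV V B ∧ ¬ ∀ k, 0 ≤ lam B y k := by
  have hli := linearIndependent_of_dtm hB
  constructor
  · rintro ⟨C, hC, hface, hy⟩
    obtain ⟨ε, rfl⟩ := (isConeOf_ofFrame hli).1 hC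
    have hε := pos_of_faceCond hV hz hface
    exact ⟨(faceCond_iff_condV hV hB hz hε).1 hface, fun h => hy ((mem_cone_iff_lam hB hε _).2 h)⟩
  · rintro ⟨h1, h2⟩
    let ε : Fin (n+1) → Bool := fun k => decide (0 < zs B k)
    have hε : ∀ k, 0 < sgn ε k * zs B k := by
      intro k
      simp only [sgn, ε, decide_eq_true_eq]
      split_ifs with h1
      · linarith
      · have := lt_of_le_of_ne (not_lt.1 h1) (hz k)
        linarith
    exact ⟨_, (isConeOf_ofFrame hli).2 ⟨ε, rfl⟩, (faceCond_iff_condV hV hB hz hε).2 h1,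
      fun h => h2 ((mem_cone_iff_lam hB hε _).1 h)⟩

/-- removing the cones containing `y` strictly decreases the measure -/
theorem missing_lt {y : E n} {θ : ℝ} (hθ : 0 < θ) (hθ1 : θ < 1) (hy : ∀ k, 0 < y k + θ * ∑ i, y i)
    (hfin : mobius n (CFof n (poly (unitVerts n))) ≠ ⊤) :
    mobius n (missing (unitVerts n) y) < mobius n (CFof n (poly (unitVerts n))) := by
  have hV := isUnimodularConfig_unitVerts (n := n)
  have hw := measurable_win (n := n) stdGauge_gauge
  set c : Set (Fr n) := {B | condV (unitVerts n) B} with hc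
  set G : Set (Fr n) := {B | ∀ k, 0 ≤ lam B y k} with hG
  have hcm : MeasurableSet c := measurableSet_condV _
  have hGm : MeasurableSet G := measurableSet_lamNonneg y
  have h1 : mobius n (missing (unitVerts n) y) =
      ∫⁻ B, win (stdGauge n) B * (c \ G).indicator 1 B ∂(frMeasure n) := by
    rw [mobius_apply (measurableSet_missing _ _)]
    apply lintegral_congr_ae
    filter_upwards [ae_dtm, ae_zs] with B hB hz
    congr 1
    have := missing_ofFrame hV hB hz y
    by_cases h : B ∈ c \ G
    · rw [Set.indicator_of_mem h, Set.indicator_of_mem]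
      exact this.2 ⟨h.1, h.2⟩
    · rw [Set.indicator_of_notMem h, Set.indicator_of_notMem]
      exact fun h' => h ⟨(this.1 h').1, (this.1 h').2⟩
  have h2 : mobius n (CFof n (poly (unitVerts n))) =
      ∫⁻ B, win (stdGauge n) B * (c \ G).indicator 1 B ∂(frMeasure n) +
      ∫⁻ B, win (stdGauge n) B * (c ∩ G).indicator 1 B ∂(frMeasure n) := by
    rw [mobius_poly hV, ← lintegral_add_left]
    · apply lintegral_congr
      intro B
      rw [← mul_add]
      congr 1
      by_cases hB : B ∈ c
      · by_cases hB' : B ∈ G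
        · have a1 : B ∉ c \ G := fun h => h.2 hB'
          have a2 : B ∈ c ∩ G := ⟨hB, hB'⟩
          rw [Set.indicator_of_mem hB, Set.indicator_of_notMem a1, Set.indicator_of_mem a2, zero_add]
        · have a1 : B ∈ c \ G := ⟨hB, hB'⟩
          have a2 : B ∉ c ∩ G := fun h => hB' h.2
          rw [Set.indicator_of_mem hB, Set.indicator_of_mem a1, Set.indicator_of_notMem a2, add_zero]
      · rw [Set.indicator_of_notMem hB, Set.indicator_of_notMem (fun h => hB h.1),
          Set.indicator_of_notMem (fun h => hB h.1), add_zero]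
    · exact hw.mul (measurable_one.indicator (hcm.diff hGm))
  have h3 : 0 < ∫⁻ B, win (stdGauge n) B * (c ∩ G).indicator 1 B ∂(frMeasure n) := by
    apply int_pos (Bs_dtm (n := n) hθ) (Bs_norm hθ)
    filter_upwards [eventually_condV (n := n) hθ hθ1, eventually_lam_pos hθ hy] with B hB1 hB2
    exact ⟨hB1, fun k => (hB2 k).le⟩
  rw [h1, h2]
  rw [h2] at hfin
  exact ENNReal.lt_add_right (ENNReal.add_ne_top.1 hfin).1 h3.ne'

theorem mobius_unit_pos : 0 < mobius n (CFof n (poly (unitVerts n))) := by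
  have hθ : (0:ℝ) < 1 / 2 := by norm_num
  rw [mobius_poly isUnimodularConfig_unitVerts]
  apply int_pos (Bs_dtm (n := n) hθ) (Bs_norm hθ)
  exact eventually_condV (n := n) hθ (by norm_num)

end Pool.Agent.Helper46.Sail
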