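import Pool.Agent.Helper46.FrameInv

open MeasureTheory Set
open scoped ENNReal LinearAlgebra.Projectivization

namespace Pool.Agent.Helper46.Sail

variable {n : ℕ}

lemma measurable_ofFrame : Measurable (ofFrame (n := n)) := fun _ h => h

lemma measurableSet_CF {S : Set (CF n)} : MeasurableSet S ↔ MeasurableSet (ofFrame (n := n) ⁻¹' S) := Iff.rfl

lemma ofFrame_val {B : Fr n} (h : LinearIndependent ℝ B) :
    (ofFrame B).1 = Set.range fun i => Projectivization.mk ℝ (B i) (h.ne_zero i) :=
  congrArg Subtype.val (dif_pos h)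

lemma ofFrame_neg {B : Fr n} (h : ¬ LinearIndependent ℝ B) : ofFrame B = axesCF n := dif_neg h

lemma linearIndependent_sc {s : Fin (n+1) → ℝ} {B : Fr n} : LinearIndependent ℝ (sc s B) ↔ LinearIndependent ℝ B := by
  constructor
  · intro h
    have := h.units_smul (fun i => Units.mk0 (Real.exp (-(s i))) (Real.exp_pos _).ne')
    convert! this using 1
    funext i
    simp [sc, smul_smul, ← Real.exp_add, Units.smul_def]
  · intro h
    have := h.units_smul (fun i => Units.mk0 (Real.exp (s i)) (Real.exp_pos _).ne')
    convert! this using 1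

lemma ofFrame_sc (s : Fin (n+1) → ℝ) (B : Fr n) : ofFrame (sc s B) = ofFrame B := by
  by_cases h : LinearIndependent ℝ B
  · have h' := linearIndependent_sc (s := s).2 h
    apply Subtype.ext
    rw [ofFrame_val h', ofFrame_val h]
    congr 1
    funext i
    rw [Projectivization.mk_eq_mk_iff']
    exact ⟨Real.exp (s i), rfl⟩
  · have h' : ¬ LinearIndependent ℝ (sc s B) := fun h' => h (linearIndependent_sc.1 h')
    rw [ofFrame_neg h', ofFrame_neg h]

lemma ofFrame_lact (g : E n ≃ₗ[ℝ] E n) {B : Fr n} (h : LinearIndependent ℝ B) :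
    ofFrame (lact (g : E n →ₗ[ℝ] E n) B) = g • ofFrame B := by
  have h' : LinearIndependent ℝ (lact (g : E n →ₗ[ℝ] E n) B) := h.map' (g : E n →ₗ[ℝ] E n) (LinearEquiv.ker g)
  apply Subtype.ext
  show _ = (fun x => g • x) '' (ofFrame B).1
  rw [ofFrame_val h', ofFrame_val h, ← Set.range_comp]
  rfl

lemma mobius_apply {S : Set (CF n)} (hS : MeasurableSet S) :
    mobius n S = ∫⁻ B, win (stdGauge n) B * (ofFrame ⁻¹' S).indicator 1 B ∂(frMeasure n) := by
  rw [mobius, Measure.map_apply measurable_ofFrame hS, Measure.restrict_apply (measurable_ofFrame hS)]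
  have hw : MeasurableSet {B : Fr n | ∀ i, 1 ≤ ‖B i‖ ∧ ‖B i‖ < Real.exp 1} := by
    have : {B : Fr n | ∀ i, 1 ≤ ‖B i‖ ∧ ‖B i‖ < Real.exp 1} = ⋂ i, {B | 1 ≤ ‖B i‖ ∧ ‖B i‖ < Real.exp 1} := by
      ext; simp
    rw [this]
    exact MeasurableSet.iInter fun i => (measurableSet_le measurable_const (measurable_pi_apply i).norm).inter
      (measurableSet_lt (measurable_pi_apply i).norm measurable_const)
  rw [← lintegral_indicator_one ((measurable_ofFrame hS).inter hw)]
  apply lintegral_congr
  intro B
  unfold win stdGauge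
  by_cases h1 : B ∈ {B : Fr n | ∀ i, 1 ≤ ‖B i‖ ∧ ‖B i‖ < Real.exp 1}
  · by_cases h2 : B ∈ ofFrame ⁻¹' S
    · rw [Set.indicator_of_mem (Set.mem_inter h2 h1), Set.indicator_of_mem h1, Set.indicator_of_mem h2]
      simp
    · rw [Set.indicator_of_notMem (fun h => h2 h.1), Set.indicator_of_notMem h2]
      simp
  · rw [Set.indicator_of_notMem (fun h => h1 h.2), Set.indicator_of_notMem h1]
    simp

instance : MeasurableConstSMul (E n ≃ₗ[ℝ] E n) (CF n) where
  measurable_const_smul g := by
    classical
    intro S hS
    rw [measurableSet_CF]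
    have hd : MeasurableSet {B : Fr n | dtm B ≠ 0} := (measurableSet_singleton (0:ℝ)).compl.preimage measurable_dtm
    have e : ofFrame (n := n) ⁻¹' ((fun x => g • x) ⁻¹' S) =
        ((lact (g : E n →ₗ[ℝ] E n) ⁻¹' (ofFrame (n := n) ⁻¹' S)) ∩ {B | dtm B ≠ 0}) ∪
        (if g • axesCF n ∈ S then {B | dtm B ≠ 0}ᶜ else ∅) := by
      ext B
      by_cases h : dtm B = 0
      · have hli : ¬ LinearIndependent ℝ B := fun h' => dtm_of_linearIndependent h' h
        simp only [Set.mem_preimage, Set.mem_union, Set.mem_inter_iff, Set.mem_ofPred_eq, h, ne_eq,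
          not_true_eq_false, and_false, false_or]
        rw [ofFrame_neg hli]
        split_ifs with h1
        · simp [h1, h]
        · simp [h1]
      · have hli := linearIndependent_of_dtm h
        simp only [Set.mem_preimage, Set.mem_union, Set.mem_inter_iff, Set.mem_ofPred_eq, ne_eq, h,
          not_false_eq_true, and_true]
        rw [ofFrame_lact g hli]
        split_ifs with h1
        · simp [h]
        · simp
    rw [e]
    apply MeasurableSet.union
    · apply MeasurableSet.inter _ hd
      have hg : LinearMap.det (g : E n →ₗ[ℝ] E n) ≠ 0 := (LinearEquiv.isUnit_det' g).ne_zero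
      exact (mp_lact _ hg).measurable (measurable_ofFrame hS)
    · split_ifs
      · exact hd.compl
      · exact MeasurableSet.empty

instance : SMulInvariantMeasure (E n ≃ₗ[ℝ] E n) (CF n) (mobius n) where
  measure_preimage_smul g S hS := by
    have hS' : MeasurableSet ((fun x => g • x) ⁻¹' S) := measurable_const_smul g hS
    rw [mobius_apply hS', mobius_apply hS]
    have hf : Measurable ((ofFrame (n := n) ⁻¹' S).indicator (1 : Fr n → ℝ≥0∞)) :=
      measurable_one.indicator (measurable_ofFrame hS)
    rw [← lact_inv stdGauge_gauge g hf]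
    · apply lintegral_congr_ae
      filter_upwards [ae_dtm] with B hB
      congr 1
      have hli := linearIndependent_of_dtm hB
      by_cases h : g • ofFrame B ∈ S
      · rw [Set.indicator_of_mem, Set.indicator_of_mem]
        · rfl
        · show ofFrame _ ∈ S
          rw [ofFrame_lact g hli]; exact h
        · exact h
      · rw [Set.indicator_of_notMem, Set.indicator_of_notMem]
        · intro h'
          apply h
          have : ofFrame (lact (g : E n →ₗ[ℝ] E n) B) ∈ S := h'
          rwa [ofFrame_lact g hli] at this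
        · exact h
    · intro s B
      have : sc s B ∈ ofFrame ⁻¹' S ↔ B ∈ ofFrame ⁻¹' S := by
        simp only [Set.mem_preimage, ofFrame_sc]
      by_cases h : B ∈ ofFrame ⁻¹' S
      · rw [Set.indicator_of_mem h, Set.indicator_of_mem (this.2 h)]; rfl
      · rw [Set.indicator_of_notMem h, Set.indicator_of_notMem (fun h' => h (this.1 h'))]

end Pool.Agent.Helper46.Sail
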