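import Pool.Agent.Helper46.PlanarTwelve

open MeasureTheory Set

namespace Pool.Agent.Helper46.Planar

/-- a linear functional on an open triangle -/
lemma tri_gt {P Q R p : ℝ × ℝ} (hp : p ∈ Do) (k1 k2 c : ℝ) (hP : c ≤ k1 * P.1 + k2 * P.2)
    (hQ : c ≤ k1 * Q.1 + k2 * Q.2) (hR : c ≤ k1 * R.1 + k2 * R.2)
    (hs : c < k1 * P.1 + k2 * P.2 ∨ c < k1 * Q.1 + k2 * Q.2 ∨ c < k1 * R.1 + k2 * R.2) :
    c < k1 * (tmap P Q R p).1 + k2 * (tmap P Q R p).2 := by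
  obtain ⟨h1, h2, h3⟩ := hp
  have e : k1 * (tmap P Q R p).1 + k2 * (tmap P Q R p).2 =
      (1 - p.1 - p.2) * (k1 * P.1 + k2 * P.2) + p.1 * (k1 * Q.1 + k2 * Q.2) +
        p.2 * (k1 * R.1 + k2 * R.2) := by
    simp only [tmap]; ring
  rw [e]
  have h4 : 0 < 1 - p.1 - p.2 := by linarith
  have a1 := mul_nonneg h4.le (sub_nonneg.2 hP)
  have a2 := mul_nonneg h1.le (sub_nonneg.2 hQ)
  have a3 := mul_nonneg h2.le (sub_nonneg.2 hR)
  rcases hs with hs | hs | hs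
  · have := mul_pos h4 (sub_pos.2 hs); nlinarith
  · have := mul_pos h1 (sub_pos.2 hs); nlinarith
  · have := mul_pos h2 (sub_pos.2 hs); nlinarith

lemma tri_le {P Q R p : ℝ × ℝ} (hp : p ∈ Do) (k1 k2 c : ℝ) (hP : k1 * P.1 + k2 * P.2 ≤ c)
    (hQ : k1 * Q.1 + k2 * Q.2 ≤ c) (hR : k1 * R.1 + k2 * R.2 ≤ c) :
    k1 * (tmap P Q R p).1 + k2 * (tmap P Q R p).2 ≤ c := by
  obtain ⟨h1, h2, h3⟩ := hp
  have e : k1 * (tmap P Q R p).1 + k2 * (tmap P Q R p).2 =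
      (1 - p.1 - p.2) * (k1 * P.1 + k2 * P.2) + p.1 * (k1 * Q.1 + k2 * Q.2) +
        p.2 * (k1 * R.1 + k2 * R.2) := by
    simp only [tmap]; ring
  rw [e]
  have h4 : 0 < 1 - p.1 - p.2 := by linarith
  have a1 := mul_nonneg h4.le (sub_nonneg.2 hP)
  have a2 := mul_nonneg h1.le (sub_nonneg.2 hQ)
  have a3 := mul_nonneg h2.le (sub_nonneg.2 hR)
  nlinarith

/-- The region of the square: `p = (σ, τ)` is the gradient of `g`. -/
def SQ (A B r q : ℝ) : Set (ℝ × ℝ) :=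
  {p | 0 < p.1 ∧ 0 < p.2 ∧ (A + 1) * p.1 + (B + 1) * p.2 ≤ 1 ∧
    ∀ i j : ℤ, ¬ ((i = 0 ∨ i = 1) ∧ (j = 0 ∨ j = 1)) →
      (i : ℝ) + A - r * (j + B) < 0 ∨ (j : ℝ) + B - q * (i + A) < 0 ∨
        1 < (i + A) * p.1 + (j + B) * p.2}

/-- The region of the triangle. -/
def ST (A B r q : ℝ) : Set (ℝ × ℝ) :=
  {p | 0 < 1 * p.1 + q * p.2 ∧ 0 < r * p.1 + 1 * p.2 ∧ (1 + A) * p.1 + (0 + B) * p.2 ≤ 1 ∧
    (0 + A) * p.1 + (1 + B) * p.2 ≤ 1 ∧ (0 + A) * p.1 + (0 + B) * p.2 ≤ 1 ∧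
    1 < (1 + A) * p.1 + (1 + B) * p.2 ∧
    ∀ i j : ℤ, ¬ (i = 0 ∧ j = 0) → ¬ (i = 1 ∧ j = 0) → ¬ (i = 0 ∧ j = 1) →
      (i : ℝ) + A - r * (j + B) < 0 ∨ (j : ℝ) + B - q * (i + A) < 0 ∨
        1 < (i + A) * p.1 + (j + B) * p.2}

/-- It is enough to test the finitely many points -/
lemma mem_ST {A B r q : ℝ} {p : ℝ × ℝ} (h1 : 0 < 1 * p.1 + q * p.2) (h2 : 0 < r * p.1 + 1 * p.2)
    (g10 : (1 + A) * p.1 + (0 + B) * p.2 ≤ 1) (g01 : (0 + A) * p.1 + (1 + B) * p.2 ≤ 1)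
    (g00 : (0 + A) * p.1 + (0 + B) * p.2 ≤ 1) (g11 : 1 < (1 + A) * p.1 + (1 + B) * p.2)
    (hr : 0 < r)
    (_c00 : 0 ≤ A - r * B) (c01 : 0 ≤ A - r * (1 + B)) (d00 : 0 ≤ B - q * A) (d10 : 0 ≤ B - q * (1 + A))
    (x1 : -1 + A - r * (1 + B) < 0) (x2 : -1 + B - q * (1 + A) < 0)
    (x3 : A - r * (2 + B) < 0) (x4 : -1 + A - r * B < 0 ∨ B - q * (-1 + A) < 0)
    (x5 : -1 + B - q * A < 0) (x6 : -1 + A - r * (-1 + B) < 0 ∨ -1 + B - q * (-1 + A) < 0)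
    (g20 : B - q * (2 + A) < 0 ∨ 1 < (2 + A) * p.1 + (0 + B) * p.2)
    (g21 : -1 + B - q * (2 + A) < 0 ∨ 1 < (2 + A) * p.1 + (-1 + B) * p.2)
    (g31 : -1 + B - q * (3 + A) < 0 ∨ 1 < (3 + A) * p.1 + (-1 + B) * p.2) : p ∈ ST A B r q := by
  refine ⟨h1, h2, g10, g01, g00, g11, ?_⟩
  intro i j n0 n1 n2
  by_contra hcon
  push Not at hcon
  obtain ⟨k1, k2, k3⟩ := hcon
  let F : Set Aff := {⟨A - r * B, 1, -r⟩, ⟨B - q * A, -q, 1⟩, ⟨1 - A * p.1 - B * p.2, -p.1, -p.2⟩}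
  have hF : ∀ v : ℤ × ℤ, v ∈ {v : ℤ × ℤ | ∀ f ∈ F, 0 ≤ f.ev v.1 v.2} ↔
      (0 ≤ (v.1 : ℝ) + A - r * (v.2 + B) ∧ 0 ≤ (v.2 : ℝ) + B - q * (v.1 + A) ∧
        (v.1 + A) * p.1 + (v.2 + B) * p.2 ≤ 1) := by
    intro v
    simp only [F, Set.mem_insert_iff, Set.mem_singleton_iff, forall_eq_or_imp, forall_eq, Aff.ev,
      Set.mem_ofPred_eq]
    constructor
    · rintro ⟨u1, u2, u3⟩
      exact ⟨by linarith, by linarith, by linarith⟩
    · rintro ⟨u1, u2, u3⟩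
      exact ⟨by linarith, by linarith, by linarith⟩
  have := twelve (K := {v | ∀ f ∈ F, 0 ≤ f.ev v.1 v.2}) ⟨F, rfl⟩
    ((hF (0, 0)).2 (by push_cast; exact ⟨by linarith, by linarith, by linarith⟩))
    ((hF (1, 0)).2 (by push_cast; exact ⟨by linarith, by linarith, by linarith⟩))
    ((hF (0, 1)).2 (by push_cast; exact ⟨by linarith, by linarith, by linarith⟩))
    (i := i) (j := j) ((hF (i, j)).2 ⟨k1, k2, k3⟩) ⟨n0, n1, n2⟩
  simp only [hF] at this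
  push_cast at this
  rcases this with ⟨a, b, c⟩ | ⟨a, b, c⟩ | ⟨a, b, c⟩ | ⟨a, b, c⟩ | ⟨a, b, c⟩ | ⟨a, b, c⟩ | ⟨a, b, c⟩ |
    ⟨a, b, c⟩ | ⟨a, b, c⟩ | ⟨a, b, c⟩ | ⟨a, b, c⟩ | ⟨a, b, c⟩
  · linarith
  · linarith
  · linarith
  · rcases g20 with h | h <;> linarith
  · linarith
  · rcases x4 with h | h <;> linarith
  · linarith
  · rcases g21 with h | h <;> linarith
  · nlinarith
  · rcases x6 with h | h <;> linarith
  · rcases g31 with h | h <;> linarith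
  · nlinarith

/-- Standing hypotheses on the wedge. -/
structure Wedge (A B r q : ℝ) : Prop where
  c00 : 0 ≤ A - r * B
  c01 : 0 ≤ A - r * (1 + B)
  d00 : 0 ≤ B - q * A
  d10 : 0 ≤ B - q * (1 + A)
  x1 : -1 + A - r * (1 + B) < 0
  x2 : -1 + B - q * (1 + A) < 0
  x3 : A - r * (2 + B) < 0
  x4 : -1 + A - r * B < 0 ∨ B - q * (-1 + A) < 0
  x5 : -1 + B - q * A < 0
  x6 : -1 + A - r * (-1 + B) < 0 ∨ -1 + B - q * (-1 + A) < 0

lemma Wedge.r_pos {A B r q : ℝ} (W : Wedge A B r q) : 0 < r := by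
  have := W.c01; have := W.x3; linarith

/-! case `q > 0` -/

lemma Wedge.facts_pos {A B r q : ℝ} (W : Wedge A B r q) (hq : 0 < q) :
    r + (A - r * (1 + B)) < 1 ∧ q + (B - q * (1 + A)) < 1 ∧ 0 < 1 - q * r ∧ 0 ≤ A ∧ 0 ≤ B := by
  have hr := W.r_pos
  have h1 : -1 + A - r * B < 0 := by
    rcases W.x4 with h | h
    · exact h
    · have := W.d10; linarith
  have e1 : r < 1 := by have := W.c01; linarith
  have e2 : q < 1 := by have := W.d10; have := W.x5; linarith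
  have hD : 0 < 1 - q * r := by nlinarith
  have hA : (1 - q * r) * A = (A - r * (1 + B)) + r * (1 + (B - q * (1 + A)) + q) := by ring
  have hB : (1 - q * r) * B = (B - q * (1 + A)) + q * (1 + (A - r * (1 + B)) + r) := by ring
  have c := W.c01
  have d := W.d10
  have hA0 : 0 ≤ (1 - q * r) * A := by
    rw [hA]
    have : 0 ≤ r * (1 + (B - q * (1 + A)) + q) := mul_nonneg hr.le (by linarith)
    linarith
  have hB0 : 0 ≤ (1 - q * r) * B := by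
    rw [hB]
    have : 0 ≤ q * (1 + (A - r * (1 + B)) + r) := mul_nonneg hq.le (by linarith)
    linarith
  exact ⟨by linarith, by linarith [W.x5], hD, nonneg_of_mul_nonneg_right hA0 hD,
    nonneg_of_mul_nonneg_right hB0 hD⟩

/-- bound for `A + B` -/
lemma Wedge.sum_le {A B r q : ℝ} (W : Wedge A B r q) (hq : 0 < q) : A + B ≤ 5 := by
  obtain ⟨h1, h2, hD, hA, hB⟩ := W.facts_pos hq
  have hr := W.r_pos
  set e1 := A - r * (1 + B) with he1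
  set e2 := B - q * (1 + A) with he2
  have c : 0 ≤ e1 := W.c01
  have d : 0 ≤ e2 := W.d10
  have hsum : (1 - q * r) * (A + B) = 2 * (q * r) + r + q + e2 * (1 + r) + e1 * (1 + q) := by
    rw [he1, he2]; ring
  have hqr := mul_pos hq hr
  have r1 : r < 1 := by linarith
  have q1 : q < 1 := by linarith
  have key : (1 - q * r) * (A + B) ≤ 5 * (1 - q * r) := by
    rw [hsum]
    rcases W.x6 with h | h
    · -- 2 r + e1 < 1
      have h' : 2 * r + e1 < 1 := by rw [he1]; linarith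
      nlinarith [mul_nonneg (show 0 ≤ 1 - q - e2 by linarith) hr.le,
        mul_nonneg (show 0 ≤ 1 - 2 * r - e1 by linarith) hq.le]
    · have h' : 2 * q + e2 < 1 := by rw [he2]; linarith
      nlinarith [mul_nonneg (show 0 ≤ 1 - 2 * q - e2 by linarith) hr.le,
        mul_nonneg (show 0 ≤ 1 - r - e1 by linarith) hq.le]
  nlinarith

end Pool.Agent.Helper46.Planar
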