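import Pool.Agent.Helper46.PlanarBase

open MeasureTheory Set

namespace Pool.Agent.Helper46.Planar

/-- case C1 -/
lemma caseC1 {A B r q : ℝ} (W : Wedge A B r q) (hq : 0 < q) (h20 : B - q * (2 + A) < 0) :
    volume (SQ A B r q) ≤ ENNReal.ofReal (3 / 4) * volume (ST A B r q) := by
  obtain ⟨h1, h2, hD, hA, hB⟩ := W.facts_pos hq
  have hr := W.r_pos
  have hsum := W.sum_le hq
  obtain ⟨k1, hk1, hk1'⟩ : ∃ k : ℝ, 0 < k ∧ (A + 1) * k = 1 :=
    ⟨1 / (A + 1), by positivity, by field_simp⟩
  obtain ⟨k2, hk2, hk2'⟩ : ∃ k : ℝ, 0 < k ∧ (B + 1) * k = 1 :=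
    ⟨1 / (B + 1), by positivity, by field_simp⟩
  obtain ⟨k3, hk3, hk3'⟩ : ∃ k : ℝ, 0 < k ∧ (A + B + 3) * k = 1 :=
    ⟨1 / (A + B + 3), by positivity, by field_simp⟩
  obtain ⟨k4, hk4, hk4'⟩ : ∃ k : ℝ, 0 < k ∧ (A + B + 1) * k = 1 :=
    ⟨1 / (A + B + 1), by positivity, by field_simp⟩
  have hAk1 : A * k1 = 1 - k1 := by linarith
  have hBk2 : B * k2 = 1 - k2 := by linarith
  have hk4'' : A * k4 + B * k4 = 1 - k4 := by linarith
  apply compare (P := (0, k2)) (Q := (k1, 0)) (R := (k3, k3)) (P' := (0, k2)) (Q' := (k1, 0)) (R' := (k4, k4))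
  · rintro ⟨x, y⟩ ⟨hx, hy, hg, hall⟩
    simp only at hx hy hg hall
    have e21 : 1 < (2 + A) * x + (1 + B) * y := by
      have := hall 2 1 (by norm_num)
      push_cast at this
      rcases this with h | h | h
      · linarith [W.c01]
      · linarith [W.d10, W.x5]
      · exact h
    have e12 : 1 < (1 + A) * x + (2 + B) * y := by
      have := hall 1 2 (by norm_num)
      push_cast at this
      rcases this with h | h | h
      · linarith [W.c01]
      · linarith [W.d10, W.x5]
      · exact h
    refine ⟨((A + 1) * ((2 + A) * x + (1 + B) * y - 1), (A + B + 3) * (1 - ((A + 1) * x + (B + 1) * y))),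
      ⟨?_, ?_, ?_⟩, ?_⟩
    · exact mul_nonneg (by linarith) (by linarith)
    · exact mul_nonneg (by linarith) (by linarith)
    · have : 0 ≤ (B + 1) * ((1 + A) * x + (2 + B) * y - 1) := mul_nonneg (by linarith) (by linarith)
      simp only
      nlinarith
    · simp only [tmap, Prod.mk.injEq]
      constructor
      · linear_combination ((2 + A) * x + (1 + B) * y - 1) * hk1' + (1 - ((A + 1) * x + (B + 1) * y)) * hk3'
      · linear_combination ((1 + A) * x + (2 + B) * y - 1) * hk2' + (1 - ((A + 1) * x + (B + 1) * y)) * hk3'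
  · rintro _ ⟨p, hp, rfl⟩
    apply mem_ST _ _ _ _ _ _ hr W.c00 W.c01 W.d00 W.d10 W.x1 W.x2 W.x3 W.x4 W.x5 W.x6
    · left; exact h20
    · left; linarith [W.d10]
    · left; linarith [W.d10]
    · apply tri_gt hp <;> simp only
      · have := mul_pos hq hk2; linarith
      · linarith
      · have := mul_pos hq hk4; linarith
      · right; left; linarith
    · apply tri_gt hp <;> simp only
      · linarith
      · have := mul_pos hr hk1; linarith
      · have := mul_pos hr hk4; linarith
      · left; linarith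
    · apply tri_le hp <;> simp only <;> linarith
    · apply tri_le hp <;> simp only <;> linarith
    · apply tri_le hp <;> simp only <;> linarith
    · apply tri_gt hp <;> simp only
      · linarith
      · linarith
      · linarith
      · right; right; linarith
  · have e1 : dt (0, k2) (k1, 0) (k3, k3) = -(k1 * k2 * k3) := by
      simp only [dt]
      linear_combination (-k1 * k3) * hk2' + (-k2 * k3) * hk1' + (k1 * k2) * hk3'
    have e2 : dt (0, k2) (k1, 0) (k4, k4) = k1 * k2 * k4 := by
      simp only [dt]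
      linear_combination (-k1 * k4) * hk2' + (-k2 * k4) * hk1' + (k1 * k2) * hk4'
    rw [e1, e2, abs_neg, abs_of_pos (by positivity), abs_of_pos (by positivity)]
    have : k3 ≤ 3 / 4 * k4 := by
      have e3 : k4 = k3 + 2 * (k3 * k4) := by
        linear_combination k3 * hk4' - k4 * hk3'
      have : (A + B + 1) * (k3 - 3 / 4 * k4) ≤ 0 := by nlinarith
      nlinarith
    have h12 := mul_pos hk1 hk2
    nlinarith

/-- cases C2 and B1 -/
lemma caseG {A B r q : ℝ} (W : Wedge A B r q) (hq : 0 < 1 + q) (hA : 0 ≤ A) (hB : 0 < B + 1)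
    (_hAB : 0 < A + B + 1) (hle : B ≤ 2 * A + 8)
    (h20 : 0 ≤ B - q * (2 + A)) (h12 : 0 ≤ 1 + A - r * (2 + B)) (_h12' : 0 ≤ 2 + B - q * (1 + A))
    (h21 : -1 + B - q * (2 + A) < 0) :
    volume (SQ A B r q) ≤ ENNReal.ofReal (3 / 4) * volume (ST A B r q) := by
  have hr := W.r_pos
  obtain ⟨k1, hk1, hk1'⟩ : ∃ k : ℝ, 0 < k ∧ (A + 1) * k = 1 :=
    ⟨1 / (A + 1), by positivity, by field_simp⟩
  obtain ⟨k2, hk2, hk2'⟩ : ∃ k : ℝ, 0 < k ∧ (A + B + 2) * k = 1 :=
    ⟨1 / (A + B + 2), by apply one_div_pos.2; linarith, by apply mul_one_div_cancel; linarith⟩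
  obtain ⟨k3, hk3, hk3'⟩ : ∃ k : ℝ, 0 < k ∧ (2 * A + B + 4) * k = 1 :=
    ⟨1 / (2 * A + B + 4), by apply one_div_pos.2; linarith, by apply mul_one_div_cancel; linarith⟩
  obtain ⟨k4, hk4, hk4'⟩ : ∃ k : ℝ, 0 < k ∧ (A + B + 1) * k = 1 :=
    ⟨1 / (A + B + 1), by apply one_div_pos.2; linarith, by apply mul_one_div_cancel; linarith⟩
  have hAk1 : A * k1 = 1 - k1 := by linarith
  have hABk2 : A * k2 + B * k2 = 1 - 2 * k2 := by linarith
  have hABk4 : A * k4 + B * k4 = 1 - k4 := by linarith
  apply compare (P := (k1, 0)) (Q := (k2, k2)) (R := (2 * k3, k3)) (P' := (k1, 0)) (Q' := (k2, k2)) (R' := (k4, k4))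
  · rintro ⟨x, y⟩ ⟨hx, hy, hg, hall⟩
    simp only at hx hy hg hall
    have e20 : 1 < (2 + A) * x + B * y := by
      have := hall 2 0 (by norm_num)
      push_cast at this
      rcases this with h | h | h
      · linarith [W.c00]
      · linarith
      · linarith
    have e12 : 1 < (1 + A) * x + (2 + B) * y := by
      have := hall 1 2 (by norm_num)
      push_cast at this
      rcases this with h | h | h
      · linarith
      · linarith
      · exact h
    refine ⟨((A + B + 2) * ((1 + A) * x + (2 + B) * y - 1), (2 * A + B + 4) * (1 - ((A + 1) * x + (B + 1) * y))),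
      ⟨?_, ?_, ?_⟩, ?_⟩
    · exact mul_nonneg (by linarith) (by linarith)
    · exact mul_nonneg (by linarith) (by linarith)
    · have : 0 ≤ (A + 1) * ((2 + A) * x + B * y - 1) := mul_nonneg (by linarith) (by linarith)
      simp only
      nlinarith
    · simp only [tmap, Prod.mk.injEq]
      constructor
      · linear_combination ((2 + A) * x + B * y - 1) * hk1' + ((1 + A) * x + (2 + B) * y - 1) * hk2' +
          2 * (1 - ((A + 1) * x + (B + 1) * y)) * hk3'
      · linear_combination ((1 + A) * x + (2 + B) * y - 1) * hk2' + (1 - ((A + 1) * x + (B + 1) * y)) * hk3'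
  · rintro _ ⟨p, hp, rfl⟩
    apply mem_ST _ _ _ _ _ _ hr W.c00 W.c01 W.d00 W.d10 W.x1 W.x2 W.x3 W.x4 W.x5 W.x6
    · right
      apply tri_gt hp <;> simp only
      · linarith
      · linarith
      · linarith
      · right; right; linarith
    · left; exact h21
    · right
      apply tri_gt hp <;> simp only
      · linarith
      · linarith
      · linarith
      · right; right; linarith
    · apply tri_gt hp <;> simp only
      · linarith
      · have := mul_pos hq hk2; linarith
      · have := mul_pos hq hk4; linarith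
      · left; linarith
    · apply tri_gt hp <;> simp only
      · have := mul_pos hr hk1; linarith
      · have := mul_pos hr hk2; linarith
      · have := mul_pos hr hk4; linarith
      · right; left; have := mul_pos hr hk2; linarith
    · apply tri_le hp <;> simp only <;> linarith
    · apply tri_le hp <;> simp only <;> linarith
    · apply tri_le hp <;> simp only <;> linarith
    · apply tri_gt hp <;> simp only
      · linarith
      · linarith
      · linarith
      · right; right; linarith
  · have e1 : dt (k1, 0) (k2, k2) (2 * k3, k3) = k1 * k2 * k3 := by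
      simp only [dt]
      linear_combination (-k1 * k2) * hk3' + (k2 * k3) * hk1' + (k1 * k3) * hk2'
    have e2 : dt (k1, 0) (k2, k2) (k4, k4) = -(k1 * k2 * k4) := by
      simp only [dt]
      linear_combination (k1 * k4) * hk2' - (k1 * k2) * hk4'
    rw [e1, e2, abs_neg, abs_of_pos (by positivity), abs_of_pos (by positivity)]
    have : k3 ≤ 3 / 4 * k4 := by
      have e3 : k4 = k3 + (A + 3) * (k3 * k4) := by
        linear_combination k3 * hk4' - k4 * hk3'
      have e4 : k3 * (A + B + 1) ≤ 3 / 4 := by
        have : k3 * (A + B + 1) = k3 * (3 / 4 * (2 * A + B + 4)) - k3 * ((2 * A + 8 - B) / 4) := by ring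
        rw [this]
        have h5 : 0 ≤ k3 * ((2 * A + 8 - B) / 4) := mul_nonneg hk3.le (by linarith)
        nlinarith
      calc k3 = (k3 * (A + B + 1)) * k4 := by linear_combination -k3 * hk4'
        _ ≤ 3 / 4 * k4 := by gcongr
    have h12 := mul_pos hk1 hk2
    nlinarith

/-- case B2 -/
lemma caseB2 {A B r q : ℝ} (W : Wedge A B r q) (hq : 0 < 2 + 3 * q) (hA : 0 ≤ A) (hB : 0 < B + 1)
    (hB1 : B ≤ 0) (_hAB : 0 < A + B + 1)
    (h20 : 0 ≤ B - q * (2 + A)) (h21 : -1 + B - q * (2 + A) < 0) :
    volume (SQ A B r q) ≤ ENNReal.ofReal (3 / 4) * volume (ST A B r q) := by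
  have hr := W.r_pos
  have hq1 : 0 < 1 + q := by linarith
  obtain ⟨k1, hk1, hk1'⟩ : ∃ k : ℝ, 0 < k ∧ (A + 1) * k = 1 :=
    ⟨1 / (A + 1), by positivity, by field_simp⟩
  obtain ⟨k2, hk2, hk2'⟩ : ∃ k : ℝ, 0 < k ∧ (A + B + 2) * k = 1 :=
    ⟨1 / (A + B + 2), by apply one_div_pos.2; linarith, by apply mul_one_div_cancel; linarith⟩
  obtain ⟨k3, hk3, hk3'⟩ : ∃ k : ℝ, 0 < k ∧ (A + 2) * k = 1 :=
    ⟨1 / (A + 2), by apply one_div_pos.2; linarith, by apply mul_one_div_cancel; linarith⟩
  obtain ⟨k4, hk4, hk4'⟩ : ∃ k : ℝ, 0 < k ∧ (A + B + 1) * k = 1 :=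
    ⟨1 / (A + B + 1), by apply one_div_pos.2; linarith, by apply mul_one_div_cancel; linarith⟩
  obtain ⟨k5, hk5, hk5'⟩ : ∃ k : ℝ, 0 < k ∧ (2 * A + 3 * B + 3) * k = 1 :=
    ⟨1 / (2 * A + 3 * B + 3), by apply one_div_pos.2; linarith, by apply mul_one_div_cancel; linarith⟩
  have hAk1 : A * k1 = 1 - k1 := by linarith
  have hABk2 : A * k2 + B * k2 = 1 - 2 * k2 := by linarith
  have hABk4 : A * k4 + B * k4 = 1 - k4 := by linarith
  have hABk5 : 2 * (A * k5) + 3 * (B * k5) = 1 - 3 * k5 := by linarith
  have e1 : dt (k1, 0) (k2, k2) (k3, 0) = k1 * k2 * k3 := by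
    simp only [dt]
    linear_combination (k2 * k3) * hk1' - (k1 * k2) * hk3'
  have e2 : dt (k1, 0) (k2, k2) (k4, k4) = -(k1 * k2 * k4) := by
    simp only [dt]
    linear_combination (k1 * k4) * hk2' - (k1 * k2) * hk4'
  have e3 : dt (k2, k2) (k4, k4) (2 * k5, 3 * k5) = k2 * k4 * k5 := by
    simp only [dt]
    linear_combination (k2 * k5) * hk4' - (k4 * k5) * hk2'
  apply compare2 (P := (k1, 0)) (Q := (k2, k2)) (R := (k3, 0)) (P' := (k1, 0)) (Q' := (k2, k2)) (R' := (k4, k4))
    (P'' := (k2, k2)) (Q'' := (k4, k4)) (R'' := (2 * k5, 3 * k5))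
  · rintro ⟨x, y⟩ ⟨hx, hy, hg, hall⟩
    simp only at hx hy hg hall
    have e20 : 1 < (2 + A) * x + B * y := by
      have := hall 2 0 (by norm_num)
      push_cast at this
      rcases this with h | h | h
      · linarith [W.c00]
      · linarith
      · linarith
    refine ⟨((A + B + 2) * y, (A + 2) * (1 - ((A + 1) * x + (B + 1) * y))), ⟨?_, ?_, ?_⟩, ?_⟩
    · exact mul_nonneg (by linarith) (by linarith)
    · exact mul_nonneg (by linarith) (by linarith)
    · have : 0 ≤ (A + 1) * ((2 + A) * x + B * y - 1) := mul_nonneg (by linarith) (by linarith)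
      simp only
      nlinarith
    · simp only [tmap, Prod.mk.injEq]
      constructor
      · linear_combination ((2 + A) * x + B * y - 1) * hk1' + y * hk2' +
          (1 - ((A + 1) * x + (B + 1) * y)) * hk3'
      · linear_combination y * hk2'
  · rintro _ ⟨p, hp, rfl⟩
    apply mem_ST _ _ _ _ _ _ hr W.c00 W.c01 W.d00 W.d10 W.x1 W.x2 W.x3 W.x4 W.x5 W.x6
    · right
      apply tri_gt hp <;> simp only
      · linarith
      · linarith
      · linarith
      · right; right; linarith
    · left; exact h21
    · right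
      apply tri_gt hp <;> simp only
      · linarith
      · linarith
      · linarith
      · right; right; linarith
    · apply tri_gt hp <;> simp only
      · linarith
      · have := mul_pos hq1 hk2; linarith
      · have := mul_pos hq1 hk4; linarith
      · left; linarith
    · apply tri_gt hp <;> simp only
      · have := mul_pos hr hk1; linarith
      · have := mul_pos hr hk2; linarith
      · have := mul_pos hr hk4; linarith
      · right; left; have := mul_pos hr hk2; linarith
    · apply tri_le hp <;> simp only <;> linarith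
    · apply tri_le hp <;> simp only <;> linarith
    · apply tri_le hp <;> simp only <;> linarith
    · apply tri_gt hp <;> simp only
      · linarith
      · linarith
      · linarith
      · right; right; linarith
  · rintro _ ⟨p, hp, rfl⟩
    apply mem_ST _ _ _ _ _ _ hr W.c00 W.c01 W.d00 W.d10 W.x1 W.x2 W.x3 W.x4 W.x5 W.x6
    · right
      apply tri_gt hp <;> simp only
      · linarith
      · linarith
      · linarith
      · right; right; linarith
    · left; exact h21
    · right
      apply tri_gt hp <;> simp only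
      · linarith
      · linarith
      · linarith
      · right; left; linarith
    · apply tri_gt hp <;> simp only
      · have := mul_pos hq1 hk2; linarith
      · have := mul_pos hq1 hk4; linarith
      · have := mul_pos hq hk5; linarith
      · left; have := mul_pos hq1 hk2; linarith
    · apply tri_gt hp <;> simp only
      · have := mul_pos hr hk2; linarith
      · have := mul_pos hr hk4; linarith
      · have := mul_pos hr hk5; linarith
      · left; have := mul_pos hr hk2; linarith
    · apply tri_le hp <;> simp only <;> linarith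
    · apply tri_le hp <;> simp only <;> linarith
    · apply tri_le hp <;> simp only <;> linarith
    · apply tri_gt hp <;> simp only
      · linarith
      · linarith
      · linarith
      · right; right; linarith
  · rw [Set.disjoint_left]
    rintro _ ⟨p, hp, rfl⟩ ⟨p', hp', he⟩
    have h1 : 0 < 1 * (tmap (k1, 0) (k2, k2) (k4, k4) p).1 + (-1) * (tmap (k1, 0) (k2, k2) (k4, k4) p).2 := by
      apply tri_gt hp <;> simp only
      · linarith
      · linarith
      · linarith
      · left; linarith
    have h2 : 0 < (-1) * (tmap (k2, k2) (k4, k4) (2 * k5, 3 * k5) p').1 +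
        1 * (tmap (k2, k2) (k4, k4) (2 * k5, 3 * k5) p').2 := by
      apply tri_gt hp' <;> simp only
      · linarith
      · linarith
      · linarith
      · right; right; linarith
    rw [he] at h2
    linarith
  · rw [e3]; positivity
  · rw [e1, e2, e3, abs_neg, abs_of_pos (by positivity), abs_of_pos (by positivity), abs_of_pos (by positivity)]
    -- k1 k3 ≤ 3/4 k4 (k1 + k5)
    have key : k1 * k3 ≤ 3 / 4 * (k4 * (k1 + k5)) := by
      have hpoly : 0 ≤ A ^ 2 - 11 * A * (B + 1) + 21 * A + 18 * (B + 1) + 6 - 12 * (B + 1) ^ 2 := by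
        have : A ^ 2 - 11 * A * (B + 1) + 21 * A + 18 * (B + 1) + 6 - 12 * (B + 1) ^ 2 =
          A ^ 2 + A * (10 - 11 * B) + (B + 1) * (6 - 12 * B) + 6 := by ring
        rw [this]
        have h1 : 0 ≤ A * (10 - 11 * B) := mul_nonneg hA (by linarith)
        have h2 : 0 ≤ (B + 1) * (6 - 12 * B) := mul_nonneg (by linarith) (by linarith)
        positivity
      have hpos : 0 < k1 * k3 * k4 * k5 := by positivity
      -- express everything through k1 k3 k4 k5
      have f1 : k1 * k3 = k1 * k3 * k4 * k5 * ((A + B + 1) * (2 * A + 3 * B + 3)) := by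
        linear_combination (-k1 * k3) * hk4' - (k1 * k3 * ((A + B + 1) * k4)) * hk5'
      have f2 : k4 * (k1 + k5) = k1 * k3 * k4 * k5 * ((A + 2) * (3 * A + 3 * B + 4)) := by
        linear_combination (-(k4 * k1)) * hk3' - (k4 * k1 * ((A + 2) * k3)) * hk5' -
          (k4 * k5) * hk1' - (k4 * k5 * ((A + 1) * k1)) * hk3'
      rw [f1, f2]
      nlinarith
    have h2 := hk2
    nlinarith [mul_le_mul_of_nonneg_left key hk2.le]

/-- cases B3 and B4 -/
lemma caseB34 {A B r q : ℝ} (W : Wedge A B r q) (hq : 0 < 1 + q) (hA : 0 ≤ A) (hB : 0 < B + 1) (h21 : 0 ≤ -1 + B - q * (2 + A))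
    (h : (0 ≤ 1 + A - r * (2 + B) ∧ B ≤ 5 * A + 11) ∨ A + 4 * B ≤ 2) :
    volume (SQ A B r q) ≤ ENNReal.ofReal (3 / 4) * volume (ST A B r q) := by
  have hr := W.r_pos
  obtain ⟨k1, hk1, hk1'⟩ : ∃ k : ℝ, 0 < k ∧ (A + 1) * k = 1 :=
    ⟨1 / (A + 1), by positivity, by field_simp⟩
  obtain ⟨k2, hk2, hk2'⟩ : ∃ k : ℝ, 0 < k ∧ (2 * A + B + 3) * k = 1 :=
    ⟨1 / (2 * A + B + 3), by apply one_div_pos.2; linarith, by apply mul_one_div_cancel; linarith⟩
  obtain ⟨k3, hk3, hk3'⟩ : ∃ k : ℝ, 0 < k ∧ (3 * A + B + 5) * k = 1 :=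
    ⟨1 / (3 * A + B + 5), by apply one_div_pos.2; linarith, by apply mul_one_div_cancel; linarith⟩
  obtain ⟨k4, hk4, hk4'⟩ : ∃ k : ℝ, 0 < k ∧ (A + B + 1) * k = 1 :=
    ⟨1 / (A + B + 1), by apply one_div_pos.2; linarith, by apply mul_one_div_cancel; linarith⟩
  obtain ⟨k5, hk5, hk5'⟩ : ∃ k : ℝ, 0 < k ∧ (A + 2) * k = 1 :=
    ⟨1 / (A + 2), by apply one_div_pos.2; linarith, by apply mul_one_div_cancel; linarith⟩
  have hAk1 : A * k1 = 1 - k1 := by linarith
  have hABk2 : 2 * (A * k2) + B * k2 = 1 - 3 * k2 := by linarith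
  have hABk4 : A * k4 + B * k4 = 1 - k4 := by linarith
  have e21 : ∀ x y : ℝ, (∀ i j : ℤ, ¬ ((i = 0 ∨ i = 1) ∧ (j = 0 ∨ j = 1)) →
      (i : ℝ) + A - r * (j + B) < 0 ∨ (j : ℝ) + B - q * (i + A) < 0 ∨
        1 < (i + A) * x + (j + B) * y) → 1 < (2 + A) * x + (-1 + B) * y := by
    intro x y hall
    have := hall 2 (-1) (by norm_num)
    push_cast at this
    rcases this with h | h | h
    · linarith [W.c00]
    · linarith
    · exact h
  have hT : tmap (k1, 0) (2 * k2, k2) (k4, k4) '' Do ⊆ ST A B r q := by
    rintro _ ⟨p, hp, rfl⟩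
    apply mem_ST _ _ _ _ _ _ hr W.c00 W.c01 W.d00 W.d10 W.x1 W.x2 W.x3 W.x4 W.x5 W.x6
    · right
      apply tri_gt hp <;> simp only
      · linarith
      · linarith
      · linarith
      · right; right; linarith
    · right
      apply tri_gt hp <;> simp only
      · linarith
      · linarith
      · linarith
      · left; linarith
    · right
      apply tri_gt hp <;> simp only
      · linarith
      · linarith
      · linarith
      · right; right; linarith
    · apply tri_gt hp <;> simp only
      · linarith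
      · have := mul_pos hq hk2; linarith
      · have := mul_pos hq hk4; linarith
      · left; linarith
    · apply tri_gt hp <;> simp only
      · have := mul_pos hr hk1; linarith
      · have := mul_pos hr hk2; linarith
      · have := mul_pos hr hk4; linarith
      · right; left; have := mul_pos hr hk2; linarith
    · apply tri_le hp <;> simp only <;> linarith
    · apply tri_le hp <;> simp only <;> linarith
    · apply tri_le hp <;> simp only <;> linarith
    · apply tri_gt hp <;> simp only
      · linarith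
      · linarith
      · linarith
      · right; right; linarith
  have d2 : dt (k1, 0) (2 * k2, k2) (k4, k4) = -(k1 * k2 * k4) := by
    simp only [dt]
    linear_combination (k1 * k4) * hk2' - (k1 * k2) * hk4' - (k2 * k4) * hk1'
  rcases h with ⟨h12, hle⟩ | hle
  · apply compare (P := (k1, 0)) (Q := (2 * k2, k2)) (R := (3 * k3, k3)) _ hT
    · have d1 : dt (k1, 0) (2 * k2, k2) (3 * k3, k3) = k1 * k2 * k3 := by
        simp only [dt]
        linear_combination (k1 * k3) * hk2' - (k1 * k2) * hk3' + (k2 * k3) * hk1'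
      rw [d1, d2, abs_neg, abs_of_pos (by positivity), abs_of_pos (by positivity)]
      have : k3 ≤ 3 / 4 * k4 := by
        have e4 : k3 * (A + B + 1) ≤ 3 / 4 := by
          have : k3 * (A + B + 1) = k3 * (3 / 4 * (3 * A + B + 5)) - k3 * ((5 * A + 11 - B) / 4) := by ring
          rw [this]
          have h5 : 0 ≤ k3 * ((5 * A + 11 - B) / 4) := mul_nonneg hk3.le (by linarith)
          nlinarith
        calc k3 = (k3 * (A + B + 1)) * k4 := by linear_combination -k3 * hk4'
          _ ≤ 3 / 4 * k4 := by gcongr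
      have h12 := mul_pos hk1 hk2
      nlinarith
    · rintro ⟨x, y⟩ ⟨hx, hy, hg, hall⟩
      simp only at hx hy hg hall
      have e21' := e21 x y hall
      have e12 : 1 < (1 + A) * x + (2 + B) * y := by
        have := hall 1 2 (by norm_num)
        push_cast at this
        rcases this with h | h | h
        · linarith
        · have := W.x5; have := W.d00; nlinarith
        · exact h
      refine ⟨((2 * A + B + 3) * ((1 + A) * x + (2 + B) * y - 1), (3 * A + B + 5) * (1 - ((A + 1) * x + (B + 1) * y))),
        ⟨?_, ?_, ?_⟩, ?_⟩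
      · exact mul_nonneg (by linarith) (by linarith)
      · exact mul_nonneg (by linarith) (by linarith)
      · have : 0 ≤ (A + 1) * ((2 + A) * x + (-1 + B) * y - 1) := mul_nonneg (by linarith) (by linarith)
        simp only
        nlinarith
      · simp only [tmap, Prod.mk.injEq]
        constructor
        · linear_combination ((2 + A) * x + (-1 + B) * y - 1) * hk1' + 2 * ((1 + A) * x + (2 + B) * y - 1) * hk2' +
            3 * (1 - ((A + 1) * x + (B + 1) * y)) * hk3'
        · linear_combination ((1 + A) * x + (2 + B) * y - 1) * hk2' + (1 - ((A + 1) * x + (B + 1) * y)) * hk3'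
  · apply compare (P := (k1, 0)) (Q := (2 * k2, k2)) (R := (k5, 0)) _ hT
    · have d1 : dt (k1, 0) (2 * k2, k2) (k5, 0) = k1 * k2 * k5 := by
        simp only [dt]
        linear_combination (k2 * k5) * hk1' - (k1 * k2) * hk5'
      rw [d1, d2, abs_neg, abs_of_pos (by positivity), abs_of_pos (by positivity)]
      have : k5 ≤ 3 / 4 * k4 := by
        have e4 : k5 * (A + B + 1) ≤ 3 / 4 := by
          have : k5 * (A + B + 1) = k5 * (3 / 4 * (A + 2)) - k5 * ((2 - A - 4 * B) / 4) := by ring
          rw [this]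
          have h5 : 0 ≤ k5 * ((2 - A - 4 * B) / 4) := mul_nonneg hk5.le (by linarith)
          nlinarith
        calc k5 = (k5 * (A + B + 1)) * k4 := by linear_combination -k5 * hk4'
          _ ≤ 3 / 4 * k4 := by gcongr
      have h12 := mul_pos hk1 hk2
      nlinarith
    · rintro ⟨x, y⟩ ⟨hx, hy, hg, hall⟩
      simp only at hx hy hg hall
      have e21' := e21 x y hall
      refine ⟨((2 * A + B + 3) * y, (A + 2) * (1 - ((A + 1) * x + (B + 1) * y))), ⟨?_, ?_, ?_⟩, ?_⟩
      · exact mul_nonneg (by linarith) (by linarith)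
      · exact mul_nonneg (by linarith) (by linarith)
      · have : 0 ≤ (A + 1) * ((2 + A) * x + (-1 + B) * y - 1) := mul_nonneg (by linarith) (by linarith)
        simp only
        nlinarith
      · simp only [tmap, Prod.mk.injEq]
        constructor
        · linear_combination ((2 + A) * x + (-1 + B) * y - 1) * hk1' + 2 * y * hk2' +
            (1 - ((A + 1) * x + (B + 1) * y)) * hk5'
        · linear_combination y * hk2'

end Pool.Agent.Helper46.Planar
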