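import Pool.Agent.Helper46.PlanarNorm

open MeasureTheory Set

namespace Pool.Agent.Helper46.Planar

/-- an affine function on `ℤ²` -/
def af (u : ℝ × ℝ × ℝ) (i j : ℤ) : ℝ := u.1 + u.2.1 * i + u.2.2 * j

/-- membership in the unit square -/
def Qm (i j : ℤ) : Prop := (i = 0 ∨ i = 1) ∧ (j = 0 ∨ j = 1)

/-- membership in the unit triangle -/
def Tm (i j : ℤ) : Prop := (i = 0 ∧ j = 0) ∨ (i = 1 ∧ j = 0) ∨ (i = 0 ∧ j = 1)

/-- the region of the square in the fibre -/
def SQab (u v : ℝ × ℝ × ℝ) : Set (ℝ × ℝ) :=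
  {p | (∀ i j, Qm i j → 0 ≤ p.1 * af u i j ∧ 0 ≤ p.2 * af v i j ∧ p.1 * af u i j + p.2 * af v i j ≤ 1) ∧
    (∀ i j, ¬ Qm i j → p.1 * af u i j < 0 ∨ p.2 * af v i j < 0 ∨ 1 < p.1 * af u i j + p.2 * af v i j) ∧
    p.1 * af u 0 1 + p.2 * af v 0 1 < p.1 * af u 1 1 + p.2 * af v 1 1 ∧
    p.1 * af u 1 0 + p.2 * af v 1 0 < p.1 * af u 1 1 + p.2 * af v 1 1}

/-- the region of the triangle in the fibre -/
def STab (u v : ℝ × ℝ × ℝ) : Set (ℝ × ℝ) :=
  {p | (∀ i j, Qm i j → 0 ≤ p.1 * af u i j ∧ 0 ≤ p.2 * af v i j) ∧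
    (∀ i j, Tm i j → p.1 * af u i j + p.2 * af v i j ≤ 1) ∧
    1 < p.1 * af u 1 1 + p.2 * af v 1 1 ∧
    (∀ i j, ¬ Tm i j → p.1 * af u i j < 0 ∨ p.2 * af v i j < 0 ∨ 1 < p.1 * af u i j + p.2 * af v i j)}

def pos : Set (ℝ × ℝ) := {p | 0 < p.1 ∧ 0 < p.2}

/-- the linear map from `(α, β)` to `(σ, τ)` -/
noncomputable def Lm (u v : ℝ × ℝ × ℝ) : ℝ × ℝ →ₗ[ℝ] ℝ × ℝ :=
  Matrix.toLin (Module.Basis.finTwoProd ℝ) (Module.Basis.finTwoProd ℝ) !![u.2.1, v.2.1; u.2.2, v.2.2]

lemma Lm_apply (u v : ℝ × ℝ × ℝ) (p : ℝ × ℝ) :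
    Lm u v p = (u.2.1 * p.1 + v.2.1 * p.2, u.2.2 * p.1 + v.2.2 * p.2) := by
  rw [Lm, Matrix.toLin_finTwoProd_apply]

lemma Lm_det (u v : ℝ × ℝ × ℝ) : LinearMap.det (Lm u v) = u.2.1 * v.2.2 - v.2.1 * u.2.2 := by
  rw [Lm, LinearMap.det_toLin, Matrix.det_fin_two_of]

/-- comparison through the map `Lm` -/
lemma through {u v : ℝ × ℝ × ℝ} (hD : u.2.1 * v.2.2 - v.2.1 * u.2.2 ≠ 0) {S S' T T' : Set (ℝ × ℝ)}
    (h1 : S ⊆ Lm u v ⁻¹' T) (h2 : Lm u v ⁻¹' T' ⊆ S') (h : volume T ≤ ENNReal.ofReal (3 / 4) * volume T') :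
    volume S ≤ ENNReal.ofReal (3 / 4) * volume S' := by
  have hd : LinearMap.det (Lm u v) ≠ 0 := by rwa [Lm_det]
  calc volume S ≤ volume (Lm u v ⁻¹' T) := measure_mono h1
    _ = ENNReal.ofReal |(LinearMap.det (Lm u v))⁻¹| * volume T := Measure.addHaar_preimage_linearMap _ hd _
    _ ≤ ENNReal.ofReal |(LinearMap.det (Lm u v))⁻¹| * (ENNReal.ofReal (3 / 4) * volume T') := by gcongr
    _ = ENNReal.ofReal (3 / 4) * (ENNReal.ofReal |(LinearMap.det (Lm u v))⁻¹| * volume T') := by ring
    _ = ENNReal.ofReal (3 / 4) * volume (Lm u v ⁻¹' T') := by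
        rw [Measure.addHaar_preimage_linearMap _ hd]
    _ ≤ _ := by gcongr

lemma Wedge.D_pos {A B r q : ℝ} (W : Wedge A B r q) : 0 < 1 - q * r := by
  rcases lt_or_ge 0 q with hq | hq
  · exact (W.facts_pos hq).2.2.1
  · have := mul_nonpos_of_nonpos_of_nonneg hq W.r_pos.le
    linarith

/-- main case -/
lemma case1 {u v : ℝ × ℝ × ℝ} (hD : u.2.1 * v.2.2 - v.2.1 * u.2.2 ≠ 0) {p0 : ℝ × ℝ}
    (hp0 : p0 ∈ SQab u v ∩ pos) (h1 : af u (-1) 1 < 0) (h2 : af u 0 2 < 0) :
    volume (SQab u v ∩ pos) ≤ ENNReal.ofReal (3 / 4) * volume (STab u v ∩ pos) := by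
  obtain ⟨⟨q1, q2, q3, q4⟩, p1, p2⟩ := hp0
  -- signs of the coefficients
  have n00 := q1 0 0 (by simp [Qm])
  have n01 := q1 0 1 (by simp [Qm])
  have n10 := q1 1 0 (by simp [Qm])
  have n11 := q1 1 1 (by simp [Qm])
  have un : ∀ {x : ℝ}, 0 ≤ p0.1 * x → 0 ≤ x := fun h => nonneg_of_mul_nonneg_right h p1
  have vn : ∀ {x : ℝ}, 0 ≤ p0.2 * x → 0 ≤ x := fun h => nonneg_of_mul_nonneg_right h p2
  have ulem : ∀ i j, p0.1 * af u i j < 0 → af u i j < 0 := fun i j h => by
    by_contra hc; push Not at hc; have := mul_nonneg p1.le hc; linarith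
  have vlem : ∀ i j, p0.2 * af v i j < 0 → af v i j < 0 := fun i j h => by
    by_contra hc; push Not at hc; have := mul_nonneg p2.le hc; linarith
  have u00 := un n00.1
  have u01 := un n01.1
  have u10 := un n10.1
  have u11 := un n11.1
  have v00 := vn n00.2.1
  have v01 := vn n01.2.1
  have v10 := vn n10.2.1
  have v11 := vn n11.2.1
  have hg10 := n10.2.2
  have hg01 := n01.2.2
  have hg11 := n11.2.2
  -- excluded points
  have ex1 : af v 1 (-1) < 0 := by
    rcases q2 1 (-1) (by simp [Qm]) with h | h | h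
    · have := ulem _ _ h
      simp only [af] at *; push_cast at *; linarith
    · exact vlem _ _ h
    · simp only [af] at *; push_cast at *; linarith
  have exm : ∀ i j : ℤ, ¬ Qm i j → p0.1 * af u i j + p0.2 * af v i j ≤ 1 → af u i j < 0 ∨ af v i j < 0 := by
    intro i j hij hle
    rcases q2 i j hij with h | h | h
    · left; exact ulem _ _ h
    · right; exact vlem _ _ h
    · linarith
  have ex2 := exm (-1) 0 (by simp [Qm]) (by simp only [af] at *; push_cast at *; linarith)
  have ex3 := exm 0 (-1) (by simp [Qm]) (by simp only [af] at *; push_cast at *; linarith)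
  have ex4 := exm (-1) (-1) (by simp [Qm]) (by simp only [af] at *; push_cast at *; linarith)
  obtain ⟨u0, a1, b1⟩ := u
  obtain ⟨v0, a2, b2⟩ := v
  simp only [af] at *
  push_cast at *
  have ha1 : 0 < a1 := by linarith
  have hb2 : 0 < b2 := by linarith
  set D := a1 * b2 - a2 * b1 with hDdef
  obtain ⟨A, hA⟩ : ∃ A, A = (u0 * b2 - v0 * b1) / D := ⟨_, rfl⟩
  obtain ⟨B, hB⟩ : ∃ B, B = (a1 * v0 - a2 * u0) / D := ⟨_, rfl⟩
  obtain ⟨r, hr⟩ : ∃ r, r = -b1 / a1 := ⟨_, rfl⟩
  obtain ⟨q, hq⟩ : ∃ q, q = -a2 / b2 := ⟨_, rfl⟩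
  have hAD : A * D = u0 * b2 - v0 * b1 := by rw [hA]; field_simp
  have hBD : B * D = a1 * v0 - a2 * u0 := by rw [hB]; field_simp
  have hr' : b1 = -(a1 * r) := by rw [hr]; field_simp
  have hq' : a2 = -(b2 * q) := by rw [hq]; field_simp
  have hu0 : u0 = a1 * A + b1 * B := by
    have : (a1 * A + b1 * B - u0) * D = 0 := by
      have : (a1 * A + b1 * B - u0) * D = a1 * (A * D) + b1 * (B * D) - u0 * D := by ring
      rw [this, hAD, hBD, hDdef]; ring
    rcases mul_eq_zero.mp this with h | h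
    · linarith
    · exact absurd h hD
  have hv0 : v0 = a2 * A + b2 * B := by
    have : (a2 * A + b2 * B - v0) * D = 0 := by
      have : (a2 * A + b2 * B - v0) * D = a2 * (A * D) + b2 * (B * D) - v0 * D := by ring
      rw [this, hAD, hBD, hDdef]; ring
    rcases mul_eq_zero.mp this with h | h
    · linarith
    · exact absurd h hD
  have fu : ∀ i j : ℝ, u0 + a1 * i + b1 * j = a1 * (i + A - r * (j + B)) := by
    intro i j; rw [hu0, hr']; ring
  have fv : ∀ i j : ℝ, v0 + a2 * i + b2 * j = b2 * (j + B - q * (i + A)) := by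
    intro i j; rw [hv0, hq']; ring
  have su : ∀ i j : ℝ, u0 + a1 * i + b1 * j < 0 ↔ i + A - r * (j + B) < 0 := by
    intro i j; rw [fu]
    refine ⟨fun h => ?_, fun h => mul_neg_of_pos_of_neg ha1 h⟩
    by_contra hc; push Not at hc; have := mul_nonneg ha1.le hc; linarith
  have sv : ∀ i j : ℝ, v0 + a2 * i + b2 * j < 0 ↔ j + B - q * (i + A) < 0 := by
    intro i j; rw [fv]
    refine ⟨fun h => ?_, fun h => mul_neg_of_pos_of_neg hb2 h⟩
    by_contra hc; push Not at hc; have := mul_nonneg hb2.le hc; linarith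
  have su' : ∀ i j : ℝ, 0 ≤ u0 + a1 * i + b1 * j ↔ 0 ≤ i + A - r * (j + B) := by
    intro i j; rw [fu]; exact mul_nonneg_iff_of_pos_left ha1
  have sv' : ∀ i j : ℝ, 0 ≤ v0 + a2 * i + b2 * j ↔ 0 ≤ j + B - q * (i + A) := by
    intro i j; rw [fv]; exact mul_nonneg_iff_of_pos_left hb2
  have W : Wedge A B r q := by
    have k00 := (su' 0 0).1 (by linarith)
    have k01 := (su' 0 1).1 (by linarith)
    have l00 := (sv' 0 0).1 (by linarith)
    have l10 := (sv' 1 0).1 (by linarith)
    have m1 := (su (-1) 1).1 (by linarith)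
    have m2 := (sv 1 (-1)).1 (by linarith)
    have m3 := (su 0 2).1 (by linarith)
    have m4 : -1 + A - r * (0 + B) < 0 ∨ 0 + B - q * (-1 + A) < 0 := by
      rcases ex2 with h | h
      · left; exact (su (-1) 0).1 (by linarith)
      · right; exact (sv (-1) 0).1 (by linarith)
    have m5 : 0 + A - r * (-1 + B) < 0 ∨ -1 + B - q * (0 + A) < 0 := by
      rcases ex3 with h | h
      · left; exact (su 0 (-1)).1 (by linarith)
      · right; exact (sv 0 (-1)).1 (by linarith)
    have m6 : -1 + A - r * (-1 + B) < 0 ∨ -1 + B - q * (-1 + A) < 0 := by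
      rcases ex4 with h | h
      · left; exact (su (-1) (-1)).1 (by linarith)
      · right; exact (sv (-1) (-1)).1 (by linarith)
    have hrpos : 0 < r := by linarith
    exact ⟨by linarith, by linarith, by linarith, by linarith, by linarith, by linarith, by linarith,
      by rcases m4 with h | h
         · left; linarith
         · right; linarith,
      by rcases m5 with h | h
         · linarith
         · linarith, m6⟩
  have hDpos : 0 < D := by
    have : D = a1 * b2 * (1 - q * r) := by rw [hDdef, hr', hq']; ring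
    rw [this]
    exact mul_pos (mul_pos ha1 hb2) W.D_pos
  have hrpos := W.r_pos
  apply through (u := (u0, a1, b1)) (v := (v0, a2, b2)) hD (T := SQ A B r q) (T' := ST A B r q) _ _ (planarN W)
  · rintro ⟨x, y⟩ ⟨⟨s1, s2, s3, s4⟩, t1, t2⟩
    rw [Set.mem_preimage, Lm_apply]
    simp only [af] at s1 s2 s3 s4 t1 t2
    push_cast at s3 s4
    refine ⟨?_, ?_, ?_, ?_⟩
    · simp only; linarith
    · simp only; linarith
    · have := (s1 1 1 (by simp [Qm])).2.2
      push_cast at this
      rw [hu0, hv0] at this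
      simp only
      linarith
    · intro i j hij
      have h3 := s2 i j hij
      rcases h3 with h | h | h
      · left
        apply (su i j).1
        by_contra hc; push Not at hc; have := mul_nonneg t1.le hc; linarith
      · right; left
        apply (sv i j).1
        by_contra hc; push Not at hc; have := mul_nonneg t2.le hc; linarith
      · right; right
        rw [hu0, hv0] at h
        simp only
        linarith
  · rintro ⟨x, y⟩ hxy
    rw [Set.mem_preimage, Lm_apply] at hxy
    obtain ⟨s1, s2, s3, s4, s5, s6, s7⟩ := hxy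
    simp only at s1 s2 s3 s4 s5 s6 s7
    have hx : 0 < x := by
      have : 1 * (a1 * x + a2 * y) + q * (b1 * x + b2 * y) = x * (D / b2) := by
        rw [hq, hDdef]; field_simp; ring
      rw [this] at s1
      exact (mul_pos_iff_of_pos_right (div_pos hDpos hb2)).1 s1
    have hy : 0 < y := by
      have : r * (a1 * x + a2 * y) + 1 * (b1 * x + b2 * y) = y * (D / a1) := by
        rw [hr, hDdef]; field_simp; ring
      rw [this] at s2
      exact (mul_pos_iff_of_pos_right (div_pos hDpos ha1)).1 s2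
    refine ⟨⟨?_, ?_, ?_, ?_⟩, hx, hy⟩
    · intro i j hij
      obtain ⟨hi, hj⟩ := hij
      simp only [af]
      rcases hi with rfl | rfl <;> rcases hj with rfl | rfl <;> push_cast <;> constructor <;>
        apply mul_nonneg <;> linarith
    · intro i j hij
      simp only [af]
      rcases hij with ⟨rfl, rfl⟩ | ⟨rfl, rfl⟩ | ⟨rfl, rfl⟩ <;> push_cast <;> rw [hu0, hv0] <;> linarith
    · simp only [af]; push_cast; rw [hu0, hv0]; linarith
    · intro i j hij
      simp only [Tm, not_or] at hij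
      simp only [af]
      rcases s7 i j hij.1 hij.2.1 hij.2.2 with h | h | h
      · left; exact mul_neg_of_pos_of_neg hx ((su i j).2 h)
      · right; left; exact mul_neg_of_pos_of_neg hy ((sv i j).2 h)
      · right; right; rw [hu0, hv0]; linarith

lemma Qm_swap (i j : ℤ) : Qm i j ↔ Qm j i := by simp only [Qm]; tauto
lemma Tm_swap (i j : ℤ) : Tm i j ↔ Tm j i := by simp only [Tm]; tauto

/-- exchanging the two coordinates of the lattice -/
def flip (u : ℝ × ℝ × ℝ) : ℝ × ℝ × ℝ := (u.1, u.2.2, u.2.1)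

lemma af_flip (u : ℝ × ℝ × ℝ) (i j : ℤ) : af (flip u) i j = af u j i := by
  simp only [af, flip]; ring

lemma SQab_flip (u v : ℝ × ℝ × ℝ) : SQab (flip u) (flip v) = SQab u v := by
  ext p
  simp only [SQab, Set.mem_ofPred_eq, af_flip]
  constructor
  · rintro ⟨h1, h2, h3, h4⟩
    exact ⟨fun i j h => h1 j i ((Qm_swap i j).1 h), fun i j h => h2 j i (fun h' => h ((Qm_swap i j).2 h')), h4, h3⟩
  · rintro ⟨h1, h2, h3, h4⟩
    exact ⟨fun i j h => h1 j i ((Qm_swap i j).1 h), fun i j h => h2 j i (fun h' => h ((Qm_swap i j).2 h')), h4, h3⟩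

lemma STab_flip (u v : ℝ × ℝ × ℝ) : STab (flip u) (flip v) = STab u v := by
  ext p
  simp only [STab, Set.mem_ofPred_eq, af_flip]
  constructor
  · rintro ⟨h1, h2, h3, h4⟩
    exact ⟨fun i j h => h1 j i ((Qm_swap i j).1 h), fun i j h => h2 j i ((Tm_swap i j).1 h), h3,
      fun i j h => h4 j i (fun h' => h ((Tm_swap i j).2 h'))⟩
  · rintro ⟨h1, h2, h3, h4⟩
    exact ⟨fun i j h => h1 j i ((Qm_swap i j).1 h), fun i j h => h2 j i ((Tm_swap i j).1 h), h3,
      fun i j h => h4 j i (fun h' => h ((Tm_swap i j).2 h'))⟩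

lemma SQab_swap (u v : ℝ × ℝ × ℝ) : SQab u v = Prod.swap ⁻¹' SQab v u := by
  ext p
  simp only [SQab, Set.mem_ofPred_eq, Set.mem_preimage, Prod.fst_swap, Prod.snd_swap]
  constructor
  · rintro ⟨h1, h2, h3, h4⟩
    refine ⟨fun i j h => ?_, fun i j h => ?_, ?_, ?_⟩
    · obtain ⟨a, b, c⟩ := h1 i j h; exact ⟨b, a, by linarith⟩
    · rcases h2 i j h with h | h | h
      · right; left; exact h
      · left; exact h
      · right; right; linarith
    · linarith
    · linarith
  · rintro ⟨h1, h2, h3, h4⟩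
    refine ⟨fun i j h => ?_, fun i j h => ?_, ?_, ?_⟩
    · obtain ⟨a, b, c⟩ := h1 i j h; exact ⟨b, a, by linarith⟩
    · rcases h2 i j h with h | h | h
      · right; left; exact h
      · left; exact h
      · right; right; linarith
    · linarith
    · linarith

lemma STab_swap (u v : ℝ × ℝ × ℝ) : STab u v = Prod.swap ⁻¹' STab v u := by
  ext p
  simp only [STab, Set.mem_ofPred_eq, Set.mem_preimage, Prod.fst_swap, Prod.snd_swap]
  constructor
  · rintro ⟨h1, h2, h3, h4⟩
    refine ⟨fun i j h => (h1 i j h).symm, fun i j h => ?_, ?_, fun i j h => ?_⟩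
    · have := h2 i j h; linarith
    · linarith
    · rcases h4 i j h with h | h | h
      · right; left; exact h
      · left; exact h
      · right; right; linarith
  · rintro ⟨h1, h2, h3, h4⟩
    refine ⟨fun i j h => (h1 i j h).symm, fun i j h => ?_, ?_, fun i j h => ?_⟩
    · have := h2 i j h; linarith
    · linarith
    · rcases h4 i j h with h | h | h
      · right; left; exact h
      · left; exact h
      · right; right; linarith

lemma pos_swap : pos = Prod.swap ⁻¹' pos := by
  ext p; simp only [pos, Set.mem_ofPred_eq, Set.mem_preimage, Prod.fst_swap, Prod.snd_swap]; tauto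

lemma vol_swap (S : Set (ℝ × ℝ)) : volume (Prod.swap ⁻¹' S) = volume S := by
  have : MeasurePreserving (MeasurableEquiv.prodComm : ℝ × ℝ ≃ᵐ ℝ × ℝ) volume volume :=
    Measure.measurePreserving_swap
  exact this.measure_preimage_equiv S

lemma case2 {u v : ℝ × ℝ × ℝ} (hD : u.2.1 * v.2.2 - v.2.1 * u.2.2 ≠ 0) {p0 : ℝ × ℝ}
    (hp0 : p0 ∈ SQab u v ∩ pos) (h1 : af u (-1) 1 < 0) :
    volume (SQab u v ∩ pos) ≤ ENNReal.ofReal (3 / 4) * volume (STab u v ∩ pos) := by
  by_cases h2 : af u 0 2 < 0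
  · exact case1 hD hp0 h1 h2
  · push Not at h2
    have hp0' := hp0
    obtain ⟨⟨q1, q2, q3, q4⟩, p1, p2⟩ := hp0
    have n00 := q1 0 0 (by simp [Qm])
    have n01 := q1 0 1 (by simp [Qm])
    have n10 := q1 1 0 (by simp [Qm])
    have n11 := q1 1 1 (by simp [Qm])
    have un : ∀ {x : ℝ}, 0 ≤ p0.1 * x → 0 ≤ x := fun h => nonneg_of_mul_nonneg_right h p1
    have vn : ∀ {x : ℝ}, 0 ≤ p0.2 * x → 0 ≤ x := fun h => nonneg_of_mul_nonneg_right h p2
    have ulem : ∀ i j, p0.1 * af u i j < 0 → af u i j < 0 := fun i j h => by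
      by_contra hc; push Not at hc; have := mul_nonneg p1.le hc; linarith
    have vlem : ∀ i j, p0.2 * af v i j < 0 → af v i j < 0 := fun i j h => by
      by_contra hc; push Not at hc; have := mul_nonneg p2.le hc; linarith
    have u00 := un n00.1
    have u01 := un n01.1
    have u10 := un n10.1
    have v00 := vn n00.2.1
    have v01 := vn n01.2.1
    have v10 := vn n10.2.1
    have hg11 := n11.2.2
    have ex1 : af v 1 (-1) < 0 := by
      rcases q2 1 (-1) (by simp [Qm]) with h | h | h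
      · have := ulem _ _ h
        simp only [af] at *; push_cast at *; linarith
      · exact vlem _ _ h
      · have := n10.2.2
        simp only [af] at *; push_cast at *; linarith
    -- the point (2,0) is excluded by `v`
    have ex20 : af v 2 0 < 0 := by
      have g02 : 1 < p0.1 * af u 0 2 + p0.2 * af v 0 2 := by
        rcases q2 0 2 (by simp [Qm]) with h | h | h
        · have := ulem _ _ h; linarith
        · have := vlem _ _ h
          simp only [af] at *; push_cast at *; linarith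
        · exact h
      rcases q2 2 0 (by simp [Qm]) with h | h | h
      · have := ulem _ _ h
        simp only [af] at *; push_cast at *; linarith
      · exact vlem _ _ h
      · simp only [af] at *; push_cast at *; linarith
    -- apply `case1` to the flipped data
    have hflip : SQab u v = Prod.swap ⁻¹' SQab (flip v) (flip u) := by
      rw [SQab_flip, ← SQab_swap]
    have hflip' : STab u v = Prod.swap ⁻¹' STab (flip v) (flip u) := by
      rw [STab_flip, ← STab_swap]
    have e1 : volume (SQab u v ∩ pos) = volume (SQab (flip v) (flip u) ∩ pos) := by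
      rw [hflip]
      conv_lhs => rw [pos_swap, ← Set.preimage_inter]
      exact vol_swap _
    have e2 : volume (STab u v ∩ pos) = volume (STab (flip v) (flip u) ∩ pos) := by
      rw [hflip']
      conv_lhs => rw [pos_swap, ← Set.preimage_inter]
      exact vol_swap _
    rw [e1, e2]
    apply case1 (p0 := p0.swap)
    · intro h
      apply hD
      simp only [flip] at h
      linarith
    · rw [hflip] at hp0'
      exact ⟨hp0'.1, p2, p1⟩
    · rw [af_flip]; exact ex1
    · rw [af_flip]; exact ex20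

lemma quadrant {u v : ℝ × ℝ × ℝ} (hD : u.2.1 * v.2.2 - v.2.1 * u.2.2 ≠ 0) :
    volume (SQab u v ∩ pos) ≤ ENNReal.ofReal (3 / 4) * volume (STab u v ∩ pos) := by
  rcases (SQab u v ∩ pos).eq_empty_or_nonempty with h | ⟨p0, hp0⟩
  · rw [h]; simp
  · by_cases h1 : af u (-1) 1 < 0
    · exact case2 hD hp0 h1
    · have h2 : af v (-1) 1 < 0 := by
        obtain ⟨⟨q1, q2, q3, q4⟩, p1, p2⟩ := hp0
        have n01 := q1 0 1 (by simp [Qm])
        rcases q2 (-1) 1 (by simp [Qm]) with h | h | h
        · exfalso; apply h1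
          by_contra hc; push Not at hc; have := mul_nonneg p1.le hc; linarith
        · by_contra hc; push Not at hc; have := mul_nonneg p2.le hc; linarith
        · have := n01.2.2
          simp only [af] at *; push_cast at *; linarith
      have e1 : volume (SQab u v ∩ pos) = volume (SQab v u ∩ pos) := by
        rw [SQab_swap]
        conv_lhs => rw [pos_swap, ← Set.preimage_inter]
        exact vol_swap _
      have e2 : volume (STab u v ∩ pos) = volume (STab v u ∩ pos) := by
        rw [STab_swap]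
        conv_lhs => rw [pos_swap, ← Set.preimage_inter]
        exact vol_swap _
      rw [e1, e2]
      apply case2 (p0 := p0.swap) _ _ h2
      · intro h; apply hD; linarith
      · rw [SQab_swap] at hp0
        exact ⟨hp0.1, hp0.2.2, hp0.2.1⟩

/-! ### The four quadrants -/

/-- multiplication of the coordinates by signs -/
def sg (a b : ℝ) (p : ℝ × ℝ) : ℝ × ℝ := (a * p.1, b * p.2)

lemma vol_sg {a b : ℝ} (ha : a = 1 ∨ a = -1) (hb : b = 1 ∨ b = -1) (S : Set (ℝ × ℝ)) :
    volume (sg a b ⁻¹' S) = volume S := by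
  let L : ℝ × ℝ →ₗ[ℝ] ℝ × ℝ := Matrix.toLin (Module.Basis.finTwoProd ℝ) (Module.Basis.finTwoProd ℝ) !![a, 0; 0, b]
  have hL : sg a b = L := by
    funext p; simp only [L, Matrix.toLin_finTwoProd_apply, sg]; simp
  have hdet : LinearMap.det L = a * b := by
    rw [LinearMap.det_toLin, Matrix.det_fin_two_of]; ring
  have hab : |a * b| = 1 := by
    rcases ha with rfl | rfl <;> rcases hb with rfl | rfl <;> norm_num
  have hne : LinearMap.det L ≠ 0 := by
    rw [hdet]; intro h; rw [h] at hab; norm_num at hab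
  rw [hL, Measure.addHaar_preimage_linearMap _ hne, hdet, abs_inv, hab]
  simp

lemma af_smul (a : ℝ) (u : ℝ × ℝ × ℝ) (i j : ℤ) : af (a * u.1, a * u.2.1, a * u.2.2) i j = a * af u i j := by
  simp only [af]; ring

lemma quadrant_sg {u v : ℝ × ℝ × ℝ} (hD : u.2.1 * v.2.2 - v.2.1 * u.2.2 ≠ 0) {a b : ℝ}
    (ha : a = 1 ∨ a = -1) (hb : b = 1 ∨ b = -1) :
    volume (SQab u v ∩ sg a b ⁻¹' pos) ≤ ENNReal.ofReal (3 / 4) * volume (STab u v ∩ sg a b ⁻¹' pos) := by
  have haa : a * a = 1 := by rcases ha with rfl | rfl <;> norm_num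
  have hbb : b * b = 1 := by rcases hb with rfl | rfl <;> norm_num
  have hcoef : ∀ x : ℝ, ∀ i j, a * x * (a * af u i j) = x * af u i j := by
    intro x i j
    linear_combination (x * af u i j) * haa
  have hcoef' : ∀ x : ℝ, ∀ i j, b * x * (b * af v i j) = x * af v i j := by
    intro x i j
    linear_combination (x * af v i j) * hbb
  have e1 : SQab u v = sg a b ⁻¹' SQab (a * u.1, a * u.2.1, a * u.2.2) (b * v.1, b * v.2.1, b * v.2.2) := by
    ext p
    simp only [SQab, Set.mem_ofPred_eq, Set.mem_preimage, sg, af_smul, hcoef, hcoef']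
  have e2 : STab u v = sg a b ⁻¹' STab (a * u.1, a * u.2.1, a * u.2.2) (b * v.1, b * v.2.1, b * v.2.2) := by
    ext p
    simp only [STab, Set.mem_ofPred_eq, Set.mem_preimage, sg, af_smul, hcoef, hcoef']
  rw [e1, e2, ← Set.preimage_inter, ← Set.preimage_inter, vol_sg ha hb, vol_sg ha hb]
  apply quadrant
  simp only
  have : a * u.2.1 * (b * v.2.2) - b * v.2.1 * (a * u.2.2) = a * b * (u.2.1 * v.2.2 - v.2.1 * u.2.2) := by ring
  rw [this]
  apply mul_ne_zero _ hD
  apply mul_ne_zero
  · intro h; rw [h] at haa; norm_num at haa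
  · intro h; rw [h] at hbb; norm_num at hbb

theorem planar {u v : ℝ × ℝ × ℝ} (hD : u.2.1 * v.2.2 - v.2.1 * u.2.2 ≠ 0) :
    volume (SQab u v) ≤ ENNReal.ofReal (3 / 4) * volume (STab u v) := by
  have hnull1 : volume {p : ℝ × ℝ | p.1 = 0} = 0 := by
    have : {p : ℝ × ℝ | p.1 = 0} = {0} ×ˢ Set.univ := by ext p; simp
    rw [this, Measure.volume_eq_prod, Measure.prod_prod]; simp
  have hnull2 : volume {p : ℝ × ℝ | p.2 = 0} = 0 := by
    have : {p : ℝ × ℝ | p.2 = 0} = Set.univ ×ˢ {0} := by ext p; simp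
    rw [this, Measure.volume_eq_prod, Measure.prod_prod]; simp
  have hm1 : MeasurableSet {p : ℝ × ℝ | 0 < p.1} := measurableSet_lt measurable_const measurable_fst
  have hm2 : MeasurableSet {p : ℝ × ℝ | 0 < p.2} := measurableSet_lt measurable_const measurable_snd
  have hm1' : MeasurableSet {p : ℝ × ℝ | p.1 < 0} := measurableSet_lt measurable_fst measurable_const
  have hm2' : MeasurableSet {p : ℝ × ℝ | p.2 < 0} := measurableSet_lt measurable_snd measurable_const
  have key : ∀ S : Set (ℝ × ℝ), volume S = volume (S ∩ sg 1 1 ⁻¹' pos) + volume (S ∩ sg 1 (-1) ⁻¹' pos) +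
      (volume (S ∩ sg (-1) 1 ⁻¹' pos) + volume (S ∩ sg (-1) (-1) ⁻¹' pos)) := by
    intro S
    have h1 : ∀ T : Set (ℝ × ℝ), volume T = volume (T ∩ {p | 0 < p.1}) + volume (T ∩ {p | p.1 < 0}) := by
      intro T
      rw [← measure_inter_add_sdiff T hm1]
      congr 1
      apply le_antisymm
      · calc volume (T \ {p | 0 < p.1}) ≤ volume (T ∩ {p | p.1 < 0} ∪ {p | p.1 = 0}) := by
              apply measure_mono
              rintro p ⟨hp, hp'⟩
              rcases lt_trichotomy p.1 0 with h | h | h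
              · left; exact ⟨hp, h⟩
              · right; exact h
              · exact absurd h hp'
          _ ≤ _ := (measure_union_le _ _).trans (by rw [hnull1, add_zero])
      · apply measure_mono
        rintro p ⟨hp, hp'⟩
        exact ⟨hp, fun h => by have : 0 < p.1 := h; have : p.1 < 0 := hp'; linarith⟩
    have h2 : ∀ T : Set (ℝ × ℝ), volume T = volume (T ∩ {p | 0 < p.2}) + volume (T ∩ {p | p.2 < 0}) := by
      intro T
      rw [← measure_inter_add_sdiff T hm2]
      congr 1
      apply le_antisymm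
      · calc volume (T \ {p | 0 < p.2}) ≤ volume (T ∩ {p | p.2 < 0} ∪ {p | p.2 = 0}) := by
              apply measure_mono
              rintro p ⟨hp, hp'⟩
              rcases lt_trichotomy p.2 0 with h | h | h
              · left; exact ⟨hp, h⟩
              · right; exact h
              · exact absurd h hp'
          _ ≤ _ := (measure_union_le _ _).trans (by rw [hnull2, add_zero])
      · apply measure_mono
        rintro p ⟨hp, hp'⟩
        exact ⟨hp, fun h => by have : 0 < p.2 := h; have : p.2 < 0 := hp'; linarith⟩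
    rw [h1 S, h2 (S ∩ {p | 0 < p.1}), h2 (S ∩ {p | p.1 < 0})]
    congr 1
    · congr 2
      · ext p; simp [sg, pos, and_assoc]
      · ext p; simp [sg, pos, and_assoc]
    · congr 2
      · ext p; simp [sg, pos, and_assoc]
      · ext p; simp [sg, pos, and_assoc]
  rw [key (SQab u v), key (STab u v), mul_add, mul_add, mul_add]
  gcongr
  · exact quadrant_sg hD (Or.inl rfl) (Or.inl rfl)
  · exact quadrant_sg hD (Or.inl rfl) (Or.inr rfl)
  · exact quadrant_sg hD (Or.inr rfl) (Or.inl rfl)
  · exact quadrant_sg hD (Or.inr rfl) (Or.inr rfl)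

end Pool.Agent.Helper46.Planar
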