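import Pool.Agent.Helper46.PlanarCases

open MeasureTheory Set

namespace Pool.Agent.Helper46.Planar

theorem planarN {A B r q : ℝ} (W : Wedge A B r q) :
    volume (SQ A B r q) ≤ ENNReal.ofReal (3 / 4) * volume (ST A B r q) := by
  have hr := W.r_pos
  set e1 := A - r * (1 + B) with he1
  set e2 := B - q * (1 + A) with he2
  have c : 0 ≤ e1 := W.c01
  have d : 0 ≤ e2 := W.d10
  have c' : e1 < 1 := by have := W.x1; linarith
  have d' : e2 < 1 := by have := W.x2; linarith
  have hre : e1 < r := by have := W.x3; linarith
  have hB' : (1 - q * r) * B = e2 + q * (1 + e1 + r) := by rw [he1, he2]; ring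
  have hA' : (1 - q * r) * A = e1 + r * (1 + e2 + q) := by rw [he1, he2]; ring
  rcases lt_or_ge 0 q with hq | hq
  · obtain ⟨h1, h2, hD, hA, hB⟩ := W.facts_pos hq
    rcases lt_or_ge (B - q * (2 + A)) 0 with h20 | h20
    · exact caseC1 W hq h20
    · apply caseG W (by linarith) hA (by linarith) (by linarith) _ h20 (by linarith) (by linarith) (by linarith)
      have hq2 : q < 1 / 2 := by linarith
      have hr1 : r < 1 := by linarith
      have hqr : q * r < 1 / 2 := by nlinarith
      have h3 : (1 - q * r) * B ≤ 3 / 2 := by
        rw [hB']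
        nlinarith [mul_nonneg hq.le (show 0 ≤ 1 - e1 - r by linarith)]
      nlinarith [mul_nonneg (show 0 ≤ 1 / 2 - q * r by linarith) hB]
  · have hqr : q * r ≤ 0 := mul_nonpos_of_nonpos_of_nonneg hq hr.le
    have hD : 0 < 1 - q * r := by linarith
    have hq1 : 0 < 1 + q := by have := W.d00; linarith
    have hqe : 0 ≤ e2 + q := by have := W.d00; linarith
    have hA : 0 ≤ A := by
      have : 0 ≤ (1 - q * r) * A := by
        rw [hA']
        have : 0 ≤ r * (1 + e2 + q) := mul_nonneg hr.le (by linarith)
        linarith
      exact nonneg_of_mul_nonneg_right this hD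
    have hB : 0 < B + 1 := by
      have : 0 < (1 - q * r) * (B + 1) := by
        have h3 : (1 - q * r) * (B + 1) = 1 + e2 + q * (1 + e1) := by
          rw [mul_add, hB']; ring
        rw [h3]
        nlinarith [mul_nonneg c (show 0 ≤ 1 + q by linarith), mul_nonneg c (show (0:ℝ) ≤ 1 by norm_num)]
      exact (mul_pos_iff_of_pos_left hD).mp this
    have hB1 : B < 1 := by
      by_contra hcon
      push Not at hcon
      have h3 : (1 - q * r) * B ≤ e2 := by
        rw [hB']
        have : q * (1 + e1 + r) ≤ 0 := mul_nonpos_of_nonpos_of_nonneg hq (by linarith)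
        linarith
      nlinarith
    have h20 : 0 ≤ B - q * (2 + A) := by linarith
    rcases lt_or_ge (-1 + B - q * (2 + A)) 0 with h21 | h21
    · rcases lt_or_ge (1 + A - r * (2 + B)) 0 with h12 | h12
      · have hr1 : 1 + e1 < r := by linarith
        have he : e2 + 2 * q < 0 := by
          rcases W.x4 with h | h
          · linarith
          · linarith
        apply caseB2 W (by linarith) hA hB _ (by linarith) h20 h21
        by_contra hcon
        push Not at hcon
        have h3 : (1 - q * r) * B ≤ 0 := by
          rw [hB']
          have : q * (e1 + r - 1) ≤ 0 := mul_nonpos_of_nonpos_of_nonneg hq (by linarith)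
          linarith
        have := mul_pos hD hcon
        linarith
      · exact caseG W hq1 hA hB (by linarith) (by linarith) h20 h12 (by linarith) h21
    · apply caseB34 W hq1 hA hB h21
      rcases lt_or_ge (1 + A - r * (2 + B)) 0 with h12 | h12
      · right
        have hr1 : 1 + e1 < r := by linarith
        have he : e2 + 2 * q < 0 := by
          rcases W.x4 with h | h
          · linarith
          · linarith
        have hq3 : q < -1 / 3 := by linarith
        have h3 : (1 - q * r) * (A + 4 * B) ≤ 2 * (1 - q * r) := by
          rw [mul_add, hA', show (1 - q * r) * (4 * B) = 4 * ((1 - q * r) * B) by ring, hB']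
          have h4 : (r - 1) * (1 + e2 + 7 * q) ≤ 0 := mul_nonpos_of_nonneg_of_nonpos (by linarith) (by linarith)
          have h5 : e1 * (1 + 4 * q) ≤ 0 := mul_nonpos_of_nonneg_of_nonpos c (by linarith)
          nlinarith
        exact le_of_mul_le_mul_left (by linarith) hD
      · left
        exact ⟨h12, by linarith⟩

end Pool.Agent.Helper46.Planar
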