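import Mathlib

open MeasureTheory Set

namespace Pool.Agent.Helper46.Planar

/-- closed and open standard triangles -/
def Dc : Set (ℝ × ℝ) := {p | 0 ≤ p.1 ∧ 0 ≤ p.2 ∧ p.1 + p.2 ≤ 1}
def Do : Set (ℝ × ℝ) := {p | 0 < p.1 ∧ 0 < p.2 ∧ p.1 + p.2 < 1}

lemma Do_convex : Convex ℝ Do := by
  rintro ⟨x1, x2⟩ ⟨h1, h2, h3⟩ ⟨y1, y2⟩ ⟨k1, k2, k3⟩ a b ha hb hab
  simp only at h1 h2 h3 k1 k2 k3
  refine ⟨?_, ?_, ?_⟩ <;> simp only [Prod.smul_mk, smul_eq_mul, Prod.mk_add_mk]
  · rcases ha.eq_or_lt with h | h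
    · subst h; rw [zero_add] at hab; subst hab; simpa using k1
    · have := mul_pos h h1; have := mul_nonneg hb k1.le; linarith
  · rcases ha.eq_or_lt with h | h
    · subst h; rw [zero_add] at hab; subst hab; simpa using k2
    · have := mul_pos h h2; have := mul_nonneg hb k2.le; linarith
  · rcases ha.eq_or_lt with h | h
    · subst h; rw [zero_add] at hab; subst hab; simpa using k3
    · have := mul_pos h (sub_pos.2 h3); have := mul_nonneg hb (sub_nonneg.2 k3.le); nlinarith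

lemma Do_open : IsOpen Do :=
  (isOpen_lt continuous_const continuous_fst).inter
    ((isOpen_lt continuous_const continuous_snd).inter
      (isOpen_lt (continuous_fst.add continuous_snd) continuous_const))

lemma Dc_subset : Dc ⊆ closure Do := by
  rintro ⟨x, y⟩ ⟨h1, h2, h3⟩
  simp only at h1 h2 h3
  rw [Metric.mem_closure_iff]
  intro ε hε
  -- move towards the point (1/3,1/3)
  set t := min (ε / 2) (1/2) with ht
  have ht0 : 0 < t := by positivity
  have ht1 : t ≤ ε / 2 := min_le_left _ _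
  have ht2 : t ≤ 1/2 := min_le_right _ _
  refine ⟨((1 - t) * x + t * (1/3), (1 - t) * y + t * (1/3)), ⟨?_, ?_, ?_⟩, ?_⟩
  · simp only; nlinarith [mul_nonneg (show 0 ≤ 1 - t by linarith) h1]
  · simp only; nlinarith [mul_nonneg (show 0 ≤ 1 - t by linarith) h2]
  · simp only; nlinarith [mul_nonneg (show 0 ≤ 1 - t by linarith) (sub_nonneg.2 h3)]
  · rw [Prod.dist_eq, max_lt_iff]
    simp only [Real.dist_eq]
    constructor
    · rw [abs_lt]; constructor <;> nlinarith
    · rw [abs_lt]; constructor <;> nlinarith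

lemma vol_Dc_le : volume Dc ≤ volume Do := by
  calc volume Dc ≤ volume (closure Do) := measure_mono Dc_subset
    _ ≤ volume (Do ∪ frontier Do) := by
        apply measure_mono
        rw [closure_eq_interior_union_frontier, Do_open.interior_eq]
    _ ≤ volume Do + volume (frontier Do) := measure_union_le _ _
    _ = volume Do := by rw [Do_convex.addHaar_frontier volume, add_zero]

lemma vol_Do_lt_top : volume Do < ⊤ := by
  have : Do ⊆ Icc 0 1 ×ˢ Icc 0 1 := by
    rintro ⟨x, y⟩ ⟨h1, h2, h3⟩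
    simp only at h1 h2 h3
    exact ⟨⟨h1.le, by simp only; linarith⟩, ⟨h2.le, by simp only; linarith⟩⟩
  refine (measure_mono this).trans_lt ?_
  rw [Measure.volume_eq_prod, Measure.prod_prod]
  simp

lemma vol_Do_pos : 0 < volume Do := Do_open.measure_pos volume ⟨(1/3, 1/3), by norm_num [Do]⟩

/-- affine parametrisation of the triangle `P Q R` -/
def tmap (P Q R : ℝ × ℝ) (p : ℝ × ℝ) : ℝ × ℝ :=
  (P.1 + p.1 * (Q.1 - P.1) + p.2 * (R.1 - P.1), P.2 + p.1 * (Q.2 - P.2) + p.2 * (R.2 - P.2))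

/-- twice the signed area of the triangle `P Q R` -/
def dt (P Q R : ℝ × ℝ) : ℝ := (Q.1 - P.1) * (R.2 - P.2) - (Q.2 - P.2) * (R.1 - P.1)

lemma vol_tmap (P Q R : ℝ × ℝ) (S : Set (ℝ × ℝ)) :
    volume (tmap P Q R '' S) = ENNReal.ofReal |dt P Q R| * volume S := by
  let L : ℝ × ℝ →ₗ[ℝ] ℝ × ℝ := Matrix.toLin (Module.Basis.finTwoProd ℝ) (Module.Basis.finTwoProd ℝ)
    !![Q.1 - P.1, R.1 - P.1; Q.2 - P.2, R.2 - P.2]
  have hL : ∀ p, tmap P Q R p = P + L p := by
    intro p
    simp only [tmap, L, Matrix.toLin_finTwoProd_apply]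
    ext <;> simp <;> ring
  have hdet : LinearMap.det L = dt P Q R := by
    rw [LinearMap.det_toLin, Matrix.det_fin_two_of, dt]; ring
  have : tmap P Q R '' S = (fun x => P + x) '' (L '' S) := by
    rw [Set.image_image]; simp only [hL]
  rw [this, Set.image_add_left, measure_preimage_add, Measure.addHaar_image_linearMap, hdet]

lemma compare {SQ ST : Set (ℝ × ℝ)} {P Q R P' Q' R' : ℝ × ℝ} (h1 : SQ ⊆ tmap P Q R '' Dc)
    (h2 : tmap P' Q' R' '' Do ⊆ ST) (h3 : |dt P Q R| ≤ 3 / 4 * |dt P' Q' R'|) :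
    volume SQ ≤ ENNReal.ofReal (3 / 4) * volume ST := by
  calc volume SQ ≤ volume (tmap P Q R '' Dc) := measure_mono h1
    _ = ENNReal.ofReal |dt P Q R| * volume Dc := vol_tmap ..
    _ ≤ ENNReal.ofReal (3 / 4 * |dt P' Q' R'|) * volume Do := by
        exact mul_le_mul' (ENNReal.ofReal_le_ofReal h3) vol_Dc_le
    _ = ENNReal.ofReal (3 / 4) * (ENNReal.ofReal |dt P' Q' R'| * volume Do) := by
        rw [ENNReal.ofReal_mul (by norm_num), mul_assoc]
    _ = ENNReal.ofReal (3 / 4) * volume (tmap P' Q' R' '' Do) := by rw [vol_tmap]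
    _ ≤ _ := by gcongr

lemma compare2 {SQ ST : Set (ℝ × ℝ)} {P Q R P' Q' R' P'' Q'' R'' : ℝ × ℝ} (h1 : SQ ⊆ tmap P Q R '' Dc)
    (h2 : tmap P' Q' R' '' Do ⊆ ST) (h2' : tmap P'' Q'' R'' '' Do ⊆ ST)
    (hdis : Disjoint (tmap P' Q' R' '' Do) (tmap P'' Q'' R'' '' Do))
    (hne : dt P'' Q'' R'' ≠ 0)
    (h3 : |dt P Q R| ≤ 3 / 4 * (|dt P' Q' R'| + |dt P'' Q'' R''|)) :
    volume SQ ≤ ENNReal.ofReal (3 / 4) * volume ST := by
  have hmeas : MeasurableSet (tmap P'' Q'' R'' '' Do) := by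
    -- the image of an open set under an affine isomorphism is open
    let L : ℝ × ℝ →ₗ[ℝ] ℝ × ℝ := Matrix.toLin (Module.Basis.finTwoProd ℝ) (Module.Basis.finTwoProd ℝ)
      !![Q''.1 - P''.1, R''.1 - P''.1; Q''.2 - P''.2, R''.2 - P''.2]
    have hL : ∀ p, tmap P'' Q'' R'' p = P'' + L p := by
      intro p
      simp only [tmap, L, Matrix.toLin_finTwoProd_apply]
      ext <;> simp <;> ring
    have hdet : LinearMap.det L = dt P'' Q'' R'' := by
      rw [LinearMap.det_toLin, Matrix.det_fin_two_of, dt]; ring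
    have hu : IsUnit (LinearMap.det L) := by rw [hdet]; exact isUnit_iff_ne_zero.mpr hne
    let e := LinearEquiv.ofIsUnitDet (f := L) (v := Module.Basis.finTwoProd ℝ) (v' := Module.Basis.finTwoProd ℝ) (by
      rw [LinearMap.det_toMatrix]; exact hu)
    have he : ∀ p, e p = L p := fun p => rfl
    have : tmap P'' Q'' R'' '' Do = (fun x => P'' + x) '' (e '' Do) := by
      rw [Set.image_image]; simp only [hL, he]
    rw [this]
    apply IsOpen.measurableSet
    apply (Homeomorph.addLeft P'').isOpenMap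
    exact e.toContinuousLinearEquiv.toHomeomorph.isOpenMap _ Do_open
  calc volume SQ ≤ volume (tmap P Q R '' Dc) := measure_mono h1
    _ = ENNReal.ofReal |dt P Q R| * volume Dc := vol_tmap ..
    _ ≤ ENNReal.ofReal (3 / 4 * (|dt P' Q' R'| + |dt P'' Q'' R''|)) * volume Do := by
        exact mul_le_mul' (ENNReal.ofReal_le_ofReal h3) vol_Dc_le
    _ = ENNReal.ofReal (3 / 4) * (ENNReal.ofReal |dt P' Q' R'| * volume Do +
          ENNReal.ofReal |dt P'' Q'' R''| * volume Do) := by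
        rw [ENNReal.ofReal_mul (by norm_num), mul_assoc, ENNReal.ofReal_add (abs_nonneg _) (abs_nonneg _),
          add_mul]
    _ = ENNReal.ofReal (3 / 4) * (volume (tmap P' Q' R' '' Do) + volume (tmap P'' Q'' R'' '' Do)) := by
        rw [vol_tmap, vol_tmap]
    _ = ENNReal.ofReal (3 / 4) * volume (tmap P' Q' R' '' Do ∪ tmap P'' Q'' R'' '' Do) := by
        rw [measure_union hdis hmeas]
    _ ≤ _ := by
        gcongr
        exact Set.union_subset h2 h2'

end Pool.Agent.Helper46.Planar
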