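import Pool.Agent.Helper46.PlanarTri

open MeasureTheory Set

namespace Pool.Agent.Helper46.Planar

/-! ### Lattice points of convex sets containing the unit triangle -/

/-- the excluded predicate: a family of three affine functions, one of which is negative -/
structure Aff where
  c : ℝ
  a : ℝ
  b : ℝ

def Aff.ev (f : Aff) (i j : ℤ) : ℝ := f.c + f.a * i + f.b * j

/-- If three affine functions are nonnegative at `(0,0), (1,0), (0,1)` and at an integer point
`(i,j)` which is not one of these points, then they are nonnegative at one of twelve points. -/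
lemma twelve {K : Set (ℤ × ℤ)} (hK : ∃ F : Set Aff, K = {v | ∀ f ∈ F, 0 ≤ f.ev v.1 v.2})
    (h00 : ((0:ℤ), (0:ℤ)) ∈ K) (h10 : ((1:ℤ), (0:ℤ)) ∈ K) (h01 : ((0:ℤ), (1:ℤ)) ∈ K)
    {i j : ℤ} (hij : (i, j) ∈ K) (hne : ¬ (i = 0 ∧ j = 0) ∧ ¬ (i = 1 ∧ j = 0) ∧ ¬ (i = 0 ∧ j = 1)) :
    ((1:ℤ), (1:ℤ)) ∈ K ∨ ((-1:ℤ), (1:ℤ)) ∈ K ∨ ((1:ℤ), (-1:ℤ)) ∈ K ∨ ((2:ℤ), (0:ℤ)) ∈ K ∨ ((0:ℤ), (2:ℤ)) ∈ K ∨
    ((-1:ℤ), (0:ℤ)) ∈ K ∨ ((0:ℤ), (-1:ℤ)) ∈ K ∨ ((2:ℤ), (-1:ℤ)) ∈ K ∨ ((-1:ℤ), (2:ℤ)) ∈ K ∨
    ((-1:ℤ), (-1:ℤ)) ∈ K ∨ ((3:ℤ), (-1:ℤ)) ∈ K ∨ ((-1:ℤ), (3:ℤ)) ∈ K := by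
  obtain ⟨F, rfl⟩ := hK
  simp only [Set.mem_ofPred_eq, Aff.ev] at *
  -- key: convex combinations
  have key : ∀ (x y m k0 k1 k2 : ℤ), 0 < m → 0 ≤ k0 → 0 ≤ k1 → 0 ≤ k2 → m = 1 + k0 + k1 + k2 →
      m * x = i + k1 → m * y = j + k2 → ∀ f ∈ F, 0 ≤ f.c + f.a * x + f.b * y := by
    intro x y m k0 k1 k2 hm h0 h1 h2 hs hx hy f hf
    have e0 := h00 f hf
    have e1 := h10 f hf
    have e2 := h01 f hf
    have e3 := hij f hf
    have hm' : (0:ℝ) < m := by exact_mod_cast hm
    have h0' : (0:ℝ) ≤ k0 := by exact_mod_cast h0
    have h1' : (0:ℝ) ≤ k1 := by exact_mod_cast h1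
    have h2' : (0:ℝ) ≤ k2 := by exact_mod_cast h2
    have hs' : (m:ℝ) = 1 + k0 + k1 + k2 := by exact_mod_cast hs
    have hx' : (m:ℝ) * x = i + k1 := by exact_mod_cast hx
    have hy' : (m:ℝ) * y = j + k2 := by exact_mod_cast hy
    push_cast at e0 e1 e2
    have : (m:ℝ) * (f.c + f.a * x + f.b * y) = (f.c + f.a * i + f.b * j) + k0 * (f.c + f.a * 0 + f.b * 0)
        + k1 * (f.c + f.a * 1 + f.b * 0) + k2 * (f.c + f.a * 0 + f.b * 1) := by
      have : (m:ℝ) * (f.c + f.a * x + f.b * y) = f.c * m + f.a * (m * x) + f.b * (m * y) := by ring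
      rw [this, hx', hy', hs']; ring
    have h3 : 0 ≤ (m:ℝ) * (f.c + f.a * x + f.b * y) := by
      rw [this]; positivity
    exact nonneg_of_mul_nonneg_right h3 hm'
  obtain ⟨n0, n1, n2⟩ := hne
  rcases lt_trichotomy i 0 with hi | hi | hi
  · -- i < 0
    rcases lt_trichotomy j 0 with hj | hj | hj
    · rcases lt_trichotomy i j with h | h | h
      · right; right; right; right; right; left; exact fun f hf => by simpa using key (-1) (0) (-i) (-i-1+j) (0) (-j) (by omega) (by omega) (by omega) (by omega) (by omega) (by omega) (by omega) f hf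
      · right; right; right; right; right; right; right; right; right; left; exact fun f hf => by simpa using key (-1) (-1) (-i) (-i-1) (0) (0) (by omega) (by omega) (by omega) (by omega) (by omega) (by omega) (by omega) f hf
      · right; right; right; right; right; right; left; exact fun f hf => by simpa using key (0) (-1) (-j) (-j-1+i) (-i) (0) (by omega) (by omega) (by omega) (by omega) (by omega) (by omega) (by omega) f hf
    · right; right; right; right; right; left; exact fun f hf => by simpa using key (-1) (0) (-i) (-i-1) (0) (0) (by omega) (by omega) (by omega) (by omega) (by omega) (by omega) (by omega) f hf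
    · rcases lt_trichotomy (i + j) 1 with h | h | h
      · right; left; exact fun f hf => by simpa using key (-1) (1) (-i) (j-1) (0) (-i-j) (by omega) (by omega) (by omega) (by omega) (by omega) (by omega) (by omega) f hf
      · right; right; right; right; right; right; right; right; left; exact fun f hf => by simpa using key (-1) (2) (-i) (0) (0) (-i-1) (by omega) (by omega) (by omega) (by omega) (by omega) (by omega) (by omega) f hf
      · rcases lt_trichotomy (1 - i - j) i with h' | h' | h'
        · right; right; right; right; left; exact fun f hf => by simpa using key (0) (2) (i+j-1) (0) (-i) (i+j-1-1+i) (by omega) (by omega) (by omega) (by omega) (by omega) (by omega) (by omega) f hf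
        · right; right; right; right; right; right; right; right; right; right; right; exact fun f hf => by simpa using key (-1) (3) (-i) (0) (0) (-i-1) (by omega) (by omega) (by omega) (by omega) (by omega) (by omega) (by omega) f hf
        · right; right; right; right; right; right; right; right; left; exact fun f hf => by simpa using key (-1) (2) (-i) (i+j-1) (0) (-i-1-(i+j-1)) (by omega) (by omega) (by omega) (by omega) (by omega) (by omega) (by omega) f hf
  · -- i = 0
    rcases lt_trichotomy j 0 with hj | hj | hj
    · right; right; right; right; right; right; left; exact fun f hf => by simpa using key (0) (-1) (-j) (-j-1) (0) (0) (by omega) (by omega) (by omega) (by omega) (by omega) (by omega) (by omega) f hf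
    · exact absurd ⟨hi, hj⟩ n0
    · right; right; right; right; left; exact fun f hf => by simpa using key (0) (2) (j-1) (0) (0) (j-2) (by omega) (by omega) (by omega) (by omega) (by omega) (by omega) (by omega) f hf
  · rcases lt_trichotomy j 0 with hj | hj | hj
    · rcases lt_trichotomy (i + j) 1 with h | h | h
      · right; right; left; exact fun f hf => by simpa using key (1) (-1) (-j) (i-1) (-j-i) (0) (by omega) (by omega) (by omega) (by omega) (by omega) (by omega) (by omega) f hf
      · right; right; right; right; right; right; right; left; exact fun f hf => by simpa using key (2) (-1) (-j) (0) (-j-1) (0) (by omega) (by omega) (by omega) (by omega) (by omega) (by omega) (by omega) f hf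
      · rcases lt_trichotomy (1 - i - j) j with h' | h' | h'
        · right; right; right; left; exact fun f hf => by simpa using key (2) (0) (i+j-1) (0) (i+j-1-1+j) (-j) (by omega) (by omega) (by omega) (by omega) (by omega) (by omega) (by omega) f hf
        · right; right; right; right; right; right; right; right; right; right; left; exact fun f hf => by simpa using key (3) (-1) (-j) (0) (-j-1) (0) (by omega) (by omega) (by omega) (by omega) (by omega) (by omega) (by omega) f hf
        · right; right; right; right; right; right; right; left; exact fun f hf => by simpa using key (2) (-1) (-j) (i+j-1) (-j-1-(i+j-1)) (0) (by omega) (by omega) (by omega) (by omega) (by omega) (by omega) (by omega) f hf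
    · right; right; right; left; exact fun f hf => by simpa using key (2) (0) (i-1) (0) (i-2) (0) (by omega) (by omega) (by omega) (by omega) (by omega) (by omega) (by omega) f hf
    · rcases le_total j i with h | h
      · left; exact fun f hf => by simpa using key (1) (1) (i) (j-1) (0) (i-j) (by omega) (by omega) (by omega) (by omega) (by omega) (by omega) (by omega) f hf
      · left; exact fun f hf => by simpa using key (1) (1) (j) (i-1) (j-i) (0) (by omega) (by omega) (by omega) (by omega) (by omega) (by omega) (by omega) f hf

end Pool.Agent.Helper46.Planar
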