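import Pool.Agent.Helper46.SailDefs

open scoped LinearAlgebra.Projectivization

namespace Pool.Agent.Helper46.Sail

variable {n : ℕ}

/-! ### Cones -/

lemma toReal_injective : Function.Injective (toReal (n := n)) := by
  intro a b h
  funext i
  have := congrFun h i
  simpa [toReal] using this

lemma toReal_add (a b : Fin (n+1) → ℤ) : toReal (a + b) = toReal a + toReal b := by
  funext i; simp [toReal]

lemma toReal_smul (k : ℤ) (a : Fin (n+1) → ℤ) : toReal (k • a) = (k : ℝ) • toReal a := by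
  funext i; simp [toReal]

lemma toReal_single (i : Fin (n+1)) : toReal (Pi.single i (1:ℤ)) = Pi.single i (1:ℝ) := by
  funext j
  simp only [toReal, Pi.single_apply]
  split_ifs <;> simp

lemma cone_smul_mem {b : Fin (n+1) → E n} {x : E n} (hx : x ∈ cone b) {r : ℝ} (hr : 0 ≤ r) :
    r • x ∈ cone b := by
  obtain ⟨t, ht, rfl⟩ := hx
  refine ⟨fun i => r * t i, fun i => mul_nonneg hr (ht i), ?_⟩
  rw [Finset.smul_sum]
  simp [mul_smul]

lemma cone_convex (b : Fin (n+1) → E n) : Convex ℝ (cone b) := by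
  rintro x ⟨t, ht, rfl⟩ y ⟨s, hs, rfl⟩ p q hp hq hpq
  refine ⟨fun i => p * t i + q * s i, fun i => add_nonneg (mul_nonneg hp (ht i)) (mul_nonneg hq (hs i)), ?_⟩
  rw [Finset.smul_sum, Finset.smul_sum, ← Finset.sum_add_distrib]
  simp [mul_smul, add_smul]

/-- nonzero integer points of `C` -/
def pts (C : Set (E n)) : Set (E n) := {x | x ∈ C ∧ x ≠ 0 ∧ ∃ z : Fin (n + 1) → ℤ, x = toReal z}

lemma hull_eq (C : Set (E n)) : hull C = convexHull ℝ (pts C) := rfl

lemma hull_subset {b : Fin (n+1) → E n} : hull (cone b) ⊆ cone b :=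
  convexHull_min (fun _ hx => hx.1) (cone_convex b)

/-- A face of a convex hull is the hull of the points on the supporting hyperplane. -/
lemma face_convexHull {V : Type*} [AddCommGroup V] [Module ℝ V] {P : Set V} {l : V →ₗ[ℝ] ℝ} {c : ℝ} (h : ∀ x ∈ P, c ≤ l x) :
    {x | x ∈ convexHull ℝ P ∧ l x = c} = convexHull ℝ {x | x ∈ P ∧ l x = c} := by
  apply Set.Subset.antisymm
  · have key : convexHull ℝ P ⊆
        {x | c ≤ l x ∧ (l x = c → x ∈ convexHull ℝ {x | x ∈ P ∧ l x = c})} := by
      apply convexHull_min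
      · intro x hx
        exact ⟨h x hx, fun hc => subset_convexHull ℝ _ ⟨hx, hc⟩⟩
      · rintro x ⟨hx1, hx2⟩ y ⟨hy1, hy2⟩ a b ha hb hab
        refine ⟨?_, ?_⟩
        · simp only [map_add, map_smul, smul_eq_mul]
          have h1 := mul_nonneg ha (sub_nonneg.2 hx1)
          have h2 := mul_nonneg hb (sub_nonneg.2 hy1)
          have h3 : (a + b) * c = c := by rw [hab, one_mul]
          nlinarith
        · intro hc
          simp only [map_add, map_smul, smul_eq_mul] at hc
          rcases ha.eq_or_lt with ha0 | ha0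
          · subst ha0
            have hb1 : b = 1 := by linarith
            subst hb1
            simp only [zero_smul, zero_add, one_smul]
            apply hy2
            linarith
          rcases hb.eq_or_lt with hb0 | hb0
          · subst hb0
            have ha1 : a = 1 := by linarith
            subst ha1
            simp only [zero_smul, add_zero, one_smul]
            apply hx2
            linarith
          have e1 : l x = c := by
            apply le_antisymm _ hx1
            by_contra hcon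
            push Not at hcon
            have h1 := mul_pos ha0 (sub_pos.2 hcon)
            have h2 := mul_nonneg hb (sub_nonneg.2 hy1)
            have h3 : (a + b) * c = c := by rw [hab, one_mul]
            nlinarith
          have e2 : l y = c := by
            apply le_antisymm _ hy1
            by_contra hcon
            push Not at hcon
            have h1 := mul_pos hb0 (sub_pos.2 hcon)
            have h2 := mul_nonneg ha (sub_nonneg.2 hx1)
            have h3 : (a + b) * c = c := by rw [hab, one_mul]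
            nlinarith
          exact (convex_convexHull ℝ _) (hx2 e1) (hy2 e2) ha hb hab
    rintro x ⟨hx, hc⟩
    exact (key hx).2 hc
  · apply convexHull_min
    · rintro x ⟨hx, hc⟩
      exact ⟨subset_convexHull ℝ _ hx, hc⟩
    · rintro x ⟨hx1, hx2⟩ y ⟨hy1, hy2⟩ a b ha hb hab
      refine ⟨(convex_convexHull ℝ _) hx1 hy1 ha hb hab, ?_⟩
      simp only [map_add, map_smul, smul_eq_mul, hx2, hy2]
      rw [← add_mul, hab, one_mul]

/-- the supporting hyperplane of a bounded face does not pass through the origin. -/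
lemma pos_of_face {b : Fin (n+1) → E n} {F : Set (E n)} (hb : Bornology.IsBounded F) (hne : F.Nonempty)
    {l : E n →ₗ[ℝ] ℝ} {c : ℝ} (hl : ∀ x ∈ hull (cone b), c ≤ l x)
    (hF : F = {x | x ∈ hull (cone b) ∧ l x = c}) : 0 < c := by
  have hP : ∀ x ∈ pts (cone b), c ≤ l x := fun x hx => hl x (subset_convexHull ℝ _ hx)
  have hF' : F = convexHull ℝ {x | x ∈ pts (cone b) ∧ l x = c} := by
    rw [hF]; exact face_convexHull hP
  obtain ⟨p, ⟨hpC, hp0, z, hz⟩, hpc⟩ : {x | x ∈ pts (cone b) ∧ l x = c}.Nonempty := by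
    rw [hF'] at hne
    exact convexHull_nonempty_iff.mp hne
  have hmul : ∀ k : ℕ, 1 ≤ k → (k : ℝ) • p ∈ pts (cone b) := by
    intro k hk
    refine ⟨cone_smul_mem hpC (by positivity), ?_, (k : ℤ) • z, ?_⟩
    · apply smul_ne_zero _ hp0
      positivity
    · rw [toReal_smul, hz]; simp
  have h2 := hP _ (hmul 2 (by norm_num))
  simp only [map_smul, hpc, smul_eq_mul] at h2
  have hc : 0 ≤ c := by norm_num at h2; linarith
  rcases hc.eq_or_lt with h0 | h0
  · exfalso
    have hmem : ∀ k : ℕ, 1 ≤ k → (k : ℝ) • p ∈ F := by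
      intro k hk
      rw [hF']
      apply subset_convexHull
      refine ⟨hmul k hk, ?_⟩
      simp [hpc, ← h0]
    obtain ⟨R, hR⟩ := hb.exists_norm_le
    have hpn : 0 < ‖p‖ := norm_pos_iff.mpr hp0
    obtain ⟨k, hk⟩ := exists_nat_gt (R / ‖p‖)
    have h1 := hR _ (hmem (k + 1) (by omega))
    rw [norm_smul] at h1
    rw [div_lt_iff₀ hpn] at hk
    have : ‖((k+1 : ℕ) : ℝ)‖ = (k:ℝ) + 1 := by
      rw [Real.norm_of_nonneg (by positivity)]; push_cast; ring
    rw [this] at h1
    nlinarith
  · exact h0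

/-- integer points of a bounded set are finite in number -/
lemma finite_int {F : Set (E n)} (hb : Bornology.IsBounded F) : {z : Fin (n+1) → ℤ | toReal z ∈ F}.Finite := by
  obtain ⟨R, hR⟩ := hb.exists_norm_le
  apply (Set.finite_Icc (fun _ : Fin (n+1) => -(⌈R⌉ : ℤ)) (fun _ => ⌈R⌉)).subset
  intro z hz
  have h1 := hR _ hz
  have h2 : ∀ i, |(z i : ℝ)| ≤ R := fun i => (norm_le_pi_norm (toReal z) i).trans h1
  constructor
  · intro i
    have := (abs_le.mp (h2 i)).1
    have h3 : (-(⌈R⌉:ℤ) : ℝ) ≤ z i := by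
      have := Int.le_ceil R
      linarith
    exact_mod_cast h3
  · intro i
    have := (abs_le.mp (h2 i)).2
    have h3 : (z i : ℝ) ≤ (⌈R⌉:ℤ) := this.trans (Int.le_ceil R)
    exact_mod_cast h3

lemma poly_bounded (s : Finset (Fin (n+1) → ℤ)) : Bornology.IsBounded (poly s) := by
  rw [poly, isBounded_convexHull]
  exact (s.finite_toSet.image _).isBounded


lemma poly_mem {s : Finset (Fin (n+1) → ℤ)} {z : Fin (n+1) → ℤ} (hz : z ∈ s) : toReal z ∈ poly s :=
  subset_convexHull ℝ _ ⟨z, by simpa using hz, rfl⟩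

/-! ### Integer combinations -/

/-- integer combination of the integer vectors `w i` with coefficients `z i` -/
def comb (w : Fin (n+1) → Fin (n+1) → ℤ) (z : Fin (n+1) → ℤ) : Fin (n+1) → ℤ := ∑ i, z i • w i

lemma toReal_comb (w : Fin (n+1) → Fin (n+1) → ℤ) (z : Fin (n+1) → ℤ) :
    toReal (comb w z) = ∑ i, toReal z i • toReal (w i) := by
  funext j
  simp [toReal, comb, Finset.sum_apply]

lemma comb_single (w : Fin (n+1) → Fin (n+1) → ℤ) (i : Fin (n+1)) : comb w (Pi.single i 1) = w i := by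
  simp [comb, Pi.single_apply]

lemma linearIndependent_of_det {w : Fin (n+1) → Fin (n+1) → ℤ} (hw : (Matrix.of w).det ≠ 0) :
    LinearIndependent ℝ (fun i => toReal (w i)) := by
  have h : IsUnit ((Matrix.of w).map (Int.cast : ℤ → ℝ)) := by
    rw [Matrix.isUnit_iff_isUnit_det, isUnit_iff_ne_zero, ← Int.cast_det]
    exact_mod_cast hw
  have := Matrix.linearIndependent_rows_iff_isUnit.mpr h
  exact this

lemma det_of_linearIndependent {w : Fin (n+1) → Fin (n+1) → ℤ}
    (hw : LinearIndependent ℝ (fun i => toReal (w i))) : (Matrix.of w).det ≠ 0 := by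
  have h : IsUnit ((Matrix.of w).map (Int.cast : ℤ → ℝ)) := Matrix.linearIndependent_rows_iff_isUnit.mp hw
  rw [Matrix.isUnit_iff_isUnit_det, isUnit_iff_ne_zero, ← Int.cast_det] at h
  exact_mod_cast h

/-- the linear map sending `w i` to `e_i` -/
noncomputable def mapOf (w : Fin (n+1) → Fin (n+1) → ℤ) (hw : LinearIndependent ℝ (fun i => toReal (w i))) :
    E n ≃ₗ[ℝ] E n :=
  (basisOfLinearIndependentOfCardEqFinrank hw (by simp)).equivFun

lemma mapOf_symm_apply (w : Fin (n+1) → Fin (n+1) → ℤ) (hw : LinearIndependent ℝ (fun i => toReal (w i)))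
    (x : E n) : (mapOf w hw).symm x = ∑ i, x i • toReal (w i) := by
  rw [mapOf, Module.Basis.equivFun_symm_apply]
  simp

lemma mapOf_symm_toReal (w : Fin (n+1) → Fin (n+1) → ℤ) (hw : LinearIndependent ℝ (fun i => toReal (w i)))
    (z : Fin (n+1) → ℤ) : (mapOf w hw).symm (toReal z) = toReal (comb w z) := by
  rw [mapOf_symm_apply, toReal_comb]

lemma comb_injective (w : Fin (n+1) → Fin (n+1) → ℤ) (hw : LinearIndependent ℝ (fun i => toReal (w i))) :
    Function.Injective (comb w) := by
  intro a b hab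
  apply toReal_injective
  apply (mapOf w hw).symm.injective
  rw [mapOf_symm_toReal, mapOf_symm_toReal, hab]

lemma mapOf_apply (w : Fin (n+1) → Fin (n+1) → ℤ) (hw : LinearIndependent ℝ (fun i => toReal (w i)))
    (i : Fin (n+1)) : mapOf w hw (toReal (w i)) = Pi.single i 1 := by
  rw [← LinearEquiv.eq_symm_apply, ← toReal_single, mapOf_symm_toReal, comb_single]

/-! ### The action on cones -/

lemma image_cone (A : E n ≃ₗ[ℝ] E n) (b : Fin (n+1) → E n) : A '' cone b = cone (fun i => A (b i)) := by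
  ext x
  constructor
  · rintro ⟨_, ⟨t, ht, rfl⟩, rfl⟩
    exact ⟨t, ht, by simp⟩
  · rintro ⟨t, ht, rfl⟩
    exact ⟨∑ i, t i • b i, ⟨t, ht, rfl⟩, by simp⟩

lemma isConeOf_smul {κ : CF n} {C : Set (E n)} (h : IsConeOf κ C) (A : E n ≃ₗ[ℝ] E n) :
    IsConeOf (A • κ) (A '' C) := by
  obtain ⟨b, hb, hκ, rfl⟩ := h
  refine ⟨fun i => A (b i), hb.map' (A : E n →ₗ[ℝ] E n) (LinearEquiv.ker A), ?_, image_cone A b⟩
  show (fun x => A • x) '' κ.1 = _
  rw [hκ, ← Set.range_comp]
  rfl

/-! ### Existence of independent integer points on a face -/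

lemma span_face {F : Set (E n)} {l : E n →ₗ[ℝ] ℝ} {c : ℝ} (hc : 0 < c) (hF : ∀ x ∈ F, l x = c)
    (hne : F.Nonempty) (hd : Module.finrank ℝ (vectorSpan ℝ F) = n) : Submodule.span ℝ F = ⊤ := by
  obtain ⟨x0, hx0⟩ := hne
  have h1 : vectorSpan ℝ F ≤ Submodule.span ℝ F := by
    rw [vectorSpan_def, Submodule.span_le]
    rintro _ ⟨a, ha, b, hb, rfl⟩
    exact Submodule.sub_mem _ (Submodule.subset_span ha) (Submodule.subset_span hb)
  have h2 : vectorSpan ℝ F ≤ LinearMap.ker l := by
    rw [vectorSpan_def, Submodule.span_le]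
    rintro _ ⟨a, ha, b, hb, rfl⟩
    simp [hF a ha, hF b hb]
  have h3 : vectorSpan ℝ F < Submodule.span ℝ F := by
    refine lt_of_le_of_ne h1 fun h => ?_
    have : x0 ∈ LinearMap.ker l := h2 (h ▸ Submodule.subset_span hx0)
    rw [LinearMap.mem_ker, hF x0 hx0] at this
    linarith
  have h4 : Module.finrank ℝ (vectorSpan ℝ F) < Module.finrank ℝ (Submodule.span ℝ F) :=
    Submodule.finrank_lt_finrank_of_lt h3
  apply Submodule.eq_top_of_finrank_eq
  have h5 : Module.finrank ℝ (Submodule.span ℝ F) ≤ Module.finrank ℝ (E n) :=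
    Submodule.finrank_le (Submodule.span ℝ F)
  show Module.finrank ℝ (Submodule.span ℝ F) = Module.finrank ℝ (E n)
  have h6 : Module.finrank ℝ (E n) = n + 1 := Module.finrank_fin_fun ℝ
  rw [hd] at h4
  omega

lemma exists_det {S : Set (Fin (n+1) → ℤ)} (h : Submodule.span ℝ (toReal '' S) = ⊤) :
    ∃ w : Fin (n+1) → Fin (n+1) → ℤ, (∀ i, w i ∈ S) ∧ (Matrix.of w).det ≠ 0 := by
  obtain ⟨b, hbS, hbspan, hbli⟩ := exists_linearIndependent ℝ (toReal '' S)
  let B : Module.Basis b ℝ (E n) := Module.Basis.mk hbli (by rw [Subtype.range_coe, hbspan, h])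
  have hcard : Module.finrank ℝ (E n) = Nat.card b := Module.finrank_eq_nat_card_basis B
  rw [Module.finrank_fin_fun] at hcard
  have : Finite b := Nat.finite_of_card_ne_zero (by omega)
  let e : Fin (n+1) ≃ b := (Finite.equivFinOfCardEq hcard.symm).symm
  have hch : ∀ i, ∃ z ∈ S, toReal z = (e i : E n) := fun i => hbS (e i).2
  choose w hwS hw using hch
  refine ⟨w, hwS, ?_⟩
  apply det_of_linearIndependent
  have : (fun i => toReal (w i)) = (Subtype.val : b → E n) ∘ e := by
    funext i; exact hw i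
  rw [this]
  exact hbli.comp e e.injective

/-- data of a bounded face -/
lemma face_data {b : Fin (n+1) → E n} {F : Set (E n)} (hb : Bornology.IsBounded F)
    (h : IsSailFace (cone b) F) : ∃ (l : E n →ₗ[ℝ] ℝ) (c : ℝ), 0 < c ∧ 
      (∀ x ∈ hull (cone b), c ≤ l x) ∧ F = {x | x ∈ hull (cone b) ∧ l x = c} ∧
      F = convexHull ℝ {x | x ∈ pts (cone b) ∧ l x = c} ∧ 
      ∃ w : Fin (n+1) → Fin (n+1) → ℤ, (∀ i, toReal (w i) ∈ F) ∧ (Matrix.of w).det ≠ 0 := by
  obtain ⟨hne, hd, l, c, -, hl, hF⟩ := h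
  have hc := pos_of_face hb hne hl hF
  have hF' : F = convexHull ℝ {x | x ∈ pts (cone b) ∧ l x = c} := by
    rw [hF]; exact face_convexHull fun x hx => hl x (subset_convexHull ℝ _ hx)
  refine ⟨l, c, hc, hl, hF, hF', ?_⟩
  have hspan : Submodule.span ℝ F = ⊤ := by
    refine span_face (l := l) hc (fun x hx => ?_) hne hd
    rw [hF] at hx
    exact hx.2
  have hsub : {x | x ∈ pts (cone b) ∧ l x = c} ⊆ toReal '' {z | toReal z ∈ F} := by
    rintro x ⟨hx, hxc⟩
    obtain ⟨z, rfl⟩ := hx.2.2
    exact ⟨z, by rw [hF]; exact ⟨subset_convexHull ℝ _ hx, hxc⟩, rfl⟩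
  have hspan2 : Submodule.span ℝ (toReal '' {z | toReal z ∈ F}) = ⊤ := by
    rw [eq_top_iff, ← hspan, Submodule.span_le]
    conv_lhs => rw [hF']
    apply convexHull_min (hsub.trans Submodule.subset_span) (Submodule.convex _)
  exact exists_det hspan2

/-! ### Pulling back a face -/

/-- the integer points of the image of `F` under `mapOf w` -/
def pull (w : Fin (n+1) → Fin (n+1) → ℤ) (F : Set (E n)) : Set (Fin (n+1) → ℤ) :=
  {z | toReal (comb w z) ∈ F}

lemma pull_finite {w : Fin (n+1) → Fin (n+1) → ℤ} (hw : (Matrix.of w).det ≠ 0) {F : Set (E n)}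
    (hb : Bornology.IsBounded F) : (pull w F).Finite := by
  have := (finite_int hb).preimage (comb_injective w (linearIndependent_of_det hw)).injOn
  exact this

lemma pull_face {w : Fin (n+1) → Fin (n+1) → ℤ} (hw : (Matrix.of w).det ≠ 0) {F : Set (E n)}
    (hb : Bornology.IsBounded F) (hwF : ∀ i, toReal (w i) ∈ F) {b : Fin (n+1) → E n}
    (h : IsSailFace (cone b) F) :
    IsSailFace (mapOf w (linearIndependent_of_det hw) '' cone b) (convexHull ℝ (toReal '' pull w F)) := by
  set A := mapOf w (linearIndependent_of_det hw) with hA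
  obtain ⟨l, c, hc, hl, hF, hF', -⟩ := face_data hb h
  -- the points of the new cone
  have hpts : ∀ x ∈ pts (A '' cone b), A.symm x ∈ pts (cone b) := by
    rintro x ⟨⟨y, hy, rfl⟩, hx0, z, hz⟩
    rw [LinearEquiv.symm_apply_apply]
    refine ⟨hy, ?_, comb w z, ?_⟩
    · rintro rfl; simp at hx0
    · rw [← mapOf_symm_toReal w (linearIndependent_of_det hw), ← hz, ← hA, LinearEquiv.symm_apply_apply]
  have hl' : ∀ x ∈ pts (A '' cone b), c ≤ (l ∘ₗ (A.symm : E n →ₗ[ℝ] E n)) x := fun x hx =>
    hl _ (subset_convexHull ℝ _ (hpts x hx))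
  have hset : {x | x ∈ pts (A '' cone b) ∧ (l ∘ₗ (A.symm : E n →ₗ[ℝ] E n)) x = c} = toReal '' pull w F := by
    ext x
    constructor
    · rintro ⟨hx, hxc⟩
      obtain ⟨z, rfl⟩ := hx.2.2
      refine ⟨z, ?_, rfl⟩
      show toReal (comb w z) ∈ F
      rw [← mapOf_symm_toReal w (linearIndependent_of_det hw), hF]
      exact ⟨subset_convexHull ℝ _ (hpts _ hx), hxc⟩
    · rintro ⟨z, hz, rfl⟩
      have hz' : toReal (comb w z) ∈ F := hz
      rw [← mapOf_symm_toReal w (linearIndependent_of_det hw), hF] at hz'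
      obtain ⟨hz1, hz2⟩ := hz'
      refine ⟨⟨⟨_, hull_subset hz1, A.apply_symm_apply _⟩, ?_, z, rfl⟩, hz2⟩
      intro h0
      rw [h0] at hz2
      simp at hz2
      exact hc.ne hz2
  have hmem : ∀ i, Pi.single i (1:ℝ) ∈ toReal '' pull w F := by
    intro i
    refine ⟨Pi.single i 1, ?_, toReal_single i⟩
    show toReal (comb w _) ∈ F
    rw [comb_single]; exact hwF i
  refine ⟨?_, ?_, l ∘ₗ (A.symm : E n →ₗ[ℝ] E n), c, ?_, ?_, ?_⟩
  · rw [convexHull_nonempty_iff]
    exact ⟨_, hmem 0⟩
  · have hvs : vectorSpan ℝ (convexHull ℝ (toReal '' pull w F)) = vectorSpan ℝ (toReal '' pull w F) := by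
      rw [← direction_affineSpan, affineSpan_convexHull, direction_affineSpan]
    rw [hvs]
    have hAF : toReal '' pull w F ⊆ A '' F := by
      rintro _ ⟨z, hz, rfl⟩
      refine ⟨toReal (comb w z), hz, ?_⟩
      rw [← mapOf_symm_toReal w (linearIndependent_of_det hw), ← hA, LinearEquiv.apply_symm_apply]
    have hle : vectorSpan ℝ (toReal '' pull w F) ≤ (vectorSpan ℝ F).map (A : E n →ₗ[ℝ] E n) := by
      rw [vectorSpan_def, vectorSpan_def, Submodule.map_span]
      apply Submodule.span_mono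
      rintro _ ⟨x, hx, y, hy, rfl⟩
      obtain ⟨x', hx', rfl⟩ := hAF hx
      obtain ⟨y', hy', rfl⟩ := hAF hy
      exact ⟨x' - y', ⟨x', hx', y', hy', rfl⟩, by simp⟩
    have h1 : Module.finrank ℝ (vectorSpan ℝ (toReal '' pull w F)) ≤ n := by
      refine (Submodule.finrank_mono hle).trans ?_
      rw [LinearEquiv.finrank_map_eq, h.2.1]
    have hai : AffineIndependent ℝ (fun i : Fin (n+1) => (Pi.single i (1:ℝ) : E n)) := by
      have hli : LinearIndependent ℝ (fun i : Fin (n+1) => (Pi.single i (1:ℝ) : E n)) := by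
        have := (Pi.basisFun ℝ (Fin (n+1))).linearIndependent
        convert this using 1
        funext i
        simp
      exact hli.affineIndependent
    have h2 := hai.finrank_vectorSpan (n := n) (by simp)
    have h3 : vectorSpan ℝ (Set.range (fun i : Fin (n+1) => (Pi.single i (1:ℝ) : E n))) ≤
        vectorSpan ℝ (toReal '' pull w F) := by
      apply vectorSpan_mono
      rintro _ ⟨i, rfl⟩
      exact hmem i
    have h4 := Submodule.finrank_mono h3
    omega
  · intro h0
    have h1 := hl' _ (hset ▸ hmem 0 : _ ∈ {x | x ∈ pts (A '' cone b) ∧ (l ∘ₗ (A.symm : E n →ₗ[ℝ] E n)) x = c}).1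
    rw [h0] at h1
    simp at h1
    linarith
  · have : hull (A '' cone b) ⊆ {x | c ≤ (l ∘ₗ (A.symm : E n →ₗ[ℝ] E n)) x} :=
      convexHull_min hl' (convex_halfSpace_ge (LinearMap.isLinear _) c)
    exact this
  · rw [← hset]
    exact (face_convexHull hl').symm

end Pool.Agent.Helper46.Sail
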