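import Mathlib

/-!
# Multidimensional continued fractions in the sense of Klein

Basic definitions: the space `CF n` of unordered collections of `n + 1` independent lines through
the origin of `ℝ^{n+1}`, the action of the linear group on it, the cones bounded by such a
collection, the faces of the sails, and the set `CFof n F` of continued fractions having the
polytope `F` as a face.
-/

open scoped LinearAlgebra.Projectivization

namespace Pool.Agent.Helper46.Sail

/-- The space `ℝ^{n+1}`. -/
abbrev E (n : ℕ) : Type := Fin (n + 1) → ℝ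

/-- The real vector with the same coordinates as the integer vector `z`. -/
def toReal {n : ℕ} (z : Fin (n + 1) → ℤ) : E n := fun i => (z i : ℝ)

/-- The `n`-dimensional continued fractions: unordered collections (sets) of `n + 1` lines through
the origin of `ℝ^{n+1}` which are linearly independent. -/
def CF (n : ℕ) : Type :=
  {s : Set (ℙ ℝ (E n)) //
    ∃ p : Fin (n + 1) → ℙ ℝ (E n), Projectivization.Independent p ∧ s = Set.range p}

/-- An invertible linear map sends a continued fraction to the continued fraction given by
the images of its lines. -/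
def CF.move {n : ℕ} (g : E n ≃ₗ[ℝ] E n) (κ : CF n) : CF n :=
  ⟨(fun x => g • x) '' κ.1, by
    obtain ⟨p, hp, hs⟩ := κ.2
    refine ⟨fun i => g • p i, ?_, by rw [hs, ← Set.range_comp]; rfl⟩
    obtain ⟨f, hf, hl⟩ := hp
    exact Projectivization.Independent.mk (fun i => g • f i) (fun i => (smul_ne_zero_iff_ne g).mpr (hf i))
      (hl.map' (g : E n →ₗ[ℝ] E n) (LinearEquiv.ker g))⟩

/-- The action of the general linear group `GL(n+1, ℝ)` on the continued fractions. -/
instance (n : ℕ) : MulAction (E n ≃ₗ[ℝ] E n) (CF n) where
  smul g κ := κ.move g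
  one_smul κ := Subtype.ext (by
    show (fun x => (1 : E n ≃ₗ[ℝ] E n) • x) '' κ.1 = κ.1
    simp)
  mul_smul g h κ := Subtype.ext (by
    show (fun x => (g * h) • x) '' κ.1 = (fun x => g • x) '' ((fun x => h • x) '' κ.1)
    rw [Set.image_image]
    simp only [mul_smul])

/-- The closed simplicial cone spanned by the vectors `b 0, …, b n`. -/
def cone {n : ℕ} (b : Fin (n + 1) → E n) : Set (E n) :=
  {x | ∃ t : Fin (n + 1) → ℝ, (∀ i, 0 ≤ t i) ∧ x = ∑ i, t i • b i}

/-- `C` is one of the `2^{n+1}` cones bounded by the lines of the continued fraction `κ`: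
it is spanned by one nonzero vector on each of the lines. -/
def IsConeOf {n : ℕ} (κ : CF n) (C : Set (E n)) : Prop :=
  ∃ (b : Fin (n + 1) → E n) (hb : LinearIndependent ℝ b),
    κ.1 = Set.range (fun i => Projectivization.mk ℝ (b i) (hb.ne_zero i)) ∧ C = cone b

/-- The convex hull of the nonzero integer points of `C`. Its boundary is the sail of `C`. -/
def hull {n : ℕ} (C : Set (E n)) : Set (E n) :=
  convexHull ℝ {x | x ∈ C ∧ x ≠ 0 ∧ ∃ z : Fin (n + 1) → ℤ, x = toReal z}

/-- `F` is an `n`-dimensional face of the sail of `C`: an `n`-dimensional set cut out of the hull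
by a supporting hyperplane `{l = c}`. -/
def IsSailFace {n : ℕ} (C F : Set (E n)) : Prop :=
  F.Nonempty ∧ Module.finrank ℝ (vectorSpan ℝ F) = n ∧
    ∃ (l : E n →ₗ[ℝ] ℝ) (c : ℝ), l ≠ 0 ∧ (∀ x ∈ hull C, c ≤ l x) ∧ F = {x | x ∈ hull C ∧ l x = c}

/-- `CF_n(F)`: the set of continued fractions having `F` as one of their faces. -/
def CFof (n : ℕ) (F : Set (E n)) : Set (CF n) :=
  {κ | ∃ C, IsConeOf κ C ∧ IsSailFace C F}

/-- The polytope spanned by a finite set of integer points. -/
def poly {n : ℕ} (s : Finset (Fin (n + 1) → ℤ)) : Set (E n) :=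
  convexHull ℝ (toReal '' (s : Set (Fin (n + 1) → ℤ)))

/-- The vertices `e_0, …, e_n` of the unit simplex, which lies at integer distance one from
the origin. -/
def unitVerts (n : ℕ) : Finset (Fin (n + 1) → ℤ) :=
  Finset.univ.image fun i => Pi.single i 1

/-- The vertices `2e_0 - e_1 - … - e_{k-1}, e_1, …, e_n` of a simplex (empty and unimodular in its
own hyperplane `k x_0 + 2 x_1 + … + 2 x_n = 2`, which lies at integer distance two from the origin
when `k` is odd). -/
def halfVerts (n k : ℕ) : Finset (Fin (n + 1) → ℤ) :=
  Finset.univ.image fun i =>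
    if i = 0 then (fun j => if j = 0 then 2 else if (j : ℕ) < k then -1 else 0) else Pi.single i 1

/-- Integer-linear congruence of two polytopes given by the sets of their vertices. -/
def Congruent {n : ℕ} (s t : Finset (Fin (n + 1) → ℤ)) : Prop :=
  ∃ g : Matrix (Fin (n + 1)) (Fin (n + 1)) ℤ, IsUnit g.det ∧ t = s.image g.mulVec

/-- A unimodular configuration: a finite set of integer points of the hyperplane
`x_0 + … + x_n = 1` which contains `e_0, …, e_n`, all of whose maximal minors are `0` or `± 1`,
and which consists of all the integer points of its convex hull. -/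
structure IsUnimodularConfig {n : ℕ} (V : Finset (Fin (n + 1) → ℤ)) : Prop where
  /-- it contains the unit vectors -/
  single_mem : ∀ i, Pi.single i 1 ∈ V
  /-- it lies in the hyperplane `x_0 + … + x_n = 1` -/
  sum_eq : ∀ v ∈ V, ∑ i, v i = 1
  /-- all its maximal minors are `0` or `± 1` -/
  abs_det_le : ∀ w : Fin (n + 1) → Fin (n + 1) → ℤ, (∀ i, w i ∈ V) → |(Matrix.of w).det| ≤ 1
  /-- its convex hull contains no other integer point -/
  mem_of_mem_poly : ∀ z, toReal z ∈ poly V → z ∈ V

end Pool.Agent.Helper46.Sail
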