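import Pool.Agent.Helper46.SailReduction

open scoped LinearAlgebra.Projectivization Pointwise

namespace Pool.Agent.Helper46.Sail

variable {n : ℕ}

/-- the vertices of the half simplex, as a family -/
def halfFam (n k : ℕ) (i : Fin (n+1)) : Fin (n+1) → ℤ :=
  if i = 0 then (fun j => if j = 0 then 2 else if (j : ℕ) < k then -1 else 0) else Pi.single i 1

lemma mem_halfVerts {k : ℕ} {z : Fin (n+1) → ℤ} : z ∈ halfVerts n k ↔ ∃ i, z = halfFam n k i := by
  simp [halfVerts, halfFam, eq_comm]

lemma det_halfFam (n k : ℕ) : (Matrix.of (halfFam n k)).det = 2 := by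
  rw [Matrix.det_of_isUpperTriangular]
  · rw [Fin.prod_univ_succ]
    have : ∀ i : Fin n, Matrix.of (halfFam n k) i.succ i.succ = 1 := by
      intro i
      simp [halfFam]
    simp [this, halfFam]
  · intro i j hij
    have hi : i ≠ 0 := by
      rintro rfl
      exact absurd hij (Fin.not_lt_zero _)
    have hji : j ≠ i := ne_of_lt hij
    simp [halfFam, hi, hji]

lemma halfFam_injective (n k : ℕ) : Function.Injective (halfFam n k) := by
  have hli := linearIndependent_of_det (w := halfFam n k) (by rw [det_halfFam]; norm_num)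
  intro i j hij
  exact hli.injective (congrArg toReal hij)

lemma card_halfVerts (n k : ℕ) : (halfVerts n k).card = n + 1 := by
  have : halfVerts n k = Finset.univ.image (halfFam n k) := by
    ext z; simp [mem_halfVerts, eq_comm]
  rw [this, Finset.card_image_of_injective _ (halfFam_injective n k)]
  simp

/-- twice the coordinates in the basis of the vertices of the half simplex -/
def dbl (k : ℕ) (q : Fin (n+1) → ℤ) : Fin (n+1) → ℤ :=
  fun j => if j = 0 then q 0 else if (j : ℕ) < k then 2 * q j + q 0 else 2 * q j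

lemma comb_halfFam (k : ℕ) (z : Fin (n+1) → ℤ) (j : Fin (n+1)) :
    comb (halfFam n k) z j = if j = 0 then 2 * z 0 else if (j : ℕ) < k then z j - z 0 else z j := by
  rw [comb, Finset.sum_apply]
  by_cases hj : j = 0
  · subst hj
    rw [Finset.sum_eq_single 0]
    · simp [halfFam]; ring
    · intro b _ hb
      simp [halfFam, hb, Ne.symm hb]
    · simp
  · rw [← Finset.add_sum_erase _ _ (Finset.mem_univ (0 : Fin (n+1))),
      Finset.sum_eq_single_of_mem j (by simp [hj])]
    · simp only [halfFam, hj, if_true, if_false, Pi.smul_apply, smul_eq_mul, Pi.single_eq_same]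
      split_ifs <;> ring
    · intro b hb hbj
      rw [Finset.mem_erase] at hb
      simp [halfFam, hb.1, Ne.symm hbj]

lemma comb_dbl (k : ℕ) (q : Fin (n+1) → ℤ) : comb (halfFam n k) (dbl k q) = (2:ℤ) • q := by
  funext j
  rw [comb_halfFam]
  simp only [dbl, Pi.smul_apply, smul_eq_mul]
  by_cases hj : j = 0
  · subst hj; simp
  · simp only [hj, if_false, if_true]
    split_ifs <;> ring

lemma sum_dbl {k : ℕ} (hk : Odd k) (hkn : k ≤ n + 1) (hk3 : 3 ≤ k) (q : Fin (n+1) → ℤ) (hq : Odd (q 0)) :
    Odd (∑ j, dbl k q j) := by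
  have h1 : ∀ j : Fin (n+1), (dbl k q j) % 2 = if (j:ℕ) < k then 1 else 0 := by
    intro j
    have hq' := Int.odd_iff.mp hq
    by_cases hj : j = 0
    · subst hj
      have h0 : ((0 : Fin (n+1)) : ℕ) < k := by rw [Fin.val_zero]; omega
      rw [if_pos h0]
      simpa [dbl] using hq'
    · simp only [dbl, hj, if_false]
      split_ifs <;> omega
  rw [Int.odd_iff, Finset.sum_int_mod]
  simp only [h1]
  rw [Finset.sum_ite]
  simp only [Finset.sum_const, nsmul_eq_mul, mul_one, mul_zero, add_zero]
  have h2 : (Finset.univ.filter fun j : Fin (n+1) => (j:ℕ) < k).card = k := by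
    rw [Fin.card_filter_val_lt]
    omega
  rw [h2]
  obtain ⟨m, hm⟩ := hk
  omega

lemma halfVerts_eq (n k : ℕ) : (toReal '' (halfVerts n k : Set (Fin (n+1) → ℤ))) =
    Set.range (fun i => toReal (halfFam n k i)) := by
  ext x
  constructor
  · rintro ⟨z, hz, rfl⟩
    obtain ⟨i, rfl⟩ := mem_halfVerts.mp (by simpa using hz)
    exact ⟨i, rfl⟩
  · rintro ⟨i, rfl⟩
    exact ⟨halfFam n k i, by simpa using mem_halfVerts.mpr ⟨i, rfl⟩, rfl⟩

/-- if the unit simplex is a face, then the supporting function is a multiple of the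
coordinate sum -/
lemma unit_face {b : Fin (n+1) → E n} (h : IsSailFace (cone b) (poly (unitVerts n))) :
    (∀ x ∈ pts (cone b), 1 ≤ ∑ i, x i) ∧ (∀ z : Fin (n+1) → ℤ, toReal z ∈ pts (cone b) → ∑ i, toReal z i = 1 →
      ∃ i, z = Pi.single i 1) ∧ ∀ i, Pi.single i (1:ℝ) ∈ pts (cone b) := by
  obtain ⟨l, c, hc, hl, hF, hF', -⟩ := face_data (poly_bounded _) h
  have he : ∀ i, toReal (Pi.single i (1:ℤ)) ∈ poly (unitVerts n) := fun i =>
    poly_mem (isUnimodularConfig_unitVerts.single_mem i)
  have h1 : ∀ i, l (Pi.single i (1:ℝ)) = c := by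
    intro i
    have := he i
    rw [hF, toReal_single] at this
    exact this.2
  have h2 : ∀ x : E n, l x = c * ∑ i, x i := by
    intro x
    have hx : x = ∑ i, x i • (Pi.single i (1:ℝ) : E n) := by
      funext j; simp [Finset.sum_apply, Pi.single_apply]
    conv_lhs => rw [hx]
    rw [map_sum, Finset.mul_sum]
    refine Finset.sum_congr rfl fun i _ => ?_
    rw [map_smul, h1, smul_eq_mul, mul_comm]
  refine ⟨fun x hx => ?_, fun z hz hz1 => ?_, fun i => ?_⟩
  · have h3 := hl x (subset_convexHull ℝ _ hx)
    rw [h2] at h3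
    by_contra hcon
    push Not at hcon
    nlinarith
  · have h3 : toReal z ∈ poly (unitVerts n) := by
      rw [hF]
      exact ⟨subset_convexHull ℝ _ hz, by rw [h2, hz1, mul_one]⟩
    exact mem_unitVerts.mp (isUnimodularConfig_unitVerts.mem_of_mem_poly z h3)
  · have h3 := he i
    rw [hF, toReal_single] at h3
    refine ⟨hull_subset h3.1, ?_, Pi.single i 1, (toReal_single i).symm⟩
    intro h0
    have := congrFun h0 i
    simp at this

lemma smul_unit_subset {k : ℕ} (hk : Odd k) (hkn : k ≤ n + 1) (hk3 : 3 ≤ k) :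
    (mapOf (halfFam n k) (linearIndependent_of_det (by rw [det_halfFam]; norm_num))).symm •
      CFof n (poly (unitVerts n)) ⊆ CFof n (poly (halfVerts n k)) := by
  have hli := linearIndependent_of_det (w := halfFam n k) (by rw [det_halfFam]; norm_num)
  rintro _ ⟨κ, ⟨C, hC, hface⟩, rfl⟩
  set A := mapOf (halfFam n k) (linearIndependent_of_det (by rw [det_halfFam]; norm_num)) with hA
  refine ⟨A.symm '' C, isConeOf_smul hC _, ?_⟩
  obtain ⟨b, hb', -, rfl⟩ := hC
  obtain ⟨hge, heq, hmem⟩ := unit_face hface
  have hpoint : ∀ i, A.symm (Pi.single i (1:ℝ)) = toReal (halfFam n k i) := by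
    intro i
    rw [← toReal_single, hA, mapOf_symm_toReal, comb_single]
  -- the main step
  have main : ∀ x ∈ pts (A.symm '' cone b), 1 ≤ ∑ i, A x i ∧ (∑ i, A x i = 1 → ∃ i, x = toReal (halfFam n k i)) := by
    rintro x ⟨⟨y, hy, rfl⟩, hx0, q, hq⟩
    rw [LinearEquiv.apply_symm_apply]
    have hy0 : y ≠ 0 := by rintro rfl; simp at hx0
    have h2y : (2:ℝ) • y = toReal (dbl k q) := by
      apply A.symm.injective
      rw [map_smul, hq, hA, mapOf_symm_toReal, comb_dbl, toReal_smul]
      norm_num
    rcases Int.even_or_odd (q 0) with he | ho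
    · obtain ⟨r, hr⟩ := he
      have hy' : y = toReal (fun j => if j = 0 then r else if (j:ℕ) < k then q j + r else q j) := by
        funext j
        have := congrFun h2y j
        simp only [Pi.smul_apply, smul_eq_mul, toReal, dbl] at this ⊢
        by_cases hj : j = 0
        · subst hj
          simp only [if_true, hr] at this ⊢
          push_cast at this; linarith
        · simp only [hj, if_false] at this ⊢
          split_ifs with h
          · simp only [h, if_true, hr] at this
            push_cast at this ⊢; linarith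
          · simp only [h, if_false] at this
            push_cast at this ⊢; linarith
      have hyp : y ∈ pts (cone b) := ⟨hy, hy0, _, hy'⟩
      refine ⟨hge y hyp, fun h1 => ?_⟩
      rw [hy'] at hyp h1
      obtain ⟨i, hi⟩ := heq _ hyp h1
      refine ⟨i, ?_⟩
      rw [hy', hi, toReal_single, hpoint]
    · have hodd := sum_dbl hk hkn hk3 q ho
      have hyp : toReal (dbl k q) ∈ pts (cone b) := by
        rw [← h2y]
        exact ⟨cone_smul_mem hy (by norm_num), smul_ne_zero (by norm_num) hy0, _, h2y⟩
      have hs1 : (1:ℝ) ≤ ((∑ i, dbl k q i : ℤ) : ℝ) := by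
        have := hge _ hyp
        push_cast
        exact this
      have hs1' : 1 ≤ ∑ i, dbl k q i := by exact_mod_cast hs1
      have hs2 : ∑ i, dbl k q i ≠ 1 := by
        intro h1
        obtain ⟨i, hi⟩ := heq _ hyp (by
          have : ((∑ i, dbl k q i : ℤ) : ℝ) = 1 := by rw [h1]; norm_num
          push_cast at this
          exact this)
        have hn : 1 ≤ n := by omega
        have e0 : dbl k q 0 = q 0 := by simp [dbl]
        have e1 : dbl k q ⟨1, by omega⟩ = 2 * q ⟨1, by omega⟩ + q 0 := by
          simp only [dbl]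
          rw [if_neg (by simp [Fin.ext_iff]), if_pos (by show 1 < k; omega)]
        rw [hi] at e0 e1
        obtain ⟨m, hm⟩ := ho
        by_cases hi0 : i = 0
        · subst hi0
          have : (Pi.single 0 1 : Fin (n+1) → ℤ) ⟨1, by omega⟩ = 0 := by
            simp [Fin.ext_iff]
          rw [this] at e1
          omega
        · have : (Pi.single i 1 : Fin (n+1) → ℤ) 0 = 0 := by
            simp [Ne.symm hi0]
          rw [this] at e0
          omega
      have hs3 : 3 ≤ ∑ i, dbl k q i := by
        obtain ⟨m, hm⟩ := hodd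
        omega
      have hs4 : (3:ℝ) ≤ 2 * ∑ i, y i := by
        have h4 : ((∑ i, dbl k q i : ℤ) : ℝ) = 2 * ∑ i, y i := by
          push_cast
          rw [Finset.mul_sum]
          refine Finset.sum_congr rfl fun i _ => ?_
          have := congrFun h2y i
          simp only [Pi.smul_apply, smul_eq_mul, toReal] at this
          exact this.symm
        rw [← h4]
        exact_mod_cast hs3
      exact ⟨by linarith, fun h => by linarith⟩
  -- the functional
  let L : E n →ₗ[ℝ] ℝ := (∑ i, LinearMap.proj i) ∘ₗ (A : E n →ₗ[ℝ] E n)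
  have hL : ∀ x, L x = ∑ i, A x i := by
    intro x
    simp [L]
  have hLpts : ∀ x ∈ pts (A.symm '' cone b), 1 ≤ L x := fun x hx => by rw [hL]; exact (main x hx).1
  have hset : {x | x ∈ pts (A.symm '' cone b) ∧ L x = 1} = Set.range (fun i => toReal (halfFam n k i)) := by
    ext x
    constructor
    · rintro ⟨hx, hx1⟩
      rw [hL] at hx1
      obtain ⟨i, rfl⟩ := (main x hx).2 hx1
      exact ⟨i, rfl⟩
    · rintro ⟨i, rfl⟩
      show toReal (halfFam n k i) ∈ pts (A.symm '' cone b) ∧ L (toReal (halfFam n k i)) = 1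
      rw [← hpoint]
      refine ⟨⟨⟨_, (hmem i).1, rfl⟩, ?_, halfFam n k i, hpoint i⟩, ?_⟩
      · simp
      · rw [hL, LinearEquiv.apply_symm_apply]
        simp
  refine ⟨?_, ?_, L, 1, ?_, ?_, ?_⟩
  · rw [poly, convexHull_nonempty_iff, halfVerts_eq]
    exact ⟨_, 0, rfl⟩
  · rw [poly, ← direction_affineSpan, affineSpan_convexHull, direction_affineSpan, halfVerts_eq]
    exact hli.affineIndependent.finrank_vectorSpan (n := n) (by simp)
  · intro h0
    have : (toReal (halfFam n k 0)) ∈ {x | x ∈ pts (A.symm '' cone b) ∧ L x = 1} := by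
      rw [hset]; exact ⟨0, rfl⟩
    have h1 := this.2
    rw [h0] at h1
    simp at h1
  · have : hull (A.symm '' cone b) ⊆ {x | 1 ≤ L x} :=
      convexHull_min hLpts (convex_halfSpace_ge (LinearMap.isLinear _) 1)
    exact this
  · rw [poly, halfVerts_eq, ← hset]
    exact (face_convexHull hLpts).symm

/-! ### The half simplices are pairwise not congruent, and not congruent to the unit simplex -/

lemma det_mulVec (g : Matrix (Fin (n+1)) (Fin (n+1)) ℤ) (w : Fin (n+1) → Fin (n+1) → ℤ) :
    (Matrix.of fun i => g.mulVec (w i)).det = (Matrix.of w).det * g.det := by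
  rw [← Matrix.det_transpose g, ← Matrix.det_mul]
  congr 1
  ext i j
  simp [Matrix.mul_apply, Matrix.mulVec, dotProduct, mul_comm]

lemma not_congruent_unit (n k : ℕ) : ¬ Congruent (halfVerts n k) (unitVerts n) := by
  rintro ⟨g, hg, h⟩
  have h1 := isUnimodularConfig_unitVerts.abs_det_le (fun i => g.mulVec (halfFam n k i)) (fun i => by
    rw [h]
    exact Finset.mem_image_of_mem _ (mem_halfVerts.mpr ⟨i, rfl⟩))
  rw [det_mulVec, det_halfFam, abs_mul, Int.isUnit_iff_abs_eq.mp hg] at h1
  norm_num at h1

lemma comb_halfFam_even {k : ℕ} {z : Fin (n+1) → ℤ} (hz : ∀ i, z i = 0 ∨ z i = 1) {u : Fin (n+1) → ℤ}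
    (h : comb (halfFam n k) z = (2:ℤ) • u) (hk : 1 ≤ k) :
    (∀ i, z i = 0) ∨ (∀ i, z i = if (i:ℕ) < k then 1 else 0) := by
  have h1 : ∀ j, (comb (halfFam n k) z j) % 2 = 0 := by
    intro j; rw [h]; simp
  have h2 : ∀ j : Fin (n+1), j ≠ 0 → (if (j : ℕ) < k then z j - z 0 else z j) % 2 = 0 := by
    intro j hj
    have := h1 j
    rw [comb_halfFam, if_neg hj] at this
    exact this
  rcases hz 0 with h0 | h0
  · left
    intro i
    by_cases hi : i = 0
    · rw [hi]; exact h0
    · have := h2 i hi
      rcases hz i with h3 | h3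
      · exact h3
      · rw [h0, h3] at this
        split_ifs at this <;> simp at this
  · right
    intro i
    by_cases hi : i = 0
    · subst hi
      rw [if_pos (by rw [Fin.val_zero]; omega)]; exact h0
    · have := h2 i hi
      rcases hz i with h3 | h3
      · rw [h0, h3] at this
        split_ifs at this with h4
        · simp at this
        · rw [if_neg h4]; exact h3
      · rw [h0, h3] at this
        split_ifs at this with h4
        · rw [if_pos h4]; exact h3
        · simp at this

lemma comb_halfFam_first {k : ℕ} (hk : 1 ≤ k) :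
    comb (halfFam n k) (fun i => if (i:ℕ) < k then 1 else 0) = (2:ℤ) • Pi.single 0 1 := by
  funext j
  rw [comb_halfFam]
  have h0 : ((0 : Fin (n+1)) : ℕ) < k := by rw [Fin.val_zero]; omega
  have hk0 : 0 < k := hk
  by_cases hj : j = 0
  · subst hj
    simp [hk0]
  · simp only [hj, if_false, h0, if_true]
    split_ifs <;> simp [hj]

lemma not_congruent_half {k k' : ℕ} (hk : 1 ≤ k) (hk' : 1 ≤ k') (hkn : k ≤ n + 1) (hkn' : k' ≤ n + 1)
    (hkk : k ≠ k') : ¬ Congruent (halfVerts n k) (halfVerts n k') := by
  rintro ⟨g, hg, h⟩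
  have hch : ∀ i, ∃ j, g.mulVec (halfFam n k i) = halfFam n k' j := fun i => by
    have : g.mulVec (halfFam n k i) ∈ halfVerts n k' := by
      rw [h]
      exact Finset.mem_image_of_mem _ (mem_halfVerts.mpr ⟨i, rfl⟩)
    obtain ⟨j, hj⟩ := mem_halfVerts.mp this
    exact ⟨j, hj⟩
  choose τ hτ using hch
  have hginj : Function.Injective g.mulVec := by
    apply Matrix.mulVec_injective_of_isUnit
    rwa [Matrix.isUnit_iff_isUnit_det]
  have hτinj : Function.Injective τ := by
    intro a b hab
    apply halfFam_injective n k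
    apply hginj
    rw [hτ, hτ, hab]
  let e : Fin (n+1) ≃ Fin (n+1) := Equiv.ofBijective τ (Finite.injective_iff_bijective.mp hτinj)
  have he : ∀ i, e i = τ i := fun i => rfl
  let z : Fin (n+1) → ℤ := fun i => if (i:ℕ) < k then 1 else 0
  have h1 : comb (halfFam n k') (z ∘ e.symm) = (2:ℤ) • g.mulVec (Pi.single 0 1) := by
    have h2 : g.mulVec (comb (halfFam n k) z) = (2:ℤ) • g.mulVec (Pi.single 0 1) := by
      rw [comb_halfFam_first hk, Matrix.mulVec_smul]
    rw [← h2, comb, comb, Matrix.mulVec_sum]
    rw [← Equiv.sum_comp e]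
    refine Finset.sum_congr rfl fun i _ => ?_
    rw [Matrix.mulVec_smul, hτ i, Function.comp_apply, Equiv.symm_apply_apply, he]
  have hz : ∀ i, (z ∘ e.symm) i = 0 ∨ (z ∘ e.symm) i = 1 := by
    intro i
    simp only [z, Function.comp_apply]
    split_ifs
    · right; rfl
    · left; rfl
  have hcard : ∀ m : ℕ, m ≤ n + 1 → ∑ i : Fin (n+1), (if (i:ℕ) < m then (1:ℤ) else 0) = m := by
    intro m hm
    rw [Finset.sum_ite]
    simp only [Finset.sum_const, nsmul_eq_mul, mul_one, mul_zero, add_zero]
    rw [Fin.card_filter_val_lt]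
    congr 1
    omega
  have hsum : ∑ i, (z ∘ e.symm) i = k := by
    rw [← hcard k hkn]
    exact Equiv.sum_comp e.symm z
  rcases comb_halfFam_even hz h1 hk' with h3 | h3
  · simp only [h3, Finset.sum_const_zero] at hsum
    omega
  · simp only [h3] at hsum
    rw [hcard k' hkn'] at hsum
    exact hkk (by exact_mod_cast hsum.symm)

end Pool.Agent.Helper46.Sail
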