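import Pool.Agent.Helper46.SailHalf

open scoped LinearAlgebra.Projectivization Pointwise

open MeasureTheory

namespace Pool.Agent.Helper46.Sail

variable {n : ℕ}

lemma mono_of_subset [MeasurableSpace (CF n)] [MeasurableConstSMul (E n ≃ₗ[ℝ] E n) (CF n)]
    (μ : Measure (CF n)) [SMulInvariantMeasure (E n ≃ₗ[ℝ] E n) (CF n) μ] {A : E n ≃ₗ[ℝ] E n}
    {S T : Set (CF n)} (h : A • S ⊆ T) : μ S ≤ μ T := by
  rw [← measure_smul μ A S]
  exact measure_mono h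

theorem simplex_le [MeasurableSpace (CF n)] [MeasurableConstSMul (E n ≃ₗ[ℝ] E n) (CF n)]
    (μ : Measure (CF n)) [SMulInvariantMeasure (E n ≃ₗ[ℝ] E n) (CF n) μ]
    (s : Finset (Fin (n + 1) → ℤ)) (hs : s.card = n + 1) :
    μ (CFof n (poly s)) ≤ μ (CFof n (poly (unitVerts n))) := by
  rcases (CFof n (poly s)).eq_empty_or_nonempty with h | h
  · rw [h]; simp
  · obtain ⟨A, hA⟩ := exists_simplex hs h
    exact mono_of_subset μ hA

theorem half_eq [MeasurableSpace (CF n)] [MeasurableConstSMul (E n ≃ₗ[ℝ] E n) (CF n)]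
    (μ : Measure (CF n)) [SMulInvariantMeasure (E n ≃ₗ[ℝ] E n) (CF n) μ] {k : ℕ} (hk : Odd k)
    (hk3 : 3 ≤ k) (hkn : k ≤ n + 1) :
    μ (CFof n (poly (halfVerts n k))) = μ (CFof n (poly (unitVerts n))) :=
  le_antisymm (simplex_le μ _ (card_halfVerts n k)) (mono_of_subset μ (smul_unit_subset hk hkn hk3))

theorem config_le [MeasurableSpace (CF n)] [MeasurableConstSMul (E n ≃ₗ[ℝ] E n) (CF n)]
    (μ : Measure (CF n)) [SMulInvariantMeasure (E n ≃ₗ[ℝ] E n) (CF n) μ]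
    (s : Finset (Fin (n + 1) → ℤ)) : ∃ V : Finset (Fin (n + 1) → ℤ), IsUnimodularConfig V ∧
      μ (CFof n (poly s)) ≤ μ (CFof n (poly V)) := by
  rcases (CFof n (poly s)).eq_empty_or_nonempty with h | h
  · exact ⟨unitVerts n, isUnimodularConfig_unitVerts, by rw [h]; simp⟩
  · obtain ⟨V, A, hV, hA⟩ := exists_config (poly_bounded s) (convex_convexHull ℝ _) h
    exact ⟨V, hV, mono_of_subset μ hA⟩

theorem exists_max [MeasurableSpace (CF n)] [MeasurableConstSMul (E n ≃ₗ[ℝ] E n) (CF n)]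
    (μ : Measure (CF n)) [SMulInvariantMeasure (E n ≃ₗ[ℝ] E n) (CF n) μ] :
    ∃ V : Finset (Fin (n + 1) → ℤ), IsUnimodularConfig V ∧
      ∀ s : Finset (Fin (n + 1) → ℤ), μ (CFof n (poly s)) ≤ μ (CFof n (poly V)) := by
  obtain ⟨V, hV, hmax⟩ := Set.exists_max_image _ (fun V => μ (CFof n (poly V))) (finite_configs n)
    ⟨unitVerts n, isUnimodularConfig_unitVerts⟩
  refine ⟨V, hV, fun s => ?_⟩
  obtain ⟨W, hW, hle⟩ := config_le μ s
  exact hle.trans (hmax W hW)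

theorem main (n : ℕ) [MeasurableSpace (CF n)] [MeasurableConstSMul (E n ≃ₗ[ℝ] E n) (CF n)]
    (μ : Measure (CF n)) [SMulInvariantMeasure (E n ≃ₗ[ℝ] E n) (CF n) μ] :
    (∀ s : Finset (Fin (n + 1) → ℤ), s.card = n + 1 →
      μ (CFof n (poly s)) ≤ μ (CFof n (poly (unitVerts n)))) ∧
    (∀ k, Odd k → 3 ≤ k → k ≤ n + 1 →
      μ (CFof n (poly (halfVerts n k))) = μ (CFof n (poly (unitVerts n))) ∧
      ¬ Congruent (halfVerts n k) (unitVerts n) ∧
      ∀ k', Odd k' → 3 ≤ k' → k' ≤ n + 1 → k ≠ k' → ¬ Congruent (halfVerts n k) (halfVerts n k')) ∧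
    {V : Finset (Fin (n + 1) → ℤ) | IsUnimodularConfig V}.Finite ∧
    (∀ s : Finset (Fin (n + 1) → ℤ), ∃ V, IsUnimodularConfig V ∧
      μ (CFof n (poly s)) ≤ μ (CFof n (poly V))) ∧
    ∃ V : Finset (Fin (n + 1) → ℤ), IsUnimodularConfig V ∧
      ∀ s : Finset (Fin (n + 1) → ℤ), μ (CFof n (poly s)) ≤ μ (CFof n (poly V)) :=
  ⟨simplex_le μ, fun _ hk hk3 hkn => ⟨half_eq μ hk hk3 hkn, not_congruent_unit n _,
    fun _ _ hk3' hkn' hne => not_congruent_half (by omega) (by omega) hkn hkn' hne⟩,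
    finite_configs n, config_le μ, exists_max μ⟩

end Pool.Agent.Helper46.Sail
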