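import Pool.Agent.Helper46.SailBasic

open scoped LinearAlgebra.Projectivization Pointwise

namespace Pool.Agent.Helper46.Sail

variable {n : ℕ}

/-! ### The unit simplex -/

lemma mem_unitVerts {z : Fin (n+1) → ℤ} : z ∈ unitVerts n ↔ ∃ i, z = Pi.single i 1 := by
  simp [unitVerts, eq_comm]

lemma isUnimodularConfig_unitVerts : IsUnimodularConfig (unitVerts n) where
  single_mem i := mem_unitVerts.mpr ⟨i, rfl⟩
  sum_eq v hv := by
    obtain ⟨i, rfl⟩ := mem_unitVerts.mp hv
    simp
  abs_det_le w hw := by
    have hch : ∀ i, ∃ j, w i = Pi.single j 1 := fun i => mem_unitVerts.mp (hw i)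
    choose σ hσ using hch
    by_cases hinj : Function.Injective σ
    · have hbij : Function.Bijective σ := Finite.injective_iff_bijective.mp hinj
      have : Matrix.of w = (1 : Matrix (Fin (n+1)) (Fin (n+1)) ℤ).submatrix (Equiv.ofBijective σ hbij) id := by
        ext i j
        simp [hσ, Matrix.one_apply, Pi.single_apply, eq_comm]
      rw [this, Matrix.det_permute]
      simp
    · rw [Function.not_injective_iff] at hinj
      obtain ⟨i, j, hij, hne⟩ := hinj
      have h1 : w i = w j := by rw [hσ, hσ, hij]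
      have h0 : (Matrix.of w).det = 0 := Matrix.det_zero_of_row_eq hne (by
        ext k
        simp [h1])
      simp [h0]
  mem_of_mem_poly z hz := by
    have h1 : poly (unitVerts n) ⊆ {x : E n | (∀ i, 0 ≤ x i) ∧ ∑ i, x i = 1} := by
      apply convexHull_min
      · rintro _ ⟨v, hv, rfl⟩
        obtain ⟨i, rfl⟩ := mem_unitVerts.mp (by simpa using hv)
        rw [toReal_single]
        refine ⟨fun j => ?_, by simp⟩
        simp only [Pi.single_apply]
        split_ifs <;> norm_num
      · rintro x ⟨hx1, hx2⟩ y ⟨hy1, hy2⟩ a b ha hb hab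
        refine ⟨fun i => ?_, ?_⟩
        · have := mul_nonneg ha (hx1 i)
          have := mul_nonneg hb (hy1 i)
          simp only [Pi.add_apply, Pi.smul_apply, smul_eq_mul]
          linarith
        · simp only [Pi.add_apply, Pi.smul_apply, smul_eq_mul, Finset.sum_add_distrib, ← Finset.mul_sum]
          rw [hx2, hy2]; linarith
    obtain ⟨hz1, hz2⟩ := h1 hz
    have hz1' : ∀ i, 0 ≤ z i := fun i => by
      have h : (0:ℝ) ≤ (z i : ℝ) := hz1 i
      exact_mod_cast h
    have hz2' : ∑ i, z i = 1 := by
      have : ((∑ i, z i : ℤ) : ℝ) = 1 := by push_cast; exact hz2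
      exact_mod_cast this
    rw [mem_unitVerts]
    obtain ⟨i, hi⟩ : ∃ i, z i ≠ 0 := by
      by_contra hcon
      push Not at hcon
      simp [hcon] at hz2'
    refine ⟨i, ?_⟩
    have hzi : 1 ≤ z i := by have := hz1' i; omega
    have hsum : z i + ∑ j ∈ Finset.univ.erase i, z j = 1 := by
      rw [Finset.add_sum_erase _ _ (Finset.mem_univ i)]; exact hz2'
    have hnn : 0 ≤ ∑ j ∈ Finset.univ.erase i, z j := Finset.sum_nonneg fun j _ => hz1' j
    have h0 : ∑ j ∈ Finset.univ.erase i, z j = 0 := by omega
    have h0' := (Finset.sum_eq_zero_iff_of_nonneg (fun j _ => hz1' j)).mp h0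
    funext j
    by_cases hj : j = i
    · subst hj; simp; omega
    · rw [h0' j (Finset.mem_erase.mpr ⟨hj, Finset.mem_univ j⟩)]
      simp [hj]

/-! ### Finiteness of the set of unimodular configurations -/

lemma abs_le_of_config {V : Finset (Fin (n+1) → ℤ)} (hV : IsUnimodularConfig V)
    {v : Fin (n+1) → ℤ} (hv : v ∈ V) (i : Fin (n+1)) : |v i| ≤ 1 := by
  have h := hV.abs_det_le (Function.update (fun j => Pi.single j 1) i v) (by
    intro j
    by_cases hj : j = i
    · subst hj; simpa using hv
    · simp [Function.update_of_ne hj, hV.single_mem])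
  have : (Matrix.of (Function.update (fun j : Fin (n+1) => (Pi.single j 1 : Fin (n+1) → ℤ)) i v)).det = v i := by
    have h1 : Matrix.of (Function.update (fun j : Fin (n+1) => (Pi.single j 1 : Fin (n+1) → ℤ)) i v) =
        (1 : Matrix (Fin (n+1)) (Fin (n+1)) ℤ).updateRow i v := by
      ext a b
      by_cases ha : a = i
      · subst ha; simp
      · simp [Function.update_of_ne ha, Matrix.updateRow_ne ha, Matrix.one_apply, Pi.single_apply, eq_comm]
    rw [h1]
    have h2 : v = ∑ j, v j • (1 : Matrix (Fin (n+1)) (Fin (n+1)) ℤ) j := by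
      funext k
      simp [Finset.sum_apply, Matrix.one_apply]
    conv_lhs => rw [h2]
    rw [Matrix.det_updateRow_sum]
    simp
  rwa [this] at h

lemma finite_configs (n : ℕ) : {V : Finset (Fin (n+1) → ℤ) | IsUnimodularConfig V}.Finite := by
  apply ((Finset.Icc (fun _ : Fin (n+1) => (-1 : ℤ)) (fun _ => 1)).powerset.finite_toSet).subset
  intro V hV
  simp only [Finset.coe_powerset, Set.mem_preimage, Set.mem_powerset_iff, Finset.coe_subset]
  intro v hv
  rw [Finset.mem_Icc]
  constructor
  · intro i; exact (abs_le.mp (abs_le_of_config hV hv i)).1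
  · intro i; exact (abs_le.mp (abs_le_of_config hV hv i)).2

/-! ### Reduction to unimodular configurations -/

lemma det_comb (w w' : Fin (n+1) → Fin (n+1) → ℤ) :
    (Matrix.of fun i => comb w (w' i)).det = (Matrix.of w').det * (Matrix.of w).det := by
  rw [← Matrix.det_mul]
  congr 1
  ext i j
  simp [comb, Matrix.mul_apply, Finset.sum_apply]

lemma smul_CFof_subset {w : Fin (n+1) → Fin (n+1) → ℤ} (hw : (Matrix.of w).det ≠ 0) {F : Set (E n)}
    (hb : Bornology.IsBounded F) (hwF : ∀ i, toReal (w i) ∈ F) :
    mapOf w (linearIndependent_of_det hw) • CFof n F ⊆ CFof n (convexHull ℝ (toReal '' pull w F)) := by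
  rintro _ ⟨κ, ⟨C, hC, hface⟩, rfl⟩
  refine ⟨mapOf w (linearIndependent_of_det hw) '' C, isConeOf_smul hC _, ?_⟩
  obtain ⟨b, hb', -, rfl⟩ := hC
  exact pull_face hw hb hwF hface

lemma exists_config {F : Set (E n)} (hb : Bornology.IsBounded F) (hconv : Convex ℝ F)
    (hne : (CFof n F).Nonempty) :
    ∃ (V : Finset (Fin (n+1) → ℤ)) (A : E n ≃ₗ[ℝ] E n), IsUnimodularConfig V ∧
      A • CFof n F ⊆ CFof n (poly V) := by
  obtain ⟨κ, C, ⟨b, hbli, -, rfl⟩, hface⟩ := hne
  obtain ⟨l, c, hc, hl, hF, hF', w0, hw0, hdet0⟩ := face_data hb hface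
  have hfin : {w : Fin (n+1) → Fin (n+1) → ℤ | ∀ i, w i ∈ {z : Fin (n+1) → ℤ | toReal z ∈ F}}.Finite :=
    Set.Finite.pi' fun _ => finite_int hb
  obtain ⟨w, hwF, hmax⟩ := Set.exists_max_image _ (fun w => |(Matrix.of w).det|) hfin ⟨w0, hw0⟩
  have hdet : (Matrix.of w).det ≠ 0 := by
    have h1 := hmax w0 hw0
    have h2 := abs_pos.mpr hdet0
    intro h0
    simp only [h0, abs_zero] at h1
    omega
  have hli := linearIndependent_of_det hdet
  have hcoe : ((pull_finite hdet hb).toFinset : Set (Fin (n+1) → ℤ)) = pull w F := Set.Finite.coe_toFinset _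
  refine ⟨(pull_finite hdet hb).toFinset, mapOf w hli, ?_, ?_⟩
  · refine ⟨fun i => ?_, fun v hv => ?_, fun w' hw' => ?_, fun z hz => ?_⟩
    · rw [Set.Finite.mem_toFinset]
      show toReal (comb w _) ∈ F
      rw [comb_single]; exact hwF i
    · rw [Set.Finite.mem_toFinset] at hv
      have hv' : toReal (comb w v) ∈ F := hv
      have h1 : l (toReal (comb w v)) = c := by rw [hF] at hv'; exact hv'.2
      have h2 : ∀ i, l (toReal (w i)) = c := by
        intro i
        have : toReal (w i) ∈ F := hwF i
        rw [hF] at this; exact this.2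
      rw [toReal_comb, map_sum] at h1
      simp only [map_smul, h2, smul_eq_mul, ← Finset.sum_mul] at h1
      have h3 : ∑ i, toReal v i = 1 := by
        have : (∑ i, toReal v i - 1) * c = 0 := by linarith
        rcases mul_eq_zero.mp this with h | h
        · linarith
        · exact absurd h hc.ne'
      have h4 : ((∑ i, v i : ℤ) : ℝ) = 1 := by push_cast; exact h3
      exact_mod_cast h4
    · have h1 := hmax (fun i => comb w (w' i)) (fun i => by
        have := hw' i
        rw [Set.Finite.mem_toFinset] at this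
        exact this)
      rw [det_comb, abs_mul] at h1
      have h2 := abs_pos.mpr hdet
      by_contra hcon
      push Not at hcon
      nlinarith
    · rw [Set.Finite.mem_toFinset]
      show toReal (comb w z) ∈ F
      rw [← mapOf_symm_toReal w hli]
      have hsub : poly (pull_finite hdet hb).toFinset ⊆ (mapOf w hli).symm ⁻¹' F := by
        rw [poly, hcoe]
        apply convexHull_min
        · rintro _ ⟨v, hv, rfl⟩
          show (mapOf w hli).symm (toReal v) ∈ F
          rw [mapOf_symm_toReal]; exact hv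
        · exact hconv.linear_preimage ((mapOf w hli).symm : E n →ₗ[ℝ] E n)
      exact hsub hz
  · rw [poly, hcoe]
    exact smul_CFof_subset hdet hb hwF

/-! ### Simplices -/

lemma exists_simplex {s : Finset (Fin (n+1) → ℤ)} (hs : s.card = n + 1) (hne : (CFof n (poly s)).Nonempty) :
    ∃ A : E n ≃ₗ[ℝ] E n, A • CFof n (poly s) ⊆ CFof n (poly (unitVerts n)) := by
  have hb := poly_bounded s
  obtain ⟨κ, C, ⟨b, hbli, -, rfl⟩, hface⟩ := hne
  obtain ⟨l, c, hc, hl, hF, hF', -⟩ := face_data hb hface
  have hspan : Submodule.span ℝ (poly s) = ⊤ := by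
    refine span_face (l := l) hc (fun x hx => ?_) hface.1 hface.2.1
    rw [hF] at hx
    exact hx.2
  let e : Fin (n+1) ≃ s := (s.equivFinOfCardEq hs).symm
  let w : Fin (n+1) → Fin (n+1) → ℤ := fun i => (e i : Fin (n+1) → ℤ)
  have hrange : Set.range (fun i => toReal (w i)) = toReal '' (s : Set (Fin (n+1) → ℤ)) := by
    ext x
    constructor
    · rintro ⟨i, rfl⟩
      exact ⟨w i, by simp [w], rfl⟩
    · rintro ⟨z, hz, rfl⟩
      refine ⟨e.symm ⟨z, by simpa using hz⟩, ?_⟩
      simp [w]
  have hli : LinearIndependent ℝ (fun i => toReal (w i)) := by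
    apply linearIndependent_of_top_le_span_of_card_eq_finrank
    · rw [← hspan, Submodule.span_le, hrange]
      exact convexHull_min Submodule.subset_span (Submodule.convex _)
    · simp
  have hdet := det_of_linearIndependent hli
  have hwF : ∀ i, toReal (w i) ∈ poly s := fun i => poly_mem (e i).2
  refine ⟨mapOf w (linearIndependent_of_det hdet), ?_⟩
  have hpull : pull w (poly s) = (unitVerts n : Set (Fin (n+1) → ℤ)) := by
    ext z
    constructor
    · intro hz
      have hz' : toReal (comb w z) ∈ poly s := hz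
      apply isUnimodularConfig_unitVerts.mem_of_mem_poly
      have h1 : (mapOf w hli) '' poly s ⊆ poly (unitVerts n) := by
        rw [poly, ← hrange]
        rw [show (mapOf w hli) '' convexHull ℝ (Set.range fun i => toReal (w i)) =
          ((mapOf w hli : E n →ₗ[ℝ] E n)) '' convexHull ℝ (Set.range fun i => toReal (w i)) from rfl,
          LinearMap.image_convexHull]
        apply convexHull_mono
        rintro _ ⟨_, ⟨i, rfl⟩, rfl⟩
        refine ⟨Pi.single i 1, by simp [unitVerts], ?_⟩
        rw [toReal_single]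
        exact (mapOf_apply w hli i).symm
      apply h1
      refine ⟨_, hz', ?_⟩
      rw [← mapOf_symm_toReal w hli, LinearEquiv.apply_symm_apply]
    · intro hz
      obtain ⟨i, rfl⟩ := mem_unitVerts.mp (by simpa using hz)
      show toReal (comb w _) ∈ poly s
      rw [comb_single]; exact hwF i
  have := smul_CFof_subset hdet hb hwF
  rwa [hpull] at this

end Pool.Agent.Helper46.Sail
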