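import Pool.Agent.Helper46.FaceFrame
import Pool.Agent.Helper46.PlanarMain

open MeasureTheory Set
open scoped ENNReal

namespace Pool.Agent.Helper46.Sail

open Pool.Agent.Helper46.Planar

/-! ### Shears -/

/-- the shear matrix -/
def shM (p : ℝ × ℝ) : Matrix (Fin 3) (Fin 3) ℝ := !![1, 0, 0; p.1, 1, 0; p.2, 0, 1]

/-- adding multiples of the first vector to the two others -/
noncomputable def sh (p : ℝ × ℝ) (B : Fr 2) : Fr 2 := ract (n := 2) (shM p) B

lemma det_shM (p : ℝ × ℝ) : (shM p).det = 1 := by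
  rw [shM, Matrix.det_fin_three]; simp

lemma sh_zero' (p : ℝ × ℝ) (B : Fr 2) : sh p B 0 = B 0 := by
  simp [sh, ract_apply, shM, Fin.sum_univ_three]

lemma sh_one (p : ℝ × ℝ) (B : Fr 2) : sh p B 1 = p.1 • B 0 + B 1 := by
  simp [sh, ract_apply, shM, Fin.sum_univ_three]

lemma sh_two (p : ℝ × ℝ) (B : Fr 2) : sh p B 2 = p.2 • B 0 + B 2 := by
  simp [sh, ract_apply, shM, Fin.sum_univ_three]

lemma sh_sh (p q : ℝ × ℝ) (B : Fr 2) : sh p (sh q B) = sh (p + q) B := by
  funext i
  fin_cases i
  · simp only [Fin.zero_eta]; rw [sh_zero', sh_zero', sh_zero']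
  · simp only [Fin.mk_one]; rw [sh_one, sh_zero', sh_one, sh_one, Prod.fst_add, add_smul, add_assoc]
  · simp only [Fin.reduceFinMk]; rw [sh_two, sh_zero', sh_two, sh_two, Prod.snd_add, add_smul, add_assoc]

lemma sh_zero (B : Fr 2) : sh 0 B = B := by
  funext i
  fin_cases i
  · simp only [Fin.zero_eta]; rw [sh_zero']
  · simp only [Fin.mk_one]; rw [sh_one]; simp
  · simp only [Fin.reduceFinMk]; rw [sh_two]; simp

lemma dtm_sh (p : ℝ × ℝ) (B : Fr 2) : dtm (sh p B) = dtm B := by
  rw [sh, dtm_ract, det_shM, one_mul]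

lemma mp_sh (p : ℝ × ℝ) : MeasurePreserving (sh p) (frMeasure 2) (frMeasure 2) :=
  mp_ract (n := 2) (shM p) (by rw [det_shM]; norm_num)

lemma measurable_sh_uncurry : Measurable (fun q : (ℝ × ℝ) × Fr 2 => sh q.1 q.2) := by
  apply measurable_pi_lambda
  intro i
  fin_cases i
  · simp only [Fin.zero_eta, sh_zero']
    exact (measurable_pi_apply 0).comp measurable_snd
  · simp only [Fin.mk_one, sh_one]
    exact ((measurable_fst.comp measurable_fst).smul ((measurable_pi_apply 0).comp measurable_snd)).add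
      ((measurable_pi_apply 1).comp measurable_snd)
  · simp only [Fin.reduceFinMk, sh_two]
    exact ((measurable_snd.comp measurable_fst).smul ((measurable_pi_apply 0).comp measurable_snd)).add
      ((measurable_pi_apply 2).comp measurable_snd)

lemma zs_sh_zero (p : ℝ × ℝ) (B : Fr 2) : zs (sh p B) 0 = zs B 0 := by
  simp only [zs, sh_zero']

lemma zs_sh_one (p : ℝ × ℝ) (B : Fr 2) : zs (sh p B) 1 = p.1 * zs B 0 + zs B 1 := by
  simp only [zs, sh_one, Pi.add_apply, Pi.smul_apply, smul_eq_mul, Finset.sum_add_distrib, Finset.mul_sum]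

lemma zs_sh_two (p : ℝ × ℝ) (B : Fr 2) : zs (sh p B) 2 = p.2 * zs B 0 + zs B 2 := by
  simp only [zs, sh_two, Pi.add_apply, Pi.smul_apply, smul_eq_mul, Finset.sum_add_distrib, Finset.mul_sum]

lemma coord_sh {B : Fr 2} (hB : dtm B ≠ 0) (p : ℝ × ℝ) (v : E 2) :
    coord (sh p B) v = ![coord B v 0 - p.1 * coord B v 1 - p.2 * coord B v 2, coord B v 1, coord B v 2] := by
  have h1 := sum_coord hB v
  have h2 : v = ∑ k, (![coord B v 0 - p.1 * coord B v 1 - p.2 * coord B v 2, coord B v 1, coord B v 2] : Fin 3 → ℝ) k •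
      sh p B k := by
    rw [Fin.sum_univ_three] at h1 ⊢
    rw [sh_zero', sh_one, sh_two]
    show v = (coord B v 0 - p.1 * coord B v 1 - p.2 * coord B v 2) • B 0 +
      coord B v 1 • (p.1 • B 0 + B 1) + coord B v 2 • (p.2 • B 0 + B 2)
    conv_lhs => rw [← h1]
    module
  have h3 : dtm (sh p B) ≠ 0 := by rw [dtm_sh]; exact hB
  conv_lhs => rw [h2]
  exact coord_sum (n := 2) h3 _

/-! ### The shear gauge and slice -/

/-- the gauge invariant under shears -/
noncomputable def shGauge : Fin 3 → Fr 2 → ℝ :=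
  ![fun B => |zs B 0|, fun B => ‖B 1 - (zs B 1 / zs B 0) • B 0‖, fun B => ‖B 2 - (zs B 2 / zs B 0) • B 0‖]

lemma zs_sc {n : ℕ} (s : Fin (n+1) → ℝ) (B : Fr n) (k : Fin (n+1)) : zs (sc s B) k = Real.exp (s k) * zs B k := by
  simp [zs, sc, Finset.mul_sum]

lemma shGauge_gauge : Gauge (n := 2) shGauge where
  meas i := by
    fin_cases i
    · exact (measurable_zs (n := 2) 0).abs
    · exact ((measurable_pi_apply 1).sub (((measurable_zs (n := 2) 1).div (measurable_zs (n := 2) 0)).smul
        (measurable_pi_apply 0))).norm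
    · exact ((measurable_pi_apply 2).sub (((measurable_zs (n := 2) 2).div (measurable_zs (n := 2) 0)).smul
        (measurable_pi_apply 0))).norm
  hom i s B := by
    have haux : ∀ k : Fin 3, ‖sc s B k - (zs (sc s B) k / zs (sc s B) 0) • sc s B 0‖ =
        Real.exp (s k) * ‖B k - (zs B k / zs B 0) • B 0‖ := by
      intro k
      have : sc s B k - (zs (sc s B) k / zs (sc s B) 0) • sc s B 0 =
          Real.exp (s k) • (B k - (zs B k / zs B 0) • B 0) := by
        rw [zs_sc, zs_sc, smul_sub]
        simp only [sc]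
        rw [smul_smul, smul_smul]
        congr 2
        have h0 := (Real.exp_pos (s 0)).ne'
        by_cases hz : zs B 0 = 0
        · rw [hz]; simp
        · field_simp
      rw [this, norm_smul, Real.norm_eq_abs, abs_of_pos (Real.exp_pos _)]
    fin_cases i
    · show |zs (sc s B) 0| = Real.exp (s 0) * |zs B 0|
      rw [zs_sc, abs_mul, abs_of_pos (Real.exp_pos _)]
    · exact haux 1
    · exact haux 2
  pos := by
    filter_upwards [ae_dtm, ae_zs] with B hB hz i
    have hli := linearIndependent_of_dtm hB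
    have haux : ∀ (k : Fin 3) (c : ℝ), k ≠ 0 → 0 < ‖B k - c • B 0‖ := by
      intro k c hk
      rw [norm_pos_iff]
      intro h
      have h2 : LinearIndependent ℝ ![B k, B 0] := by
        have := hli.comp ![k, 0] (by
          intro x y hxy
          fin_cases x <;> fin_cases y <;> simp_all)
        convert! this using 1
        funext x
        fin_cases x <;> rfl
      rw [LinearIndependent.pair_iff] at h2
      have := h2 1 (-c) (by rw [one_smul, neg_smul, ← sub_eq_add_neg]; exact h)
      exact one_ne_zero this.1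
    fin_cases i
    · exact abs_pos.mpr (hz 0)
    · exact haux 1 _ (by decide)
    · exact haux 2 _ (by decide)

lemma win_shGauge_sh {B : Fr 2} (hz : zs B 0 ≠ 0) (p : ℝ × ℝ) : win (n := 2) shGauge (sh p B) = win (n := 2) shGauge B := by
  have h : ∀ i, shGauge i (sh p B) = shGauge i B := by
    intro i
    fin_cases i
    · show |zs (sh p B) 0| = |zs B 0|
      rw [zs_sh_zero]
    · show ‖sh p B 1 - (zs (sh p B) 1 / zs (sh p B) 0) • sh p B 0‖ = ‖B 1 - (zs B 1 / zs B 0) • B 0‖
      rw [zs_sh_zero, zs_sh_one, sh_one, sh_zero']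
      congr 1
      have : (p.1 * zs B 0 + zs B 1) / zs B 0 = p.1 + zs B 1 / zs B 0 := by field_simp
      rw [this, add_smul]
      abel
    · show ‖sh p B 2 - (zs (sh p B) 2 / zs (sh p B) 0) • sh p B 0‖ = ‖B 2 - (zs B 2 / zs B 0) • B 0‖
      rw [zs_sh_zero, zs_sh_two, sh_two, sh_zero']
      congr 1
      have : (p.2 * zs B 0 + zs B 2) / zs B 0 = p.2 + zs B 2 / zs B 0 := by field_simp
      rw [this, add_smul]
      abel
  unfold win
  have : sh p B ∈ {B : Fr 2 | ∀ i, 1 ≤ shGauge i B ∧ shGauge i B < Real.exp 1} ↔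
      B ∈ {B : Fr 2 | ∀ i, 1 ≤ shGauge i B ∧ shGauge i B < Real.exp 1} := by
    simp only [Set.mem_ofPred_eq, h]
  by_cases hb : B ∈ {B : Fr 2 | ∀ i, 1 ≤ shGauge i B ∧ shGauge i B < Real.exp 1}
  · rw [Set.indicator_of_mem hb, Set.indicator_of_mem (this.2 hb)]; rfl
  · rw [Set.indicator_of_notMem hb, Set.indicator_of_notMem (fun h' => hb (this.1 h'))]

/-- the slice function -/
noncomputable def slice (B : Fr 2) : ℝ≥0∞ :=
  Set.indicator {B : Fr 2 | (0 ≤ zs B 1 / zs B 0 ∧ zs B 1 / zs B 0 < 1) ∧ 0 ≤ zs B 2 / zs B 0 ∧ zs B 2 / zs B 0 < 1} 1 B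

lemma measurable_slice : Measurable slice := by
  apply Measurable.indicator measurable_one
  have h1 : Measurable fun B : Fr 2 => zs B 1 / zs B 0 := (measurable_zs (n := 2) 1).div (measurable_zs (n := 2) 0)
  have h2 : Measurable fun B : Fr 2 => zs B 2 / zs B 0 := (measurable_zs (n := 2) 2).div (measurable_zs (n := 2) 0)
  exact ((measurableSet_le measurable_const h1).inter (measurableSet_lt h1 measurable_const)).inter
    ((measurableSet_le measurable_const h2).inter (measurableSet_lt h2 measurable_const))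

lemma slice_integral {B : Fr 2} (hz : zs B 0 ≠ 0) : ∫⁻ p : ℝ × ℝ, slice (sh p B) = 1 := by
  have h1 : ∀ p : ℝ × ℝ, slice (sh p B) =
      Set.indicator (Set.Ico (-(zs B 1 / zs B 0)) (1 - zs B 1 / zs B 0) ×ˢ
        Set.Ico (-(zs B 2 / zs B 0)) (1 - zs B 2 / zs B 0)) 1 p := by
    intro p
    unfold slice
    have e1 : (p.1 * zs B 0 + zs B 1) / zs B 0 = p.1 + zs B 1 / zs B 0 := by field_simp
    have e2 : (p.2 * zs B 0 + zs B 2) / zs B 0 = p.2 + zs B 2 / zs B 0 := by field_simp
    have : sh p B ∈ {B : Fr 2 | (0 ≤ zs B 1 / zs B 0 ∧ zs B 1 / zs B 0 < 1) ∧ 0 ≤ zs B 2 / zs B 0 ∧ zs B 2 / zs B 0 < 1} ↔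
        p ∈ (Set.Ico (-(zs B 1 / zs B 0)) (1 - zs B 1 / zs B 0) ×ˢ
        Set.Ico (-(zs B 2 / zs B 0)) (1 - zs B 2 / zs B 0)) := by
      simp only [Set.mem_ofPred_eq, zs_sh_zero, zs_sh_one, zs_sh_two, e1, e2, Set.mem_prod, Set.mem_Ico]
      constructor
      · rintro ⟨⟨a, b⟩, c, d⟩
        exact ⟨⟨by linarith, by linarith⟩, by linarith, by linarith⟩
      · rintro ⟨⟨a, b⟩, c, d⟩
        exact ⟨⟨by linarith, by linarith⟩, by linarith, by linarith⟩
    by_cases hs : sh p B ∈ {B : Fr 2 | (0 ≤ zs B 1 / zs B 0 ∧ zs B 1 / zs B 0 < 1) ∧ 0 ≤ zs B 2 / zs B 0 ∧ zs B 2 / zs B 0 < 1}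
    · rw [Set.indicator_of_mem hs, Set.indicator_of_mem (this.1 hs)]; rfl
    · rw [Set.indicator_of_notMem hs, Set.indicator_of_notMem (fun h => hs (this.2 h))]
  simp_rw [h1]
  rw [lintegral_indicator_one (measurableSet_Ico.prod measurableSet_Ico), Measure.volume_eq_prod,
    Measure.prod_prod, Real.volume_Ico, Real.volume_Ico]
  simp

attribute [irreducible] sh slice
attribute [local irreducible] win

/-- disintegration along shears -/
theorem fiber_formula {S : Set (Fr 2)} (hS : MeasurableSet S) :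
    ∫⁻ B, win (n := 2) shGauge B * S.indicator 1 B ∂(frMeasure 2) =
      ∫⁻ B, slice B * win (n := 2) shGauge B * volume {p : ℝ × ℝ | sh p B ∈ S} ∂(frMeasure 2) := by
  have hw := measurable_win (n := 2) shGauge_gauge
  have hf : Measurable (S.indicator (1 : Fr 2 → ℝ≥0∞)) := measurable_one.indicator hS
  have hslu : Measurable (fun q : (ℝ × ℝ) × Fr 2 => slice (sh q.1 q.2)) := measurable_slice.comp measurable_sh_uncurry
  calc ∫⁻ B, win (n := 2) shGauge B * S.indicator 1 B ∂(frMeasure 2)
      = ∫⁻ B, win (n := 2) shGauge B * S.indicator 1 B * (∫⁻ p : ℝ × ℝ, slice (sh p B)) ∂(frMeasure 2) := by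
        apply lintegral_congr_ae
        filter_upwards [ae_zs] with B hz
        rw [slice_integral (hz 0), mul_one]
    _ = ∫⁻ B, (∫⁻ p : ℝ × ℝ, win (n := 2) shGauge B * S.indicator 1 B * slice (sh p B)) ∂(frMeasure 2) := by
        apply lintegral_congr
        intro B
        rw [lintegral_const_mul]
        exact hslu.comp (measurable_id.prodMk measurable_const)
    _ = ∫⁻ p : ℝ × ℝ, ∫⁻ B, win (n := 2) shGauge B * S.indicator 1 B * slice (sh p B) ∂(frMeasure 2) := by
        rw [lintegral_lintegral_swap]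
        apply Measurable.aemeasurable
        apply Measurable.mul
        · exact (hw.mul hf).comp measurable_fst
        · exact hslu.comp measurable_swap
    _ = ∫⁻ p : ℝ × ℝ, ∫⁻ B, win (n := 2) shGauge (sh (-p) B) * S.indicator 1 (sh (-p) B) * slice B ∂(frMeasure 2) := by
        apply lintegral_congr
        intro p
        have hm : Measurable fun B => win (n := 2) shGauge (sh (-p) B) * S.indicator 1 (sh (-p) B) * slice B :=
          (((hw.mul hf).comp (mp_sh (-p)).measurable)).mul measurable_slice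
        rw [← (mp_sh p).lintegral_comp hm]
        apply lintegral_congr
        intro B
        rw [sh_sh, neg_add_cancel, sh_zero]
    _ = ∫⁻ B, (∫⁻ p : ℝ × ℝ, win (n := 2) shGauge (sh (-p) B) * S.indicator 1 (sh (-p) B) * slice B) ∂(frMeasure 2) := by
        rw [lintegral_lintegral_swap]
        apply Measurable.aemeasurable
        apply Measurable.mul
        · exact (hw.mul hf).comp (measurable_sh_uncurry.comp ((measurable_fst.neg).prodMk measurable_snd))
        · exact measurable_slice.comp measurable_snd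
    _ = _ := by
        apply lintegral_congr_ae
        filter_upwards [ae_zs] with B hz
        have h2 : ∀ p : ℝ × ℝ, win (n := 2) shGauge (sh (-p) B) * S.indicator 1 (sh (-p) B) * slice B =
            slice B * win (n := 2) shGauge B * S.indicator 1 (sh (-p) B) := fun p => by
          rw [win_shGauge_sh (hz 0)]; ring
        simp_rw [h2]
        have hmS : Measurable fun p : ℝ × ℝ => S.indicator (1 : Fr 2 → ℝ≥0∞) (sh p B) :=
          hf.comp (measurable_sh_uncurry.comp (measurable_id.prodMk measurable_const))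
        rw [lintegral_const_mul]
        · congr 1
          have h3 := (Measure.measurePreserving_neg (volume : Measure (ℝ × ℝ))).lintegral_comp hmS
          rw [h3]
          have h4 : ∀ p : ℝ × ℝ, S.indicator (1 : Fr 2 → ℝ≥0∞) (sh p B) = {p : ℝ × ℝ | sh p B ∈ S}.indicator 1 p := by
            intro p
            by_cases h : sh p B ∈ S
            · rw [Set.indicator_of_mem h, Set.indicator_of_mem]
              · rfl
              · exact h
            · rw [Set.indicator_of_notMem h, Set.indicator_of_notMem]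
              exact h
          simp_rw [h4]
          rw [lintegral_indicator_one]
          exact (measurable_sh_uncurry.comp (measurable_id.prodMk measurable_const)) hS
        · exact hmS.comp measurable_neg

end Pool.Agent.Helper46.Sail
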