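import Pool.Agent.Helper46.GoodFrame

open MeasureTheory Set Filter
open scoped ENNReal Topology Pointwise

namespace Pool.Agent.Helper46.Sail

variable {n : ℕ}

/-- the linear forms of the spike cone -/
noncomputable def spikeForm (n : ℕ) (a b : Fin (n+1)) (P Q : ℝ) (k : Fin (n+1)) : E n := fun i =>
  if k = a then (if i = a then 1 else 0) + 1 / 2 + Q * (1 - (if i = b then 1 else 0))
  else if k = b then P * (if i = b then 1 else 0) + (if i = a then 1 else 0) + 1 / 2
  else (if i = k then 1 else 0) + 1 / 2

lemma sum_ite_mul' (k : Fin (n+1)) (x : E n) : ∑ i, (if i = k then (1:ℝ) else 0) * x i = x k := by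
  simp

lemma spike_a {a b : Fin (n+1)} {P Q : ℝ} (x : E n) :
    ∑ i, spikeForm n a b P Q a i * x i = x a + (∑ i, x i) / 2 + Q * ((∑ i, x i) - x b) := by
  have : ∀ i, spikeForm n a b P Q a i * x i =
      (if i = a then (1:ℝ) else 0) * x i + (1/2) * x i + (Q * x i - Q * ((if i = b then (1:ℝ) else 0) * x i)) := by
    intro i; simp only [spikeForm, if_true]; ring
  rw [Finset.sum_congr rfl fun i _ => this i, Finset.sum_add_distrib, Finset.sum_add_distrib,
    Finset.sum_sub_distrib, ← Finset.mul_sum, ← Finset.mul_sum, ← Finset.mul_sum, sum_ite_mul', sum_ite_mul']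
  ring

lemma spike_b {a b : Fin (n+1)} (hab : a ≠ b) {P Q : ℝ} (x : E n) :
    ∑ i, spikeForm n a b P Q b i * x i = P * x b + x a + (∑ i, x i) / 2 := by
  have : ∀ i, spikeForm n a b P Q b i * x i =
      P * ((if i = b then (1:ℝ) else 0) * x i) + (if i = a then (1:ℝ) else 0) * x i + (1/2) * x i := by
    intro i; simp only [spikeForm, if_neg (Ne.symm hab), if_true]; ring
  rw [Finset.sum_congr rfl fun i _ => this i, Finset.sum_add_distrib, Finset.sum_add_distrib,
    ← Finset.mul_sum, ← Finset.mul_sum, sum_ite_mul', sum_ite_mul']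
  ring

lemma spike_k {a b k : Fin (n+1)} (hka : k ≠ a) (hkb : k ≠ b) {P Q : ℝ} (x : E n) :
    ∑ i, spikeForm n a b P Q k i * x i = x k + (∑ i, x i) / 2 := by
  have : ∀ i, spikeForm n a b P Q k i * x i =
      (if i = k then (1:ℝ) else 0) * x i + (1/2) * x i := by
    intro i; simp only [spikeForm, if_neg hka, if_neg hkb]; ring
  rw [Finset.sum_congr rfl fun i _ => this i, Finset.sum_add_distrib,
    ← Finset.mul_sum, sum_ite_mul']
  ring

/-- the coefficients of the relation -/
noncomputable def spikeCoef (n : ℕ) (a b : Fin (n+1)) (P Q : ℝ) (k : Fin (n+1)) : ℝ :=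
  if k = a then P - 1 else if k = b then Q + 1 else P + Q

lemma spike_relation {a b : Fin (n+1)} (hab : a ≠ b) (P Q : ℝ) (x : E n) :
    ∑ k, spikeCoef n a b P Q k * ∑ i, spikeForm n a b P Q k i * x i =
      ((P + Q) + (P - 1) * (1 / 2 + Q) + (Q + 1) / 2 + (n - 1) * ((P + Q) / 2)) * ∑ i, x i := by
  have hb : b ∈ Finset.univ.erase a := Finset.mem_erase.2 ⟨Ne.symm hab, Finset.mem_univ _⟩
  rw [← Finset.add_sum_erase _ _ (Finset.mem_univ a), ← Finset.add_sum_erase _ _ hb, spike_a, spike_b hab]
  have h1 : ∀ k ∈ (Finset.univ.erase a).erase b, spikeCoef n a b P Q k * ∑ i, spikeForm n a b P Q k i * x i =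
      (P + Q) * x k + (P + Q) * ((∑ i, x i) / 2) := by
    intro k hk
    rw [Finset.mem_erase, Finset.mem_erase] at hk
    rw [spike_k hk.2.1 hk.1, spikeCoef, if_neg hk.2.1, if_neg hk.1]
    ring
  rw [Finset.sum_congr rfl h1, Finset.sum_add_distrib, ← Finset.mul_sum, Finset.sum_const]
  have hcard : ((Finset.univ.erase a).erase b).card = n - 1 := by
    rw [Finset.card_erase_of_mem hb, Finset.card_erase_of_mem (Finset.mem_univ a)]
    simp
  have hsum : ∑ i, x i = x a + (x b + ∑ k ∈ (Finset.univ.erase a).erase b, x k) := by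
    rw [Finset.add_sum_erase _ _ hb, Finset.add_sum_erase _ _ (Finset.mem_univ a)]
  have hn : 1 ≤ n := by
    by_contra hcon
    apply hab
    apply Fin.ext
    have h1 := a.isLt
    have h2 := b.isLt
    omega
  have hsum' : ∑ k ∈ (Finset.univ.erase a).erase b, x k = ∑ i, x i - x a - x b := by rw [hsum]; ring
  rw [hcard, hsum', nsmul_eq_mul, Nat.cast_sub hn]
  simp only [spikeCoef, if_true, if_neg (Ne.symm hab)]
  push_cast
  ring

/-- spike frames -/
theorem exists_spike {a b : Fin (n+1)} (hab : a ≠ b) {P Q : ℝ} (hP : 3 ≤ P) (hQ : 0 < Q) :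
    ∃ B0 : Fr n, Good B0 ∧ ∃ u : Fin (n+1) → ℝ, (∀ k, 0 < u k) ∧
      ∀ (v : E n) k, lam B0 v k = u k * ∑ i, spikeForm n a b P Q k i * v i := by
  have hn : 1 ≤ n := by
    by_contra hcon
    apply hab
    apply Fin.ext
    have h1 := a.isLt
    have h2 := b.isLt
    omega
  have hn' : (0:ℝ) ≤ (n:ℝ) - 1 := by
    have : (1:ℝ) ≤ n := by exact_mod_cast hn
    linarith
  set K : ℝ := (P + Q) + (P - 1) * (1 / 2 + Q) + (Q + 1) / 2 + (n - 1) * ((P + Q) / 2) with hK
  have hKpos : 0 < K := by
    have h1 : 0 < (P - 1) * (1 / 2 + Q) := mul_pos (by linarith) (by linarith)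
    have h2 : 0 ≤ ((n:ℝ) - 1) * ((P + Q) / 2) := mul_nonneg hn' (by linarith)
    rw [hK]; linarith
  have hcoef : ∀ k, 0 < spikeCoef n a b P Q k := by
    intro k
    simp only [spikeCoef]
    split_ifs <;> linarith
  obtain ⟨B0, hg, hl⟩ := exists_good (spikeForm n a b P Q) (fun k => spikeCoef n a b P Q k / K)
    (fun k => div_pos (hcoef k) hKpos)
    (by
      intro i
      have h1 := spike_relation hab P Q (Pi.single i (1:ℝ) : E n)
      have h2 : ∀ k, ∑ j, spikeForm n a b P Q k j * (Pi.single i (1:ℝ) : E n) j = spikeForm n a b P Q k i := by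
        intro k; simp [Pi.single_apply]
      have h3 : ∑ j, (Pi.single i (1:ℝ) : E n) j = 1 := by simp
      simp only [h2, h3, mul_one] at h1
      have h4 : ∑ k, spikeCoef n a b P Q k / K * spikeForm n a b P Q k i =
          (∑ k, spikeCoef n a b P Q k * spikeForm n a b P Q k i) / K := by
        rw [Finset.sum_div]
        exact Finset.sum_congr rfl fun k _ => by ring
      rw [h4, h1]
      exact div_self hKpos.ne')
    (by
      intro h0
      obtain ⟨x, hx0, hx⟩ := Matrix.exists_mulVec_eq_zero_iff.2 h0
      have hxk : ∀ k, ∑ i, spikeForm n a b P Q k i * x i = 0 := fun k => congrFun hx k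
      have hs : ∑ i, x i = 0 := by
        have h1 := spike_relation hab P Q x
        simp only [hxk, mul_zero, Finset.sum_const_zero] at h1
        rcases mul_eq_zero.1 h1.symm with h | h
        · exact absurd h hKpos.ne'
        · exact h
      have hk : ∀ k, k ≠ a → k ≠ b → x k = 0 := by
        intro k hka hkb
        have := hxk k
        rw [spike_k hka hkb, hs] at this
        linarith
      have hb : b ∈ Finset.univ.erase a := Finset.mem_erase.2 ⟨Ne.symm hab, Finset.mem_univ _⟩
      have h1 : x a + x b = 0 := by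
        rw [← hs, ← Finset.add_sum_erase _ _ (Finset.mem_univ a), ← Finset.add_sum_erase _ _ hb]
        have : ∑ k ∈ (Finset.univ.erase a).erase b, x k = 0 := by
          apply Finset.sum_eq_zero
          intro k hk'
          rw [Finset.mem_erase, Finset.mem_erase] at hk'
          exact hk k hk'.2.1 hk'.1
        rw [this, add_zero]
      have h2 := hxk b
      rw [spike_b hab, hs] at h2
      have h3 : (P - 1) * x b = 0 := by linarith
      have h4 : x b = 0 := by
        rcases mul_eq_zero.1 h3 with h | h
        · linarith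
        · exact h
      have h5 : x a = 0 := by linarith
      apply hx0
      funext k
      by_cases hka : k = a
      · rw [hka]; exact h5
      · by_cases hkb : k = b
        · rw [hkb]; exact h4
        · exact hk k hka hkb)
    (by
      intro i k
      simp only [spikeForm]
      split_ifs <;> simp only [sub_self, mul_zero, mul_one, add_zero, zero_add, sub_zero, one_div] <;>
        nlinarith [inv_pos.2 (two_pos : (0:ℝ) < 2)])
    (by
      intro v hv hv'
      by_contra hcon
      push Not at hcon
      have hs : ∑ i, toReal v i = 1 := by rw [sum_toReal, hv]; norm_num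
      have ha := hcon a
      have hb := hcon b
      have e : ∀ k, ∑ i, spikeForm n a b P Q k i * (v i : ℝ) = ∑ i, spikeForm n a b P Q k i * toReal v i :=
        fun k => rfl
      rw [e, spike_a, hs] at ha
      rw [e, spike_b hab, hs] at hb
      simp only [toReal] at ha hb
      have hk : ∀ k, k ≠ a → k ≠ b → 0 ≤ v k := by
        intro k hka hkb
        have h1 := hcon k
        rw [e, spike_k hka hkb, hs] at h1
        simp only [toReal] at h1
        by_contra hneg
        push Not at hneg
        have h2 : v k ≤ -1 := by omega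
        have h3 : (v k : ℝ) ≤ -1 := by exact_mod_cast h2
        linarith
      have hbm : b ∈ Finset.univ.erase a := Finset.mem_erase.2 ⟨Ne.symm hab, Finset.mem_univ _⟩
      have hsplit : v a + (v b + ∑ k ∈ (Finset.univ.erase a).erase b, v k) = 1 := by
        rw [Finset.add_sum_erase _ _ hbm, Finset.add_sum_erase _ _ (Finset.mem_univ a), hv]
      have hnn : 0 ≤ ∑ k ∈ (Finset.univ.erase a).erase b, v k := by
        apply Finset.sum_nonneg
        intro k hk'
        rw [Finset.mem_erase, Finset.mem_erase] at hk'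
        exact hk k hk'.2.1 hk'.1
      have hab1 : v a + v b ≤ 1 := by linarith
      have hab2 : (v a : ℝ) + v b ≤ 1 := by exact_mod_cast hab1
      -- all the coordinates are nonnegative
      have hall : ∀ k, 0 ≤ v k := by
        have hcase : 0 ≤ v a ∧ 0 ≤ v b := by
          rcases lt_or_ge (v b) 0 with h | h
          · exfalso
            have h2 : v b ≤ -1 := by omega
            have h3 : (v b : ℝ) ≤ -1 := by exact_mod_cast h2
            nlinarith
          · rcases lt_or_ge (v b) 2 with h2 | h2
            · refine ⟨?_, h⟩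
              have h3 : v b = 0 ∨ v b = 1 := by omega
              by_contra hneg
              push Not at hneg
              have h4 : v a ≤ -1 := by omega
              have h5 : (v a : ℝ) ≤ -1 := by exact_mod_cast h4
              rcases h3 with h3 | h3
              · rw [h3] at hb
                push_cast at hb
                linarith
              · rw [h3] at ha
                push_cast at ha
                linarith
            · exfalso
              have h3 : (2:ℝ) ≤ v b := by exact_mod_cast h2
              nlinarith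
        intro k
        by_cases hka : k = a
        · rw [hka]; exact hcase.1
        · by_cases hkb : k = b
          · rw [hkb]; exact hcase.2
          · exact hk k hka hkb
      apply hv'
      rw [mem_unitVerts]
      obtain ⟨i, hi⟩ : ∃ i, v i ≠ 0 := by
        by_contra h'
        push Not at h'
        simp [h'] at hv
      have hzi : 1 ≤ v i := by have := hall i; omega
      have hsum : v i + ∑ j ∈ Finset.univ.erase i, v j = 1 := by
        rw [Finset.add_sum_erase _ _ (Finset.mem_univ i)]; exact hv
      have hnn' : 0 ≤ ∑ j ∈ Finset.univ.erase i, v j := Finset.sum_nonneg fun j _ => hall j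
      have h0 : ∑ j ∈ Finset.univ.erase i, v j = 0 := by omega
      have h0' := (Finset.sum_eq_zero_iff_of_nonneg (fun j _ => hall j)).mp h0
      refine ⟨i, ?_⟩
      funext j
      by_cases hj : j = i
      · subst hj; simp; omega
      · rw [h0' j (Finset.mem_erase.mpr ⟨hj, Finset.mem_univ j⟩)]
        simp [hj])
  exact ⟨B0, hg, _, fun k => div_pos (hcoef k) hKpos, hl⟩

/-- the points of the spikes -/
theorem spike_pos {a b : Fin (n+1)} (hab : a ≠ b) {y : E n} (hb0 : 0 < y b) (hbs : y b < ∑ i, y i)
    (hk : ∀ k, k ≠ a → k ≠ b → 0 ≤ y k) : ∃ B0 : Fr n, Good B0 ∧ ∀ k, 0 < lam B0 y k := by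
  set s := ∑ i, y i with hs
  have hs0 : 0 < s := hb0.trans hbs
  obtain ⟨P, hP3, hP⟩ : ∃ P : ℝ, 3 ≤ P ∧ 0 < P * y b + y a + s / 2 := by
    refine ⟨max 3 (|y a| / y b + 1), le_max_left _ _, ?_⟩
    have h1 : |y a| / y b + 1 ≤ max 3 (|y a| / y b + 1) := le_max_right _ _
    have h2 : (|y a| / y b + 1) * y b ≤ max 3 (|y a| / y b + 1) * y b := mul_le_mul_of_nonneg_right h1 hb0.le
    have h3 : (|y a| / y b + 1) * y b = |y a| + y b := by field_simp
    have h4 := neg_abs_le (y a)
    linarith
  obtain ⟨Q, hQ0, hQ⟩ : ∃ Q : ℝ, 0 < Q ∧ 0 < y a + s / 2 + Q * (s - y b) := by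
    have hd : 0 < s - y b := by linarith
    refine ⟨|y a| / (s - y b) + 1, by positivity, ?_⟩
    have h3 : (|y a| / (s - y b) + 1) * (s - y b) = |y a| + (s - y b) := by field_simp
    have h4 := neg_abs_le (y a)
    rw [h3]
    linarith
  obtain ⟨B0, hg, u, hu, hl⟩ := exists_spike (n := n) hab hP3 hQ0
  refine ⟨B0, hg, fun k => ?_⟩
  rw [hl]
  apply mul_pos (hu k)
  by_cases hka : k = a
  · rw [hka, spike_a]; exact hQ
  · by_cases hkb : k = b
    · rw [hkb, spike_b hab]; exact hP
    · rw [spike_k hka hkb]
      have := hk k hka hkb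
      linarith

/-- homothetic simplices -/
theorem homothety_pos {θ : ℝ} (hθ : 0 < θ) (hθ1 : θ < 1) {y : E n} (hy : ∀ k, 0 < y k + θ * ∑ i, y i) :
    ∃ B0 : Fr n, Good B0 ∧ ∀ k, 0 < lam B0 y k := by
  have hN : 0 < 1 + ((n:ℝ) + 1) * θ := by positivity
  refine ⟨Bs n θ, ⟨Bs_dtm hθ, Bs_norm hθ, fun i k => ?_, fun v hv hv' => ?_⟩, fun k => ?_⟩
  · rw [Bs_lam hθ]
    apply div_pos _ hN
    split_ifs <;> linarith
  · by_contra hcon
    push Not at hcon
    apply hv'
    have hs : ∑ i, toReal v i = 1 := by rw [sum_toReal, hv]; norm_num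
    have hall : ∀ k, 0 ≤ v k := by
      intro k
      have h1 := hcon k
      rw [Bs_lam_vec hθ, hs, le_div_iff₀ hN] at h1
      simp only [toReal] at h1
      by_contra hneg
      push Not at hneg
      have h2 : v k ≤ -1 := by omega
      have h3 : (v k : ℝ) ≤ -1 := by exact_mod_cast h2
      linarith
    rw [mem_unitVerts]
    obtain ⟨i, hi⟩ : ∃ i, v i ≠ 0 := by
      by_contra h'
      push Not at h'
      simp [h'] at hv
    have hzi : 1 ≤ v i := by have := hall i; omega
    have hsum : v i + ∑ j ∈ Finset.univ.erase i, v j = 1 := by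
      rw [Finset.add_sum_erase _ _ (Finset.mem_univ i)]; exact hv
    have hnn' : 0 ≤ ∑ j ∈ Finset.univ.erase i, v j := Finset.sum_nonneg fun j _ => hall j
    have h0 : ∑ j ∈ Finset.univ.erase i, v j = 0 := by omega
    have h0' := (Finset.sum_eq_zero_iff_of_nonneg (fun j _ => hall j)).mp h0
    refine ⟨i, ?_⟩
    funext j
    by_cases hj : j = i
    · subst hj; simp; omega
    · rw [h0' j (Finset.mem_erase.mpr ⟨hj, Finset.mem_univ j⟩)]
      simp [hj]
  · rw [Bs_lam_vec hθ]
    exact div_pos (hy k) hN

/-- If the polytope `F` pulls back to the unit simplex and has the same measure as the unit simplex then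
integer vectors in good cones lie on or beyond the hyperplane of `F`. -/
theorem nonviolation' {F : Set (E n)} (hb : Bornology.IsBounded F) {w : Fin (n+1) → Fin (n+1) → ℤ}
    (hdet : (Matrix.of w).det ≠ 0) (hwF : ∀ i, toReal (w i) ∈ F)
    (hpull : pull w F = (unitVerts n : Set (Fin (n+1) → ℤ)))
    (hfin : mobius n (CFof n (poly (unitVerts n))) ≠ ⊤)
    (heq : mobius n (CFof n F) = mobius n (CFof n (poly (unitVerts n))))
    {x : Fin (n+1) → ℤ} (hx : x ≠ 0)
    (hy : ∃ B0 : Fr n, Good B0 ∧ ∀ k, 0 < lam B0 (mapOf w (linearIndependent_of_det hdet) (toReal x)) k) :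
    1 ≤ ∑ i, mapOf w (linearIndependent_of_det hdet) (toReal x) i ∧
      (∑ i, mapOf w (linearIndependent_of_det hdet) (toReal x) i = 1 → toReal x ∈ F) := by
  set A := mapOf w (linearIndependent_of_det hdet) with hA
  obtain ⟨B0, hg, hy⟩ := hy
  by_contra hcon
  have hsub : A • CFof n F ⊆ missing (unitVerts n) (A (toReal x)) := by
    rintro _ ⟨κ, ⟨C, hC, hface⟩, rfl⟩
    refine ⟨A '' C, isConeOf_smul hC _, ?_, ?_⟩
    · obtain ⟨b, hb', -, rfl⟩ := hC
      have h1 := pull_face hdet hb hwF hface
      rw [hpull, ← hA, image_cone] at h1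
      rw [image_cone]
      exact (face_iff isUnimodularConfig_unitVerts).1 h1
    · rintro ⟨u, hu, hux⟩
      have hux' : u = toReal x := A.injective hux
      subst hux'
      obtain ⟨b, hb', -, rfl⟩ := hC
      obtain ⟨l, c, hc, hl, hF, hF', -⟩ := face_data hb hface
      have h1 : ∀ i, l (toReal (w i)) = c := by
        intro i
        have := hwF i
        rw [hF] at this; exact this.2
      have h2 : l (toReal x) = c * ∑ i, A (toReal x) i := by
        conv_lhs => rw [mapOf_sum w (linearIndependent_of_det hdet) (toReal x)]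
        rw [map_sum, Finset.mul_sum]
        refine Finset.sum_congr rfl fun i _ => ?_
        rw [map_smul, h1, smul_eq_mul, mul_comm]
      have h3 : toReal x ∈ hull (cone b) :=
        subset_convexHull ℝ _ ⟨hu, toReal_ne_zero.2 hx, x, rfl⟩
      have h4 := hl _ h3
      rw [h2] at h4
      apply hcon
      refine ⟨?_, fun h5 => ?_⟩
      · by_contra h6
        push Not at h6
        nlinarith
      · rw [hF]
        exact ⟨h3, by rw [h2, h5, mul_one]⟩
  have h1 : mobius n (CFof n F) ≤ mobius n (missing (unitVerts n) (A (toReal x))) :=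
    mono_of_subset (mobius n) hsub
  have h2 := missing_lt' hg hy hfin
  rw [heq] at h1
  exact absurd h2 (not_lt.2 h1)

end Pool.Agent.Helper46.Sail
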