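import Pool.Agent.Helper46.LamInv

open MeasureTheory Set
open scoped ENNReal

namespace Pool.Agent.Helper46.Sail

open Pool.Agent.Helper46.Planar

/-- an involution -/
def invol (f : E 2 → E 2) (h1 : ∀ x y, f (x + y) = f x + f y) (h2 : ∀ (c : ℝ) x, f (c • x) = c • f x)
    (h3 : ∀ x, f (f x) = x) : E 2 ≃ₗ[ℝ] E 2 where
  toFun := f
  map_add' := h1
  map_smul' := h2
  invFun := f
  left_inv := h3
  right_inv := h3

/-- `(i, j) ↦ (1 - i, j)` -/
def g1 : E 2 ≃ₗ[ℝ] E 2 := invol (fun x => ![x 1 - x 2, x 0 + x 2, x 2])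
  (fun x y => by funext k; fin_cases k <;> simp <;> ring) (fun c x => by funext k; fin_cases k <;> simp <;> ring)
  (fun x => by funext k; fin_cases k <;> simp)

/-- `(i, j) ↦ (i, 1 - j)` -/
def g2 : E 2 ≃ₗ[ℝ] E 2 := invol (fun x => ![x 2 - x 1, x 1, x 0 + x 1])
  (fun x y => by funext k; fin_cases k <;> simp <;> ring) (fun c x => by funext k; fin_cases k <;> simp <;> ring)
  (fun x => by funext k; fin_cases k <;> simp)

lemma g1_apply (x : E 2) : g1 x = ![x 1 - x 2, x 0 + x 2, x 2] := rfl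
lemma g2_apply (x : E 2) : g2 x = ![x 2 - x 1, x 1, x 0 + x 1] := rfl

/-- `(i, j) ↦ (1 - i, 1 - j)` -/
def g3 : E 2 ≃ₗ[ℝ] E 2 := g2.trans g1

lemma g1_pt (i j : ℤ) : g1 (toReal (pt i j)) = toReal (pt (1 - i) j) := by
  rw [g1_apply]; funext k; fin_cases k <;> simp [toReal, pt]

lemma g2_pt (i j : ℤ) : g2 (toReal (pt i j)) = toReal (pt i (1 - j)) := by
  rw [g2_apply]; funext k; fin_cases k <;> simp [toReal, pt]
  ring

lemma g3_pt (i j : ℤ) : g3 (toReal (pt i j)) = toReal (pt (1 - i) (1 - j)) := by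
  rw [g3, LinearEquiv.trans_apply, g2_pt, g1_pt]

lemma g1_sum (x : E 2) : ∑ j, g1 x j = ∑ j, x j := by
  rw [g1_apply, Fin.sum_univ_three, Fin.sum_univ_three]
  show x 1 - x 2 + (x 0 + x 2) + x 2 = _
  ring

lemma g2_sum (x : E 2) : ∑ j, g2 x j = ∑ j, x j := by
  rw [g2_apply, Fin.sum_univ_three, Fin.sum_univ_three]
  show x 2 - x 1 + x 1 + (x 0 + x 1) = _
  ring

lemma g3_sum (x : E 2) : ∑ j, g3 x j = ∑ j, x j := by
  rw [g3, LinearEquiv.trans_apply, g1_sum, g2_sum]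

lemma lam_g1 (B : Fr 2) (i j : ℤ) (k : Fin 3) :
    lam (lact (n := 2) (g1 : E 2 →ₗ[ℝ] E 2) B) (toReal (pt i j)) k = lam (n := 2) B (toReal (pt (1 - i) j)) k := by
  rw [← lam_lact g1 g1_sum B (toReal (pt (1 - i) j)) k, g1_pt, sub_sub_cancel]

lemma lam_g2 (B : Fr 2) (i j : ℤ) (k : Fin 3) :
    lam (lact (n := 2) (g2 : E 2 →ₗ[ℝ] E 2) B) (toReal (pt i j)) k = lam (n := 2) B (toReal (pt i (1 - j))) k := by
  rw [← lam_lact g2 g2_sum B (toReal (pt i (1 - j))) k, g2_pt, sub_sub_cancel]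

lemma lam_g3 (B : Fr 2) (i j : ℤ) (k : Fin 3) :
    lam (lact (n := 2) (g3 : E 2 →ₗ[ℝ] E 2) B) (toReal (pt i j)) k = lam (n := 2) B (toReal (pt (1 - i) (1 - j))) k := by
  rw [← lam_lact g3 g3_sum B (toReal (pt (1 - i) (1 - j))) k, g3_pt, sub_sub_cancel, sub_sub_cancel]

/-- `condV` in terms of the points `pt i j` -/
lemma condV_pt (V : Finset (Fin 3 → ℤ)) (B : Fr 2) :
    condV (n := 2) V B ↔ ∀ i j, (∀ k, 0 ≤ lam B (toReal (pt i j)) k) ↔ pt i j ∈ V := by
  constructor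
  · intro h i j
    exact h _ (sum_pt i j)
  · intro h v hv
    rw [eq_pt hv]
    exact h _ _

lemma condV_of_symm {B B' : Fr 2} (f : ℤ × ℤ → ℤ × ℤ)
    (hQ : ∀ p, Qm (f p).1 (f p).2 ↔ Qm p.1 p.2)
    (h : ∀ i j k, lam (n := 2) B' (toReal (pt i j)) k = lam (n := 2) B (toReal (pt (f (i, j)).1 (f (i, j)).2)) k)
    (hB : condV (n := 2) sqVerts B) : condV (n := 2) sqVerts B' := by
  rw [condV_pt] at hB ⊢
  intro i j
  simp only [h]
  rw [hB, mem_sqVerts, mem_sqVerts]
  exact hQ (i, j)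

lemma Qm_one_sub_left (i j : ℤ) : Qm (1 - i) j ↔ Qm i j := by
  simp only [Qm]; constructor <;> (rintro ⟨h1, h2⟩; exact ⟨by omega, h2⟩)

lemma Qm_one_sub_right (i j : ℤ) : Qm i (1 - j) ↔ Qm i j := by
  simp only [Qm]; constructor <;> (rintro ⟨h1, h2⟩; exact ⟨h1, by omega⟩)

/-- affine dependence of the four vertices of the square -/
lemma lam_affine (B : Fr 2) (k : Fin 3) : lam (n := 2) B (toReal (pt 1 1)) k + lam (n := 2) B (toReal (pt 0 0)) k =
    lam (n := 2) B (toReal (pt 1 0)) k + lam (n := 2) B (toReal (pt 0 1)) k := by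
  simp only [lam, coord_pt, af]
  push_cast
  ring

lemma cover {B : Fr 2} (hB : condV (n := 2) sqVerts B) : B ∈ setQ ∨ lact (n := 2) (g1 : E 2 →ₗ[ℝ] E 2) B ∈ setQ ∨
    lact (n := 2) (g2 : E 2 →ₗ[ℝ] E 2) B ∈ setQ ∨ lact (n := 2) (g3 : E 2 →ₗ[ℝ] E 2) B ∈ setQ := by
  have ha := lam_affine B 0
  have c1 : condV (n := 2) sqVerts (lact (n := 2) (g1 : E 2 →ₗ[ℝ] E 2) B) :=
    condV_of_symm (fun p => (1 - p.1, p.2)) (fun p => Qm_one_sub_left _ _)
      (fun i j k => lam_g1 B i j k) hB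
  have c2 : condV (n := 2) sqVerts (lact (n := 2) (g2 : E 2 →ₗ[ℝ] E 2) B) :=
    condV_of_symm (fun p => (p.1, 1 - p.2)) (fun p => Qm_one_sub_right _ _)
      (fun i j k => lam_g2 B i j k) hB
  have c3 : condV (n := 2) sqVerts (lact (n := 2) (g3 : E 2 →ₗ[ℝ] E 2) B) :=
    condV_of_symm (fun p => (1 - p.1, 1 - p.2))
      (fun p => (Qm_one_sub_left _ _).trans (Qm_one_sub_right _ _))
      (fun i j k => lam_g3 B i j k) hB
  rcases le_total (lam (n := 2) B (toReal (pt 1 1)) 0) (lam (n := 2) B (toReal (pt 0 1)) 0) with h1 | h1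
  · rcases le_total (lam (n := 2) B (toReal (pt 1 1)) 0) (lam (n := 2) B (toReal (pt 1 0)) 0) with h2 | h2
    · left; exact ⟨hB, h1, h2⟩
    · right; right; left
      refine ⟨c2, ?_, ?_⟩
      · rw [lam_g2, lam_g2]
        norm_num
        linarith
      · rw [lam_g2, lam_g2]
        norm_num
        linarith
  · rcases le_total (lam (n := 2) B (toReal (pt 1 1)) 0) (lam (n := 2) B (toReal (pt 1 0)) 0) with h2 | h2
    · right; left
      refine ⟨c1, ?_, ?_⟩
      · rw [lam_g1, lam_g1]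
        norm_num
        linarith
      · rw [lam_g1, lam_g1]
        norm_num
        linarith
    · right; right; right
      refine ⟨c3, ?_, ?_⟩
      · rw [lam_g3, lam_g3]
        norm_num
        linarith
      · rw [lam_g3, lam_g3]
        norm_num
        linarith

lemma sc_mem_setQ (s : Fin 3 → ℝ) (B : Fr 2) : sc (n := 2) s B ∈ setQ ↔ B ∈ setQ := by
  show (condV (n := 2) sqVerts (sc (n := 2) s B) ∧ _) ↔ _
  rw [condV_sc]
  simp only [lam_sc]
  rfl

lemma sc_mem_setT (s : Fin 3 → ℝ) (B : Fr 2) : sc (n := 2) s B ∈ setT ↔ B ∈ setT := by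
  show (condV (n := 2) (unitVerts 2) (sc (n := 2) s B) ∧ _) ↔ _
  rw [condV_sc]
  simp only [lam_sc]
  rfl

lemma indicator_congr {α : Type*} {S : Set α} {x y : α} (h : x ∈ S ↔ y ∈ S) :
    S.indicator (1 : α → ℝ≥0∞) x = S.indicator 1 y := by
  by_cases hx : x ∈ S
  · rw [Set.indicator_of_mem hx, Set.indicator_of_mem (h.1 hx)]; rfl
  · rw [Set.indicator_of_notMem hx, Set.indicator_of_notMem (fun h' => hx (h.2 h'))]

/-- the square -/
lemma square_le : ∫⁻ B, win (n := 2) (stdGauge 2) B * {B : Fr 2 | condV (n := 2) sqVerts B}.indicator 1 B ∂(frMeasure 2) ≤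
    4 * ∫⁻ B, win (n := 2) (stdGauge 2) B * setQ.indicator 1 B ∂(frMeasure 2) := by
  have hw := measurable_win (n := 2) stdGauge_gauge
  have hf : Measurable (setQ.indicator (1 : Fr 2 → ℝ≥0∞)) := measurable_one.indicator measurable_setQ
  have hinv : ∀ (s : Fin 3 → ℝ) (B : Fr 2), setQ.indicator (1 : Fr 2 → ℝ≥0∞) (sc (n := 2) s B) = setQ.indicator 1 B :=
    fun s B => indicator_congr (sc_mem_setQ s B)
  have hg : ∀ g : E 2 ≃ₗ[ℝ] E 2, ∫⁻ B, win (n := 2) (stdGauge 2) B *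
      setQ.indicator 1 (lact (n := 2) (g : E 2 →ₗ[ℝ] E 2) B) ∂(frMeasure 2) =
      ∫⁻ B, win (n := 2) (stdGauge 2) B * setQ.indicator 1 B ∂(frMeasure 2) := fun g =>
    lact_inv (n := 2) stdGauge_gauge g hf hinv
  have hm : ∀ g : E 2 ≃ₗ[ℝ] E 2, Measurable fun B : Fr 2 => win (n := 2) (stdGauge 2) B *
      setQ.indicator 1 (lact (n := 2) (g : E 2 →ₗ[ℝ] E 2) B) := fun g =>
    hw.mul (hf.comp (mp_lact (n := 2) _ (LinearEquiv.isUnit_det' g).ne_zero).measurable)
  calc ∫⁻ B, win (n := 2) (stdGauge 2) B * {B : Fr 2 | condV (n := 2) sqVerts B}.indicator 1 B ∂(frMeasure 2)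
      ≤ ∫⁻ B, (win (n := 2) (stdGauge 2) B * setQ.indicator 1 B +
          (win (n := 2) (stdGauge 2) B * setQ.indicator 1 (lact (n := 2) (g1 : E 2 →ₗ[ℝ] E 2) B) +
          (win (n := 2) (stdGauge 2) B * setQ.indicator 1 (lact (n := 2) (g2 : E 2 →ₗ[ℝ] E 2) B) +
          win (n := 2) (stdGauge 2) B * setQ.indicator 1 (lact (n := 2) (g3 : E 2 →ₗ[ℝ] E 2) B)))) ∂(frMeasure 2) := by
        apply lintegral_mono
        intro B
        beta_reduce
        rw [← mul_add, ← mul_add, ← mul_add]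
        gcongr
        by_cases hB : B ∈ {B : Fr 2 | condV (n := 2) sqVerts B}
        · rw [Set.indicator_of_mem hB]
          rcases cover hB with h | h | h | h
          · rw [Set.indicator_of_mem h]; exact le_self_add
          · rw [Set.indicator_of_mem h]
            exact le_add_left le_self_add
          · rw [Set.indicator_of_mem h]
            exact le_add_left (le_add_left le_self_add)
          · rw [Set.indicator_of_mem h]
            exact le_add_left (le_add_left (le_add_left le_rfl))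
        · rw [Set.indicator_of_notMem hB]
          exact zero_le
    _ = 4 * ∫⁻ B, win (n := 2) (stdGauge 2) B * setQ.indicator 1 B ∂(frMeasure 2) := by
        have hm0 : Measurable fun B : Fr 2 => win (n := 2) (stdGauge 2) B * setQ.indicator 1 B := hw.mul hf
        rw [lintegral_add_left hm0, lintegral_add_left (hm g1), lintegral_add_left (hm g2), hg, hg, hg]
        ring

end Pool.Agent.Helper46.Sail
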