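import Pool.Agent.Helper46.TriangleMax
import Pool.Agent.Helper46.Missing

open MeasureTheory Set Filter
open scoped ENNReal Topology

namespace Pool.Agent.Helper46.Sail

open Pool.Agent.Helper46.Planar

/-- the points `(2,0)` and `(0,2)` are not cut by the facets `1` and `2` -/
def setN : Set (Fr 2) :=
  {B | (0 ≤ lam B (toReal (pt 2 0)) 1 ∧ 0 ≤ lam B (toReal (pt 2 0)) 2) ∧
    (0 ≤ lam B (toReal (pt 0 2)) 1 ∧ 0 ≤ lam B (toReal (pt 0 2)) 2)}

lemma measurable_setN : MeasurableSet setN :=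
  ((measurableSet_le measurable_const (measurable_lam _ _)).inter
    (measurableSet_le measurable_const (measurable_lam _ _))).inter
  ((measurableSet_le measurable_const (measurable_lam _ _)).inter
    (measurableSet_le measurable_const (measurable_lam _ _)))

lemma sc_mem_setN (s : Fin 3 → ℝ) (B : Fr 2) : sc (n := 2) s B ∈ setN ↔ B ∈ setN := by
  show (_ ∧ _) ↔ _
  simp only [lam_sc]
  rfl

lemma setQ_setN {B : Fr 2} (hQ : B ∈ setQ) (hN : B ∈ setN) : False := by
  obtain ⟨hc, -, -⟩ := hQ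
  obtain ⟨⟨a1, a2⟩, b1, b2⟩ := hN
  have h11 : 0 ≤ lam (n := 2) B (toReal (pt 1 1)) 0 := (hc _ (sum_pt 1 1)).2 (mem_sqVerts.2 (by simp [Qm])) 0
  have h20 : ¬ 0 ≤ lam (n := 2) B (toReal (pt 2 0)) 0 := by
    intro h
    have : pt 2 0 ∈ sqVerts := (hc _ (sum_pt 2 0)).1 (by
      rw [Fin.forall_fin_succ, Fin.forall_fin_two]
      exact ⟨h, a1, a2⟩)
    rw [mem_sqVerts, Qm] at this
    omega
  have h02 : ¬ 0 ≤ lam (n := 2) B (toReal (pt 0 2)) 0 := by
    intro h
    have : pt 0 2 ∈ sqVerts := (hc _ (sum_pt 0 2)).1 (by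
      rw [Fin.forall_fin_succ, Fin.forall_fin_two]
      exact ⟨h, b1, b2⟩)
    rw [mem_sqVerts, Qm] at this
    omega
  have haff : lam (n := 2) B (toReal (pt 2 0)) 0 + lam (n := 2) B (toReal (pt 0 2)) 0 =
      2 * lam (n := 2) B (toReal (pt 1 1)) 0 := by
    simp only [lam, coord_pt, af]
    push_cast
    ring
  linarith

lemma vol_line (a b : ℝ) (hab : a ≠ 0 ∨ b ≠ 0) : volume {p : ℝ × ℝ | a * p.1 + b * p.2 = 0} = 0 := by
  let l : ℝ × ℝ →ₗ[ℝ] ℝ := a • LinearMap.fst ℝ ℝ ℝ + b • LinearMap.snd ℝ ℝ ℝ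
  have hl : ∀ p, l p = a * p.1 + b * p.2 := fun p => by simp [l]
  have hne : LinearMap.ker l ≠ ⊤ := by
    intro h
    have h1 : ((1:ℝ), (0:ℝ)) ∈ LinearMap.ker l := h ▸ Submodule.mem_top
    have h2 : ((0:ℝ), (1:ℝ)) ∈ LinearMap.ker l := h ▸ Submodule.mem_top
    rw [LinearMap.mem_ker, hl] at h1 h2
    simp at h1 h2
    rcases hab with h | h
    · exact h h1
    · exact h h2
  have := Measure.addHaar_submodule (volume : Measure (ℝ × ℝ)) (LinearMap.ker l) hne
  have e : {p : ℝ × ℝ | a * p.1 + b * p.2 = 0} = (LinearMap.ker l : Set (ℝ × ℝ)) := by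
    ext p; simp [hl]
  rw [e]; exact this

lemma vol_axes {B : Fr 2} (hz : zs B 0 ≠ 0) : volume (fm B ⁻¹' {p | p.1 = 0 ∨ p.2 = 0}) = 0 := by
  rw [vol_fm hz]
  have : volume {p : ℝ × ℝ | p.1 = 0 ∨ p.2 = 0} = 0 := by
    have h1 := vol_line 1 0 (Or.inl one_ne_zero)
    have h2 := vol_line 0 1 (Or.inr one_ne_zero)
    refine measure_mono_null ?_ (measure_union_null h1 h2)
    rintro p (h | h)
    · left; show 1 * p.1 + 0 * p.2 = 0; rw [h]; ring
    · right; show 0 * p.1 + 1 * p.2 = 0; rw [h]; ring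
  rw [this, mul_zero]

/-- two numbers with the same sign -/
lemma same_sign {x y u : ℝ} (hx : x ≠ 0) (hy : y ≠ 0) (h : 0 < x * u ∨ x * u < 0) (hxy : 0 ≤ x * u ∧ 0 ≤ y * u)
    {w : ℝ} (hw : 0 ≤ x * w) : 0 ≤ y * w := by
  have hu : u ≠ 0 := by rintro rfl; simp at h
  rcases lt_or_gt_of_ne hx with h1 | h1 <;> rcases lt_or_gt_of_ne hy with h2 | h2
  · have : w ≤ 0 := by by_contra hc; push Not at hc; nlinarith
    exact mul_nonneg_of_nonpos_of_nonpos h2.le this
  · exfalso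
    have : u ≤ 0 := by by_contra hc; push Not at hc; nlinarith [hxy.1]
    have h3 : 0 ≤ u := by by_contra hc; push Not at hc; nlinarith [hxy.2]
    exact hu (le_antisymm this h3)
  · exfalso
    have h3 : 0 ≤ u := by by_contra hc; push Not at hc; nlinarith [hxy.1]
    have : u ≤ 0 := by by_contra hc; push Not at hc; nlinarith [hxy.2]
    exact hu (le_antisymm this h3)
  · have : 0 ≤ w := by by_contra hc; push Not at hc; nlinarith
    exact mul_nonneg h2.le this

/-- if a nondegenerate affine function times `x` and times `y` is nonnegative on the square then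
the numbers have the same sign -/
lemma transfer {u : ℝ × ℝ × ℝ} (hu : ¬ (u.2.1 = 0 ∧ u.2.2 = 0)) {x y : ℝ} (hx : x ≠ 0) (hy : y ≠ 0)
    (h1 : ∀ i j, Qm i j → 0 ≤ x * af u i j) (h2 : ∀ i j, Qm i j → 0 ≤ y * af u i j) {i j : ℤ}
    (h : 0 ≤ x * af u i j) : 0 ≤ y * af u i j := by
  -- some value on the square does not vanish
  obtain ⟨a, b, hab, hne⟩ : ∃ a b : ℤ, Qm a b ∧ af u a b ≠ 0 := by
    by_contra hcon
    push Not at hcon
    have h00 := hcon 0 0 (by simp [Qm])
    have h10 := hcon 1 0 (by simp [Qm])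
    have h01 := hcon 0 1 (by simp [Qm])
    simp only [af] at h00 h10 h01
    push_cast at h00 h10 h01
    exact hu ⟨by linarith, by linarith⟩
  have hne' : x * af u a b ≠ 0 := mul_ne_zero hx hne
  exact same_sign hx hy (by rcases lt_or_gt_of_ne hne' with h | h; exacts [Or.inr h, Or.inl h])
    ⟨h1 a b hab, h2 a b hab⟩ h

lemma setT_four {B : Fr 2} (h : B ∈ setT) : ∀ i j, Qm i j → 0 ≤ lam B (toReal (pt i j)) 1 ∧
    0 ≤ lam B (toReal (pt i j)) 2 := by
  obtain ⟨hc, h1, h2⟩ := h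
  have ht : ∀ i j, Tm i j → 0 ≤ lam B (toReal (pt i j)) 1 ∧ 0 ≤ lam B (toReal (pt i j)) 2 := by
    intro i j hij
    have := (hc _ (sum_pt i j)).2 (mem_unitVerts_pt.2 hij)
    exact ⟨this 1, this 2⟩
  rintro i j ⟨rfl | rfl, rfl | rfl⟩
  · exact ht _ _ (by simp [Tm])
  · exact ht _ _ (by simp [Tm])
  · exact ht _ _ (by simp [Tm])
  · exact ⟨h1, h2⟩

lemma setQ_four {B : Fr 2} (h : B ∈ setQ) : ∀ i j, Qm i j → 0 ≤ lam B (toReal (pt i j)) 1 ∧
    0 ≤ lam B (toReal (pt i j)) 2 := by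
  intro i j hij
  have := (h.1 _ (sum_pt i j)).2 (mem_sqVerts.2 hij)
  exact ⟨this 1, this 2⟩

lemma fiber_le' {B : Fr 2} (hB : dtm B ≠ 0) (hz : zs B 0 ≠ 0) :
    volume {p : ℝ × ℝ | sh p B ∈ setQ} ≤ ENNReal.ofReal (3 / 4) * volume {p : ℝ × ℝ | sh p B ∈ setT \ setN} := by
  have hD := cf_det hB hz
  have hu1 : ¬ ((cf B 1).2.1 = 0 ∧ (cf B 1).2.2 = 0) := by
    rintro ⟨h1, h2⟩; apply hD; rw [h1, h2]; ring
  have hu2 : ¬ ((cf B 2).2.1 = 0 ∧ (cf B 2).2.2 = 0) := by
    rintro ⟨h1, h2⟩; apply hD; rw [h1, h2]; ring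
  have hax := vol_axes hz
  by_cases hP : ∃ p0 : ℝ × ℝ, sh p0 B ∈ setT ∩ setN ∧ (fm B p0).1 ≠ 0 ∧ (fm B p0).2 ≠ 0
  · obtain ⟨p0, ⟨hT, hN⟩, hp1, hp2⟩ := hP
    have : volume {p : ℝ × ℝ | sh p B ∈ setQ} = 0 := by
      refine measure_mono_null ?_ hax
      intro p hp
      by_contra hcon
      rw [Set.mem_preimage, Set.mem_ofPred_eq] at hcon
      push Not at hcon
      apply setQ_setN hp
      have e1 : ∀ i j, 0 ≤ lam (sh p0 B) (toReal (pt i j)) 1 → 0 ≤ lam (sh p B) (toReal (pt i j)) 1 := by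
        intro i j h
        rw [(lam_sh hB p i j).1]
        rw [(lam_sh hB p0 i j).1] at h
        refine transfer hu1 hp1 hcon.1 (fun a b hab => ?_) (fun a b hab => ?_) h
        · rw [← (lam_sh hB p0 a b).1]; exact (setT_four hT a b hab).1
        · rw [← (lam_sh hB p a b).1]; exact (setQ_four hp a b hab).1
      have e2 : ∀ i j, 0 ≤ lam (sh p0 B) (toReal (pt i j)) 2 → 0 ≤ lam (sh p B) (toReal (pt i j)) 2 := by
        intro i j h
        rw [(lam_sh hB p i j).2.1]
        rw [(lam_sh hB p0 i j).2.1] at h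
        refine transfer hu2 hp2 hcon.2 (fun a b hab => ?_) (fun a b hab => ?_) h
        · rw [← (lam_sh hB p0 a b).2.1]; exact (setT_four hT a b hab).2
        · rw [← (lam_sh hB p a b).2.1]; exact (setQ_four hp a b hab).2
      exact ⟨⟨e1 _ _ hN.1.1, e2 _ _ hN.1.2⟩, e1 _ _ hN.2.1, e2 _ _ hN.2.2⟩
    rw [this]; exact zero_le
  · push Not at hP
    refine (fiber_le hB hz).trans (mul_le_mul' le_rfl ?_)
    calc volume {p : ℝ × ℝ | sh p B ∈ setT} ≤ volume ({p : ℝ × ℝ | sh p B ∈ setT \ setN} ∪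
          fm B ⁻¹' {p | p.1 = 0 ∨ p.2 = 0}) := by
          apply measure_mono
          intro p hp
          by_cases h1 : (fm B p).1 = 0
          · right; left; exact h1
          · by_cases h2 : (fm B p).2 = 0
            · right; right; exact h2
            · left
              exact ⟨hp, fun hN => h2 (hP p ⟨hp, hN⟩ h1)⟩
      _ ≤ volume {p : ℝ × ℝ | sh p B ∈ setT \ setN} + volume (fm B ⁻¹' {p | p.1 = 0 ∨ p.2 = 0}) :=
          measure_union_le _ _
      _ = _ := by rw [hax, add_zero]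

lemma sc_mem_diff (s : Fin 3 → ℝ) (B : Fr 2) : sc (n := 2) s B ∈ setT \ setN ↔ B ∈ setT \ setN := by
  rw [Set.mem_sdiff, Set.mem_sdiff, sc_mem_setT, sc_mem_setN]

lemma setQ_le_diff : ∫⁻ B, win (n := 2) (stdGauge 2) B * setQ.indicator 1 B ∂(frMeasure 2) ≤
    ENNReal.ofReal (3 / 4) * ∫⁻ B, win (n := 2) (stdGauge 2) B * (setT \ setN).indicator 1 B ∂(frMeasure 2) := by
  have hTm : MeasurableSet (setT \ setN) := measurable_setT.diff measurable_setN
  have hfQ : Measurable (setQ.indicator (1 : Fr 2 → ℝ≥0∞)) := measurable_one.indicator measurable_setQ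
  have hfT : Measurable ((setT \ setN).indicator (1 : Fr 2 → ℝ≥0∞)) := measurable_one.indicator hTm
  rw [win_indep (n := 2) stdGauge_gauge shGauge_gauge hfQ (fun s B => indicator_congr (sc_mem_setQ s B)),
    win_indep (n := 2) stdGauge_gauge shGauge_gauge hfT (fun s B => indicator_congr (sc_mem_diff s B)),
    fiber_formula measurable_setQ, fiber_formula hTm]
  have hm : ∀ {S : Set (Fr 2)}, MeasurableSet S → Measurable fun B : Fr 2 => volume {p : ℝ × ℝ | sh p B ∈ S} := by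
    intro S hS
    have h1 : MeasurableSet ((fun q : (ℝ × ℝ) × Fr 2 => sh q.1 q.2) ⁻¹' S) := measurable_sh_uncurry hS
    exact measurable_measure_prodMk_right h1
  rw [← lintegral_const_mul]
  · apply lintegral_mono_ae
    filter_upwards [ae_dtm, ae_zs] with B hB hz
    have := fiber_le' hB (hz 0)
    calc slice B * win (n := 2) shGauge B * volume {p : ℝ × ℝ | sh p B ∈ setQ}
        ≤ slice B * win (n := 2) shGauge B * (ENNReal.ofReal (3 / 4) * volume {p : ℝ × ℝ | sh p B ∈ setT \ setN}) := by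
          gcongr
      _ = _ := by ring
  · exact (measurable_slice.mul (measurable_win (n := 2) shGauge_gauge)).mul (hm hTm)

lemma eventually_lam_pos_at {n : ℕ} {θ : ℝ} (hθ : 0 < θ) {y : E n} {k : Fin (n+1)} (hy : 0 < y k + θ * ∑ i, y i) :
    ∀ᶠ B in 𝓝 (Bs n θ), 0 ≤ lam B y k := by
  have h1 := (continuousAt_lam (Bs_dtm (n := n) hθ) y k).tendsto
  have : ∀ᶠ B in 𝓝 (Bs n θ), 0 < lam B y k := by
    apply h1.eventually_const_lt
    rw [Bs_lam_vec hθ]
    exact div_pos hy (by positivity)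
  exact this.mono fun B hB => hB.le

lemma inter_pos : 0 < ∫⁻ B, win (n := 2) (stdGauge 2) B * (setT ∩ setN).indicator 1 B ∂(frMeasure 2) := by
  have hθ : (0:ℝ) < 1 / 2 := by norm_num
  apply int_pos (n := 2) (Bs_dtm (n := 2) hθ) (Bs_norm hθ)
  have hs : ∀ i j : ℤ, ∑ k, toReal (pt i j) k = 1 := by
    intro i j
    rw [sum_toReal, sum_pt]; simp
  have h : ∀ i j : ℤ, ∀ k : Fin 3, (0:ℝ) < toReal (pt i j) k + 1 / 2 →
      ∀ᶠ B in 𝓝 (Bs 2 (1/2)), 0 ≤ lam B (toReal (pt i j)) k := by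
    intro i j k hk
    apply eventually_lam_pos_at hθ
    rw [hs]; simpa using hk
  filter_upwards [eventually_condV (n := 2) hθ (by norm_num), h 1 1 1 (by simp [toReal, pt]; norm_num),
    h 1 1 2 (by simp [toReal, pt]; norm_num), h 2 0 1 (by simp [toReal, pt]; norm_num),
    h 2 0 2 (by simp [toReal, pt]), h 0 2 1 (by simp [toReal, pt]),
    h 0 2 2 (by simp [toReal, pt]; norm_num)] with B h0 h1 h2 h3 h4 h5 h6
  exact ⟨⟨h0, h1, h2⟩, ⟨h3, h4⟩, h5, h6⟩

/-- strict comparison -/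
theorem key_lt (hfin : mobius 2 (CFof 2 (poly (unitVerts 2))) ≠ ⊤) :
    mobius 2 (CFof 2 (poly sqVerts)) < mobius 2 (CFof 2 (poly (unitVerts 2))) := by
  have hw := measurable_win (n := 2) stdGauge_gauge
  have hTm : MeasurableSet (setT \ setN) := measurable_setT.diff measurable_setN
  have hT : ∫⁻ B, win (n := 2) (stdGauge 2) B * setT.indicator 1 B ∂(frMeasure 2) =
      ∫⁻ B, win (n := 2) (stdGauge 2) B * (setT \ setN).indicator 1 B ∂(frMeasure 2) +
      ∫⁻ B, win (n := 2) (stdGauge 2) B * (setT ∩ setN).indicator 1 B ∂(frMeasure 2) := by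
    rw [← lintegral_add_left]
    · apply lintegral_congr
      intro B
      rw [← mul_add]
      congr 1
      by_cases hB : B ∈ setT
      · by_cases hB' : B ∈ setN
        · have a1 : B ∉ setT \ setN := fun h => h.2 hB'
          have a2 : B ∈ setT ∩ setN := ⟨hB, hB'⟩
          rw [Set.indicator_of_mem hB, Set.indicator_of_notMem a1, Set.indicator_of_mem a2, zero_add]
        · have a1 : B ∈ setT \ setN := ⟨hB, hB'⟩
          have a2 : B ∉ setT ∩ setN := fun h => hB' h.2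
          rw [Set.indicator_of_mem hB, Set.indicator_of_mem a1, Set.indicator_of_notMem a2, add_zero]
      · rw [Set.indicator_of_notMem hB, Set.indicator_of_notMem (fun h => hB h.1),
          Set.indicator_of_notMem (fun h => hB h.1), add_zero]
    · exact hw.mul (measurable_one.indicator hTm)
  have h1 : mobius 2 (CFof 2 (poly sqVerts)) ≤
      3 * ∫⁻ B, win (n := 2) (stdGauge 2) B * (setT \ setN).indicator 1 B ∂(frMeasure 2) := by
    rw [mobius_poly isUnimodularConfig_sqVerts]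
    refine square_le.trans ?_
    calc 4 * ∫⁻ B, win (n := 2) (stdGauge 2) B * setQ.indicator 1 B ∂(frMeasure 2)
        ≤ 4 * (ENNReal.ofReal (3 / 4) *
          ∫⁻ B, win (n := 2) (stdGauge 2) B * (setT \ setN).indicator 1 B ∂(frMeasure 2)) := by
          gcongr
          exact setQ_le_diff
      _ = _ := by
          rw [← mul_assoc]
          congr 1
          rw [show (4 : ℝ≥0∞) = ENNReal.ofReal 4 by simp, ← ENNReal.ofReal_mul (by norm_num)]
          norm_num
  have h2 : 3 * ∫⁻ B, win (n := 2) (stdGauge 2) B * setT.indicator 1 B ∂(frMeasure 2) ≤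
      mobius 2 (CFof 2 (poly (unitVerts 2))) := by
    rw [mobius_poly isUnimodularConfig_unitVerts]
    exact le_triangle
  rw [hT, mul_add] at h2
  have h3 : 3 * ∫⁻ B, win (n := 2) (stdGauge 2) B * (setT \ setN).indicator 1 B ∂(frMeasure 2) ≠ ⊤ :=
    ne_top_of_le_ne_top hfin (le_self_add.trans h2)
  refine h1.trans_lt (lt_of_lt_of_le ?_ h2)
  exact ENNReal.lt_add_right h3 (mul_ne_zero (by norm_num) inter_pos.ne')

end Pool.Agent.Helper46.Sail
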