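import Pool.Agent.Helper46.Inversion

open MeasureTheory Set
open scoped ENNReal

namespace Pool.Agent.Helper46.Sail

variable {n : ℕ}

/-- row scaling -/
def rsc (t : Fin (n+1) → ℝ) (A : Fr n) : Fr n := fun k i => t k * A k i

/-- column scaling -/
def csc (c : Fin (n+1) → ℝ) (A : Fr n) : Fr n := fun k i => A k i * c i

/-- the product of a row vector and a matrix -/
def vm (z : Fin (n+1) → ℝ) (A : Fr n) : Fin (n+1) → ℝ := fun i => ∑ k, z k * A k i

/-- the window of positive vectors -/
def U (n : ℕ) : Set (Fin (n+1) → ℝ) := {c | ∀ i, 1 ≤ c i ∧ c i < Real.exp 1}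

/-- the window of vectors -/
def Upm (n : ℕ) : Set (Fin (n+1) → ℝ) := {c | ∀ i, 1 ≤ |c i| ∧ |c i| < Real.exp 1}

lemma rsc_eq (t : Fin (n+1) → ℝ) (A : Fr n) : rsc t A = fr (Matrix.diagonal t * Matrix.of A) := by
  funext k i
  simp [rsc, fr]

lemma csc_eq (c : Fin (n+1) → ℝ) (A : Fr n) : csc c A = fr (Matrix.of A * Matrix.diagonal c) := by
  funext k i
  simp [csc, fr]

lemma vm_eq (z : Fin (n+1) → ℝ) (A : Fr n) : vm z A = Matrix.vecMul z (Matrix.of A) := by
  funext i
  simp [vm, Matrix.vecMul, dotProduct]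

lemma mp_rsc {t : Fin (n+1) → ℝ} (ht : ∀ k, t k ≠ 0) : MeasurePreserving (rsc (n := n) t) (frMeasure n) (frMeasure n) := by
  have : rsc (n := n) t = fun A => fr (Matrix.diagonal t * Matrix.of A) := by
    funext A; exact rsc_eq t A
  rw [this]
  apply mp_left
  rw [Matrix.det_diagonal]
  exact Finset.prod_ne_zero_iff.2 fun k _ => ht k

lemma mp_csc {c : Fin (n+1) → ℝ} (hc : ∀ k, c k ≠ 0) : MeasurePreserving (csc (n := n) c) (frMeasure n) (frMeasure n) := by
  have : csc (n := n) c = fun A => fr (Matrix.of A * Matrix.diagonal c) := by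
    funext A; exact csc_eq c A
  rw [this]
  apply mp_right
  rw [Matrix.det_diagonal]
  exact Finset.prod_ne_zero_iff.2 fun k _ => hc k

lemma dtm_rsc (t : Fin (n+1) → ℝ) (A : Fr n) : dtm (rsc t A) = (∏ k, t k) * dtm A := by
  rw [rsc_eq, dtm, of_fr, Matrix.det_mul, Matrix.det_diagonal]; rfl

lemma dtm_csc (c : Fin (n+1) → ℝ) (A : Fr n) : dtm (csc c A) = dtm A * ∏ k, c k := by
  rw [csc_eq, dtm, of_fr, Matrix.det_mul, Matrix.det_diagonal]; rfl

lemma csc_rsc (c t : Fin (n+1) → ℝ) (A : Fr n) : csc c (rsc t A) = rsc t (csc c A) := by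
  funext k i; simp only [csc, rsc]; ring

lemma csc_inv_csc {c : Fin (n+1) → ℝ} (hc : ∀ k, c k ≠ 0) (A : Fr n) : csc (fun i => (c i)⁻¹) (csc c A) = A := by
  funext k i
  simp only [csc]
  field_simp [hc i]

lemma vm_one_rsc (z : Fin (n+1) → ℝ) (A : Fr n) : vm (fun _ => 1) (rsc z A) = vm z A := by
  funext i; simp [vm, rsc]

/-- the row vector `c A⁻¹` -/
noncomputable def vi (c : Fin (n+1) → ℝ) (A : Fr n) : Fin (n+1) → ℝ := vm c (iv A)

lemma vi_vm {A : Fr n} (hA : dtm A ≠ 0) (z : Fin (n+1) → ℝ) : vi (vm z A) A = z := by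
  rw [vi, vm_eq, vm_eq, iv, of_fr, Matrix.vecMul_vecMul, Matrix.mul_nonsing_inv _ (isUnit_iff_ne_zero.mpr hA),
    Matrix.vecMul_one]

lemma vi_csc {c : Fin (n+1) → ℝ} (hc : ∀ k, c k ≠ 0) (A : Fr n) : vi c (csc c A) = vi (fun _ => 1) A := by
  have h1 : Matrix.of (iv (csc c A)) = Matrix.diagonal (fun i => (c i)⁻¹) * Matrix.of (iv A) := by
    rw [iv, iv, of_fr, of_fr, csc_eq, of_fr, Matrix.mul_inv_rev]
    congr 1
    apply Matrix.inv_eq_left_inv
    rw [Matrix.diagonal_mul_diagonal, ← Matrix.diagonal_one]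
    congr 1
    funext i
    exact inv_mul_cancel₀ (hc i)
  rw [vi, vi, vm_eq, vm_eq, h1, ← Matrix.vecMul_vecMul]
  congr 1
  funext i
  rw [Matrix.vecMul_diagonal]
  exact mul_inv_cancel₀ (hc i)

lemma measurable_entry (k i : Fin (n+1)) : Measurable fun A : Fr n => A k i :=
  (measurable_pi_apply i).comp (measurable_pi_apply k)

section meas

variable {α : Type*} [MeasurableSpace α] {f : α → Fin (n+1) → ℝ} {g : α → Fr n}

lemma measurable_vm (hf : Measurable f) (hg : Measurable g) : Measurable fun x => vm (f x) (g x) := by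
  apply measurable_pi_lambda
  intro i
  exact Finset.measurable_sum _ fun k _ => ((measurable_pi_apply k).comp hf).mul ((measurable_entry k i).comp hg)

lemma measurable_vi (hf : Measurable f) (hg : Measurable g) : Measurable fun x => vi (f x) (g x) :=
  measurable_vm hf (measurable_iv.comp hg)

lemma measurable_rsc (hf : Measurable f) (hg : Measurable g) : Measurable fun x => rsc (f x) (g x) := by
  apply measurable_pi_lambda _ fun k => measurable_pi_lambda _ fun i => ?_
  exact ((measurable_pi_apply k).comp hf).mul ((measurable_entry k i).comp hg)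

lemma measurable_csc (hf : Measurable f) (hg : Measurable g) : Measurable fun x => csc (f x) (g x) := by
  apply measurable_pi_lambda _ fun k => measurable_pi_lambda _ fun i => ?_
  exact ((measurable_entry k i).comp hg).mul ((measurable_pi_apply i).comp hf)

lemma measurable_pinv (hf : Measurable f) : Measurable fun x => fun i => (f x i)⁻¹ :=
  measurable_pi_lambda _ fun i => ((measurable_pi_apply i).comp hf).inv

end meas

lemma measurableSet_U : MeasurableSet (U n) := by
  have : U n = ⋂ i, {c | 1 ≤ c i} ∩ {c | c i < Real.exp 1} := by ext; simp [U]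
  rw [this]
  exact MeasurableSet.iInter fun i => (measurableSet_le measurable_const (measurable_pi_apply i)).inter
    (measurableSet_lt (measurable_pi_apply i) measurable_const)

lemma measurableSet_Upm : MeasurableSet (Upm n) := by
  have : Upm n = ⋂ i, {c | 1 ≤ |c i|} ∩ {c | |c i| < Real.exp 1} := by ext; simp [Upm]
  rw [this]
  exact MeasurableSet.iInter fun i => (measurableSet_le measurable_const (measurable_pi_apply i).abs).inter
    (measurableSet_lt (measurable_pi_apply i).abs measurable_const)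

/-- the integrand of the double integral -/
noncomputable def DD2 (G : Fr n → ℝ≥0∞) (z : Fin (n+1) → ℝ) (A : Fr n) : ℝ≥0∞ :=
  (Upm n).indicator 1 z * (U n).indicator 1 (vm z A) * G (rsc z (csc (fun i => (vm z A i)⁻¹) A))

lemma measurable_DD2 {G : Fr n → ℝ≥0∞} (hG : Measurable G) :
    Measurable fun p : (Fin (n+1) → ℝ) × Fr n => DD2 G p.1 p.2 := by
  unfold DD2
  have hv : Measurable fun p : (Fin (n+1) → ℝ) × Fr n => vm p.1 p.2 := measurable_vm measurable_fst measurable_snd
  apply Measurable.mul (Measurable.mul ?_ ?_)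
  · exact hG.comp (measurable_rsc measurable_fst (measurable_csc (measurable_pinv hv) measurable_snd))
  · exact (measurable_one.indicator measurableSet_Upm).comp measurable_fst
  · exact (measurable_one.indicator measurableSet_U).comp hv

theorem order_one {G : Fr n → ℝ≥0∞} (hG : Measurable G) :
    ∫⁻ z, ∫⁻ A, DD2 G z A ∂(frMeasure n) = volume (Upm n) *
      ∫⁻ A, (U n).indicator 1 (vm (fun _ => 1) A) * G (csc (fun i => (vm (fun _ => 1) A i)⁻¹) A) ∂(frMeasure n) := by
  set Γ : Fr n → ℝ≥0∞ := fun A => (U n).indicator 1 (vm (fun _ => 1) A) *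
    G (csc (fun i => (vm (fun _ => 1) A i)⁻¹) A) with hΓ
  have hΓm : Measurable Γ := by
    have h1 : Measurable fun A : Fr n => vm (fun _ => 1) A := measurable_vm measurable_const measurable_id
    apply Measurable.mul
    · exact (measurable_one.indicator measurableSet_U).comp h1
    · exact hG.comp (measurable_csc (measurable_pinv h1) measurable_id)
  have h1 : ∀ z, ∫⁻ A, DD2 G z A ∂(frMeasure n) = (Upm n).indicator 1 z * ∫⁻ A, Γ A ∂(frMeasure n) := by
    intro z
    by_cases hz : z ∈ Upm n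
    · have hz0 : ∀ k, z k ≠ 0 := by
        intro k hk
        have := (hz k).1
        rw [hk, abs_zero] at this
        linarith
      have h2 := (mp_rsc hz0).lintegral_comp hΓm
      have h3 : Measurable fun A => Γ (rsc z A) := hΓm.comp (mp_rsc hz0).measurable
      rw [← h2, ← lintegral_const_mul _ h3]
      apply lintegral_congr
      intro A
      simp only [DD2, hΓ, vm_one_rsc, csc_rsc]
      ring
    · have : ∀ A, DD2 G z A = 0 := by
        intro A
        rw [DD2, Set.indicator_of_notMem hz, zero_mul, zero_mul]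
      simp only [this, lintegral_zero]
      rw [Set.indicator_of_notMem hz, zero_mul]
  simp_rw [h1]
  rw [lintegral_mul_const _ (measurable_one.indicator measurableSet_Upm), lintegral_indicator_one measurableSet_Upm]

/-- substitution `c = z A` -/
lemma lintegral_vm {A : Fr n} (hA : dtm A ≠ 0) {g : (Fin (n+1) → ℝ) → ℝ≥0∞} (hg : Measurable g) :
    ∫⁻ z, g (vm z A) = ENNReal.ofReal |dtm A|⁻¹ * ∫⁻ c, g c := by
  have h1 : ∀ z, vm z A = Matrix.toLin' (Matrix.of A).transpose z := by
    intro z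
    rw [vm_eq, Matrix.toLin'_apply, Matrix.mulVec_transpose]
  have hdet : LinearMap.det (Matrix.toLin' (Matrix.of A).transpose) = dtm A := by
    rw [LinearMap.det_toLin', Matrix.det_transpose]; rfl
  have hm : Measurable (Matrix.toLin' (Matrix.of A).transpose) :=
    (LinearMap.continuous_of_finiteDimensional _).measurable
  simp_rw [h1]
  rw [← lintegral_map hg hm, Measure.map_linearMap_addHaar_eq_smul_addHaar volume (by rw [hdet]; exact hA),
    lintegral_smul_measure, hdet, abs_inv, smul_eq_mul]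

/-- the integrand after the substitution -/
noncomputable def GG (G : Fr n → ℝ≥0∞) (A : Fr n) (c : Fin (n+1) → ℝ) : ℝ≥0∞ :=
  (Upm n).indicator 1 (vi c A) * (U n).indicator 1 c * G (rsc (vi c A) (csc (fun i => (c i)⁻¹) A))

lemma measurable_GG {G : Fr n → ℝ≥0∞} (hG : Measurable G) {α : Type*} [MeasurableSpace α]
    {f : α → Fin (n+1) → ℝ} {g : α → Fr n} (hf : Measurable f) (hg : Measurable g) :
    Measurable fun x => GG G (g x) (f x) := by
  have hv : Measurable fun x => vi (f x) (g x) := measurable_vi hf hg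
  unfold GG
  apply Measurable.mul (Measurable.mul ?_ ?_)
  · exact hG.comp (measurable_rsc hv (measurable_csc (measurable_pinv hf) hg))
  · exact (measurable_one.indicator measurableSet_Upm).comp hv
  · exact (measurable_one.indicator measurableSet_U).comp hf

lemma DD2_eq_GG {G : Fr n → ℝ≥0∞} {A : Fr n} (hA : dtm A ≠ 0) (z : Fin (n+1) → ℝ) :
    DD2 G z A = GG G A (vm z A) := by
  simp only [DD2, GG, vi_vm hA]

lemma GG_csc {G : Fr n → ℝ≥0∞} {c : Fin (n+1) → ℝ} (hc : c ∈ U n) (A : Fr n) :
    GG G (csc c A) c = (Upm n).indicator 1 (vi (fun _ => 1) A) * G (rsc (vi (fun _ => 1) A) A) := by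
  have hc0 : ∀ k, c k ≠ 0 := fun k => by
    have := (hc k).1
    linarith
  rw [GG, vi_csc hc0, csc_inv_csc hc0, Set.indicator_of_mem hc, Pi.one_apply, mul_one]

lemma GG_notMem {G : Fr n → ℝ≥0∞} {c : Fin (n+1) → ℝ} (hc : c ∉ U n) (A : Fr n) : GG G A c = 0 := by
  rw [GG, Set.indicator_of_notMem hc, mul_zero, zero_mul]

lemma measurable_idet : Measurable fun A : Fr n => ENNReal.ofReal |dtm A|⁻¹ :=
  ENNReal.measurable_ofReal.comp (measurable_dtm.abs.inv)

lemma order_two_a {G : Fr n → ℝ≥0∞} (hG : Measurable G) :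
    ∫⁻ A, (∫⁻ z : Fin (n+1) → ℝ, DD2 G z A) ∂(frMeasure n) =
      ∫⁻ A, (∫⁻ c : Fin (n+1) → ℝ, ENNReal.ofReal |dtm A|⁻¹ * GG G A c) ∂(frMeasure n) := by
  apply lintegral_congr_ae
  filter_upwards [ae_dtm] with A hA
  have hgA : Measurable (GG G A) := measurable_GG hG measurable_id measurable_const
  simp_rw [DD2_eq_GG hA]
  rw [lintegral_vm hA hgA, lintegral_const_mul _ hgA]

lemma order_two_b {G : Fr n → ℝ≥0∞} (hG : Measurable G) :
    ∫⁻ A, (∫⁻ c : Fin (n+1) → ℝ, ENNReal.ofReal |dtm A|⁻¹ * GG G A c) ∂(frMeasure n) =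
      ∫⁻ c : Fin (n+1) → ℝ, (∫⁻ A, ENNReal.ofReal |dtm A|⁻¹ * GG G A c ∂(frMeasure n)) := by
  have hgu : Measurable fun p : Fr n × (Fin (n+1) → ℝ) => ENNReal.ofReal |dtm p.1|⁻¹ * GG G p.1 p.2 :=
    (measurable_idet.comp measurable_fst).mul (measurable_GG hG measurable_snd measurable_fst)
  exact lintegral_lintegral_swap (f := fun (A : Fr n) (c : Fin (n+1) → ℝ) => ENNReal.ofReal |dtm A|⁻¹ * GG G A c)
    hgu.aemeasurable

theorem order_two {G : Fr n → ℝ≥0∞} (hG : Measurable G) :
    ∫⁻ A, (∫⁻ z : Fin (n+1) → ℝ, DD2 G z A) ∂(frMeasure n) = ∫⁻ c : Fin (n+1) → ℝ, (U n).indicator 1 c *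
      ∫⁻ A, ENNReal.ofReal |dtm (csc c A)|⁻¹ * ((Upm n).indicator 1 (vi (fun _ => 1) A) *
        G (rsc (vi (fun _ => 1) A) A)) ∂(frMeasure n) := by
  rw [order_two_a hG, order_two_b hG]
  apply lintegral_congr
  intro c
  by_cases hc : c ∈ U n
  · have hc0 : ∀ k, c k ≠ 0 := fun k => by
      have := (hc k).1
      linarith
    have hgc : Measurable fun A : Fr n => ENNReal.ofReal |dtm A|⁻¹ * GG G A c :=
      measurable_idet.mul (measurable_GG hG measurable_const measurable_id)
    have h4 := (mp_csc hc0).lintegral_comp hgc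
    rw [← h4, Set.indicator_of_mem hc, Pi.one_apply, one_mul]
    apply lintegral_congr
    intro A
    rw [GG_csc hc]
  · simp only [GG_notMem hc, mul_zero, lintegral_zero]
    rw [Set.indicator_of_notMem hc, zero_mul]

end Pool.Agent.Helper46.Sail
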