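import Pool.Agent.Helper46.Minkowski
import Pool.Agent.Helper46.Windows

open MeasureTheory Set
open scoped ENNReal

namespace Pool.Agent.Helper46.Sail

variable {n : ℕ}

lemma volume_Upm : volume (Upm n) ≠ ⊤ := by
  have h : Upm n ⊆ Set.pi Set.univ fun _ => Set.Ioo (-(Real.exp 1)) (Real.exp 1) := by
    intro c hc i _
    exact abs_lt.1 (hc i).2
  refine ne_top_of_le_ne_top ?_ (measure_mono h)
  rw [Real.volume_pi_Ioo]
  exact ENNReal.prod_ne_top fun _ _ => ENNReal.ofReal_ne_top

lemma volume_U : volume (U n) ≠ 0 ∧ volume (U n) ≠ ⊤ := by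
  have h : U n = Set.pi Set.univ fun _ => Set.Ico 1 (Real.exp 1) := by
    ext c; simp [U]
  rw [h, Real.volume_pi_Ico]
  refine ⟨?_, ENNReal.prod_ne_top fun _ _ => ENNReal.ofReal_ne_top⟩
  rw [Finset.prod_ne_zero_iff]
  intro i _
  rw [ENNReal.ofReal_ne_zero_iff]
  have := Real.add_one_lt_exp (one_ne_zero : (1:ℝ) ≠ 0)
  linarith

/-- The comparison of the two windows: if the integral over the matrices with normalised column sums
is finite, so is the integral over the matrices with normalised row scaling. -/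
theorem window_transfer {F : Fr n → ℝ≥0∞} (hF : Measurable F)
    (hinv : ∀ t : Fin (n+1) → ℝ, (∀ k, t k ≠ 0) → ∀ A, F (rsc t A) = F A)
    (hfin : ∫⁻ A, (U n).indicator 1 (vm (fun _ => 1) A) * (F (csc (fun i => (vm (fun _ => 1) A i)⁻¹) A) *
      ENNReal.ofReal |dtm (csc (fun i => (vm (fun _ => 1) A i)⁻¹) A)|) ∂(frMeasure n) ≠ ⊤) :
    ∫⁻ A, (Upm n).indicator 1 (vi (fun _ => 1) A) * F A ∂(frMeasure n) ≠ ⊤ := by
  set G : Fr n → ℝ≥0∞ := fun f => F f * ENNReal.ofReal |dtm f| with hG
  have hGm : Measurable G := hF.mul (ENNReal.measurable_ofReal.comp measurable_dtm.abs)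
  have h1 := order_one hGm
  have h2 := order_two hGm
  have hswap : ∫⁻ z : Fin (n+1) → ℝ, ∫⁻ A, DD2 G z A ∂(frMeasure n) =
      ∫⁻ A, (∫⁻ z : Fin (n+1) → ℝ, DD2 G z A) ∂(frMeasure n) :=
    lintegral_lintegral_swap (f := fun (z : Fin (n+1) → ℝ) (A : Fr n) => DD2 G z A)
      (measurable_DD2 hGm).aemeasurable
  have hvi : Measurable fun A : Fr n => vi (fun _ => 1) A := measurable_vi measurable_const measurable_id
  have hIm : Measurable fun A : Fr n => (Upm n).indicator (1 : (Fin (n+1) → ℝ) → ℝ≥0∞) (vi (fun _ => 1) A) * F A :=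
    ((measurable_one.indicator measurableSet_Upm).comp hvi).mul hF
  set I := ∫⁻ A, (Upm n).indicator 1 (vi (fun _ => 1) A) * F A ∂(frMeasure n) with hI
  have hκ0 : ENNReal.ofReal ((Real.exp 1)⁻¹ ^ (n+1)) ≠ 0 := by
    rw [ENNReal.ofReal_ne_zero_iff]; positivity
  have hlow : volume (U n) * (ENNReal.ofReal ((Real.exp 1)⁻¹ ^ (n+1)) * I) ≤
      ∫⁻ A, (∫⁻ z : Fin (n+1) → ℝ, DD2 G z A) ∂(frMeasure n) := by
    rw [h2]
    have h3 : volume (U n) * (ENNReal.ofReal ((Real.exp 1)⁻¹ ^ (n+1)) * I) =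
        ∫⁻ c : Fin (n+1) → ℝ, (U n).indicator 1 c * (ENNReal.ofReal ((Real.exp 1)⁻¹ ^ (n+1)) * I) := by
      rw [lintegral_mul_const _ (measurable_one.indicator measurableSet_U), lintegral_indicator_one measurableSet_U]
    rw [h3]
    apply lintegral_mono
    intro c
    by_cases hc : c ∈ U n
    · simp only [Set.indicator_of_mem hc, Pi.one_apply, one_mul]
      rw [hI, ← lintegral_const_mul _ hIm]
      apply lintegral_mono_ae
      filter_upwards [ae_dtm] with A hA
      by_cases hz : vi (fun _ => 1) A ∈ Upm n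
      · have hz0 : ∀ k, vi (fun _ => 1) A k ≠ 0 := by
          intro k hk
          have := (hz k).1
          rw [hk, abs_zero] at this
          linarith
        simp only [Set.indicator_of_mem hz, Pi.one_apply, one_mul, hG]
        rw [hinv _ hz0, mul_comm (ENNReal.ofReal _) (F A), mul_comm (ENNReal.ofReal _) (F A * _), mul_assoc]
        gcongr
        rw [← ENNReal.ofReal_mul (abs_nonneg _)]
        apply ENNReal.ofReal_le_ofReal
        rw [dtm_rsc, dtm_csc, abs_mul, abs_mul, Finset.abs_prod, Finset.abs_prod, mul_inv]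
        have hA' : 0 < |dtm A| := abs_pos.2 hA
        have e1 : ((∏ k, |vi (fun _ => 1) A k|) * |dtm A|) * (|dtm A|⁻¹ * (∏ k, |c k|)⁻¹) =
            (∏ k, |vi (fun _ => 1) A k|) * (∏ k, |c k|)⁻¹ := by
          field_simp
        rw [e1]
        have e2 : 1 ≤ ∏ k, |vi (fun _ => 1) A k| := by
          have := Finset.prod_le_prod (s := Finset.univ) (f := fun _ : Fin (n+1) => (1:ℝ))
            (g := fun k => |vi (fun _ => 1) A k|) (fun _ _ => zero_le_one) (fun k _ => (hz k).1)
          simpa using this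
        have e3 : ∏ k, |c k| ≤ Real.exp 1 ^ (n+1) := by
          calc ∏ k, |c k| ≤ ∏ _k : Fin (n+1), Real.exp 1 := by
                apply Finset.prod_le_prod (fun _ _ => abs_nonneg _)
                intro k _
                rw [abs_of_nonneg (by linarith [(hc k).1])]
                exact (hc k).2.le
            _ = _ := by simp
        have e4 : 0 < ∏ k, |c k| := Finset.prod_pos fun k _ => abs_pos.2 (by linarith [(hc k).1])
        calc (Real.exp 1)⁻¹ ^ (n+1) = (Real.exp 1 ^ (n+1))⁻¹ := by rw [inv_pow]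
          _ ≤ (∏ k, |c k|)⁻¹ := inv_anti₀ e4 e3
          _ = 1 * (∏ k, |c k|)⁻¹ := (one_mul _).symm
          _ ≤ _ := by gcongr
      · simp only [Set.indicator_of_notMem hz, zero_mul, mul_zero, le_refl]
    · simp only [Set.indicator_of_notMem hc, zero_mul, le_refl]
  rw [← hswap, h1] at hlow
  intro htop
  rw [htop] at hlow
  rw [ENNReal.mul_top hκ0, ENNReal.mul_top volume_U.1, top_le_iff, ENNReal.mul_eq_top] at hlow
  rcases hlow with ⟨-, h⟩ | ⟨h, -⟩
  · exact hfin h
  · exact volume_Upm h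

/-! ### Dual frames -/

lemma vi_one (A : Fr n) (k : Fin (n+1)) : vi (fun _ => 1) A k = zs (dual A) k := by
  simp [vi, vm, zs, dual, tr_apply]

lemma dual_rsc {t : Fin (n+1) → ℝ} (ht : ∀ k, t k ≠ 0) (A : Fr n) :
    dual (rsc t A) = rsc (fun k => (t k)⁻¹) (dual A) := by
  have h1 : (Matrix.diagonal t * Matrix.of A)⁻¹ = (Matrix.of A)⁻¹ * Matrix.diagonal (fun k => (t k)⁻¹) := by
    rw [Matrix.mul_inv_rev]
    congr 1
    apply Matrix.inv_eq_left_inv
    rw [Matrix.diagonal_mul_diagonal, ← Matrix.diagonal_one]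
    congr 1
    funext i
    exact inv_mul_cancel₀ (ht i)
  funext k i
  show (Matrix.of (rsc t A))⁻¹ i k = (t k)⁻¹ * (Matrix.of A)⁻¹ i k
  rw [rsc_eq, of_fr, h1, Matrix.mul_diagonal, mul_comm]

lemma lam_rsc {s : Fin (n+1) → ℝ} (hs : ∀ k, s k ≠ 0) (B : Fr n) (v : E n) (k : Fin (n+1)) :
    lam (rsc s B) v k = lam B v k := by
  have hp : (∏ i, s i) ≠ 0 := Finset.prod_ne_zero_iff.mpr fun i _ => hs i
  by_cases hB : dtm B = 0
  · rw [lam_of_dtm_eq_zero hB, lam_of_dtm_eq_zero]
    rw [dtm_rsc, hB, mul_zero]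
  · have hB' : dtm (rsc s B) ≠ 0 := by rw [dtm_rsc]; exact mul_ne_zero hp hB
    have h : coord (rsc s B) v = fun k => (s k)⁻¹ * coord B v k := by
      apply coord_eq_of_sum hB'
      conv_rhs => rw [← sum_coord hB v]
      refine Finset.sum_congr rfl fun k _ => ?_
      funext j
      simp only [rsc, Pi.smul_apply, smul_eq_mul]
      field_simp [hs k]
    have hz : zs (rsc s B) k = s k * zs B k := by simp [zs, rsc, Finset.mul_sum]
    rw [lam, lam, h, hz]
    field_simp [hs k]

lemma condV_rsc {s : Fin (n+1) → ℝ} (hs : ∀ k, s k ≠ 0) (V : Finset (Fin (n+1) → ℤ)) (B : Fr n) :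
    condV V (rsc s B) ↔ condV V B := by
  simp only [condV, lam_rsc hs]

/-- the coordinates with respect to the dual frame -/
lemma coord_dual {A : Fr n} (hA : dtm A ≠ 0) (v : E n) (k : Fin (n+1)) :
    coord (dual A) v k = (Matrix.of A).mulVec v k := by
  have h1 : (Matrix.of (dual A))⁻¹ = (Matrix.of A).transpose := by
    have : Matrix.of (dual A) = ((Matrix.of A)⁻¹).transpose := rfl
    rw [this, ← Matrix.transpose_nonsing_inv, Matrix.nonsing_inv_nonsing_inv _ (isUnit_iff_ne_zero.mpr hA)]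
  rw [coord, h1, Matrix.vecMul_transpose]

/-- matrices with column sums one -/
lemma vm_csc_self {A : Fr n} (hc : ∀ i, vm (fun _ => 1) A i ≠ 0) :
    vm (fun _ => 1) (csc (fun i => (vm (fun _ => 1) A i)⁻¹) A) = fun _ => 1 := by
  funext i
  have h := hc i
  simp only [vm, csc, one_mul] at h ⊢
  rw [← Finset.sum_mul]
  exact mul_inv_cancel₀ h

/-- admissible matrices with column sums one -/
theorem admissible_bound {V : Finset (Fin (n+1) → ℤ)} (hV : IsUnimodularConfig V) {f : Fr n} (hf : dtm f ≠ 0)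
    (h1 : vm (fun _ => 1) f = fun _ => 1) (hT : condV V (dual f)) :
    (∀ k i, 0 ≤ f k i) ∧ (∀ i, ∑ k, f k i = 1) ∧ ∀ i, ∏ k, f k i ≤ |dtm f| := by
  have hz : ∀ k, zs (dual f) k = 1 := by
    intro k
    rw [← vi_one]
    have := vi_vm hf (fun _ => 1)
    rw [h1] at this
    rw [this]
  have hl : ∀ (v : E n) (k : Fin (n+1)), lam (dual f) v k = (Matrix.of f).mulVec v k := by
    intro v k
    rw [lam, hz, one_mul, coord_dual hf]
  have hs : ∀ i, ∑ k, f k i = 1 := by
    intro i
    have := congrFun h1 i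
    simpa [vm] using this
  have h0 : ∀ k i, 0 ≤ f k i := by
    intro k i
    have h2 := (hT (Pi.single i 1) (by simp)).2 (hV.single_mem i) k
    rw [toReal_single, hl] at h2
    simpa using h2
  refine ⟨h0, hs, fun i => column_bound hV hf hs h0 (fun v hv h => ?_) i⟩
  apply (hT v hv).1
  intro k
  rw [hl]
  exact h k

end Pool.Agent.Helper46.Sail
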